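import Pool.Agent.W_332fe5.O.A0

set_option autoImplicit false

/-! Block 1, A0b: measurability of norms, Bochner integrals in `L²` are pointwise integrals, Minkowski. -/

open MeasureTheory Set Filter Topology
open scoped ENNReal NNReal

namespace Pool.Agent.W_332fe5

theorem meas_eLpNorm {q : ℝ} (hq : 1 ≤ q) :
    Measurable fun f : L2 => eLpNorm f (ENNReal.ofReal q) volume := by
  have hq0 : 0 < q := by linarith
  have h0 : ENNReal.ofReal q ≠ 0 := (ENNReal.ofReal_pos.2 hq0).ne'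
  have h : (fun f : L2 => eLpNorm f (ENNReal.ofReal q) volume) =
      fun f : L2 => (∫⁻ x, ‖f x‖ₑ ^ q) ^ (1 / q) := by
    funext f
    rw [eLpNorm_eq_lintegral_rpow_enorm_toReal h0 ENNReal.ofReal_ne_top,
      ENNReal.toReal_ofReal hq0.le]
  rw [h]
  exact (meas_lint (Φ := fun _ y => ‖y‖ₑ ^ q) (measurable_snd.enorm.pow_const q)).pow_const _

private theorem A0b_l1 (h : L2) (s : Set E3) :
    ∫⁻ x in s, ‖h x‖ₑ ≤ ‖h‖ₑ * volume s ^ (1 / 2 : ℝ) := by
  have h1 := eLpNorm_le_eLpNorm_mul_rpow_measure_univ (μ := (volume : Measure E3).restrict s)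
    (p := 1) (q := 2) (by norm_num) (Lp.aestronglyMeasurable h).restrict
  rw [eLpNorm_one_eq_lintegral_enorm, Measure.restrict_apply_univ] at h1
  refine h1.trans (mul_le_mul' ?_ (le_of_eq ?_))
  · rw [Lp.enorm_def]
    exact eLpNorm_mono_measure _ Measure.restrict_le_self
  · congr 1
    norm_num

private theorem A0b_intOn (h : L2) {s : Set E3} (hs : volume s < ∞) :
    IntegrableOn h s (volume : Measure E3) := by
  refine ⟨(Lp.aestronglyMeasurable h).restrict, (A0b_l1 h s).trans_lt ?_⟩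
  exact ENNReal.mul_lt_top enorm_lt_top (ENNReal.rpow_lt_top_of_nonneg (by norm_num) hs.ne)

private noncomputable def A0b_S {s : Set E3} (hs : volume s < ∞) : L2 →L[ℝ] E3 :=
  LinearMap.mkContinuous
    { toFun := fun h => ∫ x in s, h x
      map_add' := fun f g => by
        rw [← integral_add (A0b_intOn f hs) (A0b_intOn g hs)]
        exact integral_congr_ae (ae_restrict_of_ae (Lp.coeFn_add f g))
      map_smul' := fun c f => by
        rw [RingHom.id_apply, ← integral_smul]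
        exact integral_congr_ae (ae_restrict_of_ae (Lp.coeFn_smul c f)) }
    (volume s ^ (1 / 2 : ℝ)).toReal
    (fun h => by
      have h1 : ‖∫ x in s, h x‖ₑ ≤ ‖h‖ₑ * volume s ^ (1 / 2 : ℝ) :=
        (enorm_integral_le_lintegral_enorm _).trans (A0b_l1 h s)
      have h2 := ENNReal.toReal_mono (ENNReal.mul_lt_top enorm_lt_top
        (ENNReal.rpow_lt_top_of_nonneg (by norm_num) hs.ne)).ne h1
      rw [ENNReal.toReal_mul, toReal_enorm, toReal_enorm, mul_comm] at h2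
      exact h2)

private theorem A0b_S_apply {s : Set E3} (hs : volume s < ∞) (h : L2) :
    A0b_S hs h = ∫ x in s, h x := rfl

private theorem A0b_prod {α : Type} [MeasurableSpace α] {μ : Measure α} [SFinite μ] {F : α → L2}
    (hF : Integrable F μ) (hm : StronglyMeasurable F) {s : Set E3} (hs : volume s < ∞) :
    Integrable (fun z : α × E3 => ev (F z.1) z.2) (μ.prod (volume.restrict s)) := by
  have hH := ev_comp hm
  refine ⟨hH.aestronglyMeasurable, ?_⟩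
  show ∫⁻ z, ‖ev (F z.1) z.2‖ₑ ∂(μ.prod (volume.restrict s)) < ∞
  rw [lintegral_prod _ hH.enorm.aemeasurable]
  have h1 : ∀ a : α, ∫⁻ x in s, ‖ev (F a) x‖ₑ ≤ ‖F a‖ₑ * volume s ^ (1 / 2 : ℝ) := by
    intro a
    refine le_trans (le_of_eq (lintegral_congr_ae (ae_restrict_of_ae ?_))) (A0b_l1 (F a) s)
    filter_upwards [ev_ae (F a)] with x hx
    rw [hx]
  refine (lintegral_mono h1).trans_lt ?_
  have hc : volume s ^ (1 / 2 : ℝ) < ∞ := ENNReal.rpow_lt_top_of_nonneg (by norm_num) hs.ne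
  rw [lintegral_mul_const' _ _ hc.ne]
  exact ENNReal.mul_lt_top hF.2 hc

private theorem A0b_main {α : Type} [MeasurableSpace α] {μ : Measure α} [SFinite μ] {F : α → L2}
    (hF : Integrable F μ) (hm : StronglyMeasurable F) : ∀ᵐ x ∂(volume : Measure E3),
      Integrable (fun a => ev (F a) x) μ ∧ (∫ a, F a ∂μ : L2) x = ∫ a, ev (F a) x ∂μ := by
  have h1 : ∀ᵐ x ∂(volume : Measure E3), Integrable (fun a => ev (F a) x) μ := by
    have h2 : ∀ n : ℕ, ∀ᵐ x ∂(volume : Measure E3), x ∈ Metric.ball (0 : E3) n →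
        Integrable (fun a => ev (F a) x) μ := by
      intro n
      have h3 := (A0b_prod hF hm (s := Metric.ball (0 : E3) n) measure_ball_lt_top).prod_left_ae
      exact (ae_restrict_iff' Metric.isOpen_ball.measurableSet).1 h3
    filter_upwards [ae_all_iff.2 h2] with x hx
    obtain ⟨n, hn⟩ := exists_nat_gt ‖x‖
    exact hx n (mem_ball_zero_iff.2 hn)
  have h4 : ((∫ a, F a ∂μ : L2) : E3 → E3) =ᵐ[volume] fun x => ∫ a, ev (F a) x ∂μ := by
    refine ae_eq_of_forall_setIntegral_eq_of_sigmaFinite (fun s _ hs => A0b_intOn _ hs)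
      (fun s _ hs => (A0b_prod hF hm hs).integral_prod_right) fun s hsm hs => ?_
    rw [← A0b_S_apply hs, ← (A0b_S hs).integral_comp_comm hF]
    rw [← integral_integral_swap (f := fun a x => ev (F a) x) (A0b_prod hF hm hs)]
    refine integral_congr_ae (Eventually.of_forall fun a => ?_)
    show A0b_S hs (F a) = ∫ x in s, ev (F a) x
    rw [A0b_S_apply]
    refine integral_congr_ae (ae_restrict_of_ae ?_)
    filter_upwards [ev_ae (F a)] with x hx
    rw [hx]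
  filter_upwards [h1, h4] with x hx1 hx2
  exact ⟨hx1, hx2⟩

/-- A Bochner integral in `L²` is a pointwise integral.
Proof.  `F` is a.e. equal to a strongly measurable function; `(a, x) ↦ ev (F a) x` is a.e.
measurable on the product.  For a ball `K`: `∫ ∫_K |ev (F a) x| dx dμ ≤ |K|^(1/2) ∫ ‖F a‖ dμ < ∞`;
so for a.e. `x` the function `a ↦ ev (F a) x` is integrable.  For bounded measurable `E`,
test with `1_E e_i ∈ L²`: `⟪∫ F, 1_E e_i⟫ = ∫ ⟪F a, 1_E e_i⟫ dμ = ∫_E ∫ ev (F a) x i dμ dx`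
(`integral_inner`-type lemma and Fubini), hence the two functions agree a.e. -/
theorem ev_integral {α : Type} [MeasurableSpace α] {μ : Measure α} [SFinite μ] {F : α → L2}
    (hF : Integrable F μ) : ∀ᵐ x ∂(volume : Measure E3),
      Integrable (fun a => ev (F a) x) μ ∧ (∫ a, F a ∂μ : L2) x = ∫ a, ev (F a) x ∂μ := by
  have hFF := hF.1.ae_eq_mk
  have hm := hF.1.stronglyMeasurable_mk
  have hF' : Integrable (hF.1.mk F) μ := hF.congr hFF
  filter_upwards [A0b_main hF' hm] with x hx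
  have h1 : (fun a => ev (F a) x) =ᵐ[μ] fun a => ev (hF.1.mk F a) x := by
    filter_upwards [hFF] with a ha
    rw [ha]
  refine ⟨hx.1.congr h1.symm, ?_⟩
  rw [integral_congr_ae hFF, integral_congr_ae h1]
  exact hx.2

/-- A pointwise bound for a Bochner integral (from `ev_integral` and Fubini: for a.e. `x`, for
a.e. `l`, `|ev (F l) x i| ≤ g l x`). -/
theorem abs_integral_le {F : ℝ → L2} (hF : IntegrableOn F (Ioi 0)) {g : ℝ → E3 → ℝ≥0∞}
    (hg : Measurable fun z : ℝ × E3 => g z.1 z.2) (i : Fin 3)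
    (h : ∀ l : ℝ, 0 < l → ∀ᵐ x ∂(volume : Measure E3), x ∈ Bl →
      ENNReal.ofReal |F l x i| ≤ g l x) :
    ∀ᵐ x ∂(volume : Measure E3), x ∈ Bl →
      ENNReal.ofReal |(∫ l in Ioi (0 : ℝ), F l : L2) x i| ≤ ∫⁻ l in Ioi (0 : ℝ), g l x := by
  have hFF := hF.1.ae_eq_mk
  have hm := hF.1.stronglyMeasurable_mk
  have hF' : IntegrableOn (hF.1.mk F) (Ioi 0) := Integrable.congr hF hFF
  have hH := ev_comp hm
  have hmi : Measurable fun z : ℝ × E3 => ENNReal.ofReal |ev (hF.1.mk F z.1) z.2 i| := by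
    have h1 : Measurable fun z : ℝ × E3 => ev (hF.1.mk F z.1) z.2 i :=
      (EuclideanSpace.proj i : E3 →L[ℝ] ℝ).continuous.measurable.comp hH
    exact h1.abs.ennreal_ofReal
  have hset : MeasurableSet {z : ℝ × E3 | z.2 ∈ Bl →
      ENNReal.ofReal |ev (hF.1.mk F z.1) z.2 i| ≤ g z.1 z.2} := by
    have h1 : MeasurableSet {z : ℝ × E3 | z.2 ∈ Bl} :=
      measurable_snd Metric.isOpen_ball.measurableSet
    have h2 : MeasurableSet {z : ℝ × E3 | ENNReal.ofReal |ev (hF.1.mk F z.1) z.2 i| ≤ g z.1 z.2} :=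
      measurableSet_le hmi hg
    have h3 : {z : ℝ × E3 | z.2 ∈ Bl → ENNReal.ofReal |ev (hF.1.mk F z.1) z.2 i| ≤ g z.1 z.2} =
        {z : ℝ × E3 | z.2 ∈ Bl}ᶜ ∪
          {z : ℝ × E3 | ENNReal.ofReal |ev (hF.1.mk F z.1) z.2 i| ≤ g z.1 z.2} := by
      ext z
      show (z.2 ∈ Bl → ENNReal.ofReal |ev (hF.1.mk F z.1) z.2 i| ≤ g z.1 z.2) ↔
        (¬ z.2 ∈ Bl ∨ ENNReal.ofReal |ev (hF.1.mk F z.1) z.2 i| ≤ g z.1 z.2)
      exact imp_iff_not_or
    rw [h3]
    exact h1.compl.union h2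
  have h4 : ∀ᵐ l ∂((volume : Measure ℝ).restrict (Ioi 0)), ∀ᵐ x ∂(volume : Measure E3), x ∈ Bl →
      ENNReal.ofReal |ev (hF.1.mk F l) x i| ≤ g l x := by
    filter_upwards [hFF, ae_restrict_mem measurableSet_Ioi] with l hl hl0
    filter_upwards [h l hl0, ev_ae (hF.1.mk F l)] with x hx1 hx2 hx3
    rw [hx2, ← hl]
    exact hx1 hx3
  have h5 := (Measure.ae_ae_comm hset).1 h4
  filter_upwards [A0b_main hF' hm, h5] with x hx1 hx2 hx3
  rw [integral_congr_ae hFF, hx1.2]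
  have h6 : (∫ l in Ioi (0 : ℝ), ev (hF.1.mk F l) x) i =
      ∫ l in Ioi (0 : ℝ), ev (hF.1.mk F l) x i :=
    ((EuclideanSpace.proj i : E3 →L[ℝ] ℝ).integral_comp_comm hx1.1).symm
  rw [h6, ← Real.enorm_eq_ofReal_abs]
  refine (enorm_integral_le_lintegral_enorm _).trans (lintegral_mono_ae ?_)
  filter_upwards [hx2] with l hl
  rw [Real.enorm_eq_ofReal_abs]
  exact hl hx3

private theorem A0b_sqrt (a w : ℝ≥0∞) : (a ^ 2 * w) ^ (1 / 2 : ℝ) = a * w ^ (1 / 2 : ℝ) := by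
  rw [ENNReal.mul_rpow_of_nonneg _ _ (by norm_num)]
  congr 1
  rw [← ENNReal.rpow_natCast, ← ENNReal.rpow_mul]
  norm_num

private theorem A0b_cs {h k W : E3 → ℝ≥0∞} (hh : Measurable h) (hk : Measurable k)
    (hW : Measurable W) {a b : ℝ≥0∞} (ha : ∫⁻ x, h x ^ 2 * W x ≤ a ^ 2)
    (hb : ∫⁻ x, k x ^ 2 * W x ≤ b ^ 2) : ∫⁻ x, h x * (k x * W x) ≤ a * b := by
  have h1 : ∫⁻ x, h x * (k x * W x) =
      ∫⁻ x, (h x ^ 2 * W x) ^ (1 / 2 : ℝ) * (k x ^ 2 * W x) ^ (1 / 2 : ℝ) := by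
    refine lintegral_congr fun x => ?_
    rw [A0b_sqrt, A0b_sqrt]
    have h2 : W x ^ (1 / 2 : ℝ) * W x ^ (1 / 2 : ℝ) = W x := by
      rw [← ENNReal.rpow_add_of_nonneg _ _ (by norm_num) (by norm_num)]
      norm_num
    calc h x * (k x * W x) = h x * (k x * (W x ^ (1 / 2 : ℝ) * W x ^ (1 / 2 : ℝ))) := by rw [h2]
      _ = _ := by ring
  rw [h1]
  refine (ENNReal.lintegral_mul_norm_pow_le ((hh.pow_const 2).mul hW).aemeasurable
    ((hk.pow_const 2).mul hW).aemeasurable (by norm_num) (by norm_num) (by norm_num)).trans ?_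
  have h3 : ∀ c : ℝ≥0∞, (c ^ 2) ^ (1 / 2 : ℝ) = c := by
    intro c
    have := A0b_sqrt c 1
    rwa [mul_one, ENNReal.one_rpow, mul_one] at this
  refine (mul_le_mul' (ENNReal.rpow_le_rpow ha (by norm_num))
    (ENNReal.rpow_le_rpow hb (by norm_num))).trans (le_of_eq ?_)
  rw [h3, h3]

private theorem A0b_mink {μ : Measure ℝ} [SFinite μ] {h : ℝ → E3 → ℝ≥0∞}
    (hh : Measurable fun z : ℝ × E3 => h z.1 z.2) {W : E3 → ℝ≥0∞} (hW : Measurable W)
    {C : ℝ → ℝ≥0∞} (hC : AEMeasurable C μ)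
    (hb : ∀ᵐ l ∂μ, ∫⁻ x, h l x ^ 2 * W x ≤ C l ^ 2) :
    ∫⁻ x, (∫⁻ l, h l x ∂μ) ^ 2 * W x ≤ (∫⁻ l, C l ∂μ) ^ 2 := by
  have hA : Measurable fun x => ∫⁻ l, h l x ∂μ :=
    Measurable.lintegral_prod_left' hh
  have hl : ∀ l, Measurable fun x => h l x := fun l => hh.comp (measurable_const.prodMk measurable_id)
  have hx : ∀ x, Measurable fun l => h l x := fun x => hh.comp (measurable_id.prodMk measurable_const)
  have e1 : ∫⁻ x, (∫⁻ l, h l x ∂μ) ^ 2 * W x =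
      ∫⁻ x, ∫⁻ l, h l x * ((∫⁻ k, h k x ∂μ) * W x) ∂μ := by
    refine lintegral_congr fun x => ?_
    rw [lintegral_mul_const _ (hx x), sq, mul_assoc]
  have e2 : ∫⁻ x, ∫⁻ l, h l x * ((∫⁻ k, h k x ∂μ) * W x) ∂μ =
      ∫⁻ l, (∫⁻ x, h l x * ((∫⁻ k, h k x ∂μ) * W x)) ∂μ := by
    refine lintegral_lintegral_swap ?_
    exact (((hh.comp measurable_swap).mul
      ((hA.comp measurable_fst).mul (hW.comp measurable_fst)))).aemeasurable
  rw [e1, e2]
  have e3 : ∀ l, ∫⁻ x, h l x * ((∫⁻ k, h k x ∂μ) * W x) =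
      ∫⁻ k, (∫⁻ x, h k x * (h l x * W x)) ∂μ := by
    intro l
    have e4 : ∀ x, h l x * ((∫⁻ k, h k x ∂μ) * W x) = ∫⁻ k, h k x * (h l x * W x) ∂μ := by
      intro x
      rw [lintegral_mul_const _ (hx x)]
      ring
    rw [lintegral_congr e4]
    refine lintegral_lintegral_swap ?_
    exact ((hh.comp measurable_swap).mul
      (((hl l).comp measurable_fst).mul (hW.comp measurable_fst))).aemeasurable
  rw [lintegral_congr e3]
  have e5 : (∫⁻ l, C l ∂μ) ^ 2 = ∫⁻ l, ∫⁻ k, C k * C l ∂μ ∂μ := by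
    rw [sq, ← lintegral_const_mul'' _ hC]
    refine lintegral_congr fun l => ?_
    rw [lintegral_mul_const'' _ hC]
  rw [e5]
  refine lintegral_mono_ae ?_
  filter_upwards [hb] with l hl1
  refine lintegral_mono_ae ?_
  filter_upwards [hb] with k hk1
  exact A0b_cs (hl k) (hl l) hW hk1 hl1

/-- Minkowski's inequality with a weight.  Proof: by `ev_integral`,
`‖(∫ F) x‖ ≤ A x := ∫⁻ ‖ev (F l) x‖ dl`; `A x ^ 2 = ∫⁻ ∫⁻ ‖ev (F l) x‖ ‖ev (F k) x‖ dl dk`;
Tonelli and Cauchy-Schwarz in `x` for fixed `l, k` give `∫⁻ A² W ≤ ∫⁻ ∫⁻ c l * c k`. -/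
theorem lint_sq_integral_le {F : ℝ → L2} (hF : IntegrableOn F (Ioi 0)) {W : E3 → ℝ≥0∞}
    (hW : Measurable W) {c : ℝ → ℝ} (hc : IntegrableOn c (Ioi 0)) (hc0 : ∀ l : ℝ, 0 < l → 0 ≤ c l)
    (h : ∀ l : ℝ, 0 < l → ∫⁻ x, ‖F l x‖ₑ ^ 2 * W x ≤ ENNReal.ofReal (c l ^ 2)) :
    ∫⁻ x, ‖(∫ l in Ioi (0 : ℝ), F l : L2) x‖ₑ ^ 2 * W x ≤
      ENNReal.ofReal ((∫ l in Ioi (0 : ℝ), c l) ^ 2) := by
  have hFF := hF.1.ae_eq_mk
  have hm := hF.1.stronglyMeasurable_mk
  have hF' : IntegrableOn (hF.1.mk F) (Ioi 0) := Integrable.congr hF hFF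
  have hH := ev_comp hm
  have h1 : ∀ᵐ x ∂(volume : Measure E3), ‖(∫ l in Ioi (0 : ℝ), F l : L2) x‖ₑ ≤
      ∫⁻ l in Ioi (0 : ℝ), ‖ev (hF.1.mk F l) x‖ₑ := by
    filter_upwards [A0b_main hF' hm] with x hx
    rw [integral_congr_ae hFF, hx.2]
    exact enorm_integral_le_lintegral_enorm _
  have h2 : ∫⁻ x, ‖(∫ l in Ioi (0 : ℝ), F l : L2) x‖ₑ ^ 2 * W x ≤
      ∫⁻ x, (∫⁻ l in Ioi (0 : ℝ), ‖ev (hF.1.mk F l) x‖ₑ) ^ 2 * W x := by
    refine lintegral_mono_ae ?_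
    filter_upwards [h1] with x hx
    exact mul_le_mul' (pow_le_pow_left' hx 2) le_rfl
  have h3 : ∀ᵐ l ∂((volume : Measure ℝ).restrict (Ioi 0)),
      ∫⁻ x, ‖ev (hF.1.mk F l) x‖ₑ ^ 2 * W x ≤ ENNReal.ofReal (c l) ^ 2 := by
    filter_upwards [hFF, ae_restrict_mem measurableSet_Ioi] with l hl hl0
    rw [← ENNReal.ofReal_pow (hc0 l hl0)]
    refine le_trans (le_of_eq (lintegral_congr_ae ?_)) (h l hl0)
    filter_upwards [ev_ae (hF.1.mk F l)] with x hx
    rw [hx, ← hl]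
  refine h2.trans ((A0b_mink hH.enorm hW hc.1.aemeasurable.ennreal_ofReal h3).trans (le_of_eq ?_))
  have h4 : 0 ≤ᵐ[(volume : Measure ℝ).restrict (Ioi 0)] c := by
    filter_upwards [ae_restrict_mem measurableSet_Ioi] with l hl
    exact hc0 l hl
  rw [← ofReal_integral_eq_lintegral_ofReal hc h4,
    ENNReal.ofReal_pow (integral_nonneg_of_ae h4)]

end Pool.Agent.W_332fe5
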