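import Pool.Agent.W_332fe5.O.A11b

set_option autoImplicit false

/-! Block 1, A11c: integrals of the barriers. -/

open MeasureTheory Set Filter Topology
open scoped ENNReal NNReal

namespace Pool.Agent.W_332fe5

theorem A11c_low {b : ℝ} (h1 : b < 1) {M : ℝ} (hM : 0 ≤ M) :
    ∫⁻ l in Ioc (0 : ℝ) M, ENNReal.ofReal (l ^ (-b)) = ENNReal.ofReal (M ^ (1 - b) / (1 - b)) := by
  have hi : IntegrableOn (fun l : ℝ => l ^ (-b)) (Ioc 0 M) := by
    have := intervalIntegral.intervalIntegrable_rpow' (a := 0) (b := M) (r := -b) (by linarith)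
    exact (intervalIntegrable_iff_integrableOn_Ioc_of_le hM).1 this
  rw [← ofReal_integral_eq_lintegral_ofReal hi]
  · rw [← intervalIntegral.integral_of_le hM, integral_rpow (Or.inl (by linarith)),
      Real.zero_rpow (by linarith)]
    congr 1
    rw [sub_zero, show -b + 1 = 1 - b by ring]
  · filter_upwards [ae_restrict_mem measurableSet_Ioc] with l hl
    exact Real.rpow_nonneg hl.1.le _

theorem A11c_high {b : ℝ} (h0 : 0 < b) {M : ℝ} (hM : 0 < M) :
    ∫⁻ l in Ioi M, ENNReal.ofReal (l ^ (-b - 1)) = ENNReal.ofReal (M ^ (-b) / b) := by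
  have hi : IntegrableOn (fun l : ℝ => l ^ (-b - 1)) (Ioi M) :=
    integrableOn_Ioi_rpow_of_lt (by linarith) hM
  rw [← ofReal_integral_eq_lintegral_ofReal hi]
  · rw [integral_Ioi_rpow_of_lt (by linarith) hM]
    congr 1
    rw [show -b - 1 + 1 = -b by ring, neg_div_neg_eq]
  · filter_upwards [ae_restrict_mem measurableSet_Ioi] with l hl
    exact Real.rpow_nonneg (hM.trans hl).le _

theorem A11c_lconst (c : ℝ) (hc : 0 ≤ c) (s : Set ℝ) (f : ℝ → ℝ) :
    ∫⁻ l in s, ENNReal.ofReal (c * f l) = ENNReal.ofReal c * ∫⁻ l in s, ENNReal.ofReal (f l) := by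
  rw [← lintegral_const_mul' _ _ ENNReal.ofReal_ne_top]
  simp only [ENNReal.ofReal_mul hc]

/-- The integral of the barriers: `∫_0^∞ l^(-b) bar l R y dl ≤
C (R² + R² min (R^(-2(1-b))) (y^(-2(1-b))) + R^(2b) e^(-y/(8R)))`.
Proof: `bar ≤ 6R²` for `l < 16` (and `∫_0^16 l^(-b) < ∞`); on `[16, 1/(4R²)]`
`bar ≤ 4R² e^(-√l y/4)`, and `∫_0^(1/(4R²)) l^(-b) = C R^(-2(1-b))`,
`∫_0^∞ l^(-b) e^(-√l y/4) dl = C y^(-2(1-b))` (substitute `l = s²/y²`); for `l > 1/(4R²)`:
`∫ 2 l^(-b-1) = C R^(2b)`. -/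
theorem int_bar {b : ℝ} (h0 : 0 < b) (h1 : b < 1) : ∃ C : ℝ, 0 ≤ C ∧ ∀ R y : ℝ, 0 < R → R ≤ 1 / 8 →
    0 < y → y ≤ 1 / 2 →
    ∫⁻ l in Ioi (0 : ℝ), ENNReal.ofReal (l ^ (-b) * bar l R y) ≤
      ENNReal.ofReal (C * (R ^ 2 + R ^ 2 * min (R ^ (-(2 * (1 - b)))) (y ^ (-(2 * (1 - b)))) +
        R ^ (2 * b) * Real.exp (-y / (8 * R)))) := by
  have hb1 : 0 < 1 - b := by linarith
  have K0 : 0 ≤ 6 * ((16 : ℝ) ^ (1 - b) / (1 - b)) := by positivity
  have K1 : 0 ≤ 4 * (1 / (1 - b) + 32 / b) := by positivity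
  have K2 : 0 ≤ 8 / b := by positivity
  refine ⟨6 * ((16 : ℝ) ^ (1 - b) / (1 - b)) + 4 * (1 / (1 - b) + 32 / b) + 8 / b, by linarith, ?_⟩
  intro R y hR hR1 hy hy1
  set N : ℝ := 1 / (4 * R ^ 2) with hN
  have hR2 : R ^ 2 ≤ 1 / 64 := by nlinarith
  have hN16 : 16 ≤ N := by
    rw [hN, le_div_iff₀ (by positivity)]
    linarith
  have hN0 : 0 < N := by linarith
  -- the three pieces
  have p1 : ∫⁻ l in Ioo (0 : ℝ) 16, ENNReal.ofReal (l ^ (-b) * bar l R y) ≤
      ENNReal.ofReal (6 * ((16 : ℝ) ^ (1 - b) / (1 - b)) * R ^ 2) := by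
    calc ∫⁻ l in Ioo (0 : ℝ) 16, ENNReal.ofReal (l ^ (-b) * bar l R y)
        ≤ ∫⁻ l in Ioo (0 : ℝ) 16, ENNReal.ofReal ((6 * R ^ 2) * l ^ (-b)) := by
          refine setLIntegral_mono' measurableSet_Ioo fun l hl => ENNReal.ofReal_le_ofReal ?_
          have e1 : bar l R y ≤ 6 * R ^ 2 := by
            unfold bar
            rw [if_pos hl.2]
            have := Real.exp_pos (-y / R)
            nlinarith [sq_nonneg R]
          have e2 : 0 ≤ l ^ (-b) := Real.rpow_nonneg hl.1.le _
          nlinarith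
      _ ≤ ∫⁻ l in Ioc (0 : ℝ) 16, ENNReal.ofReal ((6 * R ^ 2) * l ^ (-b)) :=
          lintegral_mono_set Ioo_subset_Ioc_self
      _ = ENNReal.ofReal (6 * ((16 : ℝ) ^ (1 - b) / (1 - b)) * R ^ 2) := by
          rw [A11c_lconst _ (by positivity), A11c_low h1 (by norm_num),
            ← ENNReal.ofReal_mul (by positivity)]
          congr 1
          ring
  have p2a : ∫⁻ l in Icc (16 : ℝ) N, ENNReal.ofReal (l ^ (-b) * bar l R y) ≤
      ENNReal.ofReal (4 * (1 / (1 - b)) * (R ^ 2 * R ^ (-(2 * (1 - b))))) := by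
    calc ∫⁻ l in Icc (16 : ℝ) N, ENNReal.ofReal (l ^ (-b) * bar l R y)
        ≤ ∫⁻ l in Icc (16 : ℝ) N, ENNReal.ofReal ((4 * R ^ 2) * l ^ (-b)) := by
          refine setLIntegral_mono' measurableSet_Icc fun l hl => ENNReal.ofReal_le_ofReal ?_
          have e1 : bar l R y ≤ 4 * R ^ 2 := by
            unfold bar
            rw [if_neg (not_lt.2 hl.1), if_pos hl.2]
            have t1 := Real.exp_pos (-y / R)
            have t2 : Real.exp (-(Real.sqrt l * y / 4)) ≤ 1 := by
              rw [Real.exp_le_one_iff]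
              have := Real.sqrt_nonneg l
              have : 0 ≤ Real.sqrt l * y / 4 := by positivity
              linarith
            nlinarith [sq_nonneg R]
          have e2 : 0 ≤ l ^ (-b) := Real.rpow_nonneg (by linarith [hl.1]) _
          nlinarith
      _ ≤ ∫⁻ l in Ioc (0 : ℝ) N, ENNReal.ofReal ((4 * R ^ 2) * l ^ (-b)) := by
          refine lintegral_mono_set fun l hl => ⟨by linarith [hl.1], hl.2⟩
      _ = ENNReal.ofReal ((4 * R ^ 2) * (N ^ (1 - b) / (1 - b))) := by
          rw [A11c_lconst _ (by positivity), A11c_low h1 hN0.le,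
            ← ENNReal.ofReal_mul (by positivity)]
      _ ≤ _ := by
          apply ENNReal.ofReal_le_ofReal
          have e3 : N ^ (1 - b) ≤ R ^ (-(2 * (1 - b))) := by
            have e4 : N ≤ R ^ (-2 : ℝ) := by
              rw [Real.rpow_neg hR.le, hN, show (2 : ℝ) = ((2 : ℕ) : ℝ) by norm_num,
                Real.rpow_natCast, one_div]
              gcongr
              nlinarith
            calc N ^ (1 - b) ≤ (R ^ (-2 : ℝ)) ^ (1 - b) :=
                  Real.rpow_le_rpow hN0.le e4 hb1.le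
              _ = R ^ (-(2 * (1 - b))) := by
                  rw [← Real.rpow_mul hR.le]
                  congr 1
                  ring
          have e5 : (4 * R ^ 2) * (N ^ (1 - b) / (1 - b)) =
              4 * (1 / (1 - b)) * (R ^ 2 * N ^ (1 - b)) := by
            field_simp
          rw [e5]
          gcongr
  have p2b : ∫⁻ l in Icc (16 : ℝ) N, ENNReal.ofReal (l ^ (-b) * bar l R y) ≤
      ENNReal.ofReal (4 * (1 / (1 - b) + 32 / b) * (R ^ 2 * y ^ (-(2 * (1 - b))))) := by
    have hM0 : 0 < y ^ (-2 : ℝ) := Real.rpow_pos_of_pos hy _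
    have bd : ∀ l : ℝ, 16 ≤ l → l ≤ N → bar l R y ≤ 4 * R ^ 2 * Real.exp (-(Real.sqrt l * y / 4)) := by
      intro l hl hl2
      unfold bar
      rw [if_neg (not_lt.2 hl), if_pos hl2]
      have t1 := Real.exp_pos (-y / R)
      nlinarith [sq_nonneg R]
    calc ∫⁻ l in Icc (16 : ℝ) N, ENNReal.ofReal (l ^ (-b) * bar l R y)
        ≤ ∫⁻ l in Icc (16 : ℝ) N, ENNReal.ofReal
            ((4 * R ^ 2) * (l ^ (-b) * Real.exp (-(Real.sqrt l * y / 4)))) := by
          refine setLIntegral_mono' measurableSet_Icc fun l hl => ENNReal.ofReal_le_ofReal ?_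
          have e2 : 0 ≤ l ^ (-b) := Real.rpow_nonneg (by linarith [hl.1]) _
          have := mul_le_mul_of_nonneg_left (bd l hl.1 hl.2) e2
          linarith
      _ ≤ ∫⁻ l in Ioc (0 : ℝ) (y ^ (-2 : ℝ)) ∪ Ioi (y ^ (-2 : ℝ)), ENNReal.ofReal
            ((4 * R ^ 2) * (l ^ (-b) * Real.exp (-(Real.sqrt l * y / 4)))) := by
          refine lintegral_mono_set fun l hl => ?_
          rw [Ioc_union_Ioi_eq_Ioi hM0.le]
          exact lt_of_lt_of_le (by norm_num) hl.1
      _ ≤ (∫⁻ l in Ioc (0 : ℝ) (y ^ (-2 : ℝ)), ENNReal.ofReal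
            ((4 * R ^ 2) * (l ^ (-b) * Real.exp (-(Real.sqrt l * y / 4))))) +
          ∫⁻ l in Ioi (y ^ (-2 : ℝ)), ENNReal.ofReal
            ((4 * R ^ 2) * (l ^ (-b) * Real.exp (-(Real.sqrt l * y / 4)))) :=
          lintegral_union_le _ _ _
      _ ≤ (∫⁻ l in Ioc (0 : ℝ) (y ^ (-2 : ℝ)), ENNReal.ofReal ((4 * R ^ 2) * l ^ (-b))) +
          ∫⁻ l in Ioi (y ^ (-2 : ℝ)), ENNReal.ofReal
            ((4 * R ^ 2 * (32 * y ^ (-2 : ℝ))) * l ^ (-b - 1)) := by
          refine add_le_add ?_ ?_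
          · refine setLIntegral_mono' measurableSet_Ioc fun l hl => ENNReal.ofReal_le_ofReal ?_
            have e2 : 0 ≤ l ^ (-b) := Real.rpow_nonneg hl.1.le _
            have t2 : Real.exp (-(Real.sqrt l * y / 4)) ≤ 1 := by
              rw [Real.exp_le_one_iff]
              have := Real.sqrt_nonneg l
              have : 0 ≤ Real.sqrt l * y / 4 := by positivity
              linarith
            gcongr
            nlinarith
          · refine setLIntegral_mono' measurableSet_Ioi fun l hl => ENNReal.ofReal_le_ofReal ?_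
            have hl0 : 0 < l := hM0.trans hl
            have e2 : 0 < l ^ (-b) := Real.rpow_pos_of_pos hl0 _
            have t2 : Real.exp (-(Real.sqrt l * y / 4)) ≤ 32 * y ^ (-2 : ℝ) * l⁻¹ := by
              set u := Real.sqrt l * y / 4 with hu
              have u0 : 0 < u := by
                have := Real.sqrt_pos.2 hl0
                positivity
              have u2 : u ^ 2 = l * y ^ 2 / 16 := by
                rw [hu, div_pow, mul_pow, Real.sq_sqrt hl0.le]
                norm_num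
              have u3 : u ^ 2 / 2 ≤ Real.exp u := by
                have := Real.quadratic_le_exp_of_nonneg u0.le
                nlinarith
              rw [Real.exp_neg]
              have u4 : 0 < u ^ 2 / 2 := by positivity
              calc (Real.exp u)⁻¹ ≤ (u ^ 2 / 2)⁻¹ := by
                    gcongr
                _ = 32 * y ^ (-2 : ℝ) * l⁻¹ := by
                    rw [u2, Real.rpow_neg hy.le, show (2 : ℝ) = ((2 : ℕ) : ℝ) by norm_num,
                      Real.rpow_natCast]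
                    field_simp
                    norm_num
            have e3 : l ^ (-b - 1) = l ^ (-b) * l⁻¹ := by
              rw [Real.rpow_sub hl0, Real.rpow_one, div_eq_mul_inv]
            rw [e3]
            have e4 := mul_le_mul_of_nonneg_left t2 e2.le
            have e5 := mul_le_mul_of_nonneg_left e4 (show 0 ≤ 4 * R ^ 2 by positivity)
            refine e5.trans (le_of_eq ?_)
            ring
      _ = ENNReal.ofReal ((4 * R ^ 2) * ((y ^ (-2 : ℝ)) ^ (1 - b) / (1 - b))) +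
          ENNReal.ofReal ((4 * R ^ 2 * (32 * y ^ (-2 : ℝ))) * ((y ^ (-2 : ℝ)) ^ (-b) / b)) := by
          rw [A11c_lconst _ (by positivity), A11c_low h1 hM0.le,
            ← ENNReal.ofReal_mul (by positivity), A11c_lconst _ (by positivity),
            A11c_high h0 hM0, ← ENNReal.ofReal_mul (by positivity)]
      _ = _ := by
          rw [← ENNReal.ofReal_add (by positivity) (by positivity)]
          congr 1
          have e6 : (y ^ (-2 : ℝ)) ^ (1 - b) = y ^ (-(2 * (1 - b))) := by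
            rw [← Real.rpow_mul hy.le]
            congr 1
            ring
          have e7 : y ^ (-2 : ℝ) * (y ^ (-2 : ℝ)) ^ (-b) = y ^ (-(2 * (1 - b))) := by
            rw [← Real.rpow_mul hy.le, ← Real.rpow_add hy]
            congr 1
            ring
          rw [e6]
          calc _ = 4 * (1 / (1 - b)) * (R ^ 2 * y ^ (-(2 * (1 - b)))) +
                4 * (32 / b) * (R ^ 2 * (y ^ (-2 : ℝ) * (y ^ (-2 : ℝ)) ^ (-b))) := by
                field_simp
            _ = _ := by
                rw [e7]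
                ring
  have p3 : ∫⁻ l in Ioi N, ENNReal.ofReal (l ^ (-b) * bar l R y) ≤
      ENNReal.ofReal (8 / b * (R ^ (2 * b) * Real.exp (-y / (8 * R)))) := by
    have hE : 0 < Real.exp (-y / (8 * R)) := Real.exp_pos _
    calc ∫⁻ l in Ioi N, ENNReal.ofReal (l ^ (-b) * bar l R y)
        = ∫⁻ l in Ioi N, ENNReal.ofReal ((2 * Real.exp (-y / (8 * R))) * l ^ (-b - 1)) := by
          refine setLIntegral_congr_fun measurableSet_Ioi fun l hl => ?_
          have hl0 : 0 < l := hN0.trans hl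
          have hl1 : N < l := hl
          have e3 : l ^ (-b - 1) = l ^ (-b) * l⁻¹ := by
            rw [Real.rpow_sub hl0, Real.rpow_one, div_eq_mul_inv]
          show ENNReal.ofReal _ = ENNReal.ofReal _
          congr 1
          unfold bar
          rw [if_neg (by linarith), if_neg (not_le.2 hl1), e3]
          ring
      _ = ENNReal.ofReal ((2 * Real.exp (-y / (8 * R))) * (N ^ (-b) / b)) := by
          rw [A11c_lconst _ (by positivity), A11c_high h0 hN0, ← ENNReal.ofReal_mul (by positivity)]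
      _ ≤ _ := by
          apply ENNReal.ofReal_le_ofReal
          have e8 : N ^ (-b) ≤ 4 * R ^ (2 * b) := by
            rw [hN, one_div, Real.inv_rpow (by positivity), Real.rpow_neg (by positivity), inv_inv,
              Real.mul_rpow (by norm_num) (by positivity)]
            have e9 : (R ^ 2) ^ b = R ^ (2 * b) := by
              rw [← Real.rpow_natCast, ← Real.rpow_mul hR.le]
              norm_num
            rw [e9]
            have e10 : (4 : ℝ) ^ b ≤ 4 := by
              calc (4 : ℝ) ^ b ≤ 4 ^ (1 : ℝ) :=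
                    Real.rpow_le_rpow_of_exponent_le (by norm_num) h1.le
                _ = 4 := Real.rpow_one 4
            have := Real.rpow_nonneg hR.le (2 * b)
            nlinarith
          have e11 : (2 * Real.exp (-y / (8 * R))) * (N ^ (-b) / b) =
              2 / b * (N ^ (-b) * Real.exp (-y / (8 * R))) := by
            field_simp
          have e12 : 8 / b * (R ^ (2 * b) * Real.exp (-y / (8 * R))) =
              2 / b * ((4 * R ^ (2 * b)) * Real.exp (-y / (8 * R))) := by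
            field_simp
            norm_num
          rw [e11, e12]
          gcongr
  -- the minimum
  have p2 : ∫⁻ l in Icc (16 : ℝ) N, ENNReal.ofReal (l ^ (-b) * bar l R y) ≤
      ENNReal.ofReal (4 * (1 / (1 - b) + 32 / b) *
        (R ^ 2 * min (R ^ (-(2 * (1 - b)))) (y ^ (-(2 * (1 - b)))))) := by
    rcases le_total (R ^ (-(2 * (1 - b)))) (y ^ (-(2 * (1 - b)))) with h | h
    · rw [min_eq_left h]
      refine p2a.trans (ENNReal.ofReal_le_ofReal ?_)
      have : 0 ≤ 32 / b := by positivity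
      gcongr
      linarith
    · rw [min_eq_right h]
      exact p2b
  have hsub : Ioi (0 : ℝ) ⊆ Ioo 0 16 ∪ (Icc 16 N ∪ Ioi N) := by
    intro l hl
    rcases lt_or_ge l 16 with h | h
    · exact Or.inl ⟨hl, h⟩
    · rcases le_or_gt l N with h' | h'
      · exact Or.inr (Or.inl ⟨h, h'⟩)
      · exact Or.inr (Or.inr h')
  have hmin : 0 ≤ min (R ^ (-(2 * (1 - b)))) (y ^ (-(2 * (1 - b)))) :=
    le_min (Real.rpow_nonneg hR.le _) (Real.rpow_nonneg hy.le _)
  have hRb := Real.rpow_nonneg hR.le (2 * b)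
  have hE : 0 < Real.exp (-y / (8 * R)) := Real.exp_pos _
  calc ∫⁻ l in Ioi (0 : ℝ), ENNReal.ofReal (l ^ (-b) * bar l R y)
      ≤ ∫⁻ l in Ioo (0 : ℝ) 16 ∪ (Icc 16 N ∪ Ioi N), ENNReal.ofReal (l ^ (-b) * bar l R y) :=
        lintegral_mono_set hsub
    _ ≤ (∫⁻ l in Ioo (0 : ℝ) 16, ENNReal.ofReal (l ^ (-b) * bar l R y)) +
        ((∫⁻ l in Icc (16 : ℝ) N, ENNReal.ofReal (l ^ (-b) * bar l R y)) +
        ∫⁻ l in Ioi N, ENNReal.ofReal (l ^ (-b) * bar l R y)) :=
        (lintegral_union_le _ _ _).trans (add_le_add le_rfl (lintegral_union_le _ _ _))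
    _ ≤ ENNReal.ofReal (6 * ((16 : ℝ) ^ (1 - b) / (1 - b)) * R ^ 2) +
        (ENNReal.ofReal (4 * (1 / (1 - b) + 32 / b) *
          (R ^ 2 * min (R ^ (-(2 * (1 - b)))) (y ^ (-(2 * (1 - b)))))) +
        ENNReal.ofReal (8 / b * (R ^ (2 * b) * Real.exp (-y / (8 * R))))) :=
        add_le_add p1 (add_le_add p2 p3)
    _ ≤ _ := by
        rw [← ENNReal.ofReal_add (by positivity) (by positivity),
          ← ENNReal.ofReal_add (by positivity) (by positivity)]
        apply ENNReal.ofReal_le_ofReal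
        have q1 : 0 ≤ R ^ 2 := by positivity
        have q2 : 0 ≤ R ^ 2 * min (R ^ (-(2 * (1 - b)))) (y ^ (-(2 * (1 - b)))) := by positivity
        have q3 : 0 ≤ R ^ (2 * b) * Real.exp (-y / (8 * R)) := by positivity
        nlinarith [mul_nonneg K0 q2, mul_nonneg K0 q3, mul_nonneg K1 q1, mul_nonneg K1 q3,
          mul_nonneg K2 q1, mul_nonneg K2 q2]

theorem A11c_polar {f : ℝ → ℝ≥0∞} (hf : Measurable f) :
    ∫⁻ x : E3, f ‖x‖ = (volume : Measure E3).toSphere univ *
      ∫⁻ r in Ioi (0 : ℝ), ENNReal.ofReal (r ^ 2) * f r := by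
  have hfin : Module.finrank ℝ E3 - 1 = 2 := by simp
  have hmp := (volume : Measure E3).measurePreserving_homeomorphUnitSphereProd
  rw [hfin] at hmp
  have hemb := Homeomorph.measurableEmbedding (homeomorphUnitSphereProd E3)
  calc ∫⁻ x : E3, f ‖x‖ = ∫⁻ x in ({0}ᶜ : Set E3), f ‖x‖ := by
        rw [restrict_compl_singleton]
    _ = ∫⁻ x : ({(0)}ᶜ : Set E3), f ‖x.1‖ ∂((volume : Measure E3).comap (↑)) := by
        rw [lintegral_subtype_comap (measurableSet_singleton _).compl fun x : E3 => f ‖x‖]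
    _ = ∫⁻ z, f z.2.1 ∂((volume : Measure E3).toSphere.prod (Measure.volumeIoiPow 2)) := by
        have := hmp.lintegral_comp_emb hemb (fun z => f z.2.1)
        simpa using this
    _ = (volume : Measure E3).toSphere univ *
          ∫⁻ r : Ioi (0 : ℝ), f r.1 ∂(Measure.volumeIoiPow 2) := by
        rw [lintegral_prod]
        · simp only [lintegral_const]
          rw [mul_comm]
        · exact (hf.comp (measurable_subtype_coe.comp measurable_snd)).aemeasurable
    _ = _ := by
        congr 1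
        unfold Measure.volumeIoiPow
        rw [lintegral_withDensity_eq_lintegral_mul]
        · have := lintegral_subtype_comap (μ := (volume : Measure ℝ)) measurableSet_Ioi
            (fun r : ℝ => ENNReal.ofReal (r ^ 2) * f r) (s := Ioi 0)
          rw [← this]
          rfl
        · exact ENNReal.measurable_ofReal.comp (measurable_subtype_coe.pow_const 2)
        · exact hf.comp measurable_subtype_coe

theorem A11c_sub (F : ℝ → ℝ≥0∞) :
    ∫⁻ s in Ioo (0 : ℝ) (1 / 2), F s =
      ∫⁻ r in Ioo (0 : ℝ) 1, ENNReal.ofReal r * F ((1 - r ^ 2) / 2) := by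
  have himg : (fun r : ℝ => (1 - r ^ 2) / 2) '' Ioo 0 1 = Ioo (0 : ℝ) (1 / 2) := by
    ext s
    constructor
    · rintro ⟨r, hr, rfl⟩
      constructor
      · show 0 < (1 - r ^ 2) / 2
        nlinarith [hr.1, hr.2]
      · show (1 - r ^ 2) / 2 < 1 / 2
        nlinarith [hr.1, hr.2]
    · intro hs
      refine ⟨Real.sqrt (1 - 2 * s), ⟨Real.sqrt_pos.2 (by linarith [hs.2]), ?_⟩, ?_⟩
      · rw [Real.sqrt_lt' one_pos]
        linarith [hs.1]
      · show (1 - Real.sqrt (1 - 2 * s) ^ 2) / 2 = s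
        rw [Real.sq_sqrt (by linarith [hs.2])]
        ring
  have h := lintegral_image_eq_lintegral_deriv_mul_of_antitoneOn (s := Ioo (0 : ℝ) 1)
    (f := fun r : ℝ => (1 - r ^ 2) / 2) (f' := fun r => -r) measurableSet_Ioo
    (fun r _ => by
      have : HasDerivAt (fun r : ℝ => (1 - r ^ 2) / 2) (-r) r := by
        have := (((hasDerivAt_pow 2 r).const_sub 1).div_const 2)
        convert! this using 1
        simp
        ring
      exact this.hasDerivWithinAt)
    (fun r hr s hs hrs => by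
      show (1 - s ^ 2) / 2 ≤ (1 - r ^ 2) / 2
      nlinarith [hr.1, hs.1]) F
  rw [himg] at h
  rw [h]
  simp only [neg_neg]

/-- Integrals of functions of `y` over the ball.
Proof: polar coordinates and `y = (1 - r²)/2`, `dy = -r dr`, `r² ≤ r`. -/
theorem lint_yy : ∃ C : ℝ≥0, ∀ F : ℝ → ℝ≥0∞, Measurable F →
    ∫⁻ x in Bl, F (yy x) ≤ C * ∫⁻ s in Ioo (0 : ℝ) (1 / 2), F s := by
  refine ⟨((volume : Measure E3).toSphere univ).toNNReal, fun F hF => ?_⟩
  rw [ENNReal.coe_toNNReal (measure_ne_top _ _)]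
  have hg : Measurable fun r : ℝ => (Iio (1 : ℝ)).indicator (fun r => F ((1 - r ^ 2) / 2)) r := by
    refine Measurable.indicator (hF.comp ?_) measurableSet_Iio
    fun_prop
  have e1 : ∫⁻ x in Bl, F (yy x) =
      ∫⁻ x : E3, (Iio (1 : ℝ)).indicator (fun r => F ((1 - r ^ 2) / 2)) ‖x‖ := by
    have hBl : MeasurableSet Bl := Metric.isOpen_ball.measurableSet
    rw [← lintegral_indicator hBl]
    refine lintegral_congr fun x => ?_
    by_cases hx : ‖x‖ < 1
    · have h1 : x ∈ Bl := by simpa [Bl] using hx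
      have h2 : ‖x‖ ∈ Iio (1 : ℝ) := hx
      rw [indicator_of_mem h1, indicator_of_mem h2]
      rfl
    · have h1 : x ∉ Bl := by simpa [Bl] using hx
      have h2 : ‖x‖ ∉ Iio (1 : ℝ) := hx
      rw [indicator_of_notMem h1, indicator_of_notMem h2]
  rw [e1, A11c_polar hg, A11c_sub]
  refine mul_le_mul_right ?_ _
  have e2 : ∀ r ∈ Ioi (0 : ℝ), ENNReal.ofReal (r ^ 2) *
      (Iio (1 : ℝ)).indicator (fun r => F ((1 - r ^ 2) / 2)) r ≤
      (Ioo (0 : ℝ) 1).indicator (fun r => ENNReal.ofReal r * F ((1 - r ^ 2) / 2)) r := by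
    intro r hr
    by_cases h : r < 1
    · rw [indicator_of_mem (show r ∈ Iio (1 : ℝ) from h),
        indicator_of_mem (show r ∈ Ioo (0 : ℝ) 1 from ⟨hr, h⟩)]
      gcongr
      have hr0 : (0 : ℝ) < r := hr
      nlinarith
    · rw [indicator_of_notMem (show r ∉ Iio (1 : ℝ) from h)]
      simp
  calc ∫⁻ r in Ioi (0 : ℝ), ENNReal.ofReal (r ^ 2) *
      (Iio (1 : ℝ)).indicator (fun r => F ((1 - r ^ 2) / 2)) r
      ≤ ∫⁻ r in Ioi (0 : ℝ),
        (Ioo (0 : ℝ) 1).indicator (fun r => ENNReal.ofReal r * F ((1 - r ^ 2) / 2)) r :=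
        setLIntegral_mono' measurableSet_Ioi e2
    _ ≤ ∫⁻ r, (Ioo (0 : ℝ) 1).indicator (fun r => ENNReal.ofReal r * F ((1 - r ^ 2) / 2)) r :=
        setLIntegral_le_lintegral _ _
    _ = _ := lintegral_indicator measurableSet_Ioo _

theorem A11c_elp : ∃ C : ℝ, 0 ≤ C ∧ ∀ r : ℝ, 1 ≤ r → ∀ F : ℝ → ℝ, Measurable F → ∀ K : ℝ, 0 ≤ K →
    ∫⁻ s in Ioo (0 : ℝ) (1 / 2), ‖F s‖ₑ ^ r ≤ ENNReal.ofReal K →
    eLpNorm (Bl.indicator fun x => F (yy x)) (ENNReal.ofReal r) (volume : Measure E3) ≤
      ENNReal.ofReal ((C * K) ^ (1 / r)) := by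
  obtain ⟨C, hC⟩ := lint_yy
  refine ⟨C, C.2, fun r hr F hF K hK h => ?_⟩
  have hr0 : 0 < r := by linarith
  have hBl : MeasurableSet Bl := Metric.isOpen_ball.measurableSet
  rw [eLpNorm_indicator_eq_eLpNorm_restrict hBl,
    eLpNorm_eq_lintegral_rpow_enorm_toReal (by simpa using hr0) ENNReal.ofReal_ne_top,
    ENNReal.toReal_ofReal hr0.le]
  have h1 : ∫⁻ x in Bl, ‖F (yy x)‖ₑ ^ r ≤ ENNReal.ofReal (C * K) := by
    refine (hC (fun s => ‖F s‖ₑ ^ r) (hF.enorm.pow_const r)).trans ?_
    rw [ENNReal.ofReal_mul (NNReal.coe_nonneg C), ENNReal.ofReal_coe_nnreal]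
    gcongr
  calc (∫⁻ x in Bl, ‖F (yy x)‖ₑ ^ r) ^ (1 / r) ≤ (ENNReal.ofReal (C * K)) ^ (1 / r) := by
        gcongr
    _ = _ := ENNReal.ofReal_rpow_of_nonneg (mul_nonneg (NNReal.coe_nonneg C) hK) (by positivity)

/-- The middle piece. -/
theorem A11c_mid {a r R : ℝ} (hr : 1 ≤ r) (har : 1 < a * r) (hR : 0 < R) :
    ∫⁻ s in Ioo (0 : ℝ) (1 / 2), ‖min (R ^ (-a)) (s ^ (-a))‖ₑ ^ r ≤
      ENNReal.ofReal ((1 + 1 / (a * r - 1)) * R ^ (1 - a * r)) := by
  have hr0 : 0 < r := by linarith
  have hpt : ∀ s : ℝ, 0 < s → ‖min (R ^ (-a)) (s ^ (-a))‖ₑ ^ r ≤ ENNReal.ofReal (R ^ (-(a * r))) ∧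
      ‖min (R ^ (-a)) (s ^ (-a))‖ₑ ^ r ≤ ENNReal.ofReal (s ^ (-(a * r))) := by
    intro s hs
    have m0 : 0 ≤ min (R ^ (-a)) (s ^ (-a)) :=
      le_min (Real.rpow_nonneg hR.le _) (Real.rpow_nonneg hs.le _)
    rw [Real.enorm_of_nonneg m0, ENNReal.ofReal_rpow_of_nonneg m0 hr0.le]
    constructor
    · apply ENNReal.ofReal_le_ofReal
      calc (min (R ^ (-a)) (s ^ (-a))) ^ r ≤ (R ^ (-a)) ^ r :=
            Real.rpow_le_rpow m0 (min_le_left _ _) hr0.le
        _ = R ^ (-(a * r)) := by rw [← Real.rpow_mul hR.le]; congr 1; ring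
    · apply ENNReal.ofReal_le_ofReal
      calc (min (R ^ (-a)) (s ^ (-a))) ^ r ≤ (s ^ (-a)) ^ r :=
            Real.rpow_le_rpow m0 (min_le_right _ _) hr0.le
        _ = s ^ (-(a * r)) := by rw [← Real.rpow_mul hs.le]; congr 1; ring
  calc ∫⁻ s in Ioo (0 : ℝ) (1 / 2), ‖min (R ^ (-a)) (s ^ (-a))‖ₑ ^ r
      ≤ ∫⁻ s in Ioc (0 : ℝ) R ∪ Ioi R, ‖min (R ^ (-a)) (s ^ (-a))‖ₑ ^ r := by
        refine lintegral_mono_set fun s hs => ?_
        rw [Ioc_union_Ioi_eq_Ioi hR.le]
        exact hs.1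
    _ ≤ (∫⁻ s in Ioc (0 : ℝ) R, ‖min (R ^ (-a)) (s ^ (-a))‖ₑ ^ r) +
        ∫⁻ s in Ioi R, ‖min (R ^ (-a)) (s ^ (-a))‖ₑ ^ r := lintegral_union_le _ _ _
    _ ≤ (∫⁻ _ in Ioc (0 : ℝ) R, ENNReal.ofReal (R ^ (-(a * r)))) +
        ∫⁻ s in Ioi R, ENNReal.ofReal (s ^ (-(a * r))) :=
        add_le_add (setLIntegral_mono' measurableSet_Ioc fun s hs => (hpt s hs.1).1)
          (setLIntegral_mono' measurableSet_Ioi fun s hs => (hpt s (hR.trans hs)).2)
    _ = ENNReal.ofReal (R ^ (1 - a * r)) + ENNReal.ofReal (R ^ (1 - a * r) / (a * r - 1)) := by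
        have hi : IntegrableOn (fun s : ℝ => s ^ (-(a * r))) (Ioi R) :=
          integrableOn_Ioi_rpow_of_lt (by linarith) hR
        congr 1
        · rw [lintegral_const, Measure.restrict_apply_univ, Real.volume_Ioc, sub_zero,
            ← ENNReal.ofReal_mul (by positivity)]
          congr 1
          rw [sub_eq_add_neg, add_comm, Real.rpow_add hR, Real.rpow_one]
        · rw [← ofReal_integral_eq_lintegral_ofReal hi]
          · rw [integral_Ioi_rpow_of_lt (by linarith) hR]
            congr 1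
            rw [show -(a * r) + 1 = 1 - a * r by ring, ← neg_div_neg_eq]
            congr 1
            · ring
            · ring
          · filter_upwards [ae_restrict_mem measurableSet_Ioi] with s hs
            exact Real.rpow_nonneg (hR.trans hs).le _
    _ = _ := by
        have q1 : 0 < a * r - 1 := by linarith
        have q2 : 0 < R ^ (1 - a * r) := Real.rpow_pos_of_pos hR _
        rw [← ENNReal.ofReal_add (by positivity) (by positivity)]
        congr 1
        field_simp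

/-- The exponential piece. -/
theorem A11c_exp {r R : ℝ} (hr : 1 ≤ r) (hR : 0 < R) :
    ∫⁻ s in Ioo (0 : ℝ) (1 / 2), ‖Real.exp (-s / (8 * R))‖ₑ ^ r ≤ ENNReal.ofReal (8 * R) := by
  have hr0 : 0 < r := by linarith
  have hi : IntegrableOn (fun s : ℝ => Real.exp (-(1 / (8 * R)) * s)) (Ioi 0) :=
    exp_neg_integrableOn_Ioi 0 (by positivity)
  calc ∫⁻ s in Ioo (0 : ℝ) (1 / 2), ‖Real.exp (-s / (8 * R))‖ₑ ^ r
      ≤ ∫⁻ s in Ioi (0 : ℝ), ENNReal.ofReal (Real.exp (-(1 / (8 * R)) * s)) := by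
        refine (lintegral_mono_set (fun s hs => hs.1 : Ioo (0 : ℝ) (1 / 2) ⊆ Ioi 0)).trans ?_
        refine setLIntegral_mono' measurableSet_Ioi fun s hs => ?_
        have hs0 : (0 : ℝ) < s := hs
        rw [Real.enorm_of_nonneg (Real.exp_pos _).le,
          ENNReal.ofReal_rpow_of_nonneg (Real.exp_pos _).le hr0.le]
        apply ENNReal.ofReal_le_ofReal
        rw [← Real.exp_mul]
        apply Real.exp_le_exp.2
        have e1 : -(1 / (8 * R)) * s = -s / (8 * R) := by ring
        rw [e1]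
        have e2 : -s / (8 * R) ≤ 0 := by
          apply div_nonpos_of_nonpos_of_nonneg (by linarith) (by positivity)
        nlinarith
    _ = ENNReal.ofReal (8 * R) := by
        rw [← ofReal_integral_eq_lintegral_ofReal hi]
        · congr 1
          have := integral_exp_neg_mul_rpow (p := 1) (b := 1 / (8 * R)) (by norm_num) (by positivity)
          simp only [Real.rpow_one] at this
          rw [this]
          rw [show (-1 / (1 : ℝ)) = -1 by norm_num, show (1 : ℝ) / 1 + 1 = 2 by norm_num,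
            Real.Gamma_two, mul_one, Real.rpow_neg (by positivity), Real.rpow_one, one_div, inv_inv]
        · exact Eventually.of_forall fun s => (Real.exp_pos _).le

/-- The `L^r` norm of the bound of `int_bar`, `2 (1 - b) r > 1`:
`R² ≤ R^(2b + 1/r)` since `2 - 2b ≥ 1/r`; `∫_0^(1/2) min(..)^r ≤ R^(1 - 2(1-b) r) (1 + 1/(2(1-b)r - 1))`;
`∫_0^∞ e^(-r y/(8R)) = 8R/r`. -/
theorem lr_bar {b r : ℝ} (h0 : 0 < b) (h1 : b < 1) (hr : 1 ≤ r) (hbr : 1 < 2 * (1 - b) * r) :
    ∃ C : ℝ, 0 ≤ C ∧ ∀ R : ℝ, 0 < R → R ≤ 1 / 8 →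
    eLpNorm (Bl.indicator fun x => R ^ 2 + R ^ 2 * min (R ^ (-(2 * (1 - b))))
      (yy x ^ (-(2 * (1 - b)))) + R ^ (2 * b) * Real.exp (-yy x / (8 * R)))
      (ENNReal.ofReal r) (volume : Measure E3) ≤ ENNReal.ofReal (C * R ^ (2 * b + 1 / r)) := by
  obtain ⟨C, hC0, hC⟩ := A11c_elp
  have hr0 : 0 < r := by linarith
  have hb1 : 0 < 1 - b := by linarith
  have ha : 0 < 2 * (1 - b) := by linarith
  set a := 2 * (1 - b) with haa
  set K := 1 + 1 / (a * r - 1) with hK
  have hK0 : 0 < K := by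
    have : 0 < a * r - 1 := by linarith
    positivity
  refine ⟨C ^ (1 / r) + (C * K) ^ (1 / r) + (C * 8) ^ (1 / r), by positivity, ?_⟩
  intro R hR hR1
  have hBl : MeasurableSet Bl := Metric.isOpen_ball.measurableSet
  have hyy : Measurable yy := by
    have : Continuous yy := by
      unfold yy
      fun_prop
    exact this.measurable
  have hRE : 0 < R ^ (2 * b + 1 / r) := Real.rpow_pos_of_pos hR _
  -- the three functions
  have m1 : Measurable fun _ : ℝ => R ^ 2 := measurable_const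
  have m2 : Measurable fun s : ℝ => R ^ 2 * min (R ^ (-a)) (s ^ (-a)) := by fun_prop
  have m3 : Measurable fun s : ℝ => R ^ (2 * b) * Real.exp (-s / (8 * R)) := by fun_prop
  have P1 : eLpNorm (Bl.indicator fun x => (fun _ : ℝ => R ^ 2) (yy x)) (ENNReal.ofReal r)
      (volume : Measure E3) ≤ ENNReal.ofReal (C ^ (1 / r) * R ^ (2 * b + 1 / r)) := by
    refine (hC r hr _ m1 ((R ^ 2) ^ r) (by positivity) ?_).trans ?_
    · rw [lintegral_const, Measure.restrict_apply_univ, Real.volume_Ioo,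
        Real.enorm_of_nonneg (by positivity), ENNReal.ofReal_rpow_of_nonneg (by positivity) hr0.le,
        ← ENNReal.ofReal_mul (by positivity)]
      apply ENNReal.ofReal_le_ofReal
      have : 0 ≤ (R ^ 2) ^ r := by positivity
      nlinarith
    · apply ENNReal.ofReal_le_ofReal
      rw [Real.mul_rpow hC0 (by positivity), ← Real.rpow_mul (by positivity),
        mul_one_div_cancel hr0.ne', Real.rpow_one]
      gcongr
      rw [← Real.rpow_natCast]
      apply Real.rpow_le_rpow_of_exponent_ge hR (by linarith)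
      push_cast
      have : 1 / r < a := by
        rw [div_lt_iff₀ hr0]
        exact hbr
      linarith
  have P2 : eLpNorm (Bl.indicator fun x => (fun s : ℝ => R ^ 2 * min (R ^ (-a)) (s ^ (-a))) (yy x))
      (ENNReal.ofReal r) (volume : Measure E3) ≤
      ENNReal.ofReal ((C * K) ^ (1 / r) * R ^ (2 * b + 1 / r)) := by
    refine (hC r hr _ m2 ((R ^ 2) ^ r * (K * R ^ (1 - a * r))) (by positivity) ?_).trans ?_
    · have e1 : ∀ s : ℝ, ‖R ^ 2 * min (R ^ (-a)) (s ^ (-a))‖ₑ ^ r =
          ENNReal.ofReal ((R ^ 2) ^ r) * ‖min (R ^ (-a)) (s ^ (-a))‖ₑ ^ r := by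
        intro s
        rw [enorm_mul, ENNReal.mul_rpow_of_nonneg _ _ hr0.le, Real.enorm_of_nonneg (by positivity),
          ENNReal.ofReal_rpow_of_nonneg (by positivity) hr0.le]
      simp only [e1]
      rw [lintegral_const_mul' _ _ ENNReal.ofReal_ne_top, ENNReal.ofReal_mul (by positivity)]
      gcongr
      exact A11c_mid hr hbr hR
    · apply ENNReal.ofReal_le_ofReal
      have e2 : C * ((R ^ 2) ^ r * (K * R ^ (1 - a * r))) =
          (C * K) * ((R ^ 2) ^ r * R ^ (1 - a * r)) := by ring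
      rw [e2, Real.mul_rpow (by positivity) (by positivity)]
      gcongr
      apply le_of_eq
      rw [← Real.rpow_natCast, ← Real.rpow_mul hR.le, ← Real.rpow_add hR, ← Real.rpow_mul hR.le]
      congr 1
      rw [haa]
      push_cast
      field_simp
      ring
  have P3 : eLpNorm (Bl.indicator fun x => (fun s : ℝ => R ^ (2 * b) * Real.exp (-s / (8 * R)))
      (yy x)) (ENNReal.ofReal r) (volume : Measure E3) ≤
      ENNReal.ofReal ((C * 8) ^ (1 / r) * R ^ (2 * b + 1 / r)) := by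
    refine (hC r hr _ m3 ((R ^ (2 * b)) ^ r * (8 * R)) (by positivity) ?_).trans ?_
    · have e1 : ∀ s : ℝ, ‖R ^ (2 * b) * Real.exp (-s / (8 * R))‖ₑ ^ r =
          ENNReal.ofReal ((R ^ (2 * b)) ^ r) * ‖Real.exp (-s / (8 * R))‖ₑ ^ r := by
        intro s
        rw [enorm_mul, ENNReal.mul_rpow_of_nonneg _ _ hr0.le, Real.enorm_of_nonneg (by positivity),
          ENNReal.ofReal_rpow_of_nonneg (by positivity) hr0.le]
      simp only [e1]
      rw [lintegral_const_mul' _ _ ENNReal.ofReal_ne_top, ENNReal.ofReal_mul (by positivity)]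
      gcongr
      exact A11c_exp hr hR
    · apply ENNReal.ofReal_le_ofReal
      have e2 : C * ((R ^ (2 * b)) ^ r * (8 * R)) = (C * 8) * ((R ^ (2 * b)) ^ r * R) := by ring
      rw [e2, Real.mul_rpow (by positivity) (by positivity)]
      gcongr
      apply le_of_eq
      have e3 : (R ^ (2 * b)) ^ r * R = R ^ (2 * b * r + 1) := by
        rw [← Real.rpow_mul hR.le, Real.rpow_add hR, Real.rpow_one]
      rw [e3, ← Real.rpow_mul hR.le]
      congr 1
      field_simp
  -- the sum
  have hsum : (Bl.indicator fun x => R ^ 2 + R ^ 2 * min (R ^ (-a)) (yy x ^ (-a)) +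
      R ^ (2 * b) * Real.exp (-yy x / (8 * R))) =
      ((Bl.indicator fun x => (fun _ : ℝ => R ^ 2) (yy x)) +
      (Bl.indicator fun x => (fun s : ℝ => R ^ 2 * min (R ^ (-a)) (s ^ (-a))) (yy x))) +
      (Bl.indicator fun x => (fun s : ℝ => R ^ (2 * b) * Real.exp (-s / (8 * R))) (yy x)) := by
    funext x
    simp only [Pi.add_apply]
    by_cases hx : x ∈ Bl
    · simp only [indicator_of_mem hx]
    · simp only [indicator_of_notMem hx, add_zero]
  have hp : (1 : ℝ≥0∞) ≤ ENNReal.ofReal r := by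
    rw [← ENNReal.ofReal_one]
    exact ENNReal.ofReal_le_ofReal hr
  have s1 : AEStronglyMeasurable (Bl.indicator fun x => (fun _ : ℝ => R ^ 2) (yy x))
      (volume : Measure E3) :=
    ((m1.comp hyy).indicator hBl).aestronglyMeasurable
  have s2 : AEStronglyMeasurable
      (Bl.indicator fun x => (fun s : ℝ => R ^ 2 * min (R ^ (-a)) (s ^ (-a))) (yy x))
      (volume : Measure E3) :=
    ((m2.comp hyy).indicator hBl).aestronglyMeasurable
  have s3 : AEStronglyMeasurable
      (Bl.indicator fun x => (fun s : ℝ => R ^ (2 * b) * Real.exp (-s / (8 * R))) (yy x))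
      (volume : Measure E3) :=
    ((m3.comp hyy).indicator hBl).aestronglyMeasurable
  rw [hsum]
  refine (eLpNorm_add_le (s1.add s2) s3 hp).trans ?_
  refine (add_le_add (eLpNorm_add_le s1 s2 hp) le_rfl).trans ?_
  refine (add_le_add (add_le_add P1 P2) P3).trans ?_
  rw [← ENNReal.ofReal_add (by positivity) (by positivity),
    ← ENNReal.ofReal_add (by positivity) (by positivity)]
  apply ENNReal.ofReal_le_ofReal
  apply le_of_eq
  ring

end Pool.Agent.W_332fe5
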