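import Pool.Agent.W_332fe5.O.A10
import Pool.Agent.W_332fe5.O.A11c
import Pool.Agent.W_332fe5.O.A0b

set_option autoImplicit false

/-! Block 1, A12: Lemma L, `L^r` bounds for `A^(-b) f`, `f` swirl. -/

open MeasureTheory Set Filter Topology
open scoped ENNReal NNReal

namespace Pool.Agent.W_332fe5

theorem A12_slap_sum {ι : Type} (J : Finset ι) (u : ι → E3 → ℝ) (a : ι → ℝ)
    (hu : ∀ j ∈ J, ContDiff ℝ ((⊤ : ℕ∞) : WithTop ℕ∞) (u j)) (x : E3) :
    slap (fun x => ∑ j ∈ J, a j * u j x) x = ∑ j ∈ J, a j * slap (u j) x := by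
  unfold slap
  have h1 : ∀ i : Fin 3, (fun z => fderiv ℝ (fun x => ∑ j ∈ J, a j * u j x) z
      (EuclideanSpace.single i 1)) = fun z => ∑ j ∈ J, a j * fderiv ℝ (u j) z
      (EuclideanSpace.single i 1) := by
    intro i
    funext z
    have h2 : HasFDerivAt (fun x => ∑ j ∈ J, a j * u j x) (∑ j ∈ J, a j • fderiv ℝ (u j) z) z := by
      refine HasFDerivAt.fun_sum fun j hj => ?_
      exact (((hu j hj).differentiable (by simp)) z).hasFDerivAt.const_mul (a j)
    rw [h2.fderiv]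
    simp
  simp only [h1]
  have h3 : ∀ i : Fin 3, fderiv ℝ (fun z => ∑ j ∈ J, a j * fderiv ℝ (u j) z
      (EuclideanSpace.single i 1)) x (EuclideanSpace.single i 1) =
      ∑ j ∈ J, a j * fderiv ℝ (fun z => fderiv ℝ (u j) z (EuclideanSpace.single i 1)) x
        (EuclideanSpace.single i 1) := by
    intro i
    have h2 : HasFDerivAt (fun z => ∑ j ∈ J, a j * fderiv ℝ (u j) z (EuclideanSpace.single i 1))
        (∑ j ∈ J, a j • fderiv ℝ (fun z => fderiv ℝ (u j) z (EuclideanSpace.single i 1)) x) x := by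
      refine HasFDerivAt.fun_sum fun j hj => ?_
      have h4 : ContDiff ℝ 1 (fun z => fderiv ℝ (u j) z (EuclideanSpace.single i 1)) :=
        (((hu j hj).fderiv_right (m := 1) (by
          exact WithTop.coe_le_coe.2 le_top)).clm_apply contDiff_const)
      exact ((h4.differentiable (by simp)) x).hasFDerivAt.const_mul (a j)
    rw [h2.fderiv]
    simp
  simp only [h3]
  rw [Finset.sum_comm]
  refine Finset.sum_congr rfl fun j _ => ?_
  rw [Finset.mul_sum]

/-- Pointwise bound of `R(l) f`: `comparison` with `U = ∑ a_j bar l (R_j) (y)`. -/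
theorem res_le_bar {f : L2} (hf : Swirl f) (J : Finset ℕ) (a R : ℕ → ℝ)
    (haR : ∀ j ∈ J, 0 ≤ a j ∧ 0 < R j ∧ R j ≤ 1 / 8)
    (hfa : ∀ᵐ x ∂(volume : Measure E3), x ∈ Bl →
      ‖f x‖ ≤ ∑ j ∈ J, a j * Real.exp (-yy x / R j)) {l : ℝ} (hl : 0 < l) (i : Fin 3) :
    ∀ᵐ x ∂(volume : Measure E3), x ∈ Bl →
      |res Bl l f x i| ≤ ∑ j ∈ J, a j * bar l (R j) (yy x) := by
  refine comparison hl hf (F := fun x => ∑ j ∈ J, a j * Real.exp (-yy x / R j))
    (U := fun x => ∑ j ∈ J, a j * bar l (R j) (yy x)) hfa ?_ ?_ ?_ i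
  · exact ContDiff.sum fun j _ => contDiff_const.mul (bar_smooth l (R j))
  · intro x hx
    have hy : 0 < yy x := yy_pos_iff.1 hx
    exact Finset.sum_nonneg fun j hj => mul_nonneg (haR j hj).1
      (bar_nonneg hl.le (haR j hj).2.1 hy.le)
  · intro x hx
    rw [A12_slap_sum J (fun j x => bar l (R j) (yy x)) a (fun j _ => bar_smooth l (R j)) x,
      Finset.mul_sum, ← Finset.sum_sub_distrib]
    refine Finset.sum_le_sum fun j hj => ?_
    have := mul_le_mul_of_nonneg_left (bar_spec hl.le (haR j hj).2.1 (haR j hj).2.2 hx)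
      (haR j hj).1
    linarith

theorem A12_norm_le (v : E3) {c : ℝ} (h : ∀ i, |v i| ≤ c) : ‖v‖ ≤ 3 * c := by
  have hc : 0 ≤ c := (abs_nonneg _).trans (h 0)
  have h1 : ‖v‖ ^ 2 ≤ (3 * c) ^ 2 := by
    rw [EuclideanSpace.norm_sq_eq, Fin.sum_univ_three]
    simp only [Real.norm_eq_abs, sq_abs]
    have h2 : ∀ i, v i ^ 2 ≤ c ^ 2 := fun i => sq_le_sq' (by
      linarith [neg_abs_le (v i), h i]) ((le_abs_self _).trans (h i))
    nlinarith [h2 0, h2 1, h2 2]
  exact (pow_le_pow_iff_left₀ (norm_nonneg _) (by positivity) two_ne_zero).1 h1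

/-- Pointwise bound of `A^(-b) f` (`abs_integral_le`, `int_bar`). -/
theorem negPow_le_bar {b : ℝ} (h0 : 0 < b) (h1 : b < 1) : ∃ C : ℝ, 0 ≤ C ∧ ∀ (f : L2), Swirl f →
    ∀ (J : Finset ℕ) (a R : ℕ → ℝ), (∀ j ∈ J, 0 ≤ a j ∧ 0 < R j ∧ R j ≤ 1 / 8) →
    (∀ᵐ x ∂(volume : Measure E3), x ∈ Bl → ‖f x‖ ≤ ∑ j ∈ J, a j * Real.exp (-yy x / R j)) →
    ∀ᵐ x ∂(volume : Measure E3), x ∈ Bl → ‖negPow Bl b f x‖ ≤
      C * ∑ j ∈ J, a j * (R j ^ 2 + R j ^ 2 * min (R j ^ (-(2 * (1 - b))))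
        (yy x ^ (-(2 * (1 - b)))) + R j ^ (2 * b) * Real.exp (-yy x / (8 * R j))) := by
  obtain ⟨C, hC0, hC⟩ := int_bar h0 h1
  have hk := kb_pos h0 h1
  refine ⟨3 * ((kb b)⁻¹ * C), by positivity, ?_⟩
  intro f hf J a R haR hfa
  set F : ℝ → L2 := fun l => l ^ (-b) • res Bl l f with hF
  have hFi : IntegrableOn F (Ioi 0) := negPow_integrable h0 h1 f
  set g : ℝ → E3 → ℝ≥0∞ := fun l x =>
    ENNReal.ofReal (|l ^ (-b)| * ∑ j ∈ J, a j * bar l (R j) (yy x)) with hg
  have hyy : Measurable yy := by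
    have : Continuous yy := by
      unfold yy
      fun_prop
    exact this.measurable
  have hgm : Measurable fun z : ℝ × E3 => g z.1 z.2 := by
    refine ENNReal.measurable_ofReal.comp ?_
    refine Measurable.mul ?_ ?_
    · have : Measurable fun l : ℝ => |l ^ (-b)| := by fun_prop
      exact this.comp measurable_fst
    · refine Finset.measurable_sum J fun j _ => Measurable.const_mul ?_ _
      exact (bar_meas (R j)).comp (measurable_fst.prodMk (hyy.comp measurable_snd))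
  have hb : ∀ i : Fin 3, ∀ᵐ x ∂(volume : Measure E3), x ∈ Bl →
      ENNReal.ofReal |(∫ l in Ioi (0 : ℝ), F l : L2) x i| ≤ ∫⁻ l in Ioi (0 : ℝ), g l x := by
    intro i
    refine abs_integral_le hFi hgm i ?_
    intro l hl
    have h2 := Lp.coeFn_smul (l ^ (-b)) (res Bl l f)
    filter_upwards [res_le_bar hf J a R haR hfa hl i, h2] with x hx1 hx2 hx
    have h3 : F l x i = l ^ (-b) * res Bl l f x i := by
      have : F l x = l ^ (-b) • res Bl l f x := hx2
      rw [this]
      rfl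
    rw [h3, abs_mul]
    apply ENNReal.ofReal_le_ofReal
    exact mul_le_mul_of_nonneg_left (hx1 hx) (abs_nonneg _)
  have hsum : ∀ x ∈ Bl, ∫⁻ l in Ioi (0 : ℝ), g l x ≤ ENNReal.ofReal (C * ∑ j ∈ J, a j *
      (R j ^ 2 + R j ^ 2 * min (R j ^ (-(2 * (1 - b)))) (yy x ^ (-(2 * (1 - b)))) +
        R j ^ (2 * b) * Real.exp (-yy x / (8 * R j)))) := by
    intro x hx
    have hy : 0 < yy x := yy_pos_iff.1 hx
    calc ∫⁻ l in Ioi (0 : ℝ), g l x
        = ∫⁻ l in Ioi (0 : ℝ), ∑ j ∈ J, ENNReal.ofReal (a j) *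
            ENNReal.ofReal (l ^ (-b) * bar l (R j) (yy x)) := by
          refine setLIntegral_congr_fun measurableSet_Ioi fun l hl => ?_
          have hl0 : (0 : ℝ) < l := hl
          have hlb : 0 ≤ l ^ (-b) := Real.rpow_nonneg hl0.le _
          show ENNReal.ofReal _ = _
          rw [abs_of_nonneg hlb, Finset.mul_sum, ENNReal.ofReal_sum_of_nonneg]
          · refine Finset.sum_congr rfl fun j hj => ?_
            rw [← ENNReal.ofReal_mul (haR j hj).1]
            congr 1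
            ring
          · intro j hj
            have := bar_nonneg hl0.le (haR j hj).2.1 hy.le
            have := (haR j hj).1
            positivity
      _ = ∑ j ∈ J, ENNReal.ofReal (a j) *
            ∫⁻ l in Ioi (0 : ℝ), ENNReal.ofReal (l ^ (-b) * bar l (R j) (yy x)) := by
          rw [lintegral_finsetSum]
          · refine Finset.sum_congr rfl fun j _ => ?_
            rw [lintegral_const_mul' _ _ ENNReal.ofReal_ne_top]
          · intro j _
            refine Measurable.const_mul (ENNReal.measurable_ofReal.comp ?_) _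
            refine Measurable.mul (by fun_prop) ?_
            exact (bar_meas (R j)).comp (measurable_id.prodMk measurable_const)
      _ ≤ ∑ j ∈ J, ENNReal.ofReal (a j) * ENNReal.ofReal (C *
            (R j ^ 2 + R j ^ 2 * min (R j ^ (-(2 * (1 - b)))) (yy x ^ (-(2 * (1 - b)))) +
            R j ^ (2 * b) * Real.exp (-yy x / (8 * R j)))) := by
          refine Finset.sum_le_sum fun j hj => ?_
          gcongr
          exact hC (R j) (yy x) (haR j hj).2.1 (haR j hj).2.2 hy (yy_le_half x)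
      _ = _ := by
          have hnn : ∀ j ∈ J, 0 ≤ R j ^ 2 + R j ^ 2 * min (R j ^ (-(2 * (1 - b))))
              (yy x ^ (-(2 * (1 - b)))) + R j ^ (2 * b) * Real.exp (-yy x / (8 * R j)) := by
            intro j hj
            have r0 := (haR j hj).2.1
            have : 0 ≤ min (R j ^ (-(2 * (1 - b)))) (yy x ^ (-(2 * (1 - b)))) :=
              le_min (Real.rpow_nonneg r0.le _) (Real.rpow_nonneg hy.le _)
            positivity
          rw [Finset.mul_sum, ENNReal.ofReal_sum_of_nonneg]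
          · refine Finset.sum_congr rfl fun j hj => ?_
            rw [← ENNReal.ofReal_mul (haR j hj).1]
            congr 1
            ring
          · intro j hj
            have := hnn j hj
            have := (haR j hj).1
            positivity
  have hsm := Lp.coeFn_smul (kb b)⁻¹ (∫ l in Ioi (0 : ℝ), F l : L2)
  filter_upwards [hb 0, hb 1, hb 2, hsm] with x b0 b1 b2 hs hx
  have hy : 0 < yy x := yy_pos_iff.1 hx
  set Z := ∑ j ∈ J, a j * (R j ^ 2 + R j ^ 2 * min (R j ^ (-(2 * (1 - b))))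
        (yy x ^ (-(2 * (1 - b)))) + R j ^ (2 * b) * Real.exp (-yy x / (8 * R j))) with hZ
  have hZ0 : 0 ≤ Z := by
    refine Finset.sum_nonneg fun j hj => ?_
    have r0 := (haR j hj).2.1
    have := (haR j hj).1
    have : 0 ≤ min (R j ^ (-(2 * (1 - b)))) (yy x ^ (-(2 * (1 - b)))) :=
      le_min (Real.rpow_nonneg r0.le _) (Real.rpow_nonneg hy.le _)
    positivity
  have hc : ∀ i : Fin 3, |(∫ l in Ioi (0 : ℝ), F l : L2) x i| ≤ C * Z := by
    intro i
    have h4 : ENNReal.ofReal |(∫ l in Ioi (0 : ℝ), F l : L2) x i| ≤ ENNReal.ofReal (C * Z) := by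
      fin_cases i
      · exact (b0 hx).trans (hsum x hx)
      · exact (b1 hx).trans (hsum x hx)
      · exact (b2 hx).trans (hsum x hx)
    exact (ENNReal.ofReal_le_ofReal_iff (by positivity)).1 h4
  have h5 : negPow Bl b f x = (kb b)⁻¹ • (∫ l in Ioi (0 : ℝ), F l : L2) x := hs
  rw [h5, norm_smul, Real.norm_eq_abs, abs_of_pos (inv_pos.2 hk)]
  have h6 := A12_norm_le _ hc
  have h7 := mul_le_mul_of_nonneg_left h6 (inv_pos.2 hk).le
  calc _ ≤ (kb b)⁻¹ * (3 * (C * Z)) := h7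
    _ = _ := by ring

/-- LEMMA L. -/
theorem lemmaL {b r : ℝ} (h0 : 0 < b) (h1 : b < 1) (hr : 1 ≤ r) (hbr : 1 < 2 * (1 - b) * r) :
    ∃ C : ℝ, 0 ≤ C ∧ ∀ (f : L2), Swirl f → ∀ (J : Finset ℕ) (a R : ℕ → ℝ),
    (∀ j ∈ J, 0 ≤ a j ∧ 0 < R j ∧ R j ≤ 1 / 8) →
    (∀ᵐ x ∂(volume : Measure E3), x ∈ Bl → ‖f x‖ ≤ ∑ j ∈ J, a j * Real.exp (-yy x / R j)) →
    eLpNorm (negPow Bl b f) (ENNReal.ofReal r) volume ≤
      ENNReal.ofReal (C * ∑ j ∈ J, a j * R j ^ (2 * b + 1 / r)) := by
  obtain ⟨C1, hC1, H1⟩ := negPow_le_bar h0 h1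
  obtain ⟨C2, hC2, H2⟩ := lr_bar h0 h1 hr hbr
  refine ⟨C1 * C2, by positivity, ?_⟩
  intro f hf J a R haR hfa
  have hBl : MeasurableSet Bl := Metric.isOpen_ball.measurableSet
  have hyy : Measurable yy := by
    have : Continuous yy := by
      unfold yy
      fun_prop
    exact this.measurable
  set G : ℕ → E3 → ℝ := fun j => Bl.indicator fun x => R j ^ 2 + R j ^ 2 *
    min (R j ^ (-(2 * (1 - b)))) (yy x ^ (-(2 * (1 - b)))) +
      R j ^ (2 * b) * Real.exp (-yy x / (8 * R j)) with hG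
  have hGm : ∀ j, AEStronglyMeasurable (G j) (volume : Measure E3) := by
    intro j
    have m : Measurable fun s : ℝ => R j ^ 2 + R j ^ 2 *
        min (R j ^ (-(2 * (1 - b)))) (s ^ (-(2 * (1 - b)))) +
        R j ^ (2 * b) * Real.exp (-s / (8 * R j)) := by fun_prop
    exact ((m.comp hyy).indicator hBl).aestronglyMeasurable
  have hp : (1 : ℝ≥0∞) ≤ ENNReal.ofReal r := by
    rw [← ENNReal.ofReal_one]
    exact ENNReal.ofReal_le_ofReal hr
  have hsup := Hs_supp (negPow_mem h0 h1 f)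
  have hle : eLpNorm (negPow Bl b f) (ENNReal.ofReal r) volume ≤
      eLpNorm (∑ j ∈ J, (C1 * a j) • G j) (ENNReal.ofReal r) volume := by
    refine eLpNorm_mono_ae ?_
    filter_upwards [H1 f hf J a R haR hfa, hsup] with x hx1 hx2
    by_cases hx : x ∈ Bl
    · refine (hx1 hx).trans ?_
      have : (∑ j ∈ J, (C1 * a j) • G j) x = C1 * ∑ j ∈ J, a j * (R j ^ 2 + R j ^ 2 *
          min (R j ^ (-(2 * (1 - b)))) (yy x ^ (-(2 * (1 - b)))) +
          R j ^ (2 * b) * Real.exp (-yy x / (8 * R j))) := by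
        rw [Finset.sum_apply, Finset.mul_sum]
        refine Finset.sum_congr rfl fun j _ => ?_
        simp only [hG, Pi.smul_apply, smul_eq_mul, indicator_of_mem hx]
        ring
      rw [this]
      exact le_abs_self _
    · rw [hx2 hx, norm_zero]
      exact norm_nonneg _
  refine hle.trans ?_
  refine (eLpNorm_sum_le (fun j _ => (hGm j).const_smul _) hp).trans ?_
  have h3 : ∀ j ∈ J, eLpNorm ((C1 * a j) • G j) (ENNReal.ofReal r) volume ≤
      ENNReal.ofReal ((C1 * a j) * (C2 * R j ^ (2 * b + 1 / r))) := by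
    intro j hj
    have ha := (haR j hj).1
    rw [eLpNorm_const_smul, Real.enorm_of_nonneg (by positivity),
      ENNReal.ofReal_mul (p := C1 * a j) (by positivity)]
    gcongr
    exact H2 (R j) (haR j hj).2.1 (haR j hj).2.2
  refine (Finset.sum_le_sum h3).trans ?_
  rw [← ENNReal.ofReal_sum_of_nonneg]
  · apply ENNReal.ofReal_le_ofReal
    apply le_of_eq
    rw [Finset.mul_sum]
    refine Finset.sum_congr rfl fun j _ => ?_
    ring
  · intro j hj
    have ha := (haR j hj).1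
    have := (haR j hj).2.1
    positivity

/-- The one-scale version. -/
theorem lemmaL_one {b r : ℝ} (h0 : 0 < b) (h1 : b < 1) (hr : 1 ≤ r) (hbr : 1 < 2 * (1 - b) * r) :
    ∃ C : ℝ, 0 ≤ C ∧ ∀ (f : L2), Swirl f → ∀ a R : ℝ, 0 ≤ a → 0 < R → R ≤ 1 / 8 →
    (∀ᵐ x ∂(volume : Measure E3), x ∈ Bl → ‖f x‖ ≤ a * Real.exp (-yy x / R)) →
    eLpNorm (negPow Bl b f) (ENNReal.ofReal r) volume ≤
      ENNReal.ofReal (C * (a * R ^ (2 * b + 1 / r))) := by
  obtain ⟨C, hC, h⟩ := lemmaL h0 h1 hr hbr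
  refine ⟨C, hC, fun f hf a R ha hR hR1 hfa => ?_⟩
  have := h f hf {0} (fun _ => a) (fun _ => R) (fun _ _ => ⟨ha, hR, hR1⟩) (by simpa using hfa)
  simpa using this

end Pool.Agent.W_332fe5
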