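import Pool.Agent.W_332fe5.O.A8b

set_option autoImplicit false

/-! Block 1, A13: swirl fields `f m` with scalar `f`. -/

open MeasureTheory Set Filter Topology
open scoped ENNReal NNReal

namespace Pool.Agent.W_332fe5

/-- The reflection of `x` is a rotation of `x`; so rotation invariant functions are even under the
reflection. -/
theorem exists_rot_sg (x : E3) : ∃ a : ℝ, sg x = rot a x := by
  set z : ℂ := ⟨x 0, x 1⟩ with hz
  by_cases h0 : z = 0
  · have h1 : x 0 = 0 := by
      have := congrArg Complex.re h0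
      simpa [hz] using this
    have h2 : x 1 = 0 := by
      have := congrArg Complex.im h0
      simpa [hz] using this
    refine ⟨0, ?_⟩
    rw [rot_zero]
    ext i
    fin_cases i <;> simp [sg, h2]
  · refine ⟨-(2 * z.arg), ?_⟩
    have hn : 0 < ‖z‖ := norm_pos_iff.2 h0
    have hc : ‖z‖ * Real.cos z.arg = x 0 := by
      have := Complex.norm_mul_cos_arg z
      simpa [hz] using this
    have hs : ‖z‖ * Real.sin z.arg = x 1 := by
      have := Complex.norm_mul_sin_arg z
      simpa [hz] using this
    have hsc := Real.sin_sq_add_cos_sq z.arg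
    ext i
    fin_cases i
    · simp [sg, rot, Real.cos_neg, Real.sin_neg, Real.cos_two_mul, Real.sin_two_mul]
      rw [← hc, ← hs]
      linear_combination (-2 * ‖z‖ * Real.cos z.arg) * hsc
    · simp [sg, rot, Real.cos_neg, Real.sin_neg, Real.cos_two_mul, Real.sin_two_mul]
      rw [← hc, ← hs]
      ring
    · simp [sg, rot]

theorem sg_inv {h : E3 → ℝ} (hr : ∀ a x, h (rot a x) = h x) (x : E3) : h (sg x) = h x := by
  obtain ⟨a, ha⟩ := exists_rot_sg x
  rw [ha, hr]

theorem mm_sg (x : E3) : sg (mm (sg x)) = -mm x := by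
  ext i
  fin_cases i <;> simp [mm, sg]

/-- A bounded measurable function which is a.e. invariant under each rotation is a.e. equal to an
invariant measurable function (its average; Fubini). -/
theorem exists_inv {f : E3 → ℝ} (hf : AEStronglyMeasurable f volume) {C : ℝ}
    (_hb : ∀ x, |f x| ≤ C) (hr : ∀ a, (fun x => f (rot a x)) =ᵐ[volume] f) :
    ∃ g : E3 → ℝ, Measurable g ∧ (∀ a x, g (rot a x) = g x) ∧ f =ᵐ[volume] g := by
  set f' := hf.mk f with hf'
  have hf'm : StronglyMeasurable f' := hf.stronglyMeasurable_mk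
  have hff' : f =ᵐ[volume] f' := hf.ae_eq_mk
  have hr' : ∀ a, (fun x => f' (rot a x)) =ᵐ[volume] f' := by
    intro a
    have h1 : (fun x => f (rot a x)) =ᵐ[volume] fun x => f' (rot a x) :=
      (A8b_mp a).quasiMeasurePreserving.ae_eq_comp hff'
    exact (h1.symm.trans (hr a)).trans hff'
  have hrm : Measurable fun z : E3 × ℝ => rot z.2 z.1 :=
    (A8_rot_smooth.continuous.comp continuous_swap).measurable
  have hm2 : StronglyMeasurable fun z : E3 × ℝ => f' (rot z.2 z.1) :=
    hf'm.comp_measurable hrm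
  refine ⟨fun x => (2 * Real.pi)⁻¹ * ∫ a in (0 : ℝ)..(2 * Real.pi), f' (rot a x), ?_, ?_, ?_⟩
  · have h1 : ∀ x, ∫ a in (0 : ℝ)..(2 * Real.pi), f' (rot a x) =
        ∫ a in Ioc (0 : ℝ) (2 * Real.pi), f' (rot a x) := fun x =>
      intervalIntegral.integral_of_le (by positivity)
    simp only [h1]
    exact (StronglyMeasurable.integral_prod_right
      (ν := volume.restrict (Ioc (0 : ℝ) (2 * Real.pi))) (f := fun x a => f' (rot a x))
      hm2).measurable.const_mul _
  · intro a x
    show (2 * Real.pi)⁻¹ * ∫ c in (0 : ℝ)..(2 * Real.pi), f' (rot c (rot a x)) =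
      (2 * Real.pi)⁻¹ * ∫ c in (0 : ℝ)..(2 * Real.pi), f' (rot c x)
    congr 1
    have h1 : ∀ c : ℝ, f' (rot c (rot a x)) = f' (rot (c + a) x) := fun c => by rw [rot_rot]
    simp only [h1]
    have h2 := intervalIntegral.integral_comp_add_right (a := 0) (b := 2 * Real.pi)
      (fun c => f' (rot c x)) a
    rw [h2, zero_add, add_comm (2 * Real.pi) a]
    have h3 := (A8_per f' x).intervalIntegral_add_eq a 0
    rw [h3, zero_add]
  · have hset : MeasurableSet {z : E3 × ℝ | f' (rot z.2 z.1) = f' z.1} :=
      measurableSet_eq_fun hm2.measurable (hf'm.measurable.comp measurable_fst)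
    have h1 : ∀ᵐ z ∂((volume : Measure ℝ).restrict (Ioc (0 : ℝ) (2 * Real.pi))).prod
        (volume : Measure E3), f' (rot z.1 z.2) = f' z.2 := by
      have hset' : MeasurableSet {z : ℝ × E3 | f' (rot z.1 z.2) = f' z.2} :=
        measurable_swap hset
      rw [Measure.ae_prod_iff_ae_ae hset']
      exact Eventually.of_forall fun a => hr' a
    have h2 : ∀ᵐ z ∂(volume : Measure E3).prod
        ((volume : Measure ℝ).restrict (Ioc (0 : ℝ) (2 * Real.pi))), f' (rot z.2 z.1) = f' z.1 := by
      rw [← Measure.prod_swap]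
      rw [ae_map_iff measurable_swap.aemeasurable hset]
      exact h1
    have h3 := Measure.ae_ae_of_ae_prod h2
    filter_upwards [h3, hff'] with x hx hx2
    rw [hx2, intervalIntegral.integral_of_le (by positivity)]
    rw [integral_congr_ae hx, integral_const]
    simp only [MeasurableSet.univ, measureReal_restrict_apply, univ_inter, Real.volume_real_Ioc,
      sub_zero, smul_eq_mul]
    rw [max_eq_left (by positivity), ← mul_assoc, inv_mul_cancel₀ (by positivity), one_mul]

theorem A13_mm_le {x : E3} (hx : x ∈ Bl) : ‖mm x‖ ≤ 1 := by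
  have h1 : ‖x‖ < 1 := by simpa [Bl] using hx
  have h2 := norm_mm_sq x
  have h3 := ax2_le x
  nlinarith [norm_nonneg (mm x), norm_nonneg x]

theorem memLp_fmm {f : E3 → ℝ} (hf : AEStronglyMeasurable f volume) {C : ℝ} (hb : ∀ x, |f x| ≤ C)
    (p : ℝ≥0∞) : MemLp (Bl.indicator fun x => f x • mm x) p (volume : Measure E3) := by
  have hBl : MeasurableSet Bl := Metric.isOpen_ball.measurableSet
  have hC : 0 ≤ C := (abs_nonneg _).trans (hb 0)
  have hmeas : AEStronglyMeasurable (Bl.indicator fun x => f x • mm x) (volume : Measure E3) :=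
    (hf.smul (A8b_mmL.continuous.aestronglyMeasurable)).indicator hBl
  have hbd : MemLp (Bl.indicator fun _ : E3 => C) p (volume : Measure E3) :=
    memLp_indicator_const p hBl C (Or.inr (by
      have : volume (Metric.ball (0 : E3) 1) < ∞ := measure_ball_lt_top
      exact this.ne))
  refine hbd.mono hmeas (Eventually.of_forall fun x => ?_)
  by_cases hx : x ∈ Bl
  · rw [indicator_of_mem hx, indicator_of_mem hx, norm_smul, Real.norm_eq_abs, Real.norm_eq_abs,
      abs_of_nonneg hC]
    calc |f x| * ‖mm x‖ ≤ C * 1 :=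
          mul_le_mul (hb x) (A13_mm_le hx) (norm_nonneg _) hC
      _ = C := mul_one C
  · rw [indicator_of_notMem hx, indicator_of_notMem hx, norm_zero, norm_zero]

theorem A13_mem_rot (a : ℝ) (x : E3) : rot a x ∈ Bl ↔ x ∈ Bl := by
  simp [Bl, norm_rot]

theorem A13_mem_sg (x : E3) : sg x ∈ Bl ↔ x ∈ Bl := by
  have : ‖sg x‖ = ‖x‖ := sgE.norm_map x
  simp [Bl, this]

theorem A13_mp_sg : MeasurePreserving sg (volume : Measure E3) volume :=
  sgE.measurePreserving

theorem Swirl_fmm {f : E3 → ℝ} (hf : AEStronglyMeasurable f volume) {C : ℝ} (hb : ∀ x, |f x| ≤ C)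
    (hr : ∀ a, (fun x => f (rot a x)) =ᵐ[volume] f) :
    Swirl (toL2 (Bl.indicator fun x => f x • mm x)) := by
  obtain ⟨g, hg1, hg2, hg3⟩ := exists_inv hf hb hr
  have h1 : toL2 (Bl.indicator fun x => f x • mm x) =ᵐ[volume]
      Bl.indicator fun x => g x • mm x := by
    refine (toL2_coe (memLp_fmm hf hb 2)).trans ?_
    filter_upwards [hg3] with x hx
    by_cases hx' : x ∈ Bl
    · rw [indicator_of_mem hx', indicator_of_mem hx', hx]
    · rw [indicator_of_notMem hx', indicator_of_notMem hx']
  set G : E3 → E3 := Bl.indicator fun x => g x • mm x with hG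
  set u := toL2 (Bl.indicator fun x => f x • mm x) with hu
  refine ⟨fun a => ?_, ?_⟩
  · have h2 : rotF a u =ᵐ[volume] rotF a G := by
      have h3 : (fun x => u (rot (-a) x)) =ᵐ[volume] fun x => G (rot (-a) x) :=
        (A8b_mp (-a)).quasiMeasurePreserving.ae_eq_comp h1
      filter_upwards [h3] with x hx
      show rot a (u (rot (-a) x)) = rot a (G (rot (-a) x))
      rw [hx]
    refine h2.trans (EventuallyEq.trans ?_ h1.symm)
    refine Eventually.of_forall fun x => ?_
    show rot a (G (rot (-a) x)) = G x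
    by_cases hx : x ∈ Bl
    · have hx' : rot (-a) x ∈ Bl := (A13_mem_rot _ _).2 hx
      rw [hG, indicator_of_mem hx', indicator_of_mem hx]
      show rot a (g (rot (-a) x) • mm (rot (-a) x)) = g x • mm x
      rw [hg2, ← rotE_apply, map_smul, rotE_apply, ← mm_rot, rot_rot, add_neg_cancel, rot_zero]
    · have hx' : rot (-a) x ∉ Bl := fun h => hx ((A13_mem_rot _ _).1 h)
      rw [hG, indicator_of_notMem hx', indicator_of_notMem hx, ← rotE_apply, map_zero]
  · have h2 : sgF u =ᵐ[volume] sgF G := by
      have h3 : (fun x => u (sg x)) =ᵐ[volume] fun x => G (sg x) :=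
        A13_mp_sg.quasiMeasurePreserving.ae_eq_comp h1
      filter_upwards [h3] with x hx
      show sg (u (sg x)) = sg (G (sg x))
      rw [hx]
    refine h2.trans ?_
    filter_upwards [h1] with x hx1
    rw [hx1]
    show sg (G (sg x)) = -G x
    by_cases hx : x ∈ Bl
    · have hx' : sg x ∈ Bl := (A13_mem_sg _).2 hx
      rw [hG, indicator_of_mem hx', indicator_of_mem hx]
      show sg (g (sg x) • mm (sg x)) = -(g x • mm x)
      rw [sg_inv hg2, ← sgE_apply, map_smul, sgE_apply, mm_sg, smul_neg]
    · have hx' : sg x ∉ Bl := fun h => hx ((A13_mem_sg _).1 h)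
      rw [hG, indicator_of_notMem hx', indicator_of_notMem hx, ← sgE_apply, map_zero, neg_zero]

/-- The swirl `Γ = u · m` of a rotation invariant `u` is invariant. -/
theorem Gam_inv {u : L2} (hu : RotInv u) (a : ℝ) :
    (fun x => inner ℝ (u (rot a x)) (mm (rot a x))) =ᵐ[volume] fun x => inner ℝ (u x) (mm x) := by
  have h1 : (fun x => rotF a u (rot a x)) =ᵐ[volume] fun x => u (rot a x) :=
    (A8b_mp a).quasiMeasurePreserving.ae_eq_comp (hu a)
  filter_upwards [h1] with x hx
  have h2 : rotF a u (rot a x) = rot a (u x) := by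
    show rot a (u (rot (-a) (rot a x))) = rot a (u x)
    rw [rot_rot, neg_add_cancel, rot_zero]
  rw [← hx, h2, mm_rot, inner_rot]

end Pool.Agent.W_332fe5
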