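import Pool.Agent.W_332fe5.O.A4
import Pool.Agent.W_332fe5.O.A0b

set_option autoImplicit false

/-! Block 1, A5: regularity of `A^(-b) f` for `b > 3/8`. -/

open MeasureTheory Set Filter Topology
open scoped ENNReal NNReal

namespace Pool.Agent.W_332fe5

private theorem A5_lint_sq (f : L2) : ∫⁻ x, ‖f x‖ₑ ^ 2 = ENNReal.ofReal (‖f‖ ^ 2) := by
  have h := eLpNorm_nnreal_pow_eq_lintegral (μ := (volume : Measure E3)) (f := (f : E3 → E3))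
    (p := 2) (by norm_num)
  have h2 : eLpNorm f 2 (volume : Measure E3) = ‖f‖ₑ := (Lp.enorm_def f).symm
  have h3 : ((2 : ℝ≥0) : ℝ) = ((2 : ℕ) : ℝ) := by norm_num
  have h4 : ((2 : ℝ≥0) : ℝ≥0∞) = 2 := by norm_num
  rw [h4, h2, h3] at h
  simp only [ENNReal.rpow_natCast] at h
  rw [← h, ← ofReal_norm, ENNReal.ofReal_pow (norm_nonneg _)]

private theorem A5_yy_pos {x : E3} (hx : x ∈ Bl) : 0 < yy x := by
  unfold Bl at hx
  rw [mem_ball_zero_iff] at hx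
  unfold yy
  have h0 := norm_nonneg x
  have h1 : ‖x‖ ^ 2 < 1 := by nlinarith
  linarith

private theorem A5_yy_meas : Measurable yy := by
  unfold yy
  exact ((continuous_const.sub (continuous_norm.pow 2)).div_const 2).measurable

private theorem A5_Bl_meas : MeasurableSet Bl := Metric.isOpen_ball.measurableSet

/-- `∫ |v|² y^(-3/2) ≤ 4 ‖f‖² (l + 1)^(-5/4)`, `v = R(l) f`.
Proof: Hölder with exponents 4, 4/3:
`∫ |v|² y^(-3/2) ≤ (∫ |v|²)^(1/4) (∫ |v|² y^(-2))^(3/4)`, `‖v‖ ≤ ‖f‖ / (l + 1)` (`norm_res_le`) and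
`∫ |v|² y^(-2) ≤ 4 ‖∇v‖² ≤ 4 ‖f‖² / (l + 1)` (`hardy_V`, `grad_res_le`); `4^(3/4) ≤ 4`. -/
theorem hardy_res {l : ℝ} (hl : 0 ≤ l) (f : L2) :
    ∫⁻ x in Bl, ‖res Bl l f x‖ₑ ^ 2 * ENNReal.ofReal (yy x ^ (-(3 / 2) : ℝ)) ≤
      ENNReal.ofReal (4 * ‖f‖ ^ 2 * (l + 1) ^ (-(5 / 4) : ℝ)) := by
  obtain ⟨G, hG, hGle⟩ := grad_res_le hl f
  have hL : 0 < l + 1 := by linarith
  set v := res Bl l f with hv
  have hvm : Measurable fun x => ‖v x‖ₑ ^ 2 := (Lp.stronglyMeasurable v).enorm.pow_const 2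
  have hym : Measurable fun x => ENNReal.ofReal (yy x ^ (-2 : ℝ)) :=
    (A5_yy_meas.pow_const _).ennreal_ofReal
  have h1 : ∫⁻ x in Bl, ‖v x‖ₑ ^ 2 * ENNReal.ofReal (yy x ^ (-(3 / 2) : ℝ)) =
      ∫⁻ x in Bl, (‖v x‖ₑ ^ 2) ^ (1 / 4 : ℝ) *
        (‖v x‖ₑ ^ 2 * ENNReal.ofReal (yy x ^ (-2 : ℝ))) ^ (3 / 4 : ℝ) := by
    refine setLIntegral_congr_fun A5_Bl_meas fun x hx => ?_
    have hy := A5_yy_pos hx
    show ‖v x‖ₑ ^ 2 * ENNReal.ofReal (yy x ^ (-(3 / 2) : ℝ)) = (‖v x‖ₑ ^ 2) ^ (1 / 4 : ℝ) *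
        (‖v x‖ₑ ^ 2 * ENNReal.ofReal (yy x ^ (-2 : ℝ))) ^ (3 / 4 : ℝ)
    rw [ENNReal.mul_rpow_of_nonneg _ _ (by norm_num : (0 : ℝ) ≤ 3 / 4), ← mul_assoc,
      ← ENNReal.rpow_add_of_nonneg _ _ (by norm_num) (by norm_num),
      ENNReal.ofReal_rpow_of_pos (Real.rpow_pos_of_pos hy _), ← Real.rpow_mul hy.le]
    norm_num
  rw [h1]
  refine (ENNReal.lintegral_mul_norm_pow_le hvm.aemeasurable (hvm.mul hym).aemeasurable
    (by norm_num : (0 : ℝ) ≤ 1 / 4) (by norm_num : (0 : ℝ) ≤ 3 / 4) (by norm_num)).trans ?_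
  have h2 : ∫⁻ x in Bl, ‖v x‖ₑ ^ 2 ≤ ENNReal.ofReal (‖f‖ ^ 2 * (l + 1) ^ (-2 : ℝ)) := by
    refine (setLIntegral_le_lintegral _ _).trans ?_
    rw [A5_lint_sq]
    refine ENNReal.ofReal_le_ofReal ?_
    have h3 := norm_res_le hl f
    rw [← hv] at h3
    have h4 : ‖v‖ ^ 2 ≤ (‖f‖ / (l + 1)) ^ 2 := pow_le_pow_left₀ (norm_nonneg _) h3 2
    refine h4.trans (le_of_eq ?_)
    rw [Real.rpow_neg hL.le, div_pow, div_eq_mul_inv]
    norm_cast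
  have h3 : ∫⁻ x in Bl, ‖v x‖ₑ ^ 2 * ENNReal.ofReal (yy x ^ (-2 : ℝ)) ≤
      ENNReal.ofReal (4 * (‖f‖ ^ 2 * (l + 1) ^ (-1 : ℝ))) := by
    refine (hardy_V hG).trans ?_
    rw [ENNReal.ofReal_mul (by norm_num)]
    refine mul_le_mul' (by norm_num) (ENNReal.ofReal_le_ofReal (hGle.trans (le_of_eq ?_)))
    rw [Real.rpow_neg hL.le, Real.rpow_one, div_eq_mul_inv]
  refine (mul_le_mul' (ENNReal.rpow_le_rpow h2 (by norm_num))
    (ENNReal.rpow_le_rpow h3 (by norm_num))).trans ?_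
  have hM : 0 ≤ ‖f‖ ^ 2 := sq_nonneg _
  have hp2 : 0 < (l + 1) ^ (-2 : ℝ) := Real.rpow_pos_of_pos hL _
  have hp1 : 0 < (l + 1) ^ (-1 : ℝ) := Real.rpow_pos_of_pos hL _
  rw [ENNReal.ofReal_rpow_of_nonneg (by positivity) (by norm_num),
    ENNReal.ofReal_rpow_of_nonneg (by positivity) (by norm_num), ← ENNReal.ofReal_mul (by positivity)]
  refine ENNReal.ofReal_le_ofReal ?_
  rw [Real.mul_rpow hM hp2.le, Real.mul_rpow (by norm_num) (by positivity),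
    Real.mul_rpow hM hp1.le, ← Real.rpow_mul hL.le, ← Real.rpow_mul hL.le]
  have e1 : (‖f‖ ^ 2) ^ (1 / 4 : ℝ) * (‖f‖ ^ 2) ^ (3 / 4 : ℝ) = ‖f‖ ^ 2 := by
    rw [← Real.rpow_add_of_nonneg hM (by norm_num) (by norm_num)]
    norm_num
  have e2 : (l + 1) ^ ((-2 : ℝ) * (1 / 4)) * (l + 1) ^ ((-1 : ℝ) * (3 / 4)) =
      (l + 1) ^ (-(5 / 4) : ℝ) := by
    rw [← Real.rpow_add hL]
    norm_num
  have e3 : (4 : ℝ) ^ (3 / 4 : ℝ) ≤ 4 := by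
    calc (4 : ℝ) ^ (3 / 4 : ℝ) ≤ (4 : ℝ) ^ (1 : ℝ) :=
          Real.rpow_le_rpow_of_exponent_le (by norm_num) (by norm_num)
      _ = 4 := Real.rpow_one _
  calc (‖f‖ ^ 2) ^ (1 / 4 : ℝ) * (l + 1) ^ ((-2 : ℝ) * (1 / 4)) *
        ((4 : ℝ) ^ (3 / 4 : ℝ) * ((‖f‖ ^ 2) ^ (3 / 4 : ℝ) * (l + 1) ^ ((-1 : ℝ) * (3 / 4))))
      = (4 : ℝ) ^ (3 / 4 : ℝ) * (((‖f‖ ^ 2) ^ (1 / 4 : ℝ) * (‖f‖ ^ 2) ^ (3 / 4 : ℝ)) *
        ((l + 1) ^ ((-2 : ℝ) * (1 / 4)) * (l + 1) ^ ((-1 : ℝ) * (3 / 4)))) := by ring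
    _ = (4 : ℝ) ^ (3 / 4 : ℝ) * (‖f‖ ^ 2 * (l + 1) ^ (-(5 / 4) : ℝ)) := by rw [e1, e2]
    _ ≤ 4 * (‖f‖ ^ 2 * (l + 1) ^ (-(5 / 4) : ℝ)) :=
        mul_le_mul_of_nonneg_right e3 (mul_nonneg hM (Real.rpow_pos_of_pos hL _).le)
    _ = _ := by ring

private theorem A5_le_geom {t a b : ℝ} (ht : 0 ≤ t) (ha : t ≤ a) (hb : t ≤ b) :
    t ≤ a ^ (1 / 4 : ℝ) * b ^ (3 / 4 : ℝ) := by
  calc t = t ^ (1 / 4 : ℝ) * t ^ (3 / 4 : ℝ) := by
        rw [← Real.rpow_add_of_nonneg ht (by norm_num) (by norm_num)]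
        norm_num
    _ ≤ _ := mul_le_mul (Real.rpow_le_rpow ht ha (by norm_num))
        (Real.rpow_le_rpow ht hb (by norm_num)) (Real.rpow_nonneg ht _)
        (Real.rpow_nonneg (ht.trans ha) _)

/-- translation by `z` on `L²` minus the identity -/
private noncomputable def A5_D (z : E3) : L2 →L[ℝ] L2 :=
  (Lp.compMeasurePreservingₗᵢ ℝ (fun x : E3 => x + z)
    (measurePreserving_add_right volume z)).toContinuousLinearMap - ContinuousLinearMap.id ℝ L2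

private theorem A5_D_coe (z : E3) (f : L2) :
    (A5_D z f : L2) =ᵐ[volume] fun x => f (x + z) - f x := by
  have h1 : A5_D z f = Lp.compMeasurePreserving (fun x : E3 => x + z)
      (measurePreserving_add_right volume z) f - f := rfl
  rw [h1]
  filter_upwards [Lp.coeFn_sub (Lp.compMeasurePreserving (fun x : E3 => x + z)
      (measurePreserving_add_right volume z) f) f,
    Lp.coeFn_compMeasurePreserving f (measurePreserving_add_right (volume : Measure E3) z)]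
    with x hx1 hx2
  rw [hx1, Pi.sub_apply, hx2]
  rfl

private theorem A5_D_norm (z : E3) (f : L2) :
    eLpNorm (fun x => f (x + z) - f x) 2 volume = ENNReal.ofReal ‖A5_D z f‖ := by
  rw [← eLpNorm_congr_ae (A5_D_coe z f), ofReal_norm, Lp.enorm_def]

private theorem A5_D_norm_le (z : E3) (f : L2) : ‖A5_D z f‖ ≤ 2 * ‖f‖ := by
  have h1 : A5_D z f = Lp.compMeasurePreserving (fun x : E3 => x + z)
      (measurePreserving_add_right volume z) f - f := rfl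
  rw [h1]
  refine (norm_sub_le _ _).trans ?_
  rw [Lp.norm_compMeasurePreserving]
  linarith

private theorem A5_transl {l : ℝ} (hl : 0 ≤ l) (f : L2) (z : E3) :
    ‖A5_D z (res Bl l f)‖ ≤ 2 * ‖z‖ ^ (3 / 4 : ℝ) * ‖f‖ * (l + 1) ^ (-(5 / 8) : ℝ) := by
  obtain ⟨G, hG, hGle⟩ := grad_res_le hl f
  have hL : 0 < l + 1 := by linarith
  have h1 : ‖A5_D z (res Bl l f)‖ ≤ 2 * (‖f‖ * (l + 1) ^ (-1 : ℝ)) := by
    refine (A5_D_norm_le z _).trans ?_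
    have := norm_res_le hl f
    rw [Real.rpow_neg hL.le, Real.rpow_one, ← div_eq_mul_inv]
    linarith
  have h2 : ‖A5_D z (res Bl l f)‖ ≤ ‖z‖ * (‖f‖ * (l + 1) ^ (-(1 / 2) : ℝ)) := by
    have h3 := transl_V hG z
    rw [A5_D_norm, ENNReal.ofReal_le_ofReal_iff (by positivity)] at h3
    refine h3.trans (mul_le_mul_of_nonneg_left ?_ (norm_nonneg _))
    refine (Real.sqrt_le_sqrt hGle).trans (le_of_eq ?_)
    rw [Real.sqrt_div' _ hL.le, Real.sqrt_sq (norm_nonneg _), Real.rpow_neg hL.le,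
      ← Real.sqrt_eq_rpow, div_eq_mul_inv]
  have h4 := A5_le_geom (norm_nonneg _) h1 h2
  refine h4.trans ?_
  have hf := norm_nonneg f
  have hz := norm_nonneg z
  have p1 : 0 < (l + 1) ^ (-1 : ℝ) := Real.rpow_pos_of_pos hL _
  have p2 : 0 < (l + 1) ^ (-(1 / 2) : ℝ) := Real.rpow_pos_of_pos hL _
  rw [Real.mul_rpow (by norm_num) (by positivity), Real.mul_rpow hf p1.le,
    Real.mul_rpow hz (by positivity), Real.mul_rpow hf p2.le, ← Real.rpow_mul hL.le,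
    ← Real.rpow_mul hL.le]
  have e1 : ‖f‖ ^ (1 / 4 : ℝ) * ‖f‖ ^ (3 / 4 : ℝ) = ‖f‖ := by
    rw [← Real.rpow_add_of_nonneg hf (by norm_num) (by norm_num)]
    norm_num
  have e2 : (l + 1) ^ ((-1 : ℝ) * (1 / 4)) * (l + 1) ^ ((-(1 / 2) : ℝ) * (3 / 4)) =
      (l + 1) ^ (-(5 / 8) : ℝ) := by
    rw [← Real.rpow_add hL]
    norm_num
  have e3 : (2 : ℝ) ^ (1 / 4 : ℝ) ≤ 2 := by
    calc (2 : ℝ) ^ (1 / 4 : ℝ) ≤ (2 : ℝ) ^ (1 : ℝ) :=
          Real.rpow_le_rpow_of_exponent_le (by norm_num) (by norm_num)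
      _ = 2 := Real.rpow_one _
  calc (2 : ℝ) ^ (1 / 4 : ℝ) * (‖f‖ ^ (1 / 4 : ℝ) * (l + 1) ^ ((-1 : ℝ) * (1 / 4))) *
        (‖z‖ ^ (3 / 4 : ℝ) * (‖f‖ ^ (3 / 4 : ℝ) * (l + 1) ^ ((-(1 / 2) : ℝ) * (3 / 4))))
      = (2 : ℝ) ^ (1 / 4 : ℝ) * (‖z‖ ^ (3 / 4 : ℝ) * (‖f‖ ^ (1 / 4 : ℝ) * ‖f‖ ^ (3 / 4 : ℝ)) *
        ((l + 1) ^ ((-1 : ℝ) * (1 / 4)) * (l + 1) ^ ((-(1 / 2) : ℝ) * (3 / 4)))) := by ring
    _ = (2 : ℝ) ^ (1 / 4 : ℝ) * (‖z‖ ^ (3 / 4 : ℝ) * ‖f‖ * (l + 1) ^ (-(5 / 8) : ℝ)) := by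
        rw [e1, e2]
    _ ≤ 2 * (‖z‖ ^ (3 / 4 : ℝ) * ‖f‖ * (l + 1) ^ (-(5 / 8) : ℝ)) := by
        refine mul_le_mul_of_nonneg_right e3 ?_
        have := Real.rpow_nonneg hz (3 / 4)
        have := Real.rpow_nonneg hL.le (-(5 / 8) : ℝ)
        positivity
    _ = _ := by ring

/-- `‖v(· + z) - v‖ ≤ 2 |z|^(3/4) ‖f‖ (l + 1)^(-5/8)`, `v = R(l) f`.
Proof: `t ≤ a`, `t ≤ b` imply `t ≤ a^(1/4) b^(3/4)`; `a = 2 ‖v‖`, `b = |z| ‖∇v‖` (`transl_V`);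
`(2 ‖f‖ / (l+1))^(1/4) (|z| ‖f‖ (l+1)^(-1/2))^(3/4)`. -/
theorem transl_res {l : ℝ} (hl : 0 ≤ l) (f : L2) (z : E3) :
    eLpNorm (fun x => res Bl l f (x + z) - res Bl l f x) 2 volume ≤
      ENNReal.ofReal (2 * ‖z‖ ^ (3 / 4 : ℝ) * ‖f‖ * (l + 1) ^ (-(5 / 8) : ℝ)) := by
  rw [A5_D_norm]
  exact ENNReal.ofReal_le_ofReal (A5_transl hl f z)

/-- `∫_0^∞ l^(-b) (l + 1)^(-5/8) dl < ∞` for `3/8 < b < 1`. -/
theorem kint {b : ℝ} (h0 : 3 / 8 < b) (h1 : b < 1) :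
    IntegrableOn (fun l : ℝ => l ^ (-b) * (l + 1) ^ (-(5 / 8) : ℝ)) (Ioi 0) := by
  have hm : Measurable (fun l : ℝ => l ^ (-b) * (l + 1) ^ (-(5 / 8) : ℝ)) :=
    (measurable_id.pow_const _).mul ((measurable_id.add_const 1).pow_const _)
  rw [← Ioc_union_Ioi_eq_Ioi (zero_le_one' ℝ)]
  refine IntegrableOn.union ?_ ?_
  · have h2 : IntegrableOn (fun l : ℝ => l ^ (-b)) (Ioc 0 1) :=
      (intervalIntegrable_iff_integrableOn_Ioc_of_le zero_le_one).1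
        (intervalIntegral.intervalIntegrable_rpow' (by linarith))
    refine Integrable.mono' h2 hm.aestronglyMeasurable ?_
    refine (ae_restrict_iff' measurableSet_Ioc).2 (Eventually.of_forall fun l hl => ?_)
    have p1 : 0 ≤ l ^ (-b) := Real.rpow_nonneg hl.1.le _
    have p2 : 0 ≤ (l + 1) ^ (-(5 / 8) : ℝ) := Real.rpow_nonneg (by linarith [hl.1]) _
    have p3 : (l + 1) ^ (-(5 / 8) : ℝ) ≤ 1 :=
      Real.rpow_le_one_of_one_le_of_nonpos (by linarith [hl.1]) (by norm_num)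
    rw [Real.norm_of_nonneg (mul_nonneg p1 p2)]
    exact mul_le_of_le_one_right p1 p3
  · have h2 : IntegrableOn (fun l : ℝ => l ^ (-b - 5 / 8)) (Ioi 1) :=
      integrableOn_Ioi_rpow_of_lt (by linarith) one_pos
    refine Integrable.mono' h2 hm.aestronglyMeasurable ?_
    refine (ae_restrict_iff' measurableSet_Ioi).2 (Eventually.of_forall fun l hl => ?_)
    have hl0 : 0 < l := one_pos.trans hl
    have p1 : 0 ≤ l ^ (-b) := Real.rpow_nonneg hl0.le _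
    have p2 : 0 ≤ (l + 1) ^ (-(5 / 8) : ℝ) := Real.rpow_nonneg (by linarith) _
    have p3 : (l + 1) ^ (-(5 / 8) : ℝ) ≤ l ^ (-(5 / 8) : ℝ) :=
      Real.rpow_le_rpow_of_nonpos hl0 (by linarith) (by norm_num)
    rw [Real.norm_of_nonneg (mul_nonneg p1 p2), sub_eq_add_neg, Real.rpow_add hl0]
    exact mul_le_mul_of_nonneg_left p3 p1

private theorem A5_smul_sq (c : ℝ) (g : L2) :
    (fun x => ‖(c • g : L2) x‖ₑ ^ 2) =ᵐ[volume] fun x => ENNReal.ofReal (c ^ 2) * ‖g x‖ₑ ^ 2 := by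
  filter_upwards [Lp.coeFn_smul c g] with x hx
  rw [hx, Pi.smul_apply, enorm_smul, mul_pow]
  congr 1
  rw [← ofReal_norm, ← ENNReal.ofReal_pow (norm_nonneg _), Real.norm_eq_abs, sq_abs]

/-- Weighted bound for `u = A^(-b) f`.  Proof: `lint_sq_integral_le` with
`W = Bl.indicator (y^(-3/2))`, `c l = 2 ‖f‖ l^(-b) (l+1)^(-5/8)`. -/
theorem reg_hardy {b : ℝ} (h0 : 3 / 8 < b) (h1 : b < 1) : ∃ K : ℝ, 0 ≤ K ∧ ∀ f : L2,
    ∫⁻ x in Bl, ‖negPow Bl b f x‖ₑ ^ 2 * ENNReal.ofReal (yy x ^ (-(3 / 2) : ℝ)) ≤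
      ENNReal.ofReal (K * ‖f‖ ^ 2) := by
  set J := ∫ l in Ioi (0 : ℝ), l ^ (-b) * (l + 1) ^ (-(5 / 8) : ℝ) with hJ
  refine ⟨((kb b)⁻¹ * (2 * J)) ^ 2, sq_nonneg _, fun f => ?_⟩
  set W : E3 → ℝ≥0∞ := Bl.indicator fun x => ENNReal.ofReal (yy x ^ (-(3 / 2) : ℝ)) with hW
  have hWm : Measurable W := ((A5_yy_meas.pow_const _).ennreal_ofReal).indicator A5_Bl_meas
  have hWi : ∀ g : E3 → ℝ≥0∞, ∫⁻ x in Bl, g x * ENNReal.ofReal (yy x ^ (-(3 / 2) : ℝ)) =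
      ∫⁻ x, g x * W x := by
    intro g
    rw [← lintegral_indicator A5_Bl_meas]
    refine lintegral_congr fun x => ?_
    by_cases hx : x ∈ Bl
    · rw [indicator_of_mem hx, hW, indicator_of_mem hx]
    · rw [indicator_of_notMem hx, hW, indicator_of_notMem hx, mul_zero]
  have hc : IntegrableOn (fun l : ℝ => 2 * ‖f‖ * (l ^ (-b) * (l + 1) ^ (-(5 / 8) : ℝ))) (Ioi 0) :=
    (kint h0 h1).const_mul _
  have hc0 : ∀ l : ℝ, 0 < l → 0 ≤ 2 * ‖f‖ * (l ^ (-b) * (l + 1) ^ (-(5 / 8) : ℝ)) := by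
    intro l hl
    have p1 : 0 ≤ l ^ (-b) := Real.rpow_nonneg hl.le _
    have p2 : 0 ≤ (l + 1) ^ (-(5 / 8) : ℝ) := Real.rpow_nonneg (by linarith) _
    positivity
  have hF := negPow_integrable (by linarith : (0 : ℝ) < b) h1 f
  have h2 := lint_sq_integral_le hF hWm hc hc0 (by
    intro l hl
    have hL : 0 < l + 1 := by linarith
    have e1 : ∫⁻ x, ‖(l ^ (-b) • res Bl l f : L2) x‖ₑ ^ 2 * W x =
        ENNReal.ofReal ((l ^ (-b)) ^ 2) * ∫⁻ x, ‖res Bl l f x‖ₑ ^ 2 * W x := by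
      rw [← lintegral_const_mul' _ _ ENNReal.ofReal_ne_top]
      refine lintegral_congr_ae ?_
      filter_upwards [A5_smul_sq (l ^ (-b)) (res Bl l f)] with x hx
      rw [hx, mul_assoc]
    rw [e1, ← hWi fun x => ‖res Bl l f x‖ₑ ^ 2]
    refine (mul_le_mul' le_rfl (hardy_res hl.le f)).trans ?_
    rw [← ENNReal.ofReal_mul (sq_nonneg _)]
    refine ENNReal.ofReal_le_ofReal (le_of_eq ?_)
    have e2 : (l + 1) ^ (-(5 / 4) : ℝ) = ((l + 1) ^ (-(5 / 8) : ℝ)) ^ 2 := by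
      rw [← Real.rpow_natCast, ← Real.rpow_mul hL.le]
      norm_num
    rw [e2]
    ring)
  rw [integral_const_mul] at h2
  rw [hWi fun x => ‖negPow Bl b f x‖ₑ ^ 2, negPow_def]
  have e3 : ∫⁻ x, ‖((kb b)⁻¹ • ∫ l in Ioi (0 : ℝ), (l ^ (-b)) • res Bl l f : L2) x‖ₑ ^ 2 * W x =
      ENNReal.ofReal ((kb b)⁻¹ ^ 2) *
        ∫⁻ x, ‖(∫ l in Ioi (0 : ℝ), (l ^ (-b)) • res Bl l f : L2) x‖ₑ ^ 2 * W x := by
    rw [← lintegral_const_mul' _ _ ENNReal.ofReal_ne_top]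
    refine lintegral_congr_ae ?_
    filter_upwards [A5_smul_sq (kb b)⁻¹ (∫ l in Ioi (0 : ℝ), (l ^ (-b)) • res Bl l f)] with x hx
    rw [hx, mul_assoc]
  rw [e3]
  refine (mul_le_mul' le_rfl h2).trans ?_
  rw [← ENNReal.ofReal_mul (sq_nonneg _)]
  refine ENNReal.ofReal_le_ofReal (le_of_eq ?_)
  rw [← hJ]
  ring

/-- Translation bound for `u = A^(-b) f`.  Proof: translation by `z` is a linear isometry of
`L²`; it commutes with the Bochner integral; `norm_integral_le_of_norm_le`, `transl_res`. -/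
theorem reg_transl {b : ℝ} (h0 : 3 / 8 < b) (h1 : b < 1) : ∃ K : ℝ, 0 ≤ K ∧ ∀ (f : L2) (z : E3),
    eLpNorm (fun x => negPow Bl b f (x + z) - negPow Bl b f x) 2 volume ≤
      ENNReal.ofReal (K * ‖z‖ ^ (3 / 4 : ℝ) * ‖f‖) := by
  set J := ∫ l in Ioi (0 : ℝ), l ^ (-b) * (l + 1) ^ (-(5 / 8) : ℝ) with hJ
  have hkb := kb_pos (by linarith : (0 : ℝ) < b) h1
  have hJ0 : 0 ≤ J := by
    refine setIntegral_nonneg measurableSet_Ioi fun l hl => ?_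
    have hl' : (0 : ℝ) < l := hl
    exact mul_nonneg (Real.rpow_nonneg hl'.le _) (Real.rpow_nonneg (by linarith) _)
  refine ⟨(kb b)⁻¹ * (2 * J), by positivity, fun f z => ?_⟩
  rw [A5_D_norm]
  refine ENNReal.ofReal_le_ofReal ?_
  have hF := negPow_integrable (by linarith : (0 : ℝ) < b) h1 f
  rw [negPow_def, map_smul, norm_smul, ← (A5_D z).integral_comp_comm hF,
    Real.norm_of_nonneg (inv_nonneg.2 hkb.le)]
  have h2 : ‖∫ l in Ioi (0 : ℝ), A5_D z ((l ^ (-b)) • res Bl l f)‖ ≤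
      ∫ l in Ioi (0 : ℝ), (2 * ‖z‖ ^ (3 / 4 : ℝ) * ‖f‖) *
        (l ^ (-b) * (l + 1) ^ (-(5 / 8) : ℝ)) := by
    refine norm_integral_le_of_norm_le ((kint h0 h1).const_mul _) ?_
    refine (ae_restrict_iff' measurableSet_Ioi).2 (Eventually.of_forall fun l hl => ?_)
    have hl' : (0 : ℝ) < l := hl
    have p1 : 0 ≤ l ^ (-b) := Real.rpow_nonneg hl'.le _
    rw [map_smul, norm_smul, Real.norm_of_nonneg p1]
    refine (mul_le_mul_of_nonneg_left (A5_transl hl'.le f z) p1).trans (le_of_eq ?_)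
    ring
  rw [integral_const_mul, ← hJ] at h2
  refine (mul_le_mul_of_nonneg_left h2 (inv_nonneg.2 hkb.le)).trans (le_of_eq ?_)
  ring

/-! The same for `fld`. -/

theorem fld_hardy {δ : ℝ} (h0 : -(1 / 4) < δ) (h1 : δ ≤ 0) : ∃ K : ℝ, 0 ≤ K ∧ ∀ w : L2,
    ∫⁻ x in Bl, ‖fld Bl δ w x‖ₑ ^ 2 * ENNReal.ofReal (yy x ^ (-(3 / 2) : ℝ)) ≤
      ENNReal.ofReal (K * ‖w‖ ^ 2) :=
  reg_hardy (by linarith) (by linarith)

theorem fld_transl {δ : ℝ} (h0 : -(1 / 4) < δ) (h1 : δ ≤ 0) : ∃ K : ℝ, 0 ≤ K ∧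
    ∀ (w : L2) (z : E3), eLpNorm (fun x => fld Bl δ w (x + z) - fld Bl δ w x) 2 volume ≤
      ENNReal.ofReal (K * ‖z‖ ^ (3 / 4 : ℝ) * ‖w‖) :=
  reg_transl (by linarith) (by linarith)

theorem fld_mem {δ : ℝ} (h0 : -(1 / 4) < δ) (h1 : δ ≤ 0) (w : L2) : fld Bl δ w ∈ Hs Bl :=
  negPow_mem (by linarith) (by linarith) w

theorem fld_norm {δ : ℝ} (h0 : -(1 / 4) < δ) (h1 : δ ≤ 0) (w : L2) : ‖fld Bl δ w‖ ≤ ‖w‖ :=
  norm_negPow_le (by linarith) (by linarith) w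

theorem fld_lin {δ : ℝ} (h0 : -(1 / 4) < δ) (h1 : δ ≤ 0) (w w' : L2) (a : ℝ) :
    fld Bl δ (w + a • w') = fld Bl δ w + a • fld Bl δ w' :=
  negPow_lin (by linarith) (by linarith) w w' a

theorem fld_symm {δ : ℝ} (h0 : -(1 / 4) < δ) (h1 : δ ≤ 0) (w w' : L2) :
    inner ℝ (fld Bl δ w) w' = inner ℝ w (fld Bl δ w') :=
  negPow_symm (by linarith) (by linarith) w w'

theorem fld_supp {δ : ℝ} (h0 : -(1 / 4) < δ) (h1 : δ ≤ 0) (w : L2) :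
    ∀ᵐ x ∂(volume : Measure E3), x ∉ Bl → fld Bl δ w x = 0 :=
  Hs_supp (fld_mem h0 h1 w)

theorem fld_div {δ : ℝ} (h0 : -(1 / 4) < δ) (h1 : δ ≤ 0) (w : L2) {g : E3 → ℝ}
    (hg : ContDiff ℝ 1 g) (hc : HasCompactSupport g) : ∫ x, fderiv ℝ g x (fld Bl δ w x) = 0 :=
  Hs_div (fld_mem h0 h1 w) hg hc

theorem fld_cont {δ : ℝ} (h0 : -(1 / 4) < δ) (h1 : δ ≤ 0) : Continuous (fld Bl δ) := by
  have h2 : LipschitzWith 1 (fld Bl δ) := by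
    refine LipschitzWith.of_dist_le_mul fun w w' => ?_
    rw [dist_eq_norm, dist_eq_norm]
    have h3 : fld Bl δ w - fld Bl δ w' = fld Bl δ (w - w') := by
      have h4 := fld_lin h0 h1 w w' (-1)
      rw [neg_one_smul, neg_one_smul, ← sub_eq_add_neg, ← sub_eq_add_neg] at h4
      exact h4.symm
    rw [h3]
    simpa using fld_norm h0 h1 (w - w')
  exact h2.continuous

end Pool.Agent.W_332fe5
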