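import Pool.Agent.W_332fe5.Need6
import Pool.Agent.W_332fe5.O.A5
import Pool.Agent.W_332fe5.O.A12
import Pool.Agent.W_332fe5.O.A13

set_option autoImplicit false

/-! Block 1, N1: the inputs of blocks 6 and 7 from block 1 (`Need1Lin`, `Need1Reg`, `Need1Gam`). -/

open MeasureTheory Set Filter Topology
open scoped ENNReal NNReal

namespace Pool.Agent.W_332fe5

/-- `fld` as a bounded operator. -/
noncomputable def fldL {δ : ℝ} (h0 : -(1 / 4) < δ) (h1 : δ ≤ 0) : L2 →L[ℝ] L2 :=
  LinearMap.mkContinuous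
    { toFun := fld Bl δ
      map_add' := fun w w' => by simpa using fld_lin h0 h1 w w' 1
      map_smul' := fun a w => by
        have h00 : fld Bl δ 0 = 0 := by
          have := fld_lin h0 h1 0 0 1
          simpa using this
        have := fld_lin h0 h1 0 w a
        simpa [h00] using this } 1
    (fun w => by simpa using fld_norm h0 h1 w)

theorem fldL_apply {δ : ℝ} (h0 : -(1 / 4) < δ) (h1 : δ ≤ 0) (w : L2) :
    fldL h0 h1 w = fld Bl δ w := rfl

theorem need1Lin {δ : ℝ} (h0 : -(1 / 4) < δ) (h1 : δ ≤ 0) : Need1Lin δ :=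
  ⟨fldL h0 h1, fun _ => rfl⟩

theorem need1Reg {δ : ℝ} (h0 : -(1 / 4) < δ) (h1 : δ ≤ 0) : Need1Reg δ := by
  obtain ⟨K, hK, h⟩ := fld_hardy h0 h1
  refine ⟨K, hK, fun w => le_trans (le_of_eq ?_) (h w)⟩
  refine setLIntegral_congr_fun Metric.isOpen_ball.measurableSet fun x hx => ?_
  have hy : 0 < yy x := yy_pos_iff.1 hx
  rw [ENNReal.ofReal_mul (by positivity), ENNReal.ofReal_pow (norm_nonneg _), ofReal_norm]

theorem N1_mm_le {x : E3} (hx : x ∈ Bl) : ‖mm x‖ ≤ 1 := by
  have h1 : ‖mm x‖ ^ 2 ≤ 1 := by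
    rw [norm_mm_sq]
    have h2 := ax2_le x
    have h3 : ‖x‖ < 1 := by simpa [Bl] using hx
    have h4 : ‖x‖ ^ 2 ≤ 1 := pow_le_one₀ (norm_nonneg _) h3.le
    linarith
  exact (sq_le_one_iff₀ (norm_nonneg _)).1 h1

/-- Hölder's inequality for the inner product of `L2`. -/
theorem N1_holder {q q' : ℝ} (hq : q.HolderConjugate q') (w ψ : L2) :
    ENNReal.ofReal |inner ℝ w ψ| ≤ eLpNorm w (ENNReal.ofReal q) volume *
      eLpNorm ψ (ENNReal.ofReal q') volume := by
  have h1 : ENNReal.ofReal |inner ℝ w ψ| ≤ ∫⁻ x, ‖w x‖ₑ * ‖ψ x‖ₑ := by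
    rw [L2.inner_def, ← Real.norm_eq_abs, ofReal_norm]
    refine (enorm_integral_le_lintegral_enorm _).trans (lintegral_mono fun x => ?_)
    have := norm_inner_le_norm (𝕜 := ℝ) (w x) (ψ x)
    rw [← ofReal_norm, ← ofReal_norm, ← ofReal_norm, ← ENNReal.ofReal_mul (norm_nonneg _)]
    exact ENNReal.ofReal_le_ofReal this
  refine h1.trans ?_
  have h2 := ENNReal.lintegral_mul_le_Lp_mul_Lq (volume : Measure E3) hq
    (f := fun x => ‖w x‖ₑ) (g := fun x => ‖ψ x‖ₑ) (Lp.aestronglyMeasurable w).enorm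
    (Lp.aestronglyMeasurable ψ).enorm
  refine h2.trans (le_of_eq ?_)
  have e1 : ENNReal.ofReal q ≠ 0 := by simpa using hq.pos
  have e2 : ENNReal.ofReal q' ≠ 0 := by simpa using hq.symm.pos
  rw [eLpNorm_eq_lintegral_rpow_enorm_toReal e1 ENNReal.ofReal_ne_top,
    eLpNorm_eq_lintegral_rpow_enorm_toReal e2 ENNReal.ofReal_ne_top,
    ENNReal.toReal_ofReal hq.pos.le, ENNReal.toReal_ofReal hq.symm.pos.le]

/-- The sign function with values `±1`. -/
noncomputable def N1_sgn (t : ℝ) : ℝ := if 0 ≤ t then 1 else -1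

theorem N1_sgn_meas : Measurable N1_sgn :=
  Measurable.ite measurableSet_Ici measurable_const measurable_const

theorem N1_sgn_mul (t : ℝ) : N1_sgn t * t = |t| := by
  unfold N1_sgn
  split_ifs with h
  · rw [one_mul, abs_of_nonneg h]
  · rw [abs_of_neg (not_le.1 h)]
    ring

theorem N1_sgn_abs (t : ℝ) : |N1_sgn t| = 1 := by
  unfold N1_sgn
  split_ifs <;> simp

theorem need1Gam {δ q : ℝ} (h0 : -(1 / 4) < δ) (h1 : δ ≤ 0) (hq : 1 < q) : Need1Gam δ q := by
  set q' : ℝ := q / (q - 1) with hq'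
  have hconj : q.HolderConjugate q' := Real.HolderConjugate.conjExponent hq
  have hq1 : 1 < q' := hconj.symm.lt
  have hinv : 1 / q' = 1 - 1 / q := by
    have := hconj.inv_add_inv_eq_one
    rw [one_div, one_div]
    linarith
  have hb0 : 0 < (1 + δ) / 2 := by linarith
  have hb1 : (1 + δ) / 2 < 1 := by linarith
  obtain ⟨C, hC, hL⟩ := lemmaL_one (b := (1 + δ) / 2) (r := q') hb0 hb1 hq1.le (by nlinarith)
  refine ⟨C, hC, fun w _ hrot R hR hR1 => ?_⟩
  set u : L2 := fld Bl δ w with hu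
  have hurot : RotInv u := RotInv_negPow hb0 hb1 hrot
  have hB : MeasurableSet Bl := Metric.isOpen_ball.measurableSet
  set S : E3 → ℝ := fun x => N1_sgn (Gam δ w x) * Real.exp (-max (yy x) 0 / R) with hS
  have hmm : Continuous mm := by
    unfold mm
    fun_prop
  have hyy : Continuous yy := by
    unfold yy
    fun_prop
  have hGm : AEStronglyMeasurable (Gam δ w) (volume : Measure E3) :=
    (Lp.aestronglyMeasurable u).inner hmm.aestronglyMeasurable
  have hSm : AEStronglyMeasurable S (volume : Measure E3) := by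
    refine ((N1_sgn_meas.comp_aemeasurable hGm.aemeasurable).mul ?_).aestronglyMeasurable
    have : Continuous fun x : E3 => Real.exp (-max (yy x) 0 / R) := by fun_prop
    exact this.aemeasurable
  have hexp : ∀ x, Real.exp (-max (yy x) 0 / R) ≤ 1 := by
    intro x
    rw [Real.exp_le_one_iff, neg_div]
    have : 0 ≤ max (yy x) 0 / R := div_nonneg (le_max_right _ _) hR.le
    linarith
  have hSb : ∀ x, |S x| ≤ 1 := by
    intro x
    simp only [hS]
    rw [abs_mul, N1_sgn_abs, one_mul, abs_of_pos (Real.exp_pos _)]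
    exact hexp x
  have hSr : ∀ a, (fun x => S (rot a x)) =ᵐ[volume] S := by
    intro a
    filter_upwards [Gam_inv hurot a] with x hx
    have e : Gam δ w (rot a x) = Gam δ w x := hx
    simp only [hS, e, yy_rot]
  set φ : L2 := toL2 (Bl.indicator fun x => S x • mm x) with hφ
  have hφs : Swirl φ := Swirl_fmm hSm hSb hSr
  have hφm : MemLp (Bl.indicator fun x => S x • mm x) 2 (volume : Measure E3) :=
    memLp_fmm hSm hSb 2
  have hφc : φ =ᵐ[volume] Bl.indicator fun x => S x • mm x := toL2_coe hφm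
  have hle : ∀ᵐ x ∂(volume : Measure E3), x ∈ Bl → ‖φ x‖ ≤ 1 * Real.exp (-yy x / R) := by
    filter_upwards [hφc] with x hx hxB
    rw [hx, indicator_of_mem hxB, norm_smul, one_mul]
    have hy : 0 < yy x := yy_pos_iff.1 hxB
    have e : |S x| = Real.exp (-yy x / R) := by
      simp only [hS]
      rw [abs_mul, N1_sgn_abs, one_mul, abs_of_pos (Real.exp_pos _), max_eq_left hy.le]
    rw [Real.norm_eq_abs, e]
    exact mul_le_of_le_one_right (Real.exp_pos _).le (N1_mm_le hxB)
  have hLφ := hL φ hφs 1 R zero_le_one hR hR1 hle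
  -- the pairing
  have hpair : inner ℝ u φ = ∫ x in Bl, |Gam δ w x| * Real.exp (-yy x / R) := by
    rw [L2.inner_def, ← integral_indicator hB]
    refine integral_congr_ae ?_
    filter_upwards [hφc] with x hx
    rw [hx]
    by_cases hxB : x ∈ Bl
    · have hy : 0 < yy x := yy_pos_iff.1 hxB
      rw [indicator_of_mem hxB, indicator_of_mem hxB, inner_smul_right]
      have e : (inner ℝ (u x) (mm x) : ℝ) = Gam δ w x := rfl
      rw [e, ← N1_sgn_mul (Gam δ w x)]
      simp only [hS]
      rw [max_eq_left hy.le]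
      ring
    · rw [indicator_of_notMem hxB, indicator_of_notMem hxB, inner_zero_right]
  have hint : Integrable (fun x => |Gam δ w x| * Real.exp (-yy x / R)) (volume.restrict Bl) := by
    have i1 : Integrable (fun x => inner ℝ (u x) (φ x)) (volume : Measure E3) :=
      L2.integrable_inner u φ
    refine (i1.restrict (s := Bl)).congr ?_
    filter_upwards [ae_restrict_of_ae hφc, ae_restrict_mem hB] with x hx hxB
    have hy : 0 < yy x := yy_pos_iff.1 hxB
    rw [hx, indicator_of_mem hxB, inner_smul_right]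
    have e : (inner ℝ (u x) (mm x) : ℝ) = Gam δ w x := rfl
    rw [e, ← N1_sgn_mul (Gam δ w x)]
    simp only [hS]
    rw [max_eq_left hy.le]
    ring
  have hnn : 0 ≤ᵐ[volume.restrict Bl] fun x => |Gam δ w x| * Real.exp (-yy x / R) :=
    Eventually.of_forall fun x => mul_nonneg (abs_nonneg _) (Real.exp_pos _).le
  rw [← ofReal_integral_eq_lintegral_ofReal hint hnn, ← hpair]
  have hsym : inner ℝ u φ = inner ℝ w (fld Bl δ φ) := fld_symm h0 h1 w φ
  rw [hsym]
  refine (ENNReal.ofReal_le_ofReal (le_abs_self _)).trans ((N1_holder hconj w _).trans ?_)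
  rw [mul_comm]
  refine mul_le_mul_left ?_ _
  refine hLφ.trans (le_of_eq ?_)
  congr 2
  rw [one_mul, hinv]
  congr 1
  ring

end Pool.Agent.W_332fe5
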