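import Pool.Agent.W_332fe5.O.A1

set_option autoImplicit false

/-! Block 1, A1b: the spaces `V` and `L²_σ` of the ball. -/

open MeasureTheory Set Filter Topology
open scoped ENNReal NNReal

namespace Pool.Agent.W_332fe5

/-! ### Auxiliary lemmas -/

theorem A1b_eLpNorm_sub (v : L2) {φ : E3 → E3} (h : MemLp φ 2 (volume : Measure E3)) :
    eLpNorm (fun x => v x - φ x) 2 volume = ENNReal.ofReal ‖v - toL2 φ‖ := by
  rw [Lp.norm_def, ENNReal.ofReal_toReal (Lp.eLpNorm_ne_top _)]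
  refine eLpNorm_congr_ae ?_
  filter_upwards [Lp.coeFn_sub v (toL2 φ), toL2_coe h] with x hx h2
  rw [hx, Pi.sub_apply, h2]

/-- Convergence of functions in the `eLpNorm` sense is convergence in `L2`. -/
theorem A1b_tendsto_iff {v : L2} {φ : ℕ → E3 → E3} (h : ∀ n, φ n ∈ CV) :
    Tendsto (fun n => eLpNorm (fun x => v x - φ n x) 2 volume) atTop (𝓝 0) ↔
      Tendsto (fun n => toL2 (φ n)) atTop (𝓝 v) := by
  simp_rw [A1b_eLpNorm_sub v (CV_memLp (h _) 2)]
  rw [tendsto_iff_norm_sub_tendsto_zero]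
  simp_rw [norm_sub_rev (toL2 (φ _)) v]
  constructor
  · intro h1
    have := (ENNReal.tendsto_toReal ENNReal.zero_ne_top).comp h1
    simpa [Function.comp_def] using this
  · intro h1
    have := ENNReal.tendsto_ofReal h1
    simpa using this

theorem A1b_InV_iff {v : L2} {G : Fin 3 → L2} :
    InV Bl v G ↔ ∃ φ : ℕ → E3 → E3, (∀ n, φ n ∈ TF Bl) ∧
      Tendsto (fun n => toL2 (φ n)) atTop (𝓝 v) ∧
      ∀ j, Tendsto (fun n => toL2 (pd j (φ n))) atTop (𝓝 (G j)) := by
  constructor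
  · rintro ⟨φ, h1, h2, h3⟩
    exact ⟨φ, h1, (A1b_tendsto_iff fun n => TF_sub_CV (h1 n)).1 h2,
      fun j => (A1b_tendsto_iff fun n => CV_pd (TF_sub_CV (h1 n)) j).1 (h3 j)⟩
  · rintro ⟨φ, h1, h2, h3⟩
    exact ⟨φ, h1, (A1b_tendsto_iff fun n => TF_sub_CV (h1 n)).2 h2,
      fun j => (A1b_tendsto_iff fun n => CV_pd (TF_sub_CV (h1 n)) j).2 (h3 j)⟩

/-- `L²_σ` is the closure of the set of classes of test fields. -/
theorem A1b_Hs_eq : Hs Bl = closure {f : L2 | ∃ φ ∈ TF Bl, toL2 φ = f} := by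
  ext v
  rw [mem_closure_iff_seq_limit]
  constructor
  · rintro ⟨φ, h1, h2⟩
    exact ⟨fun n => toL2 (φ n), fun n => ⟨φ n, h1 n, rfl⟩,
      (A1b_tendsto_iff fun n => TF_sub_CV (h1 n)).1 h2⟩
  · rintro ⟨f, h1, h2⟩
    choose φ hφ hf using h1
    refine ⟨φ, hφ, (A1b_tendsto_iff fun n => TF_sub_CV (hφ n)).2 ?_⟩
    simpa only [hf] using h2

/-- `V` as a closure in the product. -/
theorem A1b_InV_closure {v : L2} {G : Fin 3 → L2} :
    InV Bl v G ↔ (v, G) ∈ closure
      {z : L2 × (Fin 3 → L2) | ∃ φ ∈ TF Bl, z = (toL2 φ, fun j => toL2 (pd j φ))} := by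
  rw [A1b_InV_iff, mem_closure_iff_seq_limit]
  constructor
  · rintro ⟨φ, h1, h2, h3⟩
    refine ⟨fun n => (toL2 (φ n), fun j => toL2 (pd j (φ n))), fun n => ⟨φ n, h1 n, rfl⟩, ?_⟩
    exact h2.prodMk_nhds (tendsto_pi_nhds.2 h3)
  · rintro ⟨z, h1, h2⟩
    choose φ hφ hz using h1
    refine ⟨φ, hφ, ?_, ?_⟩
    · have := (continuous_fst.tendsto _).comp h2
      refine this.congr fun n => ?_
      simp only [Function.comp_apply, hz]
    · intro j
      have := (((continuous_apply j).comp continuous_snd).tendsto _).comp h2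
      refine this.congr fun n => ?_
      simp only [Function.comp_apply, hz]

theorem A1b_pair_tendsto {f : ℕ → L2} {v : L2} (h : Tendsto f atTop (𝓝 v)) {χ : E3 → E3}
    (hχ : MemLp χ 2 (volume : Measure E3)) :
    Tendsto (fun n => pair (f n) χ) atTop (𝓝 (pair v χ)) := by
  simp_rw [pair_toL2 _ hχ]
  exact h.inner tendsto_const_nhds

theorem A1b_pair_coe {φ : E3 → E3} (h : MemLp φ 2 (volume : Measure E3)) (χ : E3 → E3) :
    pair (toL2 φ) χ = pair φ χ := by
  refine integral_congr_ae ?_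
  filter_upwards [toL2_coe h] with x hx
  rw [hx]

/-- Weak derivatives: `⟨G j, χ⟩ = -⟨v, ∂_j χ⟩` for smooth `χ` with compact support. -/
theorem InV_pair {v : L2} {G : Fin 3 → L2} (h : InV Bl v G) {χ : E3 → E3}
    (hχ : ContDiff ℝ 1 χ) (hc : HasCompactSupport χ) (j : Fin 3) :
    pair (G j) χ = -pair v (pd j χ) := by
  obtain ⟨φ, h1, h2, h3⟩ := A1b_InV_iff.1 h
  have m1 : MemLp χ 2 (volume : Measure E3) := hχ.continuous.memLp_of_hasCompactSupport hc
  have m2 : MemLp (pd j χ) 2 (volume : Measure E3) :=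
    ((hχ.continuous_fderiv (by simp)).clm_apply continuous_const).memLp_of_hasCompactSupport
      (hc.fderiv_apply ℝ _)
  have t1 := A1b_pair_tendsto (h3 j) m1
  have t2 := (A1b_pair_tendsto h2 m2).neg
  refine tendsto_nhds_unique t1 (t2.congr fun n => ?_)
  rw [A1b_pair_coe (CV_memLp (TF_sub_CV (h1 n)) 2),
    A1b_pair_coe (CV_memLp (CV_pd (TF_sub_CV (h1 n)) j) 2), pair_pd (TF_sub_CV (h1 n)) hχ]

/-- Weak gradients of elements of `V` are unique. -/
theorem InV_unique {v : L2} {G G' : Fin 3 → L2} (h : InV Bl v G) (h' : InV Bl v G') :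
    G = G' := by
  funext j
  have key : ∀ (g : E3 → ℝ) (i : Fin 3), ContDiff ℝ ((⊤ : ℕ∞) : WithTop ℕ∞) g → HasCompactSupport g →
      pair (G j) (fun x => g x • EuclideanSpace.single i (1 : ℝ)) =
      pair (G' j) (fun x => g x • EuclideanSpace.single i (1 : ℝ)) := by
    intro g i hg hgc
    have a1 : ContDiff ℝ 1 (fun x => g x • (EuclideanSpace.single i (1 : ℝ) : E3)) :=
      (hg.smul contDiff_const).of_le (by norm_cast)
    have a2 : HasCompactSupport (fun x => g x • (EuclideanSpace.single i (1 : ℝ) : E3)) :=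
      hgc.smul_right
    rw [InV_pair h a1 a2, InV_pair h' a1 a2]
  have hl : LocallyIntegrable (G j) (volume : Measure E3) := (Lp.memLp (G j)).locallyIntegrable (by norm_num)
  have hl' : LocallyIntegrable (G' j) (volume : Measure E3) := (Lp.memLp (G' j)).locallyIntegrable (by norm_num)
  have hi : ∀ (F : L2) (g : E3 → ℝ), ContDiff ℝ ((⊤ : ℕ∞) : WithTop ℕ∞) g → HasCompactSupport g →
      Integrable (fun x => g x • F x) (volume : Measure E3) := by
    intro F g hg hgc
    exact ((Lp.memLp F).locallyIntegrable (by norm_num)).integrable_smul_left_of_hasCompactSupport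
      hg.continuous hgc
  refine Lp.ext ?_
  refine ae_eq_of_integral_contDiff_smul_eq hl hl' ?_
  intro g hg hgc
  ext i
  have hcomp : ∀ F : L2, (∫ x, g x • F x) i =
      pair F (fun x => g x • EuclideanSpace.single i (1 : ℝ)) := by
    intro F
    have := (EuclideanSpace.proj i : E3 →L[ℝ] ℝ).integral_comp_comm (hi F g hg hgc)
    change (EuclideanSpace.proj i : E3 →L[ℝ] ℝ) (∫ x, g x • F x) = _
    rw [← this]
    refine integral_congr_ae (Eventually.of_forall fun x => ?_)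
    simp [inner_smul_right, EuclideanSpace.inner_single_right]
  rw [hcomp, hcomp, key g i hg hgc]

theorem TF_InV {φ : E3 → E3} (h : φ ∈ TF Bl) :
    InV Bl (toL2 φ) (fun j => toL2 (pd j φ)) :=
  A1b_InV_iff.2 ⟨fun _ => φ, fun _ => h, tendsto_const_nhds, fun _ => tendsto_const_nhds⟩

theorem InV_lin {v v' : L2} {G G' : Fin 3 → L2} (h : InV Bl v G) (h' : InV Bl v' G') (a : ℝ) :
    InV Bl (v + a • v') (fun j => G j + a • G' j) := by
  obtain ⟨φ, h1, h2, h3⟩ := A1b_InV_iff.1 h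
  obtain ⟨ψ, g1, g2, g3⟩ := A1b_InV_iff.1 h'
  refine A1b_InV_iff.2 ⟨fun n x => φ n x + a • ψ n x, fun n => TF_lin (h1 n) (g1 n) a, ?_, ?_⟩
  · refine (h2.add (g2.const_smul a)).congr fun n => ?_
    rw [toL2_lin (CV_memLp (TF_sub_CV (h1 n)) 2) (CV_memLp (TF_sub_CV (g1 n)) 2)]
  · intro j
    refine ((h3 j).add ((g3 j).const_smul a)).congr fun n => ?_
    rw [A1_pd_lin (TF_sub_CV (h1 n)) (TF_sub_CV (g1 n)),
      toL2_lin (CV_memLp (CV_pd (TF_sub_CV (h1 n)) j) 2) (CV_memLp (CV_pd (TF_sub_CV (g1 n)) j) 2)]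

/-- `V` is closed: a Cauchy sequence in `V` (with its gradients) has its limit in `V`. -/
theorem InV_closed {v : ℕ → L2} {G : ℕ → Fin 3 → L2} {v' : L2} {G' : Fin 3 → L2}
    (h : ∀ n, InV Bl (v n) (G n)) (hv : Tendsto v atTop (𝓝 v'))
    (hG : ∀ j, Tendsto (fun n => G n j) atTop (𝓝 (G' j))) : InV Bl v' G' := by
  rw [A1b_InV_closure]
  refine isClosed_closure.mem_of_tendsto (hv.prodMk_nhds (tendsto_pi_nhds.2 hG))
    (Eventually.of_forall fun n => A1b_InV_closure.1 (h n))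

/-- `L²_σ` is a closed subspace; `V ⊆ L²_σ`. -/
theorem Hs_lin {f g : L2} (h : f ∈ Hs Bl) (h' : g ∈ Hs Bl) (a : ℝ) : f + a • g ∈ Hs Bl := by
  obtain ⟨φ, h1, h2⟩ := h
  obtain ⟨ψ, g1, g2⟩ := h'
  rw [A1b_tendsto_iff fun n => TF_sub_CV (h1 n)] at h2
  rw [A1b_tendsto_iff fun n => TF_sub_CV (g1 n)] at g2
  refine ⟨fun n x => φ n x + a • ψ n x, fun n => TF_lin (h1 n) (g1 n) a,
    (A1b_tendsto_iff fun n => TF_sub_CV (TF_lin (h1 n) (g1 n) a)).2 ?_⟩
  refine (h2.add (g2.const_smul a)).congr fun n => ?_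
  rw [toL2_lin (CV_memLp (TF_sub_CV (h1 n)) 2) (CV_memLp (TF_sub_CV (g1 n)) 2)]

theorem Hs_closed : IsClosed (Hs Bl) := by
  rw [A1b_Hs_eq]
  exact isClosed_closure

theorem InV_mem {v : L2} {G : Fin 3 → L2} (h : InV Bl v G) : v ∈ Hs Bl := by
  obtain ⟨φ, h1, h2, _⟩ := h
  exact ⟨φ, h1, h2⟩

theorem Hs_zero : (0 : L2) ∈ Hs Bl := by
  have h : InV Bl (toL2 fun _ => (0 : E3)) (fun j => toL2 (pd j fun _ => (0 : E3))) := TF_InV TF_zero
  have e : toL2 (fun _ => (0 : E3)) = 0 := by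
    refine Lp.ext ?_
    filter_upwards [toL2_coe (CV_memLp A1_CV_zero 2), Lp.coeFn_zero E3 2 (volume : Measure E3)]
      with x h1 h2
    rw [h1, h2]; rfl
  rw [← e]
  exact InV_mem h

/-- Elements of `L²_σ(B)` vanish outside the ball. -/
theorem Hs_supp {f : L2} (h : f ∈ Hs Bl) : ∀ᵐ x ∂(volume : Measure E3), x ∉ Bl → f x = 0 := by
  obtain ⟨φ, h1, h2⟩ := h
  have hle : ∀ n, eLpNorm (fun x => f x) 2 (volume.restrict Blᶜ) ≤
      eLpNorm (fun x => f x - φ n x) 2 volume := by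
    intro n
    refine le_trans (b := eLpNorm (fun x => f x - φ n x) 2 (volume.restrict Blᶜ)) (le_of_eq ?_)
      (eLpNorm_mono_measure _ Measure.restrict_le_self)
    refine eLpNorm_congr_ae ?_
    filter_upwards [ae_restrict_mem (Metric.isOpen_ball.measurableSet.compl :
      MeasurableSet (Blᶜ))] with x hx
    rw [A1_eq_zero (TF_sub_CV (h1 n)) hx, sub_zero]
  have h0 : eLpNorm (fun x => f x) 2 (volume.restrict Blᶜ) = 0 :=
    nonpos_iff_eq_zero.1 (ge_of_tendsto' h2 hle)
  rw [eLpNorm_eq_zero_iff (Lp.aestronglyMeasurable f).restrict (by norm_num)] at h0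
  have := (ae_restrict_iff' (Metric.isOpen_ball.measurableSet.compl :
      MeasurableSet (Blᶜ))).1 h0
  filter_upwards [this] with x hx hx'
  exact hx hx'

theorem A1b_sum_single (v : E3) : v = ∑ j, v j • (EuclideanSpace.single j (1 : ℝ) : E3) := by
  ext i
  fin_cases i <;> simp [Fin.sum_univ_three]

/-- The gradient of a scalar function. -/
theorem A1b_fderiv_eq_inner (g : E3 → ℝ) (x v : E3) :
    fderiv ℝ g x v = inner ℝ v (gradient g x) := by
  rw [gradient, real_inner_comm]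
  simp

/-- Elements of `L²_σ(B)` are divergence free, tested with scalar functions. -/
theorem Hs_div {f : L2} (h : f ∈ Hs Bl) {g : E3 → ℝ} (hg : ContDiff ℝ 1 g)
    (hc : HasCompactSupport g) : ∫ x, fderiv ℝ g x (f x) = 0 := by
  obtain ⟨φ, h1, h2⟩ := h
  rw [A1b_tendsto_iff fun n => TF_sub_CV (h1 n)] at h2
  have hgc : Continuous (gradient g) := by
    have : gradient g = fun x => (InnerProductSpace.toDual ℝ E3).symm (fderiv ℝ g x) := rfl
    rw [this]
    exact (InnerProductSpace.toDual ℝ E3).symm.continuous.comp (hg.continuous_fderiv (by simp))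
  have hgs : HasCompactSupport (gradient g) := by
    have : gradient g = fun x => (InnerProductSpace.toDual ℝ E3).symm (fderiv ℝ g x) := rfl
    rw [this]
    exact (hc.fderiv ℝ).comp_left (map_zero _)
  have m : MemLp (gradient g) 2 (volume : Measure E3) := hgc.memLp_of_hasCompactSupport hgs
  have e : ∀ F : E3 → E3, ∫ x, fderiv ℝ g x (F x) = pair F (gradient g) := by
    intro F
    simp only [A1b_fderiv_eq_inner]
    rfl
  rw [e]
  have t := A1b_pair_tendsto h2 m
  refine tendsto_nhds_unique t (tendsto_const_nhds.congr fun n => ?_)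
  rw [A1b_pair_coe (CV_memLp (TF_sub_CV (h1 n)) 2), ← e]
  have hφ := TF_sub_CV (h1 n)
  have hi : ∀ {a b : E3 → ℝ}, Continuous a → HasCompactSupport a → Continuous b →
      Integrable (fun x => a x * b x) (volume : Measure E3) := by
    intro a b ha ha' hb
    exact (ha.mul hb).integrable_of_hasCompactSupport ha'.mul_right
  have e2 : ∀ j : Fin 3, ∫ x, φ n x j * fderiv ℝ g x (EuclideanSpace.single j 1) =
      - ∫ x, pd j (φ n) x j * g x := by
    intro j
    have hj := A1_comp hφ j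
    have := integral_mul_fderiv_eq_neg_fderiv_mul_of_integrable (μ := (volume : Measure E3))
      (f := fun x => φ n x j) (g := g) (v := EuclideanSpace.single j (1 : ℝ))
      (hi (A1_cb_pd hj _).1.continuous (A1_cb_pd hj _).2.1 hg.continuous)
      (hi hj.1.continuous hj.2.1 ((hg.continuous_fderiv (by simp)).clm_apply continuous_const))
      (hi hj.1.continuous hj.2.1 hg.continuous) (fun x _ => A1_cb_diff hj x)
      (fun x _ => (hg.differentiable (by simp)) x)
    rw [this]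
    simp_rw [A1_pd_apply (A1_diff hφ)]
  have e3 : ∀ x, fderiv ℝ g x (φ n x) =
      ∑ j, φ n x j * fderiv ℝ g x (EuclideanSpace.single j 1) := by
    intro x
    conv_lhs => rw [A1b_sum_single (φ n x)]
    simp [map_sum]
  simp_rw [e3]
  rw [integral_finsetSum _ fun j _ => hi (A1_comp hφ j).1.continuous (A1_comp hφ j).2.1
    ((hg.continuous_fderiv (by simp)).clm_apply continuous_const)]
  simp_rw [e2]
  rw [Finset.sum_neg_distrib, ← integral_finsetSum _ fun j _ =>
    hi (A1_comp (CV_pd hφ j) j).1.continuous (A1_comp (CV_pd hφ j) j).2.1 hg.continuous]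
  simp_rw [← Finset.sum_mul]
  have : ∀ x, ∑ j, pd j (φ n) x j = 0 := (h1 n).2.2.2
  simp [this]

end Pool.Agent.W_332fe5
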