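import Pool.Agent.W_332fe5.O.A4

set_option autoImplicit false

/-! Block 1, A4b: the reflection formula `A^(-b) A^(-(1-b)) = A⁻¹`. -/

open MeasureTheory Set Filter Topology
open scoped ENNReal NNReal

namespace Pool.Agent.W_332fe5

/-! ### Auxiliary lemmas -/

/-- Lebesgue measure on the half line. -/
noncomputable abbrev A4b_mu : Measure ℝ := (volume : Measure ℝ).restrict (Ioi (0 : ℝ))

theorem A4b_subst (g : ℝ → ℝ) {l : ℝ} (hl : 0 < l) :
    ∫ m in Ioi (0 : ℝ), g m = ∫ s in Ioi (0 : ℝ), l * g (l * s) := by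
  have := integral_comp_mul_left_Ioi g 0 hl
  rw [mul_zero] at this
  rw [integral_const_mul, this, smul_eq_mul, ← mul_assoc, mul_inv_cancel₀ hl.ne', one_mul]

theorem A4b_pow {b l s : ℝ} (hl : 0 < l) (hs : 0 < s) :
    l ^ (-b) * (l * (l * s) ^ (-(1 - b))) = s ^ (b - 1) := by
  rw [Real.mul_rpow hl.le hs.le]
  have h1 : l ^ (-b) * l * l ^ (-(1 - b)) = 1 := by
    nth_rewrite 2 [← Real.rpow_one l]
    rw [← Real.rpow_add hl, ← Real.rpow_add hl]
    rw [show -b + 1 + -(1 - b) = 0 by ring, Real.rpow_zero]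
  rw [show b - 1 = -(1 - b) by ring]
  linear_combination (s ^ (-(1 - b))) * h1

/-- The kernel. -/
noncomputable def A4b_ker (b : ℝ) (z : ℝ × ℝ) : ℝ :=
  z.2 ^ (b - 1) * (1 / ((1 + z.1) * (1 + z.1 * z.2)))

theorem A4b_ker_meas (b : ℝ) : Measurable (A4b_ker b) := by
  unfold A4b_ker
  fun_prop

theorem A4b_ker_eq {b l s : ℝ} (hl : 0 < l) (hs : 0 < s) :
    A4b_ker b (l, s) = l ^ (-b) / (1 + l) * (l * ((l * s) ^ (-(1 - b)) / (1 + l * s))) := by
  have h1 : 1 + l ≠ 0 := by positivity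
  have h2 : 1 + l * s ≠ 0 := by positivity
  have := A4b_pow (b := b) hl hs
  simp only [A4b_ker]
  rw [← this]
  field_simp

theorem A4b_inner_integrable {b : ℝ} (h0 : 0 < b) (h1 : b < 1) {l : ℝ} (hl : 0 < l) :
    Integrable (fun s => A4b_ker b (l, s)) A4b_mu := by
  have h2 : IntegrableOn (fun m : ℝ => m ^ (-(1 - b)) / (1 + m)) (Ioi 0) :=
    kb_integrable (by linarith) (by linarith)
  have h3 : IntegrableOn (fun s : ℝ => (l * s) ^ (-(1 - b)) / (1 + l * s)) (Ioi 0) := by
    have := (integrableOn_Ioi_comp_mul_left_iff (fun m : ℝ => m ^ (-(1 - b)) / (1 + m)) 0 hl).2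
    rw [mul_zero] at this
    exact this h2
  have h4 := (h3.const_mul l).const_mul (l ^ (-b) / (1 + l))
  refine h4.congr ?_
  filter_upwards [ae_restrict_mem measurableSet_Ioi] with s hs
  exact (A4b_ker_eq hl hs).symm

theorem A4b_inner_integral {b : ℝ} {l : ℝ} (hl : 0 < l) :
    ∫ s in Ioi (0 : ℝ), A4b_ker b (l, s) = l ^ (-b) / (1 + l) * kb (1 - b) := by
  have h2 := A4b_subst (fun m : ℝ => m ^ (-(1 - b)) / (1 + m)) hl
  unfold kb
  rw [h2, ← integral_const_mul]
  refine setIntegral_congr_fun measurableSet_Ioi fun s hs => ?_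
  exact A4b_ker_eq hl hs

theorem A4b_ker_nonneg {b l s : ℝ} (hl : 0 < l) (hs : 0 < s) : 0 ≤ A4b_ker b (l, s) := by
  simp only [A4b_ker]
  positivity

theorem A4b_ker_integrable {b : ℝ} (h0 : 0 < b) (h1 : b < 1) :
    Integrable (A4b_ker b) (A4b_mu.prod A4b_mu) := by
  rw [integrable_prod_iff (A4b_ker_meas b).aestronglyMeasurable]
  constructor
  · filter_upwards [ae_restrict_mem measurableSet_Ioi] with l hl
    exact A4b_inner_integrable h0 h1 hl
  · have h2 := (kb_integrable h0 h1).mul_const (kb (1 - b))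
    refine h2.congr ?_
    filter_upwards [ae_restrict_mem measurableSet_Ioi] with l hl
    rw [← A4b_inner_integral hl]
    refine setIntegral_congr_fun measurableSet_Ioi fun s hs => ?_
    exact (Real.norm_of_nonneg (A4b_ker_nonneg hl hs)).symm

theorem A4b_log {s : ℝ} (hs : 0 < s) (hs1 : s ≠ 1) :
    ∫ l in Ioi (0 : ℝ), 1 / ((1 + l) * (1 + l * s)) = Real.log s / (s - 1) := by
  have hs2 : s - 1 ≠ 0 := sub_ne_zero.2 hs1
  have hd : ∀ x ∈ Ici (0 : ℝ), HasDerivAt (fun l => (Real.log (1 + l * s) - Real.log (1 + l)) / (s - 1))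
      (1 / ((1 + x) * (1 + x * s))) x := by
    intro x hx
    have hx0 : (0 : ℝ) ≤ x := hx
    have p1 : 1 + x * s ≠ 0 := by positivity
    have p2 : 1 + x ≠ 0 := by positivity
    have d1 : HasDerivAt (fun l => Real.log (1 + l * s)) ((0 + 1 * s) / (1 + x * s)) x :=
      ((hasDerivAt_const x (1 : ℝ)).add ((hasDerivAt_id x).mul_const s)).log p1
    have d2 : HasDerivAt (fun l => Real.log (1 + l)) ((0 + 1) / (1 + x)) x :=
      ((hasDerivAt_const x (1 : ℝ)).add (hasDerivAt_id x)).log p2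
    refine ((d1.sub d2).div_const (s - 1)).congr_deriv ?_
    field_simp
    ring
  have hlim : Tendsto (fun l => (Real.log (1 + l * s) - Real.log (1 + l)) / (s - 1)) atTop
      (𝓝 (Real.log s / (s - 1))) := by
    refine Tendsto.div_const ?_ _
    have h1 : Tendsto (fun l : ℝ => (1 + l * s) / (1 + l)) atTop (𝓝 s) := by
      have h2 : Tendsto (fun l : ℝ => s + (1 - s) * (1 + l)⁻¹) atTop (𝓝 (s + (1 - s) * 0)) :=
        tendsto_const_nhds.add (tendsto_const_nhds.mul
          (tendsto_inv_atTop_zero.comp (tendsto_atTop_add_const_left _ _ tendsto_id)))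
      rw [mul_zero, add_zero] at h2
      refine h2.congr' ?_
      filter_upwards [eventually_gt_atTop 0] with l hl
      have : 1 + l ≠ 0 := by positivity
      field_simp
      ring
    have h3 := ((Real.continuousAt_log hs.ne').tendsto).comp h1
    refine h3.congr' ?_
    filter_upwards [eventually_gt_atTop 0] with l hl
    have p1 : 1 + l * s ≠ 0 := by positivity
    have p2 : 1 + l ≠ 0 := by positivity
    simp only [Function.comp_apply]
    rw [Real.log_div p1 p2]
  have := integral_Ioi_of_hasDerivAt_of_nonneg' hd (fun x hx => by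
    have hx0 : (0 : ℝ) < x := hx
    positivity) hlim
  rw [this]
  simp

theorem A4b_ae_ne_one : ∀ᵐ s ∂A4b_mu, s ≠ 1 := by
  refine ae_restrict_of_ae ?_
  have : (volume : Measure ℝ) {(1 : ℝ)} = 0 := by simp
  exact measure_eq_zero_iff_ae_notMem.1 this

/-- The scalar identity behind the reflection formula:
`∫_0^∞ s^(b-1) log s / (s - 1) ds = kb b * kb (1 - b)`.
Proof: `kb b * kb (1-b) = ∫∫ l^(-b) m^(b-1) / ((1+l)(1+m)) dm dl`, substitute `m = s l`, Fubini
(Tonelli, positive), `∫_0^∞ dl / ((1+l)(1+s l)) = log s / (s - 1)`. -/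
theorem kb_mul {b : ℝ} (h0 : 0 < b) (h1 : b < 1) :
    IntegrableOn (fun s : ℝ => s ^ (b - 1) * (Real.log s / (s - 1))) (Ioi 0) ∧
    ∫ s in Ioi (0 : ℝ), s ^ (b - 1) * (Real.log s / (s - 1)) = kb b * kb (1 - b) := by
  have hk := A4b_ker_integrable h0 h1
  have he : ∀ᵐ s ∂A4b_mu, ∫ l in Ioi (0 : ℝ), A4b_ker b (l, s) =
      s ^ (b - 1) * (Real.log s / (s - 1)) := by
    filter_upwards [ae_restrict_mem measurableSet_Ioi, A4b_ae_ne_one] with s hs hs1
    rw [← A4b_log hs hs1, ← integral_const_mul]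
    rfl
  constructor
  · exact hk.integral_prod_right.congr he
  · have h2 : ∫ s in Ioi (0 : ℝ), s ^ (b - 1) * (Real.log s / (s - 1)) =
        ∫ s in Ioi (0 : ℝ), ∫ l in Ioi (0 : ℝ), A4b_ker b (l, s) :=
      integral_congr_ae (he.mono fun s hs => hs.symm)
    have h3 := integral_integral_swap (f := fun l s => A4b_ker b (l, s)) (μ := A4b_mu)
      (ν := A4b_mu) hk
    rw [h2, ← h3]
    have h4 : ∫ l in Ioi (0 : ℝ), ∫ s in Ioi (0 : ℝ), A4b_ker b (l, s) =
        ∫ l in Ioi (0 : ℝ), l ^ (-b) / (1 + l) * kb (1 - b) :=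
      setIntegral_congr_fun measurableSet_Ioi fun l hl => A4b_inner_integral hl
    rw [h4, integral_mul_const]
    rfl

theorem A4b_F_cont (f g : L2) : ContinuousOn (fun l => inner ℝ (res Bl l f) g) (Ici (0 : ℝ)) := by
  have h : ContinuousOn (fun l => resL l f) (Ici 0) := resL_cont.clm_apply continuousOn_const
  have h2 : ContinuousOn (fun l => res Bl l f) (Ici 0) :=
    h.congr fun l hl => (resL_apply hl f).symm
  exact h2.inner continuousOn_const

theorem A4b_F_le {l : ℝ} (hl : 0 ≤ l) (f g : L2) :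
    |inner ℝ (res Bl l f) g| ≤ ‖f‖ * ‖g‖ / (1 + l) := by
  refine (abs_real_inner_le_norm _ _).trans ?_
  have := mul_le_mul_of_nonneg_right (norm_res_le hl f) (norm_nonneg g)
  refine this.trans (le_of_eq ?_)
  rw [add_comm]
  ring

theorem A4b_Phi_le {l m : ℝ} (hl : 0 ≤ l) (hm : 0 ≤ m) (f g : L2) :
    |inner ℝ (res Bl l (res Bl m f)) g| ≤ ‖f‖ * ‖g‖ * (1 / ((1 + l) * (1 + m))) := by
  have h1 := A4b_F_le hl (res Bl m f) g
  have h2 := norm_res_le hm f
  have h3 : ‖res Bl m f‖ * ‖g‖ / (1 + l) ≤ ‖f‖ / (m + 1) * ‖g‖ / (1 + l) := by gcongr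
  refine (h1.trans h3).trans (le_of_eq ?_)
  rw [add_comm m 1]
  have : 1 + l ≠ 0 := by positivity
  have : 1 + m ≠ 0 := by positivity
  field_simp

theorem A4b_Phi_eq {s l : ℝ} (hs : 0 < s) (hl : 0 < l) (hs1 : s ≠ 1) (f g : L2) :
    l⁻¹ * (inner ℝ (res Bl l f) g - inner ℝ (res Bl (s * l) f) g) =
      (s - 1) * inner ℝ (res Bl l (res Bl (s * l) f)) g := by
  have h1 := res_sub hl.le (mul_pos hs hl).le f
  rw [← inner_sub_left, h1, inner_smul_left]
  simp only [conj_trivial]
  field_simp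

/-- Frullani for the resolvent: for `s > 0`,
`∫_0^∞ ⟨R(l) R(s l) f, g⟩ dl = (log s / (s - 1)) ⟨R(0) f, g⟩` for `s ≠ 1`.
Proof: `R(l) R(s l) = (R(l) - R(s l)) / ((s - 1) l)`; `F(l) = ⟨R(l) f, g⟩` is continuous on
`[0, ∞)` and `|F(l)| ≤ ‖f‖ ‖g‖ / (1 + l)`; `∫_a^N (F(l) - F(s l)) / l dl` is
`∫_a^(s a) F / l - ∫_N^(s N) F / l`. -/
theorem frullani_res {s : ℝ} (hs : 0 < s) (hs1 : s ≠ 1) (f g : L2) :
    ∫ l in Ioi (0 : ℝ), inner ℝ (res Bl l (res Bl (s * l) f)) g =
      Real.log s / (s - 1) * inner ℝ (res Bl 0 f) g := by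
  set F : ℝ → ℝ := fun l => inner ℝ (res Bl l f) g with hF
  have hFc := A4b_F_cont f g
  have hs2 : s - 1 ≠ 0 := sub_ne_zero.2 hs1
  have hloc : LocallyIntegrableOn F (Ioi 0) :=
    (hFc.mono Ioi_subset_Ici_self).locallyIntegrableOn measurableSet_Ioi
  have hL : Tendsto F (𝓝[>] 0) (𝓝 (F 0)) :=
    (hFc 0 self_mem_Ici).mono_left (nhdsWithin_mono 0 Ioi_subset_Ici_self)
  have hR : Tendsto F atTop (𝓝 0) := by
    have h1 : Tendsto (fun l : ℝ => ‖f‖ * ‖g‖ / (1 + l)) atTop (𝓝 0) :=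
      tendsto_const_nhds.div_atTop (tendsto_atTop_add_const_left _ _ tendsto_id)
    refine squeeze_zero_norm' ?_ h1
    filter_upwards [eventually_ge_atTop 0] with l hl
    exact A4b_F_le hl f g
  have hcomp : ∀ l ∈ Ioi (0 : ℝ), l⁻¹ • (F (1 * l) - F (s * l)) =
      (s - 1) * inner ℝ (res Bl l (res Bl (s * l) f)) g := by
    intro l hl
    rw [one_mul, smul_eq_mul]
    exact A4b_Phi_eq hs hl hs1 f g
  have hint : IntegrableOn (fun x => x⁻¹ • (F (1 * x) - F (s * x))) (Ioi 0) := by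
    have hm : AEStronglyMeasurable (fun x => x⁻¹ • (F (1 * x) - F (s * x)))
        (volume.restrict (Ioi (0 : ℝ))) := by
      refine ContinuousOn.aestronglyMeasurable ?_ measurableSet_Ioi
      refine ContinuousOn.smul (continuousOn_inv₀.mono fun x hx => ne_of_gt hx) ?_
      refine ContinuousOn.sub ?_ ?_
      · refine hFc.comp (continuous_const.mul continuous_id).continuousOn ?_
        intro x hx
        have : (0 : ℝ) < x := hx
        simp only [mem_Ici]
        linarith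
      · refine hFc.comp (continuous_const.mul continuous_id).continuousOn ?_
        intro x hx
        have : (0 : ℝ) < x := hx
        exact (mul_pos hs this).le
    have hdom : IntegrableOn (fun l : ℝ => |s - 1| * (‖f‖ * ‖g‖ * (1 / ((1 + l) * (1 + l * s)))))
        (Ioi 0) := by
      have h1 : IntegrableOn (fun l : ℝ => 1 / ((1 + l) * (1 + l * s))) (Ioi 0) := by
        by_contra hcon
        have h2 := A4b_log hs hs1
        rw [integral_undef hcon] at h2
        have h3 : Real.log s / (s - 1) ≠ 0 :=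
          div_ne_zero (Real.log_ne_zero_of_pos_of_ne_one hs hs1) hs2
        exact h3 h2.symm
      exact (h1.const_mul _).const_mul _
    refine Integrable.mono' hdom hm ?_
    filter_upwards [ae_restrict_mem measurableSet_Ioi] with l hl
    have hl0 : (0 : ℝ) < l := hl
    rw [hcomp l hl, norm_mul, Real.norm_eq_abs, Real.norm_eq_abs]
    have := A4b_Phi_le hl0.le (mul_pos hs hl0).le f g
    rw [mul_comm s l] at this ⊢
    exact mul_le_mul_of_nonneg_left this (abs_nonneg _)
  have key := Frullani.integral_Ioi_eq hloc one_pos hs hL hR hint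
  rw [setIntegral_congr_fun measurableSet_Ioi hcomp, integral_const_mul] at key
  rw [div_one, sub_zero, smul_eq_mul] at key
  have : F 0 = inner ℝ (res Bl 0 f) g := rfl
  rw [← this]
  field_simp
  rw [mul_comm]
  exact key

theorem A4b_Psi_integrable {b : ℝ} (h0 : 0 < b) (h1 : b < 1) (f g : L2) :
    Integrable (fun z : ℝ × ℝ => z.2 ^ (b - 1) * inner ℝ (res Bl z.1 (res Bl (z.2 * z.1) f)) g)
      (A4b_mu.prod A4b_mu) := by
  have hm : AEStronglyMeasurable
      (fun z : ℝ × ℝ => z.2 ^ (b - 1) * inner ℝ (res Bl z.1 (res Bl (z.2 * z.1) f)) g)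
      (A4b_mu.prod A4b_mu) := by
    rw [Measure.prod_restrict]
    refine ContinuousOn.aestronglyMeasurable ?_ (measurableSet_Ioi.prod measurableSet_Ioi)
    refine ContinuousOn.mul ?_ ?_
    · intro z hz
      have : z.2 ≠ 0 := ne_of_gt hz.2
      exact (continuousAt_snd.rpow_const (Or.inl this)).continuousWithinAt
    · have c1 : ContinuousOn (fun z : ℝ × ℝ => resL (z.2 * z.1)) (Ioi 0 ×ˢ Ioi 0) := by
        refine resL_cont.comp (continuous_snd.mul continuous_fst).continuousOn ?_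
        intro z hz
        have a1 : (0 : ℝ) < z.1 := hz.1
        have a2 : (0 : ℝ) < z.2 := hz.2
        exact (mul_pos a2 a1).le
      have c2 : ContinuousOn (fun z : ℝ × ℝ => resL z.1) (Ioi 0 ×ˢ Ioi 0) := by
        refine resL_cont.comp continuous_fst.continuousOn ?_
        intro z hz
        have a1 : (0 : ℝ) < z.1 := hz.1
        exact a1.le
      have c3 : ContinuousOn (fun z : ℝ × ℝ => inner ℝ (resL z.1 (resL (z.2 * z.1) f)) g)
          (Ioi 0 ×ˢ Ioi 0) :=
        (c2.clm_apply (c1.clm_apply continuousOn_const)).inner continuousOn_const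
      refine c3.congr ?_
      intro z hz
      have a1 : (0 : ℝ) < z.1 := hz.1
      have a2 : (0 : ℝ) < z.2 := hz.2
      simp only
      rw [resL_apply a1.le, resL_apply (mul_pos a2 a1).le]
  refine Integrable.mono' ((A4b_ker_integrable h0 h1).const_mul (‖f‖ * ‖g‖)) hm ?_
  rw [Measure.prod_restrict]
  filter_upwards [ae_restrict_mem (measurableSet_Ioi.prod measurableSet_Ioi)] with z hz
  have a1 : (0 : ℝ) < z.1 := hz.1
  have a2 : (0 : ℝ) < z.2 := hz.2
  rw [norm_mul, Real.norm_eq_abs, Real.norm_eq_abs, abs_of_nonneg (Real.rpow_nonneg a2.le _)]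
  have := A4b_Phi_le a1.le (mul_pos a2 a1).le f g
  have h3 := mul_le_mul_of_nonneg_left this (Real.rpow_nonneg a2.le (b - 1))
  refine h3.trans (le_of_eq ?_)
  simp only [A4b_ker]
  rw [mul_comm z.2 z.1]
  ring

/-- `A^(-b) A^(-(1-b)) = A⁻¹`. -/
theorem negPow_refl {b : ℝ} (h0 : 0 < b) (h1 : b < 1) (f : L2) :
    negPow Bl b (negPow Bl (1 - b) f) = res Bl 0 f := by
  have h0' : 0 < 1 - b := by linarith
  have h1' : 1 - b < 1 := by linarith
  refine ext_inner_right ℝ fun g => ?_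
  rw [negPow_inner h0 h1]
  have e1 : ∀ l ∈ Ioi (0 : ℝ), l ^ (-b) * inner ℝ (res Bl l (negPow Bl (1 - b) f)) g =
      (kb (1 - b))⁻¹ * ∫ s in Ioi (0 : ℝ), s ^ (b - 1) * inner ℝ (res Bl l (res Bl (s * l) f)) g := by
    intro l hl
    have hl0 : (0 : ℝ) < l := hl
    rw [res_symm hl0.le, negPow_inner h0' h1']
    have e2 : ∀ m ∈ Ioi (0 : ℝ), m ^ (-(1 - b)) * inner ℝ (res Bl m f) (res Bl l g) =
        m ^ (-(1 - b)) * inner ℝ (res Bl l (res Bl m f)) g := by
      intro m _
      rw [← res_symm hl0.le]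
    rw [setIntegral_congr_fun measurableSet_Ioi e2, A4b_subst _ hl0, ← mul_assoc,
      mul_comm (l ^ (-b)), mul_assoc, ← integral_const_mul]
    congr 1
    refine setIntegral_congr_fun measurableSet_Ioi fun s hs => ?_
    have hs0 : (0 : ℝ) < s := hs
    have := A4b_pow (b := b) hl0 hs0
    rw [← this, mul_comm l s]
    ring
  rw [setIntegral_congr_fun measurableSet_Ioi e1, integral_const_mul]
  have h3 := integral_integral_swap (f := fun l s => s ^ (b - 1) *
    inner ℝ (res Bl l (res Bl (s * l) f)) g) (μ := A4b_mu) (ν := A4b_mu)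
    (A4b_Psi_integrable h0 h1 f g)
  rw [h3]
  have h4 : ∫ s in Ioi (0 : ℝ), ∫ l in Ioi (0 : ℝ), s ^ (b - 1) *
      inner ℝ (res Bl l (res Bl (s * l) f)) g =
      ∫ s in Ioi (0 : ℝ), s ^ (b - 1) * (Real.log s / (s - 1)) * inner ℝ (res Bl 0 f) g := by
    refine integral_congr_ae ?_
    filter_upwards [ae_restrict_mem measurableSet_Ioi, A4b_ae_ne_one] with s hs hs1
    rw [integral_const_mul, frullani_res hs hs1]
    ring
  rw [h4, integral_mul_const, (kb_mul h0 h1).2]
  have k1 := (kb_pos h0 h1).ne'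
  have k2 := (kb_pos h0' h1').ne'
  field_simp

end Pool.Agent.W_332fe5
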