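import Pool.Agent.W_332fe5.O.B1b
import Pool.Agent.W_332fe5.O.A4b
import Pool.Agent.W_332fe5.O.A12

set_option autoImplicit false

/-! Block 2, B2: the initial datum is in the trace space. -/

open MeasureTheory Set Filter Topology
open scoped ENNReal NNReal

namespace Pool.Agent.W_332fe5

/-- The `X₀`-coordinate of `u₀`. -/
noncomputable def v0 (δ : ℝ) : L2 := negPow Bl (1 - (1 + δ) / 2) (toL2 u0)

theorem b2_one_sub (δ : ℝ) : 1 - (1 - (1 + δ) / 2) = (1 + δ) / 2 := by ring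

/-- `⟨v₀, T_β (-Δφ)⟩ = ⟨u₀, φ⟩` (`negPow_symm`, `negPow_refl` with `1 - b = β`, `res_lapl`). -/
theorem v0_pair {δ : ℝ} (h0 : -(1 / 4) < δ) (h1 : δ ≤ 0) {φ : E3 → E3} (hφ : φ ∈ TF Bl) :
    pairX Bl δ (v0 δ) φ = pair u0 φ := by
  have hb0 : 0 < 1 - (1 + δ) / 2 := by linarith
  have hb1 : 1 - (1 + δ) / 2 < 1 := by linarith
  unfold pairX v0
  rw [pair_eq_inner, negPow_symm hb0 hb1]
  have h2 := negPow_refl hb0 hb1 (toL2 (lapl φ))
  rw [b2_one_sub] at h2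
  rw [h2, res_lapl hφ, inner_neg_right, neg_neg,
    ← pair_toL2 _ (CV_memLp (TF_sub_CV hφ) 2)]
  unfold pair
  apply integral_congr_ae
  filter_upwards [toL2_coe (u0_memLp 2)] with x hx
  rw [hx]

theorem v0_rot {δ : ℝ} (h0 : -(1 / 4) < δ) (h1 : δ ≤ 0) (a : ℝ) :
    actL (rotE a) (v0 δ) = v0 δ := by
  have hb0 : 0 < 1 - (1 + δ) / 2 := by linarith
  have hb1 : 1 - (1 + δ) / 2 < 1 := by linarith
  exact (RotInv_iff _).1 (RotInv_negPow hb0 hb1 u0_swirl.1) a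

theorem b2_par {zt p κ δ q : ℝ} (h : Par zt p κ δ q) :
    -(1 / 4) < δ ∧ 0 < 1 - (1 + δ) / 2 ∧ 1 - (1 + δ) / 2 < 1 ∧ 1 ≤ q ∧
      1 < 2 * (1 - (1 - (1 + δ) / 2)) * q := by
  have h1 := h.z1
  have h2 := h.d0
  have h3 := h.d1
  have h4 := h.hq
  refine ⟨by linarith, by linarith, by linarith, by linarith, ?_⟩
  nlinarith

/-- `v₀ ∈ L^q_σ`: `lemmaL_one` with `a = e⁴`, `R = 1/8` (`|u₀| ≤ 1 ≤ e⁴ e^(-8y)`). -/
theorem v0_mem {zt p κ δ q : ℝ} (h : Par zt p κ δ q) : v0 δ ∈ LqS Bl q := by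
  obtain ⟨h0, hb0, hb1, hq, hbq⟩ := b2_par h
  refine ⟨negPow_mem hb0 hb1 _, ?_⟩
  obtain ⟨C, hC, hL⟩ := lemmaL_one hb0 hb1 hq hbq
  refine (hL (toL2 u0) u0_swirl (Real.exp 4) (1 / 8) (Real.exp_pos _).le (by norm_num) le_rfl
    ?_).trans_lt ENNReal.ofReal_lt_top
  filter_upwards [toL2_coe (u0_memLp 2)] with x hx _
  rw [hx, ← Real.exp_add]
  refine (u0_norm x).trans (Real.one_le_exp ?_)
  have := yy_le_half x
  linarith

/-- The near-minimiser `z_ε = T_(1-β) (-Δ (g_ε m))`. -/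
noncomputable def zE (δ ε : ℝ) : L2 :=
  negPow Bl (1 - (1 + δ) / 2) (toL2 fun x => -lapl (fun x => gE ε x • mm x) x)

theorem b2_toL2_neg {f : E3 → E3} (hf : MemLp f 2 (volume : Measure E3)) :
    toL2 (fun x => -f x) = -toL2 f := by
  have h1 := toL2_lin (MemLp.zero : MemLp (0 : E3 → E3) 2 (volume : Measure E3)) hf (-1)
  have h2 : toL2 (0 : E3 → E3) = 0 := by
    have h3 := toL2_lin (MemLp.zero : MemLp (0 : E3 → E3) 2 (volume : Measure E3))
      (MemLp.zero : MemLp (0 : E3 → E3) 2 (volume : Measure E3)) 1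
    have h4 : (fun x : E3 => (0 : E3 → E3) x + (1 : ℝ) • (0 : E3 → E3) x) = 0 := by
      funext x; simp
    rw [h4, one_smul] at h3
    exact left_eq_add.mp h3
  rw [h2] at h1
  simpa using h1

/-- `v₀ - R(0) z_ε = T_(1-β) (u₀ - g_ε m)` (`negPow_res`, `res_lapl`). -/
theorem v0_sub {δ : ℝ} (h0 : -(1 / 4) < δ) (h1 : δ ≤ 0) {ε : ℝ} (hε : 0 < ε) :
    v0 δ - res Bl 0 (zE δ ε) =
      negPow Bl (1 - (1 + δ) / 2) (toL2 fun x => u0 x - gE ε x • mm x) := by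
  have hb0 : 0 < 1 - (1 + δ) / 2 := by linarith
  have hb1 : 1 - (1 + δ) / 2 < 1 := by linarith
  have hm := TF_sub_CV (gE_TF hε)
  unfold v0 zE
  rw [← negPow_res hb0 hb1 le_rfl, b2_toL2_neg (CV_memLp (CV_lapl hm) 2), ← resL_apply le_rfl,
    map_neg, resL_apply le_rfl, res_lapl (gE_TF hε), neg_neg]
  have h2 := negPow_lin hb0 hb1 (toL2 u0) (toL2 fun x => gE ε x • mm x) (-1)
  have h3 := toL2_lin (u0_memLp 2) (CV_memLp hm 2) (-1)
  have h4 : (fun x => u0 x + (-1 : ℝ) • gE ε x • mm x) = fun x => u0 x - gE ε x • mm x := by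
    funext x; rw [neg_one_smul, ← sub_eq_add_neg]
  rw [h4] at h3
  rw [h3, h2, neg_one_smul, ← sub_eq_add_neg]

theorem b2_swirl {f : E3 → E3} (hf : MemLp f 2 (volume : Measure E3))
    (hr : ∀ a, rotF a f = f) (hs : sgF f = fun x => -f x) : Swirl (toL2 f) := by
  have h0 := toL2_coe hf
  refine ⟨fun a => ?_, ?_⟩
  · have h1 := actF_ae (rotE a) h0
    rw [← rotF_eq, ← rotF_eq, hr] at h1
    exact h1.trans h0.symm
  · have h1 := actF_ae sgE h0
    have h2 : actF sgE f = fun x => -f x := hs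
    rw [h2] at h1
    have h3 : sgF (toL2 f) = actF sgE (toL2 f) := rfl
    rw [h3]
    filter_upwards [h1, h0] with x h4 h5
    rw [h4, h5]

theorem b2_sgF_gm (ε : ℝ) : sgF (fun x => gE ε x • mm x) = fun x => -(gE ε x • mm x) := by
  funext x
  have h1 : sg (gE ε (sg x) • mm (sg x)) = gE ε (sg x) • sg (mm (sg x)) :=
    sgE.map_smul (gE ε (sg x)) (mm (sg x))
  unfold sgF
  rw [h1, sg_inv (gE_rot ε), mm_sg, smul_neg]

theorem b2_swirl_gm {ε : ℝ} (hε : 0 < ε) : Swirl (toL2 fun x => gE ε x • mm x) :=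
  b2_swirl (CV_memLp (TF_sub_CV (gE_TF hε)) 2) (rotF_hmm (gE_rot ε)) (b2_sgF_gm ε)

theorem b2_swirl_lin {f g : L2} (hf : Swirl f) (hg : Swirl g) (a : ℝ) : Swirl (f + a • g) := by
  rw [Swirl_iff] at hf hg ⊢
  refine ⟨RotInv_lin hf.1 hg.1 a, ?_⟩
  rw [map_add, map_smul, hf.2, hg.2, smul_neg, neg_add]

theorem b2_lapl_neg (φ : E3 → E3) : lapl (fun x => -φ x) = fun x => -lapl φ x := by
  have h1 : ∀ (j : Fin 3) (ψ : E3 → E3), pd j (fun x => -ψ x) = fun x => -pd j ψ x := by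
    intro j ψ
    funext x
    unfold pd
    rw [fderiv_fun_neg]
    rfl
  funext x
  unfold lapl
  simp only [h1, Finset.sum_neg_distrib]

theorem b2_swirl_lapl {ε : ℝ} (hε : 0 < ε) :
    Swirl (toL2 fun x => -lapl (fun x => gE ε x • mm x) x) := by
  have hm := TF_sub_CV (gE_TF hε)
  have hs : ContDiff ℝ 2 fun x => gE ε x • mm x := hm.1.of_le (by norm_cast)
  refine b2_swirl (CV_memLp (CV_lapl hm) 2).neg (fun a => ?_) ?_
  · rw [rotF_eq, ← b2_lapl_neg, ← lapl_actF _ hs.neg]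
    congr 1
    have h1 := rotF_hmm (gE_rot ε) a
    rw [rotF_eq] at h1
    funext x
    have h2 := congrFun h1 x
    unfold actF at h2 ⊢
    rw [map_neg, h2]
  · have h1 : sgF (fun x => -lapl (fun x => gE ε x • mm x) x) =
        actF sgE (fun x => -lapl (fun x => gE ε x • mm x) x) := rfl
    have h3 : actF sgE (fun x => gE ε x • mm x) = fun x => -(gE ε x • mm x) := b2_sgF_gm ε
    have h4 : actF sgE (fun x => -(gE ε x • mm x)) = fun x => gE ε x • mm x := by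
      funext x
      have h2 := congrFun h3 x
      unfold actF at h2 ⊢
      rw [map_neg, h2, neg_neg]
    rw [h1, ← b2_lapl_neg, ← lapl_actF _ hs.neg, h4]
    funext x
    rw [neg_neg]

/-- `‖v₀ - R(0) z_ε‖_q ≤ C ε^(μ + 1 - δ + 1/q)` (`lemmaL_one`, `u0_sub`). -/
theorem v0_sub_le {zt p κ δ q : ℝ} (h : Par zt p κ δ q) : ∃ C : ℝ, 0 ≤ C ∧ ∀ ε : ℝ, 0 < ε →
    ε ≤ 1 / 16 → eLpNorm (v0 δ - res Bl 0 (zE δ ε) : L2) (ENNReal.ofReal q) volume ≤
      ENNReal.ofReal (C * ε ^ (mu + 1 - δ + 1 / q)) := by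
  obtain ⟨h0, hb0, hb1, hq, hbq⟩ := b2_par h
  obtain ⟨C, hC, hL⟩ := lemmaL_one hb0 hb1 hq hbq
  refine ⟨C * 9, by positivity, fun ε hε hε1 => ?_⟩
  have hm := TF_sub_CV (gE_TF hε)
  have hsub : MemLp (fun x => u0 x - gE ε x • mm x) 2 (volume : Measure E3) :=
    (u0_memLp 2).sub (CV_memLp hm 2)
  have hsw : Swirl (toL2 fun x => u0 x - gE ε x • mm x) := by
    have h3 := toL2_lin (u0_memLp 2) (CV_memLp hm 2) (-1)
    have h4 : (fun x => u0 x + (-1 : ℝ) • gE ε x • mm x) = fun x => u0 x - gE ε x • mm x := by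
      funext x; rw [neg_one_smul, ← sub_eq_add_neg]
    rw [h4] at h3
    rw [h3]
    exact b2_swirl_lin u0_swirl (b2_swirl_gm hε) (-1)
  rw [v0_sub h0 h.d1 hε]
  refine (hL _ hsw (9 * ε ^ mu) ε (by positivity) hε (by linarith) ?_).trans ?_
  · filter_upwards [toL2_coe hsub] with x hx hxB
    rw [hx]
    exact u0_sub hε hxB
  · apply ENNReal.ofReal_le_ofReal
    have h5 : mu + 1 - δ + 1 / q = mu + (2 * (1 - (1 + δ) / 2) + 1 / q) := by ring
    rw [h5, Real.rpow_add hε mu]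
    apply le_of_eq
    ring

/-- `‖z_ε‖_q ≤ C ε^(μ - 1 - δ + 1/q)` (`lemmaL`, `lapl_gE`, `dyadic`, `geom_le`; the exponent
`μ - 1 - δ + 1/q` is negative since `μ = 1/16`, `1/q ≤ 1/2`, `δ > -1/4`). -/
theorem zE_le {zt p κ δ q : ℝ} (h : Par zt p κ δ q) : ∃ C : ℝ, 0 ≤ C ∧ ∀ ε : ℝ, 0 < ε →
    ε ≤ 1 / 16 → eLpNorm (zE δ ε) (ENNReal.ofReal q) volume ≤
      ENNReal.ofReal (C * ε ^ (mu - 1 - δ + 1 / q)) := by
  obtain ⟨h0, hb0, hb1, hq, hbq⟩ := b2_par h
  obtain ⟨C, hC, hL⟩ := lemmaL hb0 hb1 hq hbq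
  obtain ⟨D, hD, hlap⟩ := lapl_gE
  have he : mu - 1 - δ + 1 / q < 0 := by
    have h2 := h.hq
    have h3 : 1 / q ≤ 1 / 2 := one_div_le_one_div_of_le (by norm_num) h2
    unfold mu
    linarith
  set e : ℝ := mu - 1 - δ + 1 / q with hedef
  have h2e : (0 : ℝ) < 1 - 2 ^ e := by
    have := Real.rpow_lt_one_of_one_lt_of_neg (by norm_num : (1 : ℝ) < 2) he
    linarith
  refine ⟨C * (8 * D / (1 - 2 ^ e) + 64 * D * Real.exp 4), by positivity, fun ε hε hε1 => ?_⟩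
  have hm := TF_sub_CV (gE_TF hε)
  obtain ⟨J, hJ, hdy⟩ := dyadic hε hε1
  have hb := hL (toL2 fun x => -lapl (fun x => gE ε x • mm x) x) (b2_swirl_lapl hε)
    (Finset.range (J + 1))
    (fun j => if j < J then 8 * D * (2 ^ j * ε) ^ (mu - 2) else 64 * D * Real.exp 4)
    (fun j => if j < J then 2 ^ j * ε else 1 / 8) ?_ ?_
  · refine hb.trans (ENNReal.ofReal_le_ofReal ?_)
    rw [mul_assoc C]
    refine mul_le_mul_of_nonneg_left ?_ hC
    rw [Finset.sum_range_succ]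
    simp only [lt_irrefl, if_false]
    rw [add_mul]
    refine add_le_add ?_ ?_
    · have h6 : ∑ j ∈ Finset.range J, ((if j < J then 8 * D * (2 ^ j * ε) ^ (mu - 2) else
          64 * D * Real.exp 4) * (if j < J then 2 ^ j * ε else 1 / 8) ^
            (2 * (1 - (1 + δ) / 2) + 1 / q)) =
          8 * D * ∑ j ∈ Finset.range J, (2 ^ j * ε) ^ e := by
        rw [Finset.mul_sum]
        refine Finset.sum_congr rfl fun j hj => ?_
        have hj' := Finset.mem_range.1 hj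
        have hpos : 0 < 2 ^ j * ε := by positivity
        rw [if_pos hj', if_pos hj', mul_assoc, ← Real.rpow_add hpos]
        congr 2
        rw [hedef]
        ring
      rw [h6]
      calc 8 * D * ∑ j ∈ Finset.range J, (2 ^ j * ε) ^ e ≤ 8 * D * (ε ^ e / (1 - 2 ^ e)) :=
            mul_le_mul_of_nonneg_left (geom_le he hε J) (by positivity)
        _ = 8 * D / (1 - 2 ^ e) * ε ^ e := by ring
    · have h7 : (1 / 8 : ℝ) ^ (2 * (1 - (1 + δ) / 2) + 1 / q) ≤ 1 :=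
        Real.rpow_le_one (by norm_num) (by norm_num) (by positivity)
      have h8 : (1 : ℝ) ≤ ε ^ e :=
        Real.one_le_rpow_of_pos_of_le_one_of_nonpos hε (by linarith) he.le
      calc 64 * D * Real.exp 4 * (1 / 8 : ℝ) ^ (2 * (1 - (1 + δ) / 2) + 1 / q)
          ≤ 64 * D * Real.exp 4 * 1 := mul_le_mul_of_nonneg_left h7 (by positivity)
        _ ≤ 64 * D * Real.exp 4 * ε ^ e := mul_le_mul_of_nonneg_left h8 (by positivity)
  · intro j _
    by_cases hj : j < J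
    · rw [if_pos hj, if_pos hj]
      exact ⟨by positivity, by positivity, hJ j hj⟩
    · rw [if_neg hj, if_neg hj]
      exact ⟨by positivity, by norm_num, le_rfl⟩
  · filter_upwards [toL2_coe (CV_memLp (CV_lapl hm) 2).neg] with x hx hxB
    have hx' : (toL2 fun x => -lapl (fun x => gE ε x • mm x) x) x =
      -lapl (fun x => gE ε x • mm x) x := hx
    rw [hx', norm_neg]
    refine (hlap ε hε hε1 x hxB).trans ?_
    refine (mul_le_mul_of_nonneg_left (hdy (yy x) (yy_pos_iff.1 hxB) (yy_le_half x)) hD).trans ?_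
    rw [Finset.sum_range_succ]
    simp only [lt_irrefl, if_false]
    rw [mul_add]
    refine le_of_eq ?_
    congr 1
    · rw [← mul_assoc, Finset.mul_sum]
      refine Finset.sum_congr rfl fun j hj => ?_
      have hj' := Finset.mem_range.1 hj
      rw [if_pos hj', if_pos hj']
      ring
    · ring

theorem zE_mem {zt p κ δ q : ℝ} (h : Par zt p κ δ q) {ε : ℝ} (hε : 0 < ε) (hε1 : ε ≤ 1 / 16) :
    zE δ ε ∈ LqS Bl q := by
  obtain ⟨h0, hb0, hb1, hq, hbq⟩ := b2_par h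
  obtain ⟨C, hC, hz⟩ := zE_le h
  exact ⟨negPow_mem hb0 hb1 _, (hz ε hε hε1).trans_lt ENNReal.ofReal_lt_top⟩

/-- `K(s, v₀) ≤ C s^((μ + 1 - δ + 1/q)/2)` for `s ≤ 1/256` (`ε = √s`). -/
theorem Kfun_le {zt p κ δ q : ℝ} (h : Par zt p κ δ q) : ∃ C : ℝ, 0 ≤ C ∧ ∀ s : ℝ, 0 < s →
    s ≤ 1 / 256 → Kfun Bl q s (v0 δ) ≤ ENNReal.ofReal (C * s ^ ((mu + 1 - δ + 1 / q) / 2)) := by
  obtain ⟨C1, hC1, h1⟩ := v0_sub_le h
  obtain ⟨C2, hC2, h2⟩ := zE_le h
  refine ⟨C1 + C2, by positivity, fun s hs hs1 => ?_⟩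
  have hε : 0 < Real.sqrt s := Real.sqrt_pos.2 hs
  have hε1 : Real.sqrt s ≤ 1 / 16 := by
    rw [Real.sqrt_le_left (by norm_num)]
    norm_num
    linarith
  have hs2 : Real.sqrt s = s ^ (1 / 2 : ℝ) := Real.sqrt_eq_rpow s
  unfold Kfun
  refine (iInf₂_le (zE δ (Real.sqrt s)) (zE_mem h hε hε1)).trans ?_
  refine (add_le_add (h1 _ hε hε1) (mul_le_mul_right (h2 _ hε hε1) _)).trans ?_
  rw [← ENNReal.ofReal_mul hs.le, ← ENNReal.ofReal_add (by positivity) (by positivity)]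
  apply ENNReal.ofReal_le_ofReal
  have e1 : Real.sqrt s ^ (mu + 1 - δ + 1 / q) = s ^ ((mu + 1 - δ + 1 / q) / 2) := by
    rw [hs2, ← Real.rpow_mul hs.le]
    congr 1; ring
  have e2 : s * (C2 * Real.sqrt s ^ (mu - 1 - δ + 1 / q)) =
      C2 * s ^ ((mu + 1 - δ + 1 / q) / 2) := by
    rw [hs2, ← Real.rpow_mul hs.le]
    have : s ^ ((mu + 1 - δ + 1 / q) / 2) =
        s ^ (1 : ℝ) * s ^ ((1 / 2 : ℝ) * (mu - 1 - δ + 1 / q)) := by
      rw [← Real.rpow_add hs]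
      congr 1; ring
    rw [this, Real.rpow_one]
    ring
  rw [e1, e2, add_mul]

theorem Kfun_le_norm {q s : ℝ} (hs : 0 ≤ s) (v : L2) :
    Kfun Bl q s v ≤ eLpNorm v (ENNReal.ofReal q) volume := by
  unfold Kfun
  have h0 : (0 : L2) ∈ LqS Bl q := by
    refine ⟨Hs_zero, ?_⟩
    rw [eLpNorm_congr_ae (Lp.coeFn_zero E3 2 (volume : Measure E3))]
    simp
  refine (iInf₂_le (0 : L2) h0).trans ?_
  have h1 : res Bl 0 (0 : L2) = 0 := by
    rw [← resL_apply le_rfl, map_zero]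
  have h2 : eLpNorm (0 : L2) (ENNReal.ofReal q) (volume : Measure E3) = 0 := by
    rw [eLpNorm_congr_ae (Lp.coeFn_zero E3 2 (volume : Measure E3))]
    simp
  rw [h1, sub_zero, h2, mul_zero, add_zero]

/-- `v₀ ∈ X^tr`: with `θ = 1 - (1+κ)/p = (3/q - δ)/2 ∈ (0, 1)`; near `0` the integrand is
`≤ C s^(p ((μ + 1 - δ + 1/q)/2 - θ) - 1)` and `(μ + 1 - δ + 1/q)/2 - θ = (μ + 1 - 2/q)/2 > 0`;
for `s ≥ 1/256` it is `≤ C s^(-θ p - 1)`. -/
theorem v0_tr {zt p κ δ q : ℝ} (h : Par zt p κ δ q) : trPow Bl p κ q (v0 δ) < ∞ := by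
  obtain ⟨C, hC, hK⟩ := Kfun_le h
  have hp : 2 < p := h.hp
  have hp0 : 0 < p := by linarith
  have hq : 2 ≤ q := h.hq
  have hk1 := h.k1
  have hcr := h.crit
  have hth : 1 - (1 + κ) / p = (3 / q - δ) / 2 := by
    rw [hcr]
    field_simp
    ring
  have hthp : 0 < 1 - (1 + κ) / p := by
    have : (1 + κ) / p < 1 / 2 := by
      rw [div_lt_iff₀ hp0]
      linarith
    linarith
  have hE : 0 < (mu + 1 - δ + 1 / q) / 2 - (1 - (1 + κ) / p) := by
    rw [hth]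
    have h3 : 1 / q ≤ 1 / 2 := one_div_le_one_div_of_le (by norm_num) hq
    have h4 : 3 / q = 3 * (1 / q) := by ring
    rw [h4]
    unfold mu
    linarith
  set E : ℝ := (mu + 1 - δ + 1 / q) / 2
  set θ : ℝ := 1 - (1 + κ) / p
  set N : ℝ := (eLpNorm (v0 δ) (ENNReal.ofReal q) volume).toReal
  have hN : eLpNorm (v0 δ) (ENNReal.ofReal q) volume = ENNReal.ofReal N :=
    (ENNReal.ofReal_toReal (v0_mem h).2.ne).symm
  have hN0 : 0 ≤ N := ENNReal.toReal_nonneg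
  -- the integrand
  have hI : ∀ (s A e : ℝ), 0 < s → 0 ≤ A →
      (ENNReal.ofReal (s ^ (-θ)) * ENNReal.ofReal (A * s ^ e)) ^ p * ENNReal.ofReal s⁻¹ =
        ENNReal.ofReal (A ^ p * s ^ ((e - θ) * p - 1)) := by
    intro s A e hs hA
    rw [← ENNReal.ofReal_mul (by positivity), ENNReal.ofReal_rpow_of_nonneg (by positivity) hp0.le,
      ← ENNReal.ofReal_mul (by positivity)]
    congr 1
    have e1 : s ^ (-θ) * (A * s ^ e) = A * s ^ (e - θ) := by
      rw [sub_eq_neg_add, Real.rpow_add hs]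
      ring
    rw [e1, Real.mul_rpow hA (by positivity), ← Real.rpow_mul hs.le, Real.rpow_sub hs,
      Real.rpow_one, div_eq_mul_inv, mul_assoc]
  have hsplit : Ioi (0 : ℝ) = Ioc 0 (1 / 256) ∪ Ioi (1 / 256) :=
    (Ioc_union_Ioi_eq_Ioi (by norm_num)).symm
  unfold trPow
  rw [hsplit]
  refine (lintegral_union_le _ _ _).trans_lt ?_
  rw [ENNReal.add_lt_top]
  constructor
  · have hle : ∫⁻ s in Ioc (0 : ℝ) (1 / 256), (ENNReal.ofReal (s ^ (-θ)) * Kfun Bl q s (v0 δ)) ^ p *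
        ENNReal.ofReal s⁻¹ ≤
        ∫⁻ s in Ioc (0 : ℝ) (1 / 256), ENNReal.ofReal (C ^ p * s ^ ((E - θ) * p - 1)) := by
      refine setLIntegral_mono' measurableSet_Ioc fun s hs => ?_
      rw [← hI s C E hs.1 hC]
      gcongr
      exact hK s hs.1 hs.2
    refine hle.trans_lt ?_
    have hint : IntegrableOn (fun s : ℝ => C ^ p * s ^ ((E - θ) * p - 1)) (Ioc 0 (1 / 256)) := by
      refine Integrable.const_mul ?_ _
      have h5 : -1 < (E - θ) * p - 1 := by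
        have := mul_pos hE hp0
        linarith
      exact (intervalIntegrable_iff_integrableOn_Ioc_of_le (by norm_num)).1
        (intervalIntegral.intervalIntegrable_rpow' h5)
    exact hint.lintegral_lt_top
  · have hle : ∫⁻ s in Ioi (1 / 256 : ℝ), (ENNReal.ofReal (s ^ (-θ)) * Kfun Bl q s (v0 δ)) ^ p *
        ENNReal.ofReal s⁻¹ ≤
        ∫⁻ s in Ioi (1 / 256 : ℝ), ENNReal.ofReal (N ^ p * s ^ ((0 - θ) * p - 1)) := by
      refine setLIntegral_mono' measurableSet_Ioi fun s hs => ?_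
      have hs0 : 0 < s := lt_trans (by norm_num) hs
      rw [← hI s N 0 hs0 hN0, Real.rpow_zero, mul_one, ← hN]
      gcongr
      exact Kfun_le_norm hs0.le _
    refine hle.trans_lt ?_
    have hint : IntegrableOn (fun s : ℝ => N ^ p * s ^ ((0 - θ) * p - 1)) (Ioi (1 / 256)) := by
      refine Integrable.const_mul ?_ _
      refine integrableOn_Ioi_rpow_of_lt ?_ (by norm_num)
      have := mul_pos hthp hp0
      linarith
    exact hint.lintegral_lt_top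

end Pool.Agent.W_332fe5
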