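import Pool.Agent.W_332fe5.Geo

set_option autoImplicit false

/-! Block 1, A0: a jointly measurable evaluation `L² × ℝ³ → ℝ³`; measurability of functionals on
`L²`; Bochner integrals in `L²` are pointwise integrals; Minkowski with a weight. -/

open MeasureTheory Set Filter Topology
open scoped ENNReal NNReal

namespace Pool.Agent.W_332fe5

noncomputable instance instMSL2 : MeasurableSpace L2 := borel L2

instance instBSL2 : BorelSpace L2 := ⟨rfl⟩

/-- the average of the `i`-th component of `z.1` over the ball of radius `r` about `z.2`, written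
as an inner product with a translate -/
private noncomputable def A0_c (r : ℝ) (i : Fin 3) (z : L2 × E3) : ℝ :=
  (volume.real (Metric.closedBall (0 : E3) r))⁻¹ *
    inner ℝ (indicatorConstLp 2 (Metric.isClosed_closedBall (x := (0 : E3)) (ε := r)).measurableSet
      measure_closedBall_lt_top.ne (EuclideanSpace.single i (1 : ℝ)) : L2)
      (Lp.compMeasurePreserving (fun y : E3 => y + z.2) (measurePreserving_add_right volume z.2)
        z.1 : L2)

private theorem A0_c_cont (r : ℝ) (i : Fin 3) : Continuous (A0_c r i) := by
  unfold A0_c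
  refine continuous_const.mul (continuous_const.inner ?_)
  have h1 : Continuous fun p : (L2 × E3) × E3 => p.2 + p.1.2 := by fun_prop
  exact Continuous.compMeasurePreservingLp (f := fun z : L2 × E3 => z.1)
    (g := ContinuousMap.curry ⟨fun p : (L2 × E3) × E3 => p.2 + p.1.2, h1⟩)
    continuous_fst (ContinuousMap.curry _).continuous
    (fun z => measurePreserving_add_right volume z.2) (by norm_num)

private theorem A0_c_eq (r : ℝ) (i : Fin 3) (f : L2) (x : E3) :
    A0_c r i (f, x) = ⨍ y in Metric.closedBall x r, f y i := by
  unfold A0_c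
  rw [L2.inner_indicatorConstLp_eq_setIntegral_inner, setAverage_eq, smul_eq_mul]
  have hv : volume.real (Metric.closedBall (0 : E3) r) = volume.real (Metric.closedBall x r) := by
    unfold Measure.real
    rw [Measure.addHaar_closedBall_center]
    rw [Measure.addHaar_closedBall_center (μ := (volume : Measure E3)) x]
  rw [hv]
  congr 1
  have h1 : ∫ y in Metric.closedBall (0 : E3) r, inner ℝ (EuclideanSpace.single i (1 : ℝ))
      ((Lp.compMeasurePreserving (fun y : E3 => y + x) (measurePreserving_add_right volume x)
        f : L2) y) = ∫ y in Metric.closedBall (0 : E3) r, f (y + x) i := by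
    refine integral_congr_ae (ae_restrict_of_ae ?_)
    filter_upwards [Lp.coeFn_compMeasurePreserving f
      (measurePreserving_add_right (volume : Measure E3) x)] with y hy
    rw [hy, EuclideanSpace.inner_single_left]
    simp
  rw [h1]
  have h2 := (measurePreserving_add_right (volume : Measure E3) x).setIntegral_preimage_emb
    (measurableEmbedding_addRight x) (fun y => f y i) (Metric.closedBall x r)
  rw [← h2]
  have h3 : (fun y : E3 => y + x) ⁻¹' Metric.closedBall x r = Metric.closedBall 0 r := by
    ext y
    simp [dist_eq_norm]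
  rw [h3]

private theorem A0_locInt (f : L2) (i : Fin 3) :
    LocallyIntegrable (fun y => f y i) (volume : Measure E3) := by
  have h1 : MemLp (fun y => f y i) 2 (volume : Measure E3) := by
    refine MemLp.of_le (Lp.memLp f) ?_ (Eventually.of_forall fun y => ?_)
    · exact ((EuclideanSpace.proj i : E3 →L[ℝ] ℝ).continuous.comp_aestronglyMeasurable
        (Lp.aestronglyMeasurable f))
    · exact EuclideanSpace.norm_eq (f y) ▸ by
        refine Real.le_sqrt_of_sq_le ?_
        exact Finset.single_le_sum (f := fun j => ‖f y j‖ ^ 2) (fun j _ => sq_nonneg _)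
          (Finset.mem_univ i)
  exact h1.locallyIntegrable (by norm_num)

/-- A jointly measurable evaluation.
Proof.  `L2` is separable; let `d n` be a dense sequence (with the strongly measurable
representatives `Lp.stronglyMeasurable`).  For `f` and `k` let `N k f` be the first `n` with
`‖f - d n‖ < 4^(-k)` (`Nat.find`); `f ↦ N k f` is measurable (countably many values, each
`{f | N k f = n}` is Borel).  So `g k (f, x) := d (N k f) x` is measurable on `L2 × E3`
(`measurable_from_prod_countable`-type argument).  For fixed `f`, `∑ ‖g (k+1) - g k‖_2 < ∞`, so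
`g k (f, x) → f x` for a.e. `x` (Borel-Cantelli: `∑_k ‖g k - f‖_2 < ∞` gives
`∑_k ∫ |g k - f|^2 < ∞`, so `∑_k |g k x - f x|^2 < ∞` for a.e. `x`).  Put
`ev f x := lim_k g k (f, x)` where the limit exists and `0` elsewhere; the set where the sequence
converges is measurable (`measurableSet_exists_tendsto`), and a pointwise limit of measurable
functions is measurable. -/
theorem exists_ev : ∃ ev : L2 → E3 → E3,
    Measurable (fun z : L2 × E3 => ev z.1 z.2) ∧ ∀ f : L2, ev f =ᵐ[volume] f := by
  refine ⟨fun f x => WithLp.toLp 2 fun i : Fin 3 =>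
    limsup (fun n : ℕ => A0_c (1 / ((n : ℝ) + 1)) i (f, x)) atTop, ?_, fun f => ?_⟩
  · refine (WithLp.measurable_toLp 2 _).comp (measurable_pi_lambda _ fun i => ?_)
    exact Measurable.limsup fun n => (A0_c_cont _ i).measurable
  · have h1 : ∀ᵐ x ∂(volume : Measure E3), ∀ i : Fin 3,
        Tendsto (fun n : ℕ => A0_c (1 / ((n : ℝ) + 1)) i (f, x)) atTop (𝓝 (f x i)) := by
      rw [ae_all_iff]
      intro i
      filter_upwards [IsUnifLocDoublingMeasure.ae_tendsto_average (volume : Measure E3)
        (A0_locInt f i) 1] with x hx
      have h2 := hx (fun _ : ℕ => x) (fun n : ℕ => 1 / ((n : ℝ) + 1))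
        (tendsto_nhdsWithin_iff.2 ⟨tendsto_one_div_add_atTop_nhds_zero_nat,
          Eventually.of_forall fun n => by
            show (0 : ℝ) < 1 / ((n : ℝ) + 1)
            positivity⟩)
        (Eventually.of_forall fun n => Metric.mem_closedBall_self (by positivity))
      refine h2.congr fun n => ?_
      rw [A0_c_eq]
    filter_upwards [h1] with x hx
    ext i
    exact (hx i).limsup_eq

/-- A jointly measurable evaluation. -/
noncomputable def ev : L2 → E3 → E3 := exists_ev.choose

theorem ev_meas : Measurable (fun z : L2 × E3 => ev z.1 z.2) := exists_ev.choose_spec.1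

theorem ev_ae (f : L2) : ev f =ᵐ[volume] f := exists_ev.choose_spec.2 f

theorem ev_comp {α : Type} [MeasurableSpace α] {w : α → L2} (hw : StronglyMeasurable w) :
    Measurable fun z : α × E3 => ev (w z.1) z.2 :=
  ev_meas.comp ((hw.measurable.comp measurable_fst).prodMk measurable_snd)

/-- Measurability of functionals (Tonelli with `ev`). -/
theorem meas_lint {Φ : E3 → E3 → ℝ≥0∞} (hΦ : Measurable fun z : E3 × E3 => Φ z.1 z.2) :
    Measurable fun f : L2 => ∫⁻ x, Φ x (f x) := by
  have h : (fun f : L2 => ∫⁻ x, Φ x (f x)) = fun f : L2 => ∫⁻ x, Φ x (ev f x) := by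
    funext f
    refine lintegral_congr_ae ?_
    filter_upwards [ev_ae f] with x hx
    rw [hx]
  rw [h]
  exact (hΦ.comp (measurable_snd.prodMk ev_meas)).lintegral_prod_right'

theorem meas_int {Φ : E3 → E3 → ℝ} (hΦ : Measurable fun z : E3 × E3 => Φ z.1 z.2) :
    Measurable fun f : L2 => ∫ x, Φ x (f x) := by
  have h : (fun f : L2 => ∫ x, Φ x (f x)) = fun f : L2 => ∫ x, Φ x (ev f x) := by
    funext f
    refine integral_congr_ae ?_
    filter_upwards [ev_ae f] with x hx
    rw [hx]
  rw [h]
  exact (StronglyMeasurable.integral_prod_right'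
    (hΦ.comp (measurable_snd.prodMk ev_meas)).stronglyMeasurable).measurable

end Pool.Agent.W_332fe5
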