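import Pool.Agent.W_332fe5.Geo

set_option autoImplicit false

/-! Block 1, A1: test fields, `L²` classes, integration by parts. -/

open MeasureTheory Set Filter Topology
open scoped ENNReal NNReal

namespace Pool.Agent.W_332fe5

/-- Smooth vector fields with compact support in the unit ball (not nec. divergence free). -/
def CV : Set (E3 → E3) :=
  {φ | ContDiff ℝ ((⊤ : ℕ∞) : WithTop ℕ∞) φ ∧ HasCompactSupport φ ∧ tsupport φ ⊆ Bl}

theorem TF_sub_CV {φ : E3 → E3} (h : φ ∈ TF Bl) : φ ∈ CV := ⟨h.1, h.2.1, h.2.2.1⟩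

/-! ### Auxiliary lemmas -/

theorem A1_diff {φ : E3 → E3} (h : φ ∈ CV) (x : E3) : DifferentiableAt ℝ φ x :=
  (h.1.differentiable (by simp)) x

theorem A1_cb_diff {φ : E3 → ℝ} (h : φ ∈ CB) (x : E3) : DifferentiableAt ℝ φ x :=
  (h.1.differentiable (by simp)) x

theorem A1_eq_zero {φ : E3 → E3} (h : φ ∈ CV) {x : E3} (hx : x ∉ Bl) : φ x = 0 :=
  image_eq_zero_of_notMem_tsupport fun h' => hx (h.2.2 h')

theorem A1_cb_eq_zero {φ : E3 → ℝ} (h : φ ∈ CB) {x : E3} (hx : x ∉ Bl) : φ x = 0 :=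
  image_eq_zero_of_notMem_tsupport fun h' => hx (h.2.2 h')

theorem A1_tsupport_fderiv {F : Type} [NormedAddCommGroup F] [NormedSpace ℝ F]
    (φ : E3 → F) (v : E3) : tsupport (fun x => fderiv ℝ φ x v) ⊆ tsupport φ := by
  refine (closure_minimal ?_ (isClosed_tsupport _)).trans (tsupport_fderiv_subset ℝ (f := φ))
  intro x hx
  refine subset_tsupport _ ?_
  intro h0
  exact hx (by simp [h0])

theorem A1_cb_pd {φ : E3 → ℝ} (h : φ ∈ CB) (v : E3) : (fun x => fderiv ℝ φ x v) ∈ CB := by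
  refine ⟨?_, h.2.1.fderiv_apply ℝ _, (A1_tsupport_fderiv φ _).trans h.2.2⟩
  exact (h.1.fderiv_right (m := ((⊤ : ℕ∞) : WithTop ℕ∞)) (by simp)).clm_apply contDiff_const

theorem A1_cb_memLp {φ : E3 → ℝ} (h : φ ∈ CB) (p : ℝ≥0∞) : MemLp φ p (volume : Measure E3) :=
  h.1.continuous.memLp_of_hasCompactSupport h.2.1

theorem A1_cb_integrable {φ : E3 → ℝ} (h : φ ∈ CB) : Integrable φ (volume : Measure E3) :=
  memLp_one_iff_integrable.1 (A1_cb_memLp h 1)

/-- Products of a test function with a function which is smooth on the ball. -/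
theorem A1_cb_mul_smooth {f g : E3 → ℝ} (h : f ∈ CB)
    (hg : ∀ x ∈ Bl, ContDiffAt ℝ ((⊤ : ℕ∞) : WithTop ℕ∞) g x) : (fun x => f x * g x) ∈ CB := by
  have hs : tsupport (fun x => f x * g x) ⊆ tsupport f := tsupport_mul_subset_left
  refine ⟨?_, h.2.1.mul_right, hs.trans h.2.2⟩
  rw [contDiff_iff_contDiffAt]
  intro x
  by_cases hx : x ∈ Bl
  · exact h.1.contDiffAt.mul (hg x hx)
  · have h0 : (fun x => f x * g x) =ᶠ[𝓝 x] fun _ => 0 :=
      notMem_tsupport_iff_eventuallyEq.1 fun h' => hx (h.2.2 (hs h'))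
    exact contDiffAt_const.congr_of_eventuallyEq h0

theorem A1_cb_mul {f g : E3 → ℝ} (h : f ∈ CB) (hg : g ∈ CB) : (fun x => f x * g x) ∈ CB :=
  A1_cb_mul_smooth h fun _ _ => hg.1.contDiffAt

theorem A1_cb_add {f g : E3 → ℝ} (h : f ∈ CB) (hg : g ∈ CB) : (fun x => f x + g x) ∈ CB :=
  ⟨h.1.add hg.1, h.2.1.add hg.2.1, (tsupport_add f g).trans (union_subset h.2.2 hg.2.2)⟩

/-- The integral of a derivative of a test function vanishes. -/
theorem A1_integral_fderiv {f : E3 → ℝ} (h : f ∈ CB) (v : E3) : ∫ x, fderiv ℝ f x v = 0 := by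
  have := integral_mul_fderiv_eq_neg_fderiv_mul_of_integrable (μ := (volume : Measure E3))
    (f := fun _ => (1 : ℝ)) (g := f) (v := v) (by simp)
    (by simpa using A1_cb_integrable (A1_cb_pd h v))
    (by simpa using A1_cb_integrable h) (fun x _ => differentiableAt_const _)
    (fun x _ => A1_cb_diff h x)
  simpa using this

/-- Integration by parts for a test function and a function smooth on the ball. -/
theorem A1_integral_mul_fderiv {f g : E3 → ℝ} (h : f ∈ CB)
    (hg : ∀ x ∈ Bl, ContDiffAt ℝ ((⊤ : ℕ∞) : WithTop ℕ∞) g x) (v : E3) :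
    ∫ x, f x * fderiv ℝ g x v = - ∫ x, fderiv ℝ f x v * g x := by
  have hm := A1_cb_mul_smooth h hg
  have h1 := A1_integral_fderiv hm v
  have e : ∀ x, fderiv ℝ (fun x => f x * g x) x v = f x * fderiv ℝ g x v + fderiv ℝ f x v * g x := by
    intro x
    by_cases hx : x ∈ Bl
    · rw [fderiv_fun_mul (A1_cb_diff h x) ((hg x hx).differentiableAt (by simp))]
      simp [mul_comm]
    · have h0 : (fun x => f x * g x) =ᶠ[𝓝 x] fun _ => 0 :=
        notMem_tsupport_iff_eventuallyEq.1 fun h' => hx (h.2.2 (tsupport_mul_subset_left h'))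
      rw [h0.fderiv_eq]
      have h2 : fderiv ℝ f x v = 0 := A1_cb_eq_zero (A1_cb_pd h v) hx
      simp [A1_cb_eq_zero h hx, h2]
  have hg' : ∀ x ∈ Bl, ContDiffAt ℝ ((⊤ : ℕ∞) : WithTop ℕ∞) (fun x => fderiv ℝ g x v) x := by
    intro x hx
    exact ((hg x hx).fderiv_right (m := ((⊤ : ℕ∞) : WithTop ℕ∞)) (by simp)).clm_apply contDiffAt_const
  simp_rw [e] at h1
  rw [integral_add (A1_cb_integrable (A1_cb_mul_smooth h hg'))
    (A1_cb_integrable (A1_cb_mul_smooth (A1_cb_pd h v) hg))] at h1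
  linarith

/-- `CV` is a vector space. -/
theorem CV_lin {φ χ : E3 → E3} (h : φ ∈ CV) (h' : χ ∈ CV) (a : ℝ) :
    (fun x => φ x + a • χ x) ∈ CV := by
  refine ⟨h.1.add (h'.1.const_smul a), h.2.1.add (h'.2.1.smul_left (f := fun _ => a)), ?_⟩
  refine (tsupport_add φ (fun x => a • χ x)).trans (union_subset h.2.2 ?_)
  exact (tsupport_smul_subset_right (fun _ => a) χ).trans h'.2.2

theorem A1_pd_lin {φ χ : E3 → E3} (h : φ ∈ CV) (h' : χ ∈ CV) (a : ℝ) (j : Fin 3) :
    pd j (fun x => φ x + a • χ x) = fun x => pd j φ x + a • pd j χ x := by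
  funext x
  simp only [pd]
  have h1 := (A1_diff h x).hasFDerivAt.add ((A1_diff h' x).hasFDerivAt.const_smul a)
  have h2 : HasFDerivAt (fun x => φ x + a • χ x) (fderiv ℝ φ x + a • fderiv ℝ χ x) x := h1
  rw [h2.fderiv]
  rfl

theorem A1_divg_lin {φ χ : E3 → E3} (h : φ ∈ CV) (h' : χ ∈ CV) (a : ℝ) (x : E3) :
    divg (fun x => φ x + a • χ x) x = divg φ x + a * divg χ x := by
  simp only [divg, A1_pd_lin h h', PiLp.add_apply, PiLp.smul_apply, smul_eq_mul,
    Finset.sum_add_distrib, Finset.mul_sum]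

/-- `TF Bl` is a vector space. -/
theorem TF_lin {φ χ : E3 → E3} (h : φ ∈ TF Bl) (h' : χ ∈ TF Bl) (a : ℝ) :
    (fun x => φ x + a • χ x) ∈ TF Bl := by
  obtain ⟨p, q, r⟩ := CV_lin (TF_sub_CV h) (TF_sub_CV h') a
  refine ⟨p, q, r, fun x => ?_⟩
  rw [A1_divg_lin (TF_sub_CV h) (TF_sub_CV h'), h.2.2.2 x, h'.2.2.2 x, mul_zero, add_zero]

theorem A1_CV_zero : (fun _ => (0 : E3)) ∈ CV := by
  refine ⟨contDiff_const, HasCompactSupport.zero, ?_⟩
  simp [tsupport]

theorem TF_zero : (fun _ => (0 : E3)) ∈ TF Bl := by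
  obtain ⟨a, b, c⟩ := A1_CV_zero
  refine ⟨a, b, c, fun x => ?_⟩
  simp [divg, pd]

theorem CV_memLp {φ : E3 → E3} (h : φ ∈ CV) (p : ℝ≥0∞) : MemLp φ p volume :=
  h.1.continuous.memLp_of_hasCompactSupport h.2.1

theorem CV_integrable {φ : E3 → E3} (h : φ ∈ CV) : Integrable φ :=
  memLp_one_iff_integrable.1 (CV_memLp h 1)

/-- Partial derivatives and Laplacians stay in the classes. -/
theorem CV_pd {φ : E3 → E3} (h : φ ∈ CV) (j : Fin 3) : pd j φ ∈ CV := by
  refine ⟨?_, h.2.1.fderiv_apply ℝ _, (A1_tsupport_fderiv φ _).trans h.2.2⟩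
  exact (h.1.fderiv_right (m := ((⊤ : ℕ∞) : WithTop ℕ∞)) (by simp)).clm_apply contDiff_const

/-- Partial derivatives commute. -/
theorem A1_pd_comm {φ : E3 → E3} (h : φ ∈ CV) (i j : Fin 3) : pd i (pd j φ) = pd j (pd i φ) := by
  funext x
  have h2 : ContDiffAt ℝ 2 φ x := (h.1.of_le (by norm_cast)).contDiffAt
  have hs := h2.isSymmSndFDerivAt (by simp) (EuclideanSpace.single j (1 : ℝ))
    (EuclideanSpace.single i (1 : ℝ))
  have hd : DifferentiableAt ℝ (fderiv ℝ φ) x :=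
    ((h.1.fderiv_right (m := ((⊤ : ℕ∞) : WithTop ℕ∞)) (by simp)).differentiable (by simp)) x
  have e1 : ∀ v w : E3, fderiv ℝ (fun z => fderiv ℝ φ z v) x w = fderiv ℝ (fderiv ℝ φ) x w v := by
    intro v w
    have := hd.hasFDerivAt.clm_apply (hasFDerivAt_const v x)
    rw [this.fderiv]
    simp
  change fderiv ℝ (fun z => fderiv ℝ φ z (EuclideanSpace.single j 1)) x
      (EuclideanSpace.single i 1) =
    fderiv ℝ (fun z => fderiv ℝ φ z (EuclideanSpace.single i 1)) x (EuclideanSpace.single j 1)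
  rw [e1, e1]
  exact hs.symm

/-- The component of a partial derivative. -/
theorem A1_pd_apply {φ : E3 → E3} (h : ∀ x, DifferentiableAt ℝ φ x) (i j : Fin 3) (x : E3) :
    pd j φ x i = fderiv ℝ (fun z => φ z i) x (EuclideanSpace.single j 1) := by
  have h1 := ((EuclideanSpace.proj i : E3 →L[ℝ] ℝ).hasFDerivAt (x := φ x)).comp x
    (h x).hasFDerivAt
  have h2 : HasFDerivAt (fun z => φ z i)
    ((EuclideanSpace.proj i : E3 →L[ℝ] ℝ).comp (fderiv ℝ φ x)) x := h1
  rw [h2.fderiv]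
  rfl

theorem A1_comp {φ : E3 → E3} (h : φ ∈ CV) (i : Fin 3) : (fun x => φ x i) ∈ CB := by
  refine ⟨contDiff_euclidean.1 h.1 i, h.2.1.comp_left (g := fun v : E3 => v i) rfl, ?_⟩
  refine (closure_minimal ?_ (isClosed_tsupport _)).trans h.2.2
  intro x hx
  refine subset_tsupport _ ?_
  intro h0
  exact hx (by simp [h0])

theorem A1_divg_pd {φ : E3 → E3} (h : φ ∈ CV) (j : Fin 3) (x : E3) :
    divg (pd j φ) x = fderiv ℝ (divg φ) x (EuclideanSpace.single j 1) := by
  have e : divg φ = fun z => ∑ i, pd i φ z i := rfl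
  rw [e, fderiv_fun_sum (fun i _ => A1_cb_diff (A1_comp (CV_pd h i) i) x)]
  simp only [divg, sum_apply]
  refine Finset.sum_congr rfl fun i _ => ?_
  rw [A1_pd_comm h i j, A1_pd_apply (A1_diff (CV_pd h i))]

theorem TF_pd {φ : E3 → E3} (h : φ ∈ TF Bl) (j : Fin 3) : pd j φ ∈ TF Bl := by
  obtain ⟨a, b, c⟩ := CV_pd (TF_sub_CV h) j
  refine ⟨a, b, c, fun x => ?_⟩
  rw [A1_divg_pd (TF_sub_CV h)]
  have : divg φ = fun _ => 0 := funext h.2.2.2
  simp [this]

theorem A1_lapl_eq (φ : E3 → E3) :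
    lapl φ = fun x => (pd 0 (pd 0 φ) x + (1 : ℝ) • pd 1 (pd 1 φ) x) + (1 : ℝ) • pd 2 (pd 2 φ) x := by
  funext x
  simp [lapl, Fin.sum_univ_three]

theorem CV_lapl {φ : E3 → E3} (h : φ ∈ CV) : lapl φ ∈ CV := by
  rw [A1_lapl_eq]
  exact CV_lin (CV_lin (CV_pd (CV_pd h 0) 0) (CV_pd (CV_pd h 1) 1) 1) (CV_pd (CV_pd h 2) 2) 1

theorem TF_lapl {φ : E3 → E3} (h : φ ∈ TF Bl) : lapl φ ∈ TF Bl := by
  rw [A1_lapl_eq]
  exact TF_lin (TF_lin (TF_pd (TF_pd h 0) 0) (TF_pd (TF_pd h 1) 1) 1) (TF_pd (TF_pd h 2) 2) 1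

theorem toL2_coe {f : E3 → E3} (h : MemLp f 2 (volume : Measure E3)) : toL2 f =ᵐ[volume] f := by
  rw [toL2, dif_pos h]
  exact h.coeFn_toLp

theorem toL2_self (f : L2) : toL2 f = f := by
  refine Lp.ext ?_
  exact toL2_coe (Lp.memLp f)

theorem toL2_lin {f g : E3 → E3} (h : MemLp f 2 (volume : Measure E3))
    (h' : MemLp g 2 (volume : Measure E3)) (a : ℝ) :
    toL2 (fun x => f x + a • g x) = toL2 f + a • toL2 g := by
  refine Lp.ext ?_
  have hm : MemLp (fun x => f x + a • g x) 2 (volume : Measure E3) := h.add (h'.const_smul a)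
  filter_upwards [toL2_coe h, toL2_coe h', toL2_coe hm, Lp.coeFn_add (toL2 f) (a • toL2 g),
    Lp.coeFn_smul a (toL2 g)] with x h1 h2 h3 h4 h5
  rw [h3, h4, Pi.add_apply, h5, Pi.smul_apply, h1, h2]

/-- The pairing of `L²` classes is the inner product. -/
theorem pair_eq_inner (f g : L2) : pair f g = inner ℝ f g := by
  rw [L2.inner_def]
  rfl

theorem pair_toL2 (f : L2) {φ : E3 → E3} (h : MemLp φ 2 (volume : Measure E3)) :
    pair f φ = inner ℝ f (toL2 φ) := by
  rw [L2.inner_def]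
  refine integral_congr_ae ?_
  filter_upwards [toL2_coe h] with x hx
  rw [hx]

/-- Integration by parts for smooth fields, one of them with compact support. -/
theorem pair_pd {φ χ : E3 → E3} (h : φ ∈ CV) (h' : ContDiff ℝ 1 χ) (j : Fin 3) :
    pair (pd j φ) χ = -pair φ (pd j χ) := by
  have hc : Continuous (pd j χ) := by
    exact (h'.continuous_fderiv (by simp)).clm_apply continuous_const
  have hi : ∀ {f g : E3 → E3}, Continuous f → HasCompactSupport f → Continuous g →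
      Integrable (fun x => innerSL ℝ (f x) (g x)) (volume : Measure E3) := by
    intro f g hf hf' hg
    refine Continuous.integrable_of_hasCompactSupport ?_ ?_
    · exact hf.inner hg
    · refine hf'.mono' ?_
      intro x hx
      refine subset_tsupport _ ?_
      intro h0
      exact hx (by simp [h0])
  have := integral_bilinear_fderiv_right_eq_neg_left_of_integrable (μ := (volume : Measure E3))
    (f := φ) (g := χ) (v := EuclideanSpace.single j (1 : ℝ)) (B := innerSL ℝ)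
    (hi (CV_pd h j).1.continuous (CV_pd h j).2.1 h'.continuous)
    (hi h.1.continuous h.2.1 hc) (hi h.1.continuous h.2.1 h'.continuous)
    (fun x _ => A1_diff h x) (fun x _ => (h'.differentiable (by simp)) x)
  change ∫ x, inner ℝ (φ x) (fderiv ℝ χ x (EuclideanSpace.single j 1)) =
    - ∫ x, inner ℝ (fderiv ℝ φ x (EuclideanSpace.single j 1)) (χ x) at this
  change ∫ x, inner ℝ (fderiv ℝ φ x (EuclideanSpace.single j 1)) (χ x) =
    - ∫ x, inner ℝ (φ x) (fderiv ℝ χ x (EuclideanSpace.single j 1))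
  rw [this, neg_neg]

theorem pair_lapl {φ χ : E3 → E3} (h : φ ∈ CV) (h' : χ ∈ CV) :
    ∑ j, pair (pd j φ) (pd j χ) = -pair (lapl φ) χ := by
  have e : pair (lapl φ) χ = ∑ j, pair (pd j (pd j φ)) χ := by
    simp only [pair]
    rw [← integral_finsetSum]
    · refine integral_congr_ae (Eventually.of_forall fun x => ?_)
      simp only [lapl]
      rw [sum_inner]
    · intro j _
      refine Continuous.integrable_of_hasCompactSupport ?_ ?_
      · exact (CV_pd (CV_pd h j) j).1.continuous.inner h'.1.continuous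
      · refine h'.2.1.mono' ?_
        intro x hx
        refine subset_tsupport _ ?_
        intro h0
        exact hx (by simp [h0])
  rw [e, ← Finset.sum_neg_distrib]
  refine Finset.sum_congr rfl fun j _ => ?_
  rw [pair_pd (CV_pd h j) (h'.1.of_le (by norm_cast)), neg_neg]

end Pool.Agent.W_332fe5
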