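import Pool.Agent.W_332fe5.O.A9

set_option autoImplicit false

/-! Block 1, A10: comparison principle for `R(l) f`, `f` swirl. -/

open MeasureTheory Set Filter Topology
open scoped ENNReal NNReal

namespace Pool.Agent.W_332fe5

/-- A smooth convex function: `j' = 0` on `(-∞, 0]`, `j' > 0` on `(0, ∞)`, `j'` and `j''` bounded.
Only `j'` is needed; call it `s`.  Example: `s t = ∫_0^t Real.smoothTransition`. -/
theorem exists_jp : ∃ s : ℝ → ℝ, ContDiff ℝ ((⊤ : ℕ∞) : WithTop ℕ∞) s ∧ (∀ t ≤ 0, s t = 0) ∧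
    (∀ t, 0 < t → 0 < s t) ∧ (∀ t, s t ≤ |t|) ∧ ∀ t, 0 ≤ deriv s t ∧ deriv s t ≤ 1 := by
  have hc : Continuous Real.smoothTransition := Real.smoothTransition.continuous
  have hd : ∀ t, HasDerivAt (fun t => ∫ x in (0 : ℝ)..t, Real.smoothTransition x)
      (Real.smoothTransition t) t := fun t =>
    intervalIntegral.integral_hasDerivAt_right (hc.intervalIntegrable _ _)
      hc.aestronglyMeasurable.stronglyMeasurableAtFilter hc.continuousAt
  have hde : deriv (fun t => ∫ x in (0 : ℝ)..t, Real.smoothTransition x) = Real.smoothTransition :=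
    funext fun t => (hd t).deriv
  refine ⟨fun t => ∫ x in (0 : ℝ)..t, Real.smoothTransition x, ?_, ?_, ?_, ?_, ?_⟩
  · rw [contDiff_infty_iff_deriv]
    refine ⟨fun t => (hd t).differentiableAt, ?_⟩
    rw [hde]
    exact Real.smoothTransition.contDiff
  · intro t ht
    have : ∫ x in (0 : ℝ)..t, Real.smoothTransition x = ∫ x in (0 : ℝ)..t, (0 : ℝ) := by
      refine intervalIntegral.integral_congr fun x hx => ?_
      rw [uIcc_of_ge ht] at hx
      exact Real.smoothTransition.zero_of_nonpos hx.2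
    simp [this]
  · intro t ht
    exact intervalIntegral.intervalIntegral_pos_of_pos_on (hc.intervalIntegrable _ _)
      (fun x hx => Real.smoothTransition.pos_of_pos hx.1) ht
  · intro t
    have h := intervalIntegral.norm_integral_le_of_norm_le_const (a := 0) (b := t) (C := 1)
      (f := Real.smoothTransition) (fun x _ => by
        rw [Real.norm_of_nonneg (Real.smoothTransition.nonneg x)]
        exact Real.smoothTransition.le_one x)
    have h2 := (le_abs_self _).trans h
    simpa using h2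
  · intro t
    rw [hde]
    exact ⟨Real.smoothTransition.nonneg t, Real.smoothTransition.le_one t⟩

/-- The test function `χ = 1_B s (φ_i - U)` is in `CB` when `U ≥ 0` on the ball: inside the ball it
vanishes where `φ = 0`, so its support is contained in the support of `φ`; near the support of `φ`
it is smooth. -/
theorem test_CB {s : ℝ → ℝ} (hs : ContDiff ℝ ((⊤ : ℕ∞) : WithTop ℕ∞) s) (hs0 : ∀ t ≤ 0, s t = 0)
    {U : E3 → ℝ} (hU : ContDiff ℝ ((⊤ : ℕ∞) : WithTop ℕ∞) U) (hU0 : ∀ x ∈ Bl, 0 ≤ U x)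
    {φ : E3 → E3} (hφ : φ ∈ TF Bl) (i : Fin 3) :
    (Bl.indicator fun x => s (φ x i - U x)) ∈ CB := by
  have hc := TF_sub_CV hφ
  have hi := A1_comp hc i
  have hsub : tsupport (Bl.indicator fun x => s (φ x i - U x)) ⊆ tsupport φ := by
    refine closure_minimal ?_ (isClosed_tsupport _)
    intro x hx
    by_contra hcon
    have h0 : φ x = 0 := image_eq_zero_of_notMem_tsupport hcon
    apply hx
    by_cases hxB : x ∈ Bl
    · rw [indicator_of_mem hxB, h0]
      refine hs0 _ ?_
      have := hU0 x hxB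
      simpa using this
    · rw [indicator_of_notMem hxB]
  refine ⟨?_, hφ.2.1.of_isClosed_subset (isClosed_tsupport _) hsub, hsub.trans hφ.2.2.1⟩
  rw [contDiff_iff_contDiffAt]
  intro x
  by_cases hx : x ∈ Bl
  · have h1 : (Bl.indicator fun x => s (φ x i - U x)) =ᶠ[𝓝 x] fun x => s (φ x i - U x) := by
      filter_upwards [Metric.isOpen_ball.mem_nhds hx] with y hy
      rw [indicator_of_mem (show y ∈ Bl from hy)]
    exact (hs.comp (hi.1.sub hU)).contDiffAt.congr_of_eventuallyEq h1
  · have h0 : (Bl.indicator fun x => s (φ x i - U x)) =ᶠ[𝓝 x] fun _ => 0 :=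
      notMem_tsupport_iff_eventuallyEq.1 fun h' => hx (hφ.2.2.1 (hsub h'))
    exact contDiffAt_const.congr_of_eventuallyEq h0

theorem A10_fderiv_smooth {U : E3 → ℝ} (hU : ContDiff ℝ ((⊤ : ℕ∞) : WithTop ℕ∞) U) (v : E3) :
    ContDiff ℝ ((⊤ : ℕ∞) : WithTop ℕ∞) (fun x => fderiv ℝ U x v) :=
  (hU.fderiv_right (m := ((⊤ : ℕ∞) : WithTop ℕ∞)) (by simp)).clm_apply contDiff_const

theorem A10_mul_CB {U : E3 → ℝ} (hU : ContDiff ℝ ((⊤ : ℕ∞) : WithTop ℕ∞) U) {h : E3 → ℝ}
    (hh : h ∈ CB) : (fun x => U x * h x) ∈ CB := by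
  have := A1_cb_mul_smooth hh (g := U) fun x _ => hU.contDiffAt
  simpa only [mul_comm] using this

/-- Integration by parts for a scalar test function. -/
theorem slap_ibp {U : E3 → ℝ} (hU : ContDiff ℝ ((⊤ : ℕ∞) : WithTop ℕ∞) U) {h : E3 → ℝ}
    (hh : h ∈ CB) :
    ∫ x, slap U x * h x = -∑ j : Fin 3, ∫ x, fderiv ℝ U x (EuclideanSpace.single j 1) *
      fderiv ℝ h x (EuclideanSpace.single j 1) := by
  have e : ∀ j : Fin 3, ∫ x, fderiv ℝ (fun z => fderiv ℝ U z (EuclideanSpace.single j 1)) x
      (EuclideanSpace.single j 1) * h x = -∫ x, fderiv ℝ U x (EuclideanSpace.single j 1) *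
      fderiv ℝ h x (EuclideanSpace.single j 1) := by
    intro j
    have := A1_integral_mul_fderiv hh (g := fun z => fderiv ℝ U z (EuclideanSpace.single j 1))
      (fun x _ => (A10_fderiv_smooth hU _).contDiffAt) (EuclideanSpace.single j 1)
    simp only [mul_comm] at this ⊢
    exact this
  rw [← Finset.sum_neg_distrib]
  simp_rw [← e]
  rw [← integral_finsetSum]
  · refine integral_congr_ae (Eventually.of_forall fun x => ?_)
    simp only [slap, Finset.sum_mul]
  · intro j _
    exact A1_cb_integrable (A10_mul_CB (A10_fderiv_smooth (A10_fderiv_smooth hU _) _) hh)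

theorem A10_comp_memLp (v : L2) (i : Fin 3) : MemLp (fun x => v x i) 2 (volume : Measure E3) :=
  (EuclideanSpace.proj i : E3 →L[ℝ] ℝ).comp_memLp' (Lp.memLp v)

instance A10_fin : IsFiniteMeasure ((volume : Measure E3).restrict Bl) :=
  ⟨by rw [Measure.restrict_apply_univ]; exact measure_ball_lt_top⟩

theorem A10_smooth_memLp {U : E3 → ℝ} (hU : Continuous U) :
    MemLp U 2 ((volume : Measure E3).restrict Bl) := by
  obtain ⟨C, hC⟩ := (isCompact_closedBall (0 : E3) 1).exists_bound_of_continuousOn hU.continuousOn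
  refine MemLp.of_bound hU.aestronglyMeasurable C ?_
  filter_upwards [ae_restrict_mem (Metric.isOpen_ball.measurableSet : MeasurableSet Bl)] with x hx
  exact hC x (Metric.ball_subset_closedBall hx)

theorem A10_mul_int {a h : E3 → ℝ} (ha : MemLp a 2 (volume : Measure E3)) (hh : h ∈ CB) :
    Integrable (fun x => a x * h x) (volume : Measure E3) :=
  ha.integrable_mul (A1_cb_memLp hh 2)

/-- The inequality before the limit: for `v = R(l) f` with gradient `G`, `φ ∈ TF Bl`, `χ` the test
function of `test_CB`: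
`l ∫ (v_i - U) χ + ∑_j ∫_B (G_j,i - ∂_j U) s'(φ_i - U) (∂_j φ_i - ∂_j U) ≤ 0`
(`dirichlet_scalar`, `slap_ibp`, `f_i ≤ F ≤ l U - ΔU` on the ball). -/
theorem comparison_pre {l : ℝ} (hl : 0 < l) {f : L2} (hf : Swirl f) {F U : E3 → ℝ}
    (hF : ∀ᵐ x ∂(volume : Measure E3), x ∈ Bl → ‖f x‖ ≤ F x)
    (hU : ContDiff ℝ ((⊤ : ℕ∞) : WithTop ℕ∞) U) (hU0 : ∀ x ∈ Bl, 0 ≤ U x)
    (hsup : ∀ x ∈ Bl, F x ≤ l * U x - slap U x) {G : Fin 3 → L2}
    (hG : InV Bl (res Bl l f) G) {s : ℝ → ℝ} (hs : ContDiff ℝ ((⊤ : ℕ∞) : WithTop ℕ∞) s)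
    (hs0 : ∀ t ≤ 0, s t = 0) (hs1 : ∀ t, 0 < t → 0 < s t) (hs2 : ∀ t, s t ≤ |t|)
    (hs3 : ∀ t, 0 ≤ deriv s t ∧ deriv s t ≤ 1) {φ : E3 → E3} (hφ : φ ∈ TF Bl) (i : Fin 3) :
    l * (∫ x in Bl, (res Bl l f x i - U x) * s (φ x i - U x)) +
      ∑ j : Fin 3, (∫ x in Bl, (G j x i - fderiv ℝ U x (EuclideanSpace.single j 1)) *
        (deriv s (φ x i - U x) * (pd j φ x i - fderiv ℝ U x (EuclideanSpace.single j 1)))) ≤ 0 := by
  set v := res Bl l f with hv
  have hB : MeasurableSet Bl := Metric.isOpen_ball.measurableSet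
  set h : E3 → ℝ := Bl.indicator fun x => s (φ x i - U x) with hh
  have hCB : h ∈ CB := test_CB hs hs0 hU hU0 hφ i
  have hnn : ∀ x, 0 ≤ h x := by
    intro x
    by_cases hx : x ∈ Bl
    · rw [hh, indicator_of_mem hx]
      rcases le_or_gt (φ x i - U x) 0 with h1 | h1
      · rw [hs0 _ h1]
      · exact (hs1 _ h1).le
    · rw [hh, indicator_of_notMem hx]
  have hφc := TF_sub_CV hφ
  have hfd : ∀ (j : Fin 3) (x : E3), x ∈ Bl → fderiv ℝ h x (EuclideanSpace.single j 1) =
      deriv s (φ x i - U x) * (pd j φ x i - fderiv ℝ U x (EuclideanSpace.single j 1)) := by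
    intro j x hx
    have h1 : h =ᶠ[𝓝 x] fun x => s (φ x i - U x) := by
      filter_upwards [Metric.isOpen_ball.mem_nhds hx] with y hy
      rw [hh, indicator_of_mem (show y ∈ Bl from hy)]
    rw [h1.fderiv_eq]
    have d1 : HasFDerivAt (fun x => φ x i - U x)
        (fderiv ℝ (fun x => φ x i) x - fderiv ℝ U x) x :=
      (A1_cb_diff (A1_comp hφc i) x).hasFDerivAt.sub ((hU.differentiable (by simp)) x).hasFDerivAt
    have d2 : HasDerivAt s (deriv s (φ x i - U x)) (φ x i - U x) :=
      ((hs.differentiable (by simp)) _).hasDerivAt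
    have d3 := d2.comp_hasFDerivAt x d1
    have d4 : fderiv ℝ (fun x => s (φ x i - U x)) x = deriv s (φ x i - U x) •
        (fderiv ℝ (fun x => φ x i) x - fderiv ℝ U x) := d3.fderiv
    rw [d4, A1_pd_apply (A1_diff hφc)]
    simp
  -- the equation for `v`
  have hD := dirichlet_scalar hl.le hf hG hCB i
  rw [← hv] at hD
  have hS := slap_ibp hU hCB
  have iv := A10_comp_memLp v i
  have ifi := A10_comp_memLp f i
  have iG := fun j => A10_comp_memLp (G j) i
  -- the inequality for the right hand side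
  have hI : ∫ x, f x i * h x ≤ ∫ x, (l * U x - slap U x) * h x := by
    refine integral_mono_ae (A10_mul_int ifi hCB) ?_ ?_
    · have hsl : ContDiff ℝ ((⊤ : ℕ∞) : WithTop ℕ∞) (slap U) := by
        have : slap U = fun x => ∑ j : Fin 3, fderiv ℝ (fun z => fderiv ℝ U z
            (EuclideanSpace.single j 1)) x (EuclideanSpace.single j 1) := rfl
        rw [this]
        exact ContDiff.sum fun j _ => A10_fderiv_smooth (A10_fderiv_smooth hU _) _
      exact A1_cb_integrable (A10_mul_CB ((contDiff_const.mul hU).sub hsl) hCB)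
    · filter_upwards [hF] with x hx
      by_cases hxB : x ∈ Bl
      · refine mul_le_mul_of_nonneg_right ?_ (hnn x)
        have h1 : f x i ≤ ‖f x‖ := (le_abs_self _).trans (by
          have := PiLp.norm_apply_le (f x) i
          simpa using this)
        exact (h1.trans (hx hxB)).trans (hsup x hxB)
      · have : h x = 0 := A1_cb_eq_zero hCB hxB
        simp [this]
  have iUh := A1_cb_integrable (A10_mul_CB hU hCB)
  have hsl : ContDiff ℝ ((⊤ : ℕ∞) : WithTop ℕ∞) (slap U) := by
    have : slap U = fun x => ∑ j : Fin 3, fderiv ℝ (fun z => fderiv ℝ U z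
        (EuclideanSpace.single j 1)) x (EuclideanSpace.single j 1) := rfl
    rw [this]
    exact ContDiff.sum fun j _ => A10_fderiv_smooth (A10_fderiv_smooth hU _) _
  have iSh := A1_cb_integrable (A10_mul_CB hsl hCB)
  have hsplit : ∫ x, (l * U x - slap U x) * h x = l * (∫ x, U x * h x) - ∫ x, slap U x * h x := by
    rw [← integral_const_mul, ← integral_sub (iUh.const_mul l) iSh]
    refine integral_congr_ae (Eventually.of_forall fun x => ?_)
    simp only
    ring
  -- identification of the two integrals over the ball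
  have t1 : ∫ x in Bl, (v x i - U x) * s (φ x i - U x) =
      (∫ x, v x i * h x) - ∫ x, U x * h x := by
    rw [← integral_sub (A10_mul_int iv hCB) iUh, ← integral_indicator hB]
    refine integral_congr_ae (Eventually.of_forall fun x => ?_)
    by_cases hx : x ∈ Bl
    · simp only [hh, indicator_of_mem hx]
      ring
    · simp only [hh, indicator_of_notMem hx]
      ring
  have t2 : ∀ j : Fin 3, ∫ x in Bl, (G j x i - fderiv ℝ U x (EuclideanSpace.single j 1)) *
      (deriv s (φ x i - U x) * (pd j φ x i - fderiv ℝ U x (EuclideanSpace.single j 1))) =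
      (∫ x, G j x i * fderiv ℝ h x (EuclideanSpace.single j 1)) -
      ∫ x, fderiv ℝ U x (EuclideanSpace.single j 1) * fderiv ℝ h x (EuclideanSpace.single j 1) := by
    intro j
    have hpd := A1_cb_pd hCB (EuclideanSpace.single j 1)
    rw [← integral_sub (A10_mul_int (iG j) hpd)
      (A1_cb_integrable (A10_mul_CB (A10_fderiv_smooth hU _) hpd)), ← integral_indicator hB]
    refine integral_congr_ae (Eventually.of_forall fun x => ?_)
    by_cases hx : x ∈ Bl
    · simp only [indicator_of_mem hx]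
      rw [← hfd j x hx]
      ring
    · have : fderiv ℝ h x (EuclideanSpace.single j 1) = 0 := A1_cb_eq_zero hpd hx
      simp only [indicator_of_notMem hx, this]
      ring
  rw [t1]
  simp_rw [t2]
  rw [Finset.sum_sub_distrib]
  rw [hsplit] at hI
  rw [hS] at hI
  linarith

/-! ### The limit -/

/-- The `L²` norm on the ball. -/
noncomputable def A10_N (a : E3 → ℝ) : ℝ := (eLpNorm a 2 ((volume : Measure E3).restrict Bl)).toReal

theorem A10_cs {a b : E3 → ℝ} (ha : MemLp a 2 ((volume : Measure E3).restrict Bl))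
    (hb : MemLp b 2 ((volume : Measure E3).restrict Bl)) :
    |∫ x in Bl, a x * b x| ≤ A10_N a * A10_N b := by
  have h1 : inner ℝ (ha.toLp a) (hb.toLp b) = ∫ x in Bl, a x * b x := by
    rw [L2.inner_def]
    refine integral_congr_ae ?_
    filter_upwards [ha.coeFn_toLp, hb.coeFn_toLp] with x h1 h2
    rw [h1, h2]
    simp [mul_comm]
  rw [← h1, A10_N, A10_N, ← Lp.norm_toLp a ha, ← Lp.norm_toLp b hb]
  exact abs_real_inner_le_norm _ _

theorem A10_N_add {a b : E3 → ℝ} (ha : MemLp a 2 ((volume : Measure E3).restrict Bl))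
    (hb : MemLp b 2 ((volume : Measure E3).restrict Bl)) :
    A10_N (fun x => a x + b x) ≤ A10_N a + A10_N b := by
  have := eLpNorm_add_le ha.1 hb.1 (by norm_num : (1 : ℝ≥0∞) ≤ 2)
  have h2 := ENNReal.toReal_mono (ENNReal.add_ne_top.2 ⟨ha.2.ne, hb.2.ne⟩) this
  rw [ENNReal.toReal_add ha.2.ne hb.2.ne] at h2
  exact h2

theorem A10_N_mono {a b : E3 → ℝ} (hb : MemLp b 2 ((volume : Measure E3).restrict Bl))
    (h : ∀ x, |a x| ≤ |b x|) : A10_N a ≤ A10_N b :=
  ENNReal.toReal_mono hb.2.ne (eLpNorm_mono fun x => by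
    rw [Real.norm_eq_abs, Real.norm_eq_abs]; exact h x)

theorem A10_N_nonneg (a : E3 → ℝ) : 0 ≤ A10_N a := ENNReal.toReal_nonneg

theorem A10_tendsto {v : L2} {φ : ℕ → E3 → E3} (hφ : ∀ n, φ n ∈ CV)
    (h : Tendsto (fun n => toL2 (φ n)) atTop (𝓝 v)) (i : Fin 3) :
    Tendsto (fun n => A10_N fun x => v x i - φ n x i) atTop (𝓝 0) := by
  rw [← A1b_tendsto_iff hφ] at h
  have h2 := (ENNReal.tendsto_toReal ENNReal.zero_ne_top).comp h
  simp only [Function.comp_def, ENNReal.toReal_zero] at h2
  refine squeeze_zero (fun n => A10_N_nonneg _) (fun n => ?_) h2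
  have hm : MemLp (fun x => v x - φ n x) 2 (volume : Measure E3) :=
    (Lp.memLp v).sub (CV_memLp (hφ n) 2)
  refine ENNReal.toReal_mono hm.2.ne ?_
  refine (eLpNorm_mono (fun x => ?_)).trans (eLpNorm_mono_measure _ Measure.restrict_le_self)
  have := PiLp.norm_apply_le (v x - φ n x) i
  simpa using this

/-- Comparison, one sign.  Proof: take `φ = φ_n → v` in `V` (along a subsequence also a.e.); the
second sum of `comparison_pre` tends to `∑_j ∫_B (G_j,i - ∂_j U)² s'(v_i - U) ≥ 0` (dominated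
convergence for the bounded factor `s'`, `L²` convergence for the gradients), the first to
`l ∫_B (v_i - U) s (v_i - U)`.  So `(v_i - U) s (v_i - U) = 0` a.e., that is `v_i ≤ U`. -/
theorem comparison_le {l : ℝ} (hl : 0 < l) {f : L2} (hf : Swirl f) {F U : E3 → ℝ}
    (hF : ∀ᵐ x ∂(volume : Measure E3), x ∈ Bl → ‖f x‖ ≤ F x)
    (hU : ContDiff ℝ ((⊤ : ℕ∞) : WithTop ℕ∞) U) (hU0 : ∀ x ∈ Bl, 0 ≤ U x)
    (hsup : ∀ x ∈ Bl, F x ≤ l * U x - slap U x) (i : Fin 3) :
    ∀ᵐ x ∂(volume : Measure E3), x ∈ Bl → res Bl l f x i ≤ U x := by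
  set v := res Bl l f with hv
  have hB : MeasurableSet Bl := Metric.isOpen_ball.measurableSet
  obtain ⟨G, hG, _⟩ := grad_res_le hl.le f
  obtain ⟨s, hs, hs0, hs1, hs2, hs3⟩ := exists_jp
  obtain ⟨φ, hφ, hφv, hφG⟩ := A1b_InV_iff.1 hG
  have hφc := fun n => TF_sub_CV (hφ n)
  -- `s` is Lipschitz
  have hsl : ∀ a b : ℝ, |s a - s b| ≤ |a - b| := by
    intro a b
    have h1 : ∀ x ∈ (univ : Set ℝ), ‖deriv s x‖ ≤ 1 := fun x _ => by
      rw [Real.norm_of_nonneg (hs3 x).1]
      exact (hs3 x).2
    have := convex_univ.norm_image_sub_le_of_norm_deriv_le (𝕜 := ℝ)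
      (fun x _ => (hs.differentiable (by simp)) x) h1 (mem_univ b) (mem_univ a)
    simpa using this
  have hspos : ∀ t, 0 ≤ s t := by
    intro t
    rcases le_or_gt t 0 with h1 | h1
    · rw [hs0 _ h1]
    · exact (hs1 _ h1).le
  have hsabs : ∀ t, |s t| ≤ |t| := fun t => by
    rw [abs_of_nonneg (hspos t)]
    exact hs2 t
  -- memberships
  have mU : MemLp U 2 (volume.restrict Bl) := A10_smooth_memLp hU.continuous
  have mv : MemLp (fun x => v x i) 2 (volume.restrict Bl) := (A10_comp_memLp v i).restrict Bl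
  have mvU : MemLp (fun x => v x i - U x) 2 (volume.restrict Bl) := mv.sub mU
  have mdU : ∀ j : Fin 3, MemLp (fun x => fderiv ℝ U x (EuclideanSpace.single j 1)) 2
      (volume.restrict Bl) := fun j => A10_smooth_memLp (A10_fderiv_smooth hU _).continuous
  have mG : ∀ j : Fin 3, MemLp (fun x => G j x i - fderiv ℝ U x (EuclideanSpace.single j 1)) 2
      (volume.restrict Bl) := fun j => ((A10_comp_memLp (G j) i).restrict Bl).sub (mdU j)
  have mφ : ∀ n, MemLp (fun x => φ n x i) 2 (volume.restrict Bl) := fun n =>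
    (A1_cb_memLp (A1_comp (hφc n) i) 2).restrict Bl
  have mpd : ∀ n (j : Fin 3), MemLp (fun x => pd j (φ n) x i) 2 (volume.restrict Bl) := fun n j =>
    (A1_cb_memLp (A1_comp (CV_pd (hφc n) j) i) 2).restrict Bl
  have hsc : Continuous s := hs.continuous
  have ms : ∀ {a : E3 → ℝ}, MemLp a 2 (volume.restrict Bl) →
      MemLp (fun x => s (a x)) 2 (volume.restrict Bl) := by
    intro a ha
    refine ha.mono (hsc.comp_aestronglyMeasurable ha.1) (Eventually.of_forall fun x => ?_)
    rw [Real.norm_eq_abs, Real.norm_eq_abs]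
    exact hsabs _
  -- the limit quantity
  set A : ℝ := ∫ x in Bl, (v x i - U x) * s (v x i - U x) with hA
  set ε : ℕ → ℝ := fun n => A10_N fun x => v x i - φ n x i with hε
  set η : Fin 3 → ℕ → ℝ := fun j n => A10_N fun x => G j x i - pd j (φ n) x i with hη
  have tε : Tendsto ε atTop (𝓝 0) := A10_tendsto hφc hφv i
  have tη : ∀ j, Tendsto (η j) atTop (𝓝 0) := fun j =>
    A10_tendsto (fun n => CV_pd (hφc n) j) (hφG j) i
  set N0 : ℝ := A10_N fun x => v x i - U x with hN0
  set NG : Fin 3 → ℝ := fun j => A10_N fun x => G j x i - fderiv ℝ U x (EuclideanSpace.single j 1)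
    with hNG
  have key : ∀ n, l * A ≤ l * (N0 * ε n) + ∑ j, η j n * (NG j + η j n) := by
    intro n
    have h1 := comparison_pre hl hf hF hU hU0 hsup hG hs hs0 hs1 hs2 hs3 (hφ n) i
    rw [← hv] at h1
    -- first term
    have h2 : A - (∫ x in Bl, (v x i - U x) * s (φ n x i - U x)) ≤ N0 * ε n := by
      have i1 : Integrable (fun x => (v x i - U x) * s (v x i - U x)) (volume.restrict Bl) :=
        mvU.integrable_mul (ms mvU)
      have i2 : Integrable (fun x => (v x i - U x) * s (φ n x i - U x)) (volume.restrict Bl) :=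
        mvU.integrable_mul (ms ((mφ n).sub mU))
      rw [hA, ← integral_sub i1 i2]
      have e : ∫ x in Bl, ((v x i - U x) * s (v x i - U x) - (v x i - U x) * s (φ n x i - U x)) =
          ∫ x in Bl, (v x i - U x) * (s (v x i - U x) - s (φ n x i - U x)) := by
        refine integral_congr_ae (Eventually.of_forall fun x => ?_)
        simp only
        ring
      rw [e]
      refine (le_abs_self _).trans ((A10_cs mvU ((ms mvU).sub (ms ((mφ n).sub mU)))).trans ?_)
      refine mul_le_mul_of_nonneg_left ?_ (A10_N_nonneg _)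
      refine A10_N_mono (mv.sub (mφ n)) fun x => ?_
      refine (hsl _ _).trans (le_of_eq ?_)
      congr 1
      simp only [Pi.sub_apply]
      ring
    -- second term
    have h3 : ∀ j : Fin 3, -(η j n * (NG j + η j n)) ≤
        ∫ x in Bl, (G j x i - fderiv ℝ U x (EuclideanSpace.single j 1)) *
        (deriv s (φ n x i - U x) *
          (pd j (φ n) x i - fderiv ℝ U x (EuclideanSpace.single j 1))) := by
      intro j
      set Q : E3 → ℝ := fun x => deriv s (φ n x i - U x) *
          (pd j (φ n) x i - fderiv ℝ U x (EuclideanSpace.single j 1)) with hQ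
      set Pj : E3 → ℝ := fun x => pd j (φ n) x i - fderiv ℝ U x (EuclideanSpace.single j 1) with hPj
      have mP : MemLp Pj 2 (volume.restrict Bl) := (mpd n j).sub (mdU j)
      have hds : Continuous (deriv s) := hs.continuous_deriv (by simp)
      have hQle : ∀ x, |Q x| ≤ |Pj x| := by
        intro x
        rw [hQ]
        simp only
        rw [abs_mul, abs_of_nonneg (hs3 _).1]
        exact mul_le_of_le_one_left (abs_nonneg _) (hs3 _).2
      have mQ : MemLp Q 2 (volume.restrict Bl) := by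
        refine mP.mono ?_ (Eventually.of_forall fun x => ?_)
        · exact (hds.comp_aestronglyMeasurable ((mφ n).sub mU).1).mul mP.1
        · rw [Real.norm_eq_abs, Real.norm_eq_abs]
          exact hQle x
      have mD : MemLp (fun x => G j x i - pd j (φ n) x i) 2 (volume.restrict Bl) :=
        ((A10_comp_memLp (G j) i).restrict Bl).sub (mpd n j)
      have e : ∫ x in Bl, (G j x i - fderiv ℝ U x (EuclideanSpace.single j 1)) * Q x =
          (∫ x in Bl, (G j x i - pd j (φ n) x i) * Q x) + ∫ x in Bl, Pj x * Q x := by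
        have i3 : Integrable (fun x => (G j x i - pd j (φ n) x i) * Q x) (volume.restrict Bl) :=
          mD.integrable_mul mQ
        have i4 : Integrable (fun x => Pj x * Q x) (volume.restrict Bl) := mP.integrable_mul mQ
        rw [← integral_add i3 i4]
        refine integral_congr_ae (Eventually.of_forall fun x => ?_)
        simp only [hPj]
        ring
      have p1 : 0 ≤ ∫ x in Bl, Pj x * Q x := by
        refine integral_nonneg fun x => ?_
        simp only [hQ, hPj, Pi.zero_apply]
        have := mul_nonneg (hs3 (φ n x i - U x)).1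
          (mul_self_nonneg (pd j (φ n) x i - fderiv ℝ U x (EuclideanSpace.single j 1)))
        nlinarith [this]
      have p2 : |∫ x in Bl, (G j x i - pd j (φ n) x i) * Q x| ≤ η j n * (NG j + η j n) := by
        refine (A10_cs mD mQ).trans (mul_le_mul_of_nonneg_left ?_ (A10_N_nonneg _))
        refine (A10_N_mono mP hQle).trans ?_
        have := A10_N_add (mG j) mD.neg
        have e3 : (fun x => (G j x i - fderiv ℝ U x (EuclideanSpace.single j 1)) +
            (-fun x => G j x i - pd j (φ n) x i) x) = Pj := by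
          funext x
          simp only [hPj, Pi.neg_apply]
          ring
        have e4 : A10_N (-fun x => G j x i - pd j (φ n) x i) = η j n := by
          simp only [hη, A10_N, eLpNorm_neg]
        rw [e3, e4] at this
        exact this
      have p3 := neg_abs_le (∫ x in Bl, (G j x i - pd j (φ n) x i) * Q x)
      rw [e]
      have p4 := neg_le_neg p2
      linarith
    have h4 : -∑ j, η j n * (NG j + η j n) ≤ ∑ j : Fin 3, ∫ x in Bl,
        (G j x i - fderiv ℝ U x (EuclideanSpace.single j 1)) * (deriv s (φ n x i - U x) *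
          (pd j (φ n) x i - fderiv ℝ U x (EuclideanSpace.single j 1))) := by
      rw [← Finset.sum_neg_distrib]
      exact Finset.sum_le_sum fun j _ => h3 j
    have h5 := mul_le_mul_of_nonneg_left h2 hl.le
    rw [mul_sub] at h5
    linarith
  have hlim : Tendsto (fun n => l * (N0 * ε n) + ∑ j, η j n * (NG j + η j n)) atTop (𝓝 0) := by
    have h1 : Tendsto (fun n => l * (N0 * ε n)) atTop (𝓝 (l * (N0 * 0))) :=
      (tε.const_mul N0).const_mul l
    have h2 : Tendsto (fun n => ∑ j, η j n * (NG j + η j n)) atTop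
        (𝓝 (∑ j : Fin 3, 0 * (NG j + 0))) :=
      tendsto_finsetSum _ fun j _ => (tη j).mul (tendsto_const_nhds.add (tη j))
    have h3 := h1.add h2
    simpa using h3
  have hA0 : l * A ≤ 0 := ge_of_tendsto' hlim key
  have hA1 : A ≤ 0 := by
    by_contra hcon
    push Not at hcon
    have := mul_pos hl hcon
    linarith
  have hnn : ∀ x, 0 ≤ (v x i - U x) * s (v x i - U x) := by
    intro x
    rcases le_or_gt (v x i - U x) 0 with h1 | h1
    · rw [hs0 _ h1, mul_zero]
    · exact (mul_pos h1 (hs1 _ h1)).le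
  have hA2 : A = 0 := le_antisymm hA1 (integral_nonneg hnn)
  have i1 : Integrable (fun x => (v x i - U x) * s (v x i - U x)) (volume.restrict Bl) :=
    mvU.integrable_mul (ms mvU)
  have h0 := (integral_eq_zero_iff_of_nonneg hnn i1).1 hA2
  have h6 := (ae_restrict_iff' hB).1 h0
  filter_upwards [h6] with x hx hxB
  by_contra hcon
  push Not at hcon
  have h7 : 0 < v x i - U x := by linarith
  have h8 := mul_pos h7 (hs1 _ h7)
  have h9 := hx hxB
  simp only [Pi.zero_apply] at h9
  linarith

theorem Swirl_neg {f : L2} (hf : Swirl f) : Swirl (-f) := by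
  rw [Swirl_iff] at hf ⊢
  refine ⟨?_, ?_⟩
  · rw [RotInv_iff] at hf ⊢
    intro a
    rw [map_neg, hf.1 a]
  · rw [map_neg, hf.2]

/-- Comparison. -/
theorem comparison {l : ℝ} (hl : 0 < l) {f : L2} (hf : Swirl f) {F U : E3 → ℝ}
    (hF : ∀ᵐ x ∂(volume : Measure E3), x ∈ Bl → ‖f x‖ ≤ F x)
    (hU : ContDiff ℝ ((⊤ : ℕ∞) : WithTop ℕ∞) U) (hU0 : ∀ x ∈ Bl, 0 ≤ U x)
    (hsup : ∀ x ∈ Bl, F x ≤ l * U x - slap U x) (i : Fin 3) :
    ∀ᵐ x ∂(volume : Measure E3), x ∈ Bl → |res Bl l f x i| ≤ U x := by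
  have hF' : ∀ᵐ x ∂(volume : Measure E3), x ∈ Bl → ‖(-f : L2) x‖ ≤ F x := by
    filter_upwards [hF, Lp.coeFn_neg f] with x hx h2 hxB
    rw [h2, Pi.neg_apply, norm_neg]
    exact hx hxB
  have h1 := comparison_le hl hf hF hU hU0 hsup i
  have h2 := comparison_le hl (Swirl_neg hf) hF' hU hU0 hsup i
  have h3 : res Bl l (-f) = -res Bl l f := by
    rw [← resL_apply hl.le, ← resL_apply hl.le, map_neg]
  rw [h3] at h2
  filter_upwards [h1, h2, Lp.coeFn_neg (res Bl l f)] with x a b c hxB
  have b' := b hxB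
  rw [c] at b'
  simp only [Pi.neg_apply, PiLp.neg_apply] at b'
  exact abs_le.2 ⟨by linarith, a hxB⟩

end Pool.Agent.W_332fe5
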