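import Pool.Agent.W_332fe5.Geo

set_option autoImplicit false

/-! Block 1, A11: barriers. -/

open MeasureTheory Set Filter Topology
open scoped ENNReal NNReal

namespace Pool.Agent.W_332fe5

theorem yy_smooth : ContDiff ℝ ((⊤ : ℕ∞) : WithTop ℕ∞) yy := by
  unfold yy
  exact (contDiff_const.sub (contDiff_norm_sq ℝ)).div_const 2

theorem yy_pos_iff {x : E3} : x ∈ Bl ↔ 0 < yy x := by
  unfold Bl yy
  rw [mem_ball_zero_iff]
  constructor
  · intro h
    nlinarith [norm_nonneg x]
  · intro h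
    nlinarith [norm_nonneg x]

theorem yy_le_half (x : E3) : yy x ≤ 1 / 2 := by
  unfold yy
  nlinarith [sq_nonneg ‖x‖]

theorem A11_hasFDerivAt_yy (x : E3) : HasFDerivAt yy (-(innerSL ℝ x)) x := by
  have h1 : HasFDerivAt (fun x : E3 => ‖x‖ ^ 2) (2 • innerSL ℝ x) x :=
    (hasStrictFDerivAt_norm_sq x).hasFDerivAt
  have h2 := (h1.const_sub 1).mul_const (1 / 2 : ℝ)
  have e1 : yy = fun x : E3 => (1 - ‖x‖ ^ 2) * (1 / 2) := by
    funext z; unfold yy; ring
  have h3 : (1 / 2 : ℝ) • -(2 • innerSL ℝ x) = -(innerSL ℝ x) := by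
    ext v
    simp
  rw [e1, ← h3]
  exact h2

/-- `∇y = -x`. -/
theorem fderiv_yy (x v : E3) : fderiv ℝ yy x v = -inner ℝ x v := by
  rw [(A11_hasFDerivAt_yy x).fderiv]
  simp

theorem A11_fderiv_comp {H : ℝ → ℝ} (hH : Differentiable ℝ H) (z v : E3) :
    fderiv ℝ (fun x => H (yy x)) z v = deriv H (yy z) * (-inner ℝ z v) := by
  have h1 := (hH (yy z)).hasDerivAt.comp_hasFDerivAt z (A11_hasFDerivAt_yy z)
  have h2 : HasFDerivAt (fun x => H (yy x)) (deriv H (yy z) • -(innerSL ℝ z)) z := h1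
  rw [h2.fderiv]
  simp

/-- `Δ (H(y)) = (1 - 2y) H'' - 3 H'`. -/
theorem slap_comp {H : ℝ → ℝ} (hH : ContDiff ℝ 2 H) (x : E3) :
    slap (fun x => H (yy x)) x =
      (1 - 2 * yy x) * iteratedDeriv 2 H (yy x) - 3 * deriv H (yy x) := by
  have hd : Differentiable ℝ H := hH.differentiable (by norm_num)
  have hH' : ContDiff ℝ 1 (deriv H) := by
    have : ContDiff ℝ (1 + 1) H := by simpa [one_add_one_eq_two] using hH
    exact (contDiff_succ_iff_deriv.mp this).2.2
  have hd' : Differentiable ℝ (deriv H) := hH'.differentiable (by norm_num)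
  have e2 : iteratedDeriv 2 H = deriv (deriv H) := by
    rw [iteratedDeriv_succ, iteratedDeriv_one]
  have key : ∀ j : Fin 3, fderiv ℝ (fun z => fderiv ℝ (fun x => H (yy x)) z
      (EuclideanSpace.single j 1)) x (EuclideanSpace.single j 1) =
      iteratedDeriv 2 H (yy x) * x j ^ 2 - deriv H (yy x) := by
    intro j
    have h1 : (fun z => fderiv ℝ (fun x => H (yy x)) z (EuclideanSpace.single j 1)) =
        fun z : E3 => deriv H (yy z) * (-(z j)) := by
      funext z
      rw [A11_fderiv_comp hd]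
      simp [EuclideanSpace.inner_single_right]
    rw [h1]
    have h2 : HasFDerivAt (fun z => deriv H (yy z))
        (deriv (deriv H) (yy x) • -(innerSL ℝ x)) x :=
      (hd' (yy x)).hasDerivAt.comp_hasFDerivAt x (A11_hasFDerivAt_yy x)
    have h3 : HasFDerivAt (fun z : E3 => -(z j)) (-(EuclideanSpace.proj j : E3 →L[ℝ] ℝ)) x :=
      ((EuclideanSpace.proj j : E3 →L[ℝ] ℝ).hasFDerivAt).neg
    have h4 : HasFDerivAt (fun z : E3 => deriv H (yy z) * -(z j)) _ x := h2.mul h3
    rw [h4.fderiv, e2]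
    simp [EuclideanSpace.inner_single_right]
    ring
  unfold slap
  simp only [key]
  rw [Fin.sum_univ_three]
  have hn : ‖x‖ ^ 2 = x 0 ^ 2 + x 1 ^ 2 + x 2 ^ 2 := by
    rw [EuclideanSpace.norm_sq_eq, Fin.sum_univ_three]
    simp
  have hy : 1 - 2 * yy x = x 0 ^ 2 + x 1 ^ 2 + x 2 ^ 2 := by
    unfold yy; rw [hn]; ring
  rw [hy]; ring

theorem slap_exp (a : ℝ) (x : E3) : slap (fun x => Real.exp (-a * yy x)) x =
    (a ^ 2 * (1 - 2 * yy x) + 3 * a) * Real.exp (-a * yy x) := by
  have hH : ContDiff ℝ 2 (fun t : ℝ => Real.exp (-a * t)) :=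
    Real.contDiff_exp.comp (contDiff_const.mul contDiff_id)
  have h1 : deriv (fun t : ℝ => Real.exp (-a * t)) = fun t => -a * Real.exp (-a * t) := by
    funext t
    have := ((hasDerivAt_id t).const_mul (-a)).exp
    simp only [id, mul_one] at this
    rw [this.deriv]; ring
  have h2 : iteratedDeriv 2 (fun t : ℝ => Real.exp (-a * t)) =
      fun t => a ^ 2 * Real.exp (-a * t) := by
    rw [iteratedDeriv_succ, iteratedDeriv_one, h1]
    funext t
    have := (((hasDerivAt_id t).const_mul (-a)).exp).const_mul (-a)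
    simp only [id, mul_one] at this
    rw [this.deriv]; ring
  have h3 := slap_comp hH x
  rw [h3, h1, h2]
  ring

end Pool.Agent.W_332fe5
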