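import Pool.Agent.W_332fe5.O.A11

set_option autoImplicit false

/-! Block 1, A11b: the barriers. -/

open MeasureTheory Set Filter Topology
open scoped ENNReal NNReal

namespace Pool.Agent.W_332fe5

/-- The barriers (as functions of `y`). -/
noncomputable def bar (l R y : ℝ) : ℝ :=
  if l < 16 then 4 * R ^ 2 * (1 - Real.exp (-y / R) + y)
  else if l ≤ 1 / (4 * R ^ 2) then
    4 * R ^ 2 * (Real.exp (-(Real.sqrt l * y / 4)) - Real.exp (-y / R))
  else 2 / l * Real.exp (-y / (8 * R))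

theorem bar_smooth (l R : ℝ) : ContDiff ℝ ((⊤ : ℕ∞) : WithTop ℕ∞) (fun x => bar l R (yy x)) := by
  have hy := yy_smooth
  have hc : ∀ c : ℝ, ContDiff ℝ ((⊤ : ℕ∞) : WithTop ℕ∞) (fun _ : E3 => c) :=
    fun c => contDiff_const
  unfold bar
  by_cases h1 : l < 16
  · simp only [h1, if_true]
    exact (hc _).mul (((hc _).sub ((hy.neg.div_const R).exp)).add hy)
  · by_cases h2 : l ≤ 1 / (4 * R ^ 2)
    · simp only [h1, if_false, h2, if_true]
      exact (hc _).mul (((((hc _).mul hy).div_const 4).neg.exp).sub ((hy.neg.div_const R).exp))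
    · simp only [h1, if_false, h2]
      exact (hc _).mul ((hy.neg.div_const (8 * R)).exp)

theorem A11b_sqrt_le {l R : ℝ} (hR : 0 < R) (hlR : l ≤ 1 / (4 * R ^ 2)) :
    Real.sqrt l / 4 ≤ 1 / (8 * R) := by
  have h1 : Real.sqrt l ≤ 1 / (2 * R) := by
    apply Real.sqrt_le_iff.2
    constructor
    · positivity
    · have : (1 / (2 * R)) ^ 2 = 1 / (4 * R ^ 2) := by
        field_simp; norm_num
      rw [this]; exact hlR
  have h2 : 1 / (8 * R) = (1 / (2 * R)) / 4 := by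
    field_simp; norm_num
  rw [h2]; linarith

theorem A11b_sqrt_le4 {l : ℝ} (hl : 16 ≤ l) : Real.sqrt l ≤ l / 4 := by
  apply Real.sqrt_le_iff.2
  constructor
  · linarith
  · nlinarith

theorem A11b_exp_le {l R : ℝ} (hR : 0 < R) (hlR : l ≤ 1 / (4 * R ^ 2)) {y : ℝ} (hy : 0 ≤ y) :
    Real.exp (-y / (8 * R)) ≤ Real.exp (-(Real.sqrt l * y / 4)) := by
  apply Real.exp_le_exp.2
  have h := A11b_sqrt_le hR hlR
  have h2 := mul_le_mul_of_nonneg_right h hy
  have e1 : -y / (8 * R) = -(1 / (8 * R) * y) := by ring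
  have e2 : Real.sqrt l * y / 4 = Real.sqrt l / 4 * y := by ring
  rw [e1, e2]; linarith

theorem A11b_exp8 {R : ℝ} (hR : 0 < R) {y : ℝ} (hy : 0 ≤ y) :
    Real.exp (-y / R) ≤ Real.exp (-y / (8 * R)) := by
  apply Real.exp_le_exp.2
  have e1 : -y / R = -(y / R) := by ring
  have e2 : -y / (8 * R) = -(y / R / 8) := by field_simp
  have : 0 ≤ y / R := by positivity
  rw [e1, e2]; linarith

theorem bar_nonneg {l R : ℝ} (hl : 0 ≤ l) (hR : 0 < R) {y : ℝ} (hy : 0 ≤ y) : 0 ≤ bar l R y := by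
  unfold bar
  split_ifs with h1 h2
  · have : Real.exp (-y / R) ≤ 1 := by
      apply Real.exp_le_one_iff.2
      have : 0 ≤ y / R := by positivity
      have e1 : -y / R = -(y / R) := by ring
      rw [e1]; linarith
    have h3 : 0 ≤ 1 - Real.exp (-y / R) + y := by linarith
    positivity
  · have h3 := (A11b_exp8 hR hy).trans (A11b_exp_le hR h2 hy)
    have h4 : 0 ≤ Real.exp (-(Real.sqrt l * y / 4)) - Real.exp (-y / R) := by linarith
    positivity
  · positivity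

/-- general formula for the Laplacian of a combination of exponentials of `y`. -/
theorem A11b_slap (α β γ δ a b : ℝ) (x : E3) :
    slap (fun x => α + β * yy x + γ * Real.exp (-a * yy x) + δ * Real.exp (-b * yy x)) x =
      (1 - 2 * yy x) * (a ^ 2 * γ * Real.exp (-a * yy x) + b ^ 2 * δ * Real.exp (-b * yy x)) -
      3 * (β - a * γ * Real.exp (-a * yy x) - b * δ * Real.exp (-b * yy x)) := by
  have hH : ContDiff ℝ 2 (fun t : ℝ => α + β * t + γ * Real.exp (-a * t) +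
      δ * Real.exp (-b * t)) := by
    have e : ∀ c : ℝ, ContDiff ℝ 2 (fun t : ℝ => Real.exp (-c * t)) := fun c =>
      Real.contDiff_exp.comp (contDiff_const.mul contDiff_id)
    exact ((contDiff_const.add (contDiff_const.mul contDiff_id)).add
      (contDiff_const.mul (e a))).add (contDiff_const.mul (e b))
  have hE : ∀ c t : ℝ, HasDerivAt (fun t : ℝ => Real.exp (-c * t)) (-c * Real.exp (-c * t)) t := by
    intro c t
    have := ((hasDerivAt_id t).const_mul (-c)).exp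
    simp only [id, mul_one] at this
    convert this using 1; ring
  have h1 : deriv (fun t : ℝ => α + β * t + γ * Real.exp (-a * t) + δ * Real.exp (-b * t)) =
      fun t => β - a * γ * Real.exp (-a * t) - b * δ * Real.exp (-b * t) := by
    funext t
    have h := ((((hasDerivAt_id t).const_mul β).const_add α).add
      ((hE a t).const_mul γ)).add ((hE b t).const_mul δ)
    have h' : HasDerivAt (fun t : ℝ => α + β * t + γ * Real.exp (-a * t) +
      δ * Real.exp (-b * t)) _ t := h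
    rw [h'.deriv]; ring
  have h2 : iteratedDeriv 2 (fun t : ℝ => α + β * t + γ * Real.exp (-a * t) +
      δ * Real.exp (-b * t)) =
      fun t => a ^ 2 * γ * Real.exp (-a * t) + b ^ 2 * δ * Real.exp (-b * t) := by
    rw [iteratedDeriv_succ, iteratedDeriv_one, h1]
    funext t
    have h := (((hE a t).const_mul (a * γ)).const_sub β).sub ((hE b t).const_mul (b * δ))
    have h' : HasDerivAt (fun t : ℝ => β - a * γ * Real.exp (-a * t) -
      b * δ * Real.exp (-b * t)) _ t := h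
    rw [h'.deriv]; ring
  have h3 := slap_comp hH x
  rw [h3, h1, h2]

theorem A11b_yy {x : E3} (hx : x ∈ Bl) : 0 < yy x ∧ yy x ≤ 1 / 2 := ⟨yy_pos_iff.1 hx, yy_le_half x⟩

/-- First barrier.  `(l - Δ) U ≥ 4R² (((1 - 2y)/R² + 3/R) e^(-y/R) + 3)`; for `y ≤ 3/8` use
`4 (1 - 2y) ≥ 1`; for `y ≥ 3/8` use `12 R² ≥ e^(-3/(8R))` (`R ≤ 1/8`: `e^(-3t) ≤ 12/(64 t²)` for
`t = 1/(8R) ≥ 1`, from `e^(3t) ≥ 1 + 3t + 9t²/2 + ... ≥ 16 t²/3`). -/
theorem barrier0 {l R : ℝ} (hl : 0 ≤ l) (hR : 0 < R) (hR1 : R ≤ 1 / 8) {x : E3} (hx : x ∈ Bl) :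
    Real.exp (-yy x / R) ≤ l * (4 * R ^ 2 * (1 - Real.exp (-yy x / R) + yy x)) -
      slap (fun x => 4 * R ^ 2 * (1 - Real.exp (-yy x / R) + yy x)) x := by
  obtain ⟨y0, y1⟩ := A11b_yy hx
  have ef : (fun x : E3 => 4 * R ^ 2 * (1 - Real.exp (-yy x / R) + yy x)) =
      fun x => 4 * R ^ 2 + 4 * R ^ 2 * yy x + -(4 * R ^ 2) * Real.exp (-(1 / R) * yy x) +
        0 * Real.exp (-0 * yy x) := by
    funext z
    have : -yy z / R = -(1 / R) * yy z := by ring
    rw [this]; ring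
  rw [ef, A11b_slap]
  have e0 : -yy x / R = -(1 / R) * yy x := by ring
  rw [← e0]
  set e := Real.exp (-yy x / R) with he
  have epos : 0 < e := Real.exp_pos _
  have ele : e ≤ 1 := by
    apply Real.exp_le_one_iff.2
    have : 0 ≤ yy x / R := by positivity
    have e1 : -yy x / R = -(yy x / R) := by ring
    rw [e1]; linarith
  have hU : 0 ≤ l * (4 * R ^ 2 * (1 - e + yy x)) := by
    have : 0 ≤ 1 - e + yy x := by linarith
    positivity
  have e1 : (1 / R) ^ 2 * -(4 * R ^ 2) = -4 := by field_simp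
  have e2 : 1 / R * -(4 * R ^ 2) = -(4 * R) := by field_simp
  rw [e1, e2]
  have key : e ≤ 4 * (1 - 2 * yy x) * e + 12 * R ^ 2 + 12 * R * e := by
    have hn : 0 ≤ 12 * R ^ 2 := by positivity
    have hn2 : 0 ≤ 12 * R * e := by positivity
    by_cases hy : yy x ≤ 3 / 8
    · have : e * 1 ≤ e * (4 * (1 - 2 * yy x)) :=
        mul_le_mul_of_nonneg_left (by linarith) epos.le
      nlinarith
    · have hy' : 3 / 8 < yy x := not_le.1 hy
      have hn3 : 0 ≤ 4 * (1 - 2 * yy x) * e :=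
        mul_nonneg (by linarith) epos.le
      -- e ≤ exp (-3/(8R)) ≤ 12 R^2
      have hs : 0 < 3 / (16 * R) := by positivity
      have h1 := Real.quadratic_le_exp_of_nonneg hs.le
      set s := 3 / (16 * R) with hsdef
      have h2 : 77 / 50 * s ≤ Real.exp s := by nlinarith [sq_nonneg (s - 27 / 50)]
      have hRs : R = 3 / (16 * s) := by rw [hsdef]; field_simp
      have h3 : e ≤ 1 / (Real.exp s) ^ 2 := by
        rw [← Real.exp_nat_mul, one_div, ← Real.exp_neg]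
        apply Real.exp_le_exp.2
        have : -yy x / R ≤ -(3 / 8) / R := by
          apply div_le_div_of_nonneg_right _ hR.le
          linarith
        refine this.trans (le_of_eq ?_)
        rw [hsdef]; field_simp; norm_num
      have h4 : 1 / (Real.exp s) ^ 2 ≤ 1 / (77 / 50 * s) ^ 2 := by
        apply one_div_le_one_div_of_le
        · positivity
        · exact pow_le_pow_left₀ (by positivity) h2 2
      have h5 : 1 / (77 / 50 * s) ^ 2 ≤ 12 * R ^ 2 := by
        rw [hRs, div_le_iff₀ (by positivity)]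
        have : 12 * (3 / (16 * s)) ^ 2 * (77 / 50 * s) ^ 2 = 12 * 9 / 256 * (77 / 50) ^ 2 := by
          field_simp; norm_num
        rw [this]; norm_num
      linarith
  have : (1 - 2 * yy x) * (-4 * e + 0 ^ 2 * 0 * Real.exp (-0 * yy x)) -
      3 * (4 * R ^ 2 - -(4 * R) * e - 0 * 0 * Real.exp (-0 * yy x)) =
      -(4 * (1 - 2 * yy x) * e + 12 * R ^ 2 + 12 * R * e) := by ring
  rw [this]
  have : 4 * R ^ 2 + 4 * R ^ 2 * yy x + -(4 * R ^ 2) * e + 0 * Real.exp (-0 * yy x) =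
      4 * R ^ 2 * (1 - e + yy x) := by ring
  linarith

/-- Second barrier, `16 ≤ l ≤ 1/(4R²)`.  Let `e₁ = e^(-√l y/4) ≥ e₂ = e^(-y/R)`.
`(l - Δ) U = 4R² ((l - l (1-2y)/16 - 3 √l/4) e₁ - (l - (1-2y)/R² - 3/R) e₂)`;
`√l ≤ l/4` gives the first bracket `≥ 3l/4`.
For `y ≤ 11/32`: `≥ e₂ (4(1-2y) - R² l + 12 R) ≥ e₂ (5/4 - 1/4)`.
For `y ≥ 11/32`: `≥ 4R² (3l/4 e₁ - l e₂)`, and `3R² l e₁ ≥ 2 e₂ ≥ (1 + 4R² l) e₂` because
`e₁ ≥ e^(-y/(8R))`, `l ≥ 16` and `24 R² ≥ e^(-7y/(8R))` (`e^(2.4 t) ≥ 8 t²/3`, `t = 1/(8R) ≥ 1`). -/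
theorem barrier1 {l R : ℝ} (hl : 16 ≤ l) (hR : 0 < R) (hR1 : R ≤ 1 / 8) (hlR : l ≤ 1 / (4 * R ^ 2))
    {x : E3} (hx : x ∈ Bl) : Real.exp (-yy x / R) ≤
      l * (4 * R ^ 2 * (Real.exp (-(Real.sqrt l * yy x / 4)) - Real.exp (-yy x / R))) -
      slap (fun x => 4 * R ^ 2 * (Real.exp (-(Real.sqrt l * yy x / 4)) -
        Real.exp (-yy x / R))) x := by
  obtain ⟨y0, y1⟩ := A11b_yy hx
  have ef : (fun x : E3 => 4 * R ^ 2 * (Real.exp (-(Real.sqrt l * yy x / 4)) -
        Real.exp (-yy x / R))) =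
      fun x => 0 + 0 * yy x + (4 * R ^ 2) * Real.exp (-(Real.sqrt l / 4) * yy x) +
        -(4 * R ^ 2) * Real.exp (-(1 / R) * yy x) := by
    funext z
    have e1 : -yy z / R = -(1 / R) * yy z := by ring
    have e2 : -(Real.sqrt l * yy z / 4) = -(Real.sqrt l / 4) * yy z := by ring
    rw [e1, e2]; ring
  rw [ef, A11b_slap]
  have e0 : -yy x / R = -(1 / R) * yy x := by ring
  have e0' : -(Real.sqrt l * yy x / 4) = -(Real.sqrt l / 4) * yy x := by ring
  have hexp := A11b_exp_le hR hlR y0.le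
  have hexp8 := A11b_exp8 hR y0.le
  rw [← e0, ← e0']
  set e1 := Real.exp (-(Real.sqrt l * yy x / 4)) with he1
  set e2 := Real.exp (-yy x / R) with he2
  have e1pos : 0 < e1 := Real.exp_pos _
  have e2pos : 0 < e2 := Real.exp_pos _
  have h12 : e2 ≤ e1 := hexp8.trans hexp
  have hs4 := A11b_sqrt_le4 hl
  have hs : (Real.sqrt l / 4) ^ 2 = l / 16 := by
    rw [div_pow, Real.sq_sqrt (by linarith)]; norm_num
  have hRl : R ^ 2 * l ≤ 1 / 4 := by
    have := mul_le_mul_of_nonneg_left hlR (sq_nonneg R)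
    refine this.trans (le_of_eq ?_)
    field_simp
  -- the value
  have val : l * (0 + 0 * yy x + 4 * R ^ 2 * e1 + -(4 * R ^ 2) * e2) -
      ((1 - 2 * yy x) * ((Real.sqrt l / 4) ^ 2 * (4 * R ^ 2) * e1 +
        (1 / R) ^ 2 * -(4 * R ^ 2) * e2) -
      3 * (0 - Real.sqrt l / 4 * (4 * R ^ 2) * e1 - 1 / R * -(4 * R ^ 2) * e2)) =
      4 * R ^ 2 * (l - l * (1 - 2 * yy x) / 16 - 3 * Real.sqrt l / 4) * e1 -
        4 * R ^ 2 * l * e2 + 4 * (1 - 2 * yy x) * e2 + 12 * R * e2 := by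
    rw [hs]
    field_simp
    ring
  have val' : l * (4 * R ^ 2 * (e1 - e2)) =
      l * (0 + 0 * yy x + 4 * R ^ 2 * e1 + -(4 * R ^ 2) * e2) := by ring
  rw [val', val]
  have hb : 3 * l / 4 ≤ l - l * (1 - 2 * yy x) / 16 - 3 * Real.sqrt l / 4 := by nlinarith
  have hA : 4 * R ^ 2 * (3 * l / 4) * e1 ≤
      4 * R ^ 2 * (l - l * (1 - 2 * yy x) / 16 - 3 * Real.sqrt l / 4) * e1 := by
    apply mul_le_mul_of_nonneg_right _ e1pos.le
    exact mul_le_mul_of_nonneg_left hb (by positivity)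
  have hRe : 0 ≤ 12 * R * e2 := by positivity
  refine le_trans ?_ (sub_le_sub_right hA _ |> fun h => add_le_add_left (add_le_add_left h _) _)
  by_cases hy : yy x ≤ 11 / 32
  · have h1 : 4 * R ^ 2 * (3 * l / 4) * e2 ≤ 4 * R ^ 2 * (3 * l / 4) * e1 :=
      mul_le_mul_of_nonneg_left h12 (by positivity)
    have h2 : 4 * R ^ 2 * (3 * l / 4) * e2 - 4 * R ^ 2 * l * e2 = -(R ^ 2 * l) * e2 := by ring
    have h3 : R ^ 2 * l * e2 ≤ 1 / 4 * e2 := mul_le_mul_of_nonneg_right hRl e2pos.le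
    have h4 : 5 / 4 * e2 ≤ 4 * (1 - 2 * yy x) * e2 :=
      mul_le_mul_of_nonneg_right (by linarith) e2pos.le
    linarith
  · have hy' : 11 / 32 < yy x := not_le.1 hy
    have hn3 : 0 ≤ 4 * (1 - 2 * yy x) * e2 := mul_nonneg (by linarith) e2pos.le
    -- e2 ≤ 24 R^2 e1
    have hs : 0 < 77 / (512 * R) := by positivity
    have q1 := Real.quadratic_le_exp_of_nonneg hs.le
    set s := 77 / (512 * R) with hsdef
    have q2 : 1358 / 1000 * s ≤ Real.exp s := by nlinarith [sq_nonneg (s - 358 / 1000)]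
    have hRs : R = 77 / (512 * s) := by rw [hsdef]; field_simp
    have q3 : e2 ≤ 1 / (Real.exp s) ^ 2 * Real.exp (-yy x / (8 * R)) := by
      rw [← Real.exp_nat_mul, one_div, ← Real.exp_neg, ← Real.exp_add]
      apply Real.exp_le_exp.2
      have h1 : 0 ≤ (yy x - 11 / 32) / R := by
        apply div_nonneg _ hR.le
        linarith
      have h2 : -(((2 : ℕ) : ℝ) * s) + -yy x / (8 * R) - -yy x / R =
          7 / 8 * ((yy x - 11 / 32) / R) := by
        rw [hsdef]; push_cast; field_simp; ring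
      linarith
    have q4 : 1 / (Real.exp s) ^ 2 ≤ 1 / (1358 / 1000 * s) ^ 2 := by
      apply one_div_le_one_div_of_le
      · positivity
      · exact pow_le_pow_left₀ (by positivity) q2 2
    have q5 : 1 / (1358 / 1000 * s) ^ 2 ≤ 24 * R ^ 2 := by
      rw [hRs, div_le_iff₀ (by positivity)]
      have : 24 * (77 / (512 * s)) ^ 2 * (1358 / 1000 * s) ^ 2 =
          24 * (77 / 512) ^ 2 * (1358 / 1000) ^ 2 := by
        field_simp
      rw [this]; norm_num
    have q6 : e2 ≤ 24 * R ^ 2 * e1 := by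
      refine q3.trans ?_
      exact mul_le_mul (q4.trans q5) hexp (Real.exp_pos _).le (by positivity)
    have q7 : 16 * (R ^ 2 * e1) ≤ l * (R ^ 2 * e1) :=
      mul_le_mul_of_nonneg_right hl (by positivity)
    have q8 : R ^ 2 * l * e2 ≤ 1 / 4 * e2 := mul_le_mul_of_nonneg_right hRl e2pos.le
    nlinarith

/-- Third barrier, `l ≥ 1/(4R²)` (so `l ≥ 16`, `1/R ≤ 2√l`, `√l ≤ l/4`):
`(l - Δ) U = (2/l)(l - (1-2y)/(64R²) - 3/(8R)) e^(-y/(8R)) ≥ 2 (1 - 1/16 - 3/16) e^(-y/(8R))`. -/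
theorem barrier2 {l R : ℝ} (hR : 0 < R) (hR1 : R ≤ 1 / 8) (hlR : 1 / (4 * R ^ 2) ≤ l)
    {x : E3} (hx : x ∈ Bl) : Real.exp (-yy x / R) ≤
      l * (2 / l * Real.exp (-yy x / (8 * R))) -
      slap (fun x => 2 / l * Real.exp (-yy x / (8 * R))) x := by
  obtain ⟨y0, y1⟩ := A11b_yy hx
  have hl0 : 0 < l := lt_of_lt_of_le (by positivity) hlR
  have ef : (fun x : E3 => 2 / l * Real.exp (-yy x / (8 * R))) =
      fun x => 0 + 0 * yy x + (2 / l) * Real.exp (-(1 / (8 * R)) * yy x) +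
        0 * Real.exp (-0 * yy x) := by
    funext z
    have e1 : -yy z / (8 * R) = -(1 / (8 * R)) * yy z := by ring
    rw [e1]; ring
  rw [ef, A11b_slap]
  have e0 : -yy x / (8 * R) = -(1 / (8 * R)) * yy x := by ring
  have hexp8 := A11b_exp8 hR y0.le
  rw [← e0]
  set e3 := Real.exp (-yy x / (8 * R)) with he3
  have e3pos : 0 < e3 := Real.exp_pos _
  refine hexp8.trans ?_
  -- 1/R^2 ≤ 4 l, 1/R ≤ l/2
  have hi : 1 / R ^ 2 ≤ 4 * l := by
    have : 1 / R ^ 2 = 4 * (1 / (4 * R ^ 2)) := by field_simp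
    rw [this]; linarith
  have hi2 : 1 / R ≤ l / 2 := by
    have h8 : 8 ≤ 1 / R := by
      rw [le_div_iff₀ hR]; linarith
    have : (1 / R) ^ 2 = 1 / R ^ 2 := by field_simp
    nlinarith
  have val : l * (0 + 0 * yy x + 2 / l * e3 + 0 * Real.exp (-0 * yy x)) -
      ((1 - 2 * yy x) * ((1 / (8 * R)) ^ 2 * (2 / l) * e3 + 0 ^ 2 * 0 * Real.exp (-0 * yy x)) -
      3 * (0 - 1 / (8 * R) * (2 / l) * e3 - 0 * 0 * Real.exp (-0 * yy x))) =
      2 * e3 - (2 / l * e3) * ((1 - 2 * yy x) * (1 / R ^ 2) / 64 + 3 / 8 * (1 / R)) := by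
    field_simp
    ring
  have val' : l * (2 / l * e3) =
      l * (0 + 0 * yy x + 2 / l * e3 + 0 * Real.exp (-0 * yy x)) := by ring
  rw [val', val]
  have hb : (1 - 2 * yy x) * (1 / R ^ 2) / 64 + 3 / 8 * (1 / R) ≤ l / 4 := by
    have h1 : (1 - 2 * yy x) * (1 / R ^ 2) ≤ 1 * (4 * l) :=
      mul_le_mul (by linarith) hi (by positivity) (by norm_num)
    linarith
  have hc : (2 / l * e3) * ((1 - 2 * yy x) * (1 / R ^ 2) / 64 + 3 / 8 * (1 / R)) ≤
      (2 / l * e3) * (l / 4) := mul_le_mul_of_nonneg_left hb (by positivity)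
  have hd : (2 / l * e3) * (l / 4) = e3 / 2 := by
    field_simp
    norm_num
  rw [hd] at hc
  linarith

theorem bar_spec {l R : ℝ} (hl : 0 ≤ l) (hR : 0 < R) (hR1 : R ≤ 1 / 8) {x : E3} (hx : x ∈ Bl) :
    Real.exp (-yy x / R) ≤ l * bar l R (yy x) - slap (fun x => bar l R (yy x)) x := by
  unfold bar
  by_cases h1 : l < 16
  · simp only [h1, if_true]
    exact barrier0 hl hR hR1 hx
  · by_cases h2 : l ≤ 1 / (4 * R ^ 2)
    · simp only [h1, if_false, h2, if_true]
      exact barrier1 (not_lt.1 h1) hR hR1 h2 hx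
    · simp only [h1, if_false, h2]
      exact barrier2 hR hR1 (not_le.1 h2).le hx

theorem bar_meas (R : ℝ) : Measurable fun z : ℝ × ℝ => bar z.1 R z.2 := by
  unfold bar
  refine Measurable.ite (measurableSet_lt measurable_fst measurable_const) ?_ ?_
  · fun_prop
  · refine Measurable.ite (measurableSet_le measurable_fst measurable_const) ?_ ?_
    · fun_prop
    · fun_prop

end Pool.Agent.W_332fe5
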