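import Pool.Agent.W_332fe5.O.A1b

set_option autoImplicit false

/-! Block 1, A2: Hardy's inequality in the unit ball. -/

open MeasureTheory Set Filter Topology
open scoped ENNReal NNReal

namespace Pool.Agent.W_332fe5

theorem A2_lt {x : E3} (hx : x ∈ Bl) : 0 < 1 - ‖x‖ ^ 2 := by
  have h : ‖x‖ < 1 := by simpa [Bl] using hx
  have := norm_nonneg x
  nlinarith

theorem A2_yy (x : E3) : 1 - ‖x‖ ^ 2 = 2 * yy x := by
  unfold yy
  ring

theorem A2_smooth_one (x : E3) :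
    ContDiffAt ℝ ((⊤ : ℕ∞) : WithTop ℕ∞) (fun x : E3 => 1 - ‖x‖ ^ 2) x :=
  (contDiff_const.sub (contDiff_id.norm_sq ℝ)).contDiffAt

theorem A2_smooth_w {x : E3} (hx : x ∈ Bl) :
    ContDiffAt ℝ ((⊤ : ℕ∞) : WithTop ℕ∞) (fun x : E3 => (1 - ‖x‖ ^ 2)⁻¹) x :=
  (A2_smooth_one x).inv (A2_lt hx).ne'

theorem A2_smooth_q {x : E3} (hx : x ∈ Bl) (j : Fin 3) :
    ContDiffAt ℝ ((⊤ : ℕ∞) : WithTop ℕ∞) (fun x : E3 => x j * (1 - ‖x‖ ^ 2)⁻¹) x :=
  ((EuclideanSpace.proj j : E3 →L[ℝ] ℝ).contDiff.contDiffAt).mul (A2_smooth_w hx)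

theorem A2_deriv_q {x : E3} (hx : x ∈ Bl) (j : Fin 3) :
    fderiv ℝ (fun x : E3 => x j * (1 - ‖x‖ ^ 2)⁻¹) x (EuclideanSpace.single j 1) =
      (1 - ‖x‖ ^ 2)⁻¹ + 2 * x j ^ 2 * ((1 - ‖x‖ ^ 2)⁻¹) ^ 2 := by
  have h0 : (1 - ‖x‖ ^ 2) ≠ 0 := (A2_lt hx).ne'
  have h1 : HasFDerivAt (fun x : E3 => 1 - ‖x‖ ^ 2) (-(2 • innerSL ℝ x)) x := by
    have e := (hasFDerivAt_const (1 : ℝ) x).sub (hasStrictFDerivAt_norm_sq x).hasFDerivAt
    refine e.congr_fderiv ?_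
    rw [zero_sub]
  have h2 := (hasDerivAt_inv h0).comp_hasFDerivAt x h1
  have h3 : HasFDerivAt (fun x : E3 => x j) (EuclideanSpace.proj j : E3 →L[ℝ] ℝ) x :=
    (EuclideanSpace.proj j : E3 →L[ℝ] ℝ).hasFDerivAt
  have h4 : fderiv ℝ (fun x : E3 => x j * (1 - ‖x‖ ^ 2)⁻¹) x = _ := (h3.mul h2).fderiv
  rw [h4]
  simp [EuclideanSpace.inner_single_right]
  field_simp
  ring

theorem A2_sq_cb {φ : E3 → E3} (h : φ ∈ CV) : (fun x => ‖φ x‖ ^ 2) ∈ CB := by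
  refine ⟨h.1.norm_sq ℝ, h.2.1.comp_left (g := fun v : E3 => ‖v‖ ^ 2) (by simp), ?_⟩
  refine (closure_mono ?_).trans h.2.2
  intro x hx
  simp only [Function.mem_support, ne_eq, OfNat.ofNat_ne_zero, not_false_eq_true, pow_eq_zero_iff,
    norm_eq_zero] at hx ⊢
  exact hx

theorem A2_sq_deriv {φ : E3 → E3} (h : φ ∈ CV) (j : Fin 3) (x : E3) :
    fderiv ℝ (fun x => ‖φ x‖ ^ 2) x (EuclideanSpace.single j 1) = 2 * inner ℝ (φ x) (pd j φ x) := by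
  have h1 := (A1_diff h x).hasFDerivAt.norm_sq
  have h2 : fderiv ℝ (fun x => ‖φ x‖ ^ 2) x = _ := h1.fderiv
  rw [h2]
  simp [pd]

/-- The one directional inequality. -/
theorem A2_dir {φ : E3 → E3} (h : φ ∈ CV) (j : Fin 3) :
    ∫ x, ‖φ x‖ ^ 2 * (fderiv ℝ (fun x : E3 => x j * (1 - ‖x‖ ^ 2)⁻¹) x
      (EuclideanSpace.single j 1) - (x j * (1 - ‖x‖ ^ 2)⁻¹) ^ 2) ≤ ∫ x, ‖pd j φ x‖ ^ 2 := by
  have hF := A2_sq_cb h
  have hq := fun x (hx : x ∈ Bl) => A2_smooth_q hx j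
  have i1 : Integrable fun x => ‖φ x‖ ^ 2 * fderiv ℝ (fun x : E3 => x j * (1 - ‖x‖ ^ 2)⁻¹) x
      (EuclideanSpace.single j 1) := by
    refine A1_cb_integrable (A1_cb_mul_smooth hF fun x hx => ?_)
    exact ((hq x hx).fderiv_right (m := ((⊤ : ℕ∞) : WithTop ℕ∞)) (by simp)).clm_apply
      contDiffAt_const
  have i2 : Integrable fun x => ‖φ x‖ ^ 2 * (x j * (1 - ‖x‖ ^ 2)⁻¹) ^ 2 :=
    A1_cb_integrable (A1_cb_mul_smooth hF fun x hx => (hq x hx).pow 2)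
  have i3 : Integrable fun x => fderiv ℝ (fun x => ‖φ x‖ ^ 2) x (EuclideanSpace.single j 1) *
      (x j * (1 - ‖x‖ ^ 2)⁻¹) :=
    A1_cb_integrable (A1_cb_mul_smooth (A1_cb_pd hF _) hq)
  have i4 : Integrable fun x => ‖pd j φ x‖ ^ 2 := A1_cb_integrable (A2_sq_cb (CV_pd h j))
  have i3n : Integrable fun x => -(fderiv ℝ (fun x => ‖φ x‖ ^ 2) x (EuclideanSpace.single j 1) *
      (x j * (1 - ‖x‖ ^ 2)⁻¹)) := i3.neg
  have e1 := A1_integral_mul_fderiv hF hq (EuclideanSpace.single j 1)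
  simp only [mul_sub]
  rw [integral_sub i1 i2, e1, ← integral_neg, ← integral_sub i3n i2]
  refine integral_mono (i3n.sub i2) i4 fun x => ?_
  simp only
  rw [A2_sq_deriv h]
  have key := sq_nonneg ‖pd j φ x + (x j * (1 - ‖x‖ ^ 2)⁻¹) • φ x‖
  rw [norm_add_sq_real, real_inner_smul_right, norm_smul, mul_pow, Real.norm_eq_abs, sq_abs,
    real_inner_comm] at key
  linarith

theorem hardy_integrable {φ : E3 → E3} (h : φ ∈ CV) :
    Integrable fun x => ‖φ x‖ ^ 2 / (4 * yy x ^ 2) := by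
  have hF := A2_sq_cb h
  have i : Integrable fun x => ‖φ x‖ ^ 2 * ((1 - ‖x‖ ^ 2)⁻¹) ^ 2 :=
    A1_cb_integrable (A1_cb_mul_smooth hF fun x hx => (A2_smooth_w hx).pow 2)
  refine i.congr (ae_of_all _ fun x => ?_)
  simp only
  rw [A2_yy, inv_pow, div_eq_mul_inv]
  congr 2
  ring

/-- Hardy's inequality `∫ |φ|² / (4 y²) ≤ ∫ |∇φ|²`, `y = (1 - |x|²) / 2`.
Proof: with `h = y^(1/2)` on the ball (smooth and positive there), `∇h / h = -x / (2 y)`,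
`-Δh / h = (1 - 2y) / (4 y²) + 3 / (2 y) ≥ 1 / (4 y²)` for `0 < y ≤ 1/2`.
Expand `0 ≤ ∑_j |∂_j φ + (x_j / (2 y)) φ|² = |∇φ|² + ∑_j (x_j / (2y)) ∂_j |φ|² + |x|² |φ|² / (4 y²)`,
integrate by parts: `∫ ∑_j (x_j/(2y)) ∂_j |φ|² = - ∫ div (x / (2y)) |φ|²`,
`div (x/(2y)) = 3/(2y) + |x|²/(2y²)`.  (The vector field `x/(2y)` is smooth on the ball; multiply
`|φ|²` by it, extended by zero.) -/
theorem hardy {φ : E3 → E3} (h : φ ∈ CV) :
    ∫ x, ‖φ x‖ ^ 2 / (4 * yy x ^ 2) ≤ ∑ j, ∫ x, ‖pd j φ x‖ ^ 2 := by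
  have hF := A2_sq_cb h
  have hi : ∀ j : Fin 3, Integrable fun x => ‖φ x‖ ^ 2 *
      (fderiv ℝ (fun x : E3 => x j * (1 - ‖x‖ ^ 2)⁻¹) x
      (EuclideanSpace.single j 1) - (x j * (1 - ‖x‖ ^ 2)⁻¹) ^ 2) := by
    intro j
    refine A1_cb_integrable (A1_cb_mul_smooth hF fun x hx => ?_)
    have hq := A2_smooth_q hx j
    exact ((hq.fderiv_right (m := ((⊤ : ℕ∞) : WithTop ℕ∞)) (by simp)).clm_apply
      contDiffAt_const).sub (hq.pow 2)
  refine le_trans ?_ (Finset.sum_le_sum fun j _ => A2_dir h j)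
  rw [← integral_finsetSum _ fun j _ => hi j]
  refine integral_mono (hardy_integrable h) (integrable_finsetSum _ fun j _ => hi j) fun x => ?_
  simp only
  by_cases hx : x ∈ Bl
  · simp only [A2_deriv_q hx]
    have hw := A2_lt hx
    have e : ‖x‖ ^ 2 = x 0 ^ 2 + x 1 ^ 2 + x 2 ^ 2 := by
      rw [EuclideanSpace.norm_sq_eq, Fin.sum_univ_three]
      simp
    have e2 : ‖φ x‖ ^ 2 / (4 * yy x ^ 2) = ‖φ x‖ ^ 2 * ((1 - ‖x‖ ^ 2)⁻¹) ^ 2 := by
      rw [A2_yy, inv_pow, div_eq_mul_inv]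
      congr 2
      ring
    rw [e2, ← Finset.mul_sum]
    refine mul_le_mul_of_nonneg_left ?_ (sq_nonneg _)
    rw [Fin.sum_univ_three]
    have h5 : 0 < (1 - ‖x‖ ^ 2)⁻¹ := inv_pos.2 hw
    have h6 : (1 - ‖x‖ ^ 2) * (1 - ‖x‖ ^ 2)⁻¹ = 1 := mul_inv_cancel₀ hw.ne'
    generalize (1 - ‖x‖ ^ 2)⁻¹ = w at h5 h6 ⊢
    have h7 : (1 - ‖x‖ ^ 2) * w ^ 2 = w := by
      rw [sq w, ← mul_assoc, h6, one_mul]
    rw [e] at h7
    nlinarith
  · rw [A1_eq_zero h hx]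
    simp

/-- Poincare's inequality (`y ≤ 1/2`). -/
theorem poincare {φ : E3 → E3} (h : φ ∈ CV) : ∫ x, ‖φ x‖ ^ 2 ≤ ∑ j, ∫ x, ‖pd j φ x‖ ^ 2 := by
  refine le_trans (integral_mono (A1_cb_integrable (A2_sq_cb h)) (hardy_integrable h) fun x => ?_)
    (hardy h)
  simp only
  by_cases hx : x ∈ Bl
  · have hw := A2_lt hx
    rw [A2_yy] at hw
    have h1 : yy x ≤ 1 / 2 := by
      unfold yy
      have := sq_nonneg ‖x‖
      linarith
    have h2 : 0 < 4 * yy x ^ 2 := by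
      have : 0 < yy x := by linarith
      positivity
    have h3 : 4 * yy x ^ 2 ≤ 1 := by nlinarith
    rw [le_div_iff₀ h2]
    exact mul_le_of_le_one_right (sq_nonneg _) h3
  · rw [A1_eq_zero h hx]
    simp

theorem A2_norm_sq {φ : E3 → E3} (h : MemLp φ 2 (volume : Measure E3)) :
    ∫ x, ‖φ x‖ ^ 2 = ‖toL2 φ‖ ^ 2 := by
  rw [← real_inner_self_eq_norm_sq, ← pair_toL2 _ h, A1b_pair_coe h]
  refine integral_congr_ae (ae_of_all _ fun x => ?_)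
  simp only
  rw [real_inner_self_eq_norm_sq]

theorem A2_grad {φ : E3 → E3} (h : φ ∈ CV) :
    ∑ j, ∫ x, ‖pd j φ x‖ ^ 2 = ∑ j, ‖toL2 (pd j φ)‖ ^ 2 :=
  Finset.sum_congr rfl fun j _ => A2_norm_sq (CV_memLp (CV_pd h j) 2)

theorem A2_hardy_lint {φ : E3 → E3} (h : φ ∈ CV) :
    ∫⁻ x in Bl, ‖φ x‖ₑ ^ 2 * ENNReal.ofReal (yy x ^ (-2 : ℝ)) ≤
      4 * ENNReal.ofReal (∑ j, ‖toL2 (pd j φ)‖ ^ 2) := by
  have e1 : ∫⁻ x in Bl, ‖φ x‖ₑ ^ 2 * ENNReal.ofReal (yy x ^ (-2 : ℝ)) =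
      ∫⁻ x in Bl, ENNReal.ofReal (4 * (‖φ x‖ ^ 2 / (4 * yy x ^ 2))) := by
    refine setLIntegral_congr_fun Metric.isOpen_ball.measurableSet fun x hx => ?_
    have hw := A2_lt hx
    rw [A2_yy] at hw
    have h1 : 0 < yy x := by linarith
    rw [← ofReal_norm, ← ENNReal.ofReal_pow (norm_nonneg _), ← ENNReal.ofReal_mul (by positivity)]
    congr 1
    rw [Real.rpow_neg h1.le]
    have : yy x ^ (2 : ℝ) = yy x ^ 2 := by norm_cast
    rw [this]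
    field_simp
  rw [e1]
  calc ∫⁻ x in Bl, ENNReal.ofReal (4 * (‖φ x‖ ^ 2 / (4 * yy x ^ 2)))
      ≤ ∫⁻ x, ENNReal.ofReal (4 * (‖φ x‖ ^ 2 / (4 * yy x ^ 2))) :=
        setLIntegral_le_lintegral _ _
    _ = ENNReal.ofReal (∫ x, 4 * (‖φ x‖ ^ 2 / (4 * yy x ^ 2))) := by
        rw [ofReal_integral_eq_lintegral_ofReal ((hardy_integrable h).const_mul 4)]
        exact ae_of_all _ fun x => by
          simp only [Pi.zero_apply]
          positivity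
    _ ≤ 4 * ENNReal.ofReal (∑ j, ‖toL2 (pd j φ)‖ ^ 2) := by
        rw [integral_const_mul, ENNReal.ofReal_mul (by norm_num)]
        refine mul_le_mul' (by simp) (ENNReal.ofReal_le_ofReal ?_)
        rw [← A2_grad h]
        exact hardy h

/-- Hardy and Poincare for `V` (pass to the limit: Fatou for Hardy). -/
theorem hardy_V {v : L2} {G : Fin 3 → L2} (h : InV Bl v G) :
    ∫⁻ x in Bl, ‖v x‖ₑ ^ 2 * ENNReal.ofReal (yy x ^ (-2 : ℝ)) ≤
      4 * ENNReal.ofReal (∑ j, ‖G j‖ ^ 2) := by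
  obtain ⟨φ, h1, h2, h3⟩ := A1b_InV_iff.1 h
  have hC := fun n => TF_sub_CV (h1 n)
  have h2' := (A1b_tendsto_iff hC).2 h2
  have hm : TendstoInMeasure volume φ atTop (v : E3 → E3) := by
    refine tendstoInMeasure_of_tendsto_eLpNorm (p := 2) (by norm_num)
      (fun n => (hC n).1.continuous.aestronglyMeasurable) (Lp.aestronglyMeasurable v) ?_
    refine h2'.congr fun n => ?_
    exact eLpNorm_sub_comm _ _ _ _
  obtain ⟨ns, hns, hae⟩ := hm.exists_seq_tendsto_ae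
  have hyy : Measurable fun x : E3 => ENNReal.ofReal (yy x ^ (-2 : ℝ)) := by
    unfold yy
    fun_prop
  have e1 : ∫⁻ x in Bl, ‖v x‖ₑ ^ 2 * ENNReal.ofReal (yy x ^ (-2 : ℝ)) =
      ∫⁻ x in Bl, liminf (fun i => ‖φ (ns i) x‖ₑ ^ 2 * ENNReal.ofReal (yy x ^ (-2 : ℝ))) atTop := by
    refine lintegral_congr_ae (ae_restrict_of_ae ?_)
    filter_upwards [hae] with x hx
    have : Tendsto (fun i => ‖φ (ns i) x‖ₑ ^ 2 * ENNReal.ofReal (yy x ^ (-2 : ℝ))) atTop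
        (𝓝 (‖v x‖ₑ ^ 2 * ENNReal.ofReal (yy x ^ (-2 : ℝ)))) :=
      ENNReal.Tendsto.mul_const (((ENNReal.continuous_pow 2).tendsto _).comp
        ((continuous_enorm.tendsto _).comp hx)) (Or.inr ENNReal.ofReal_ne_top)
    exact this.liminf_eq.symm
  rw [e1]
  refine (lintegral_liminf_le' fun i => ?_).trans ?_
  · exact (((hC (ns i)).1.continuous.enorm.measurable.pow_const 2).mul hyy).aemeasurable
  · have t : Tendsto (fun i => 4 * ENNReal.ofReal (∑ j, ‖toL2 (pd j (φ (ns i)))‖ ^ 2)) atTop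
        (𝓝 (4 * ENNReal.ofReal (∑ j, ‖G j‖ ^ 2))) := by
      refine ENNReal.Tendsto.const_mul (ENNReal.tendsto_ofReal ?_) (Or.inr (by norm_num))
      refine tendsto_finsetSum _ fun j _ => ?_
      exact ((h3 j).comp hns.tendsto_atTop).norm.pow 2
    rw [← t.liminf_eq]
    exact liminf_le_liminf (Eventually.of_forall fun i => A2_hardy_lint (hC (ns i)))

theorem poincare_V {v : L2} {G : Fin 3 → L2} (h : InV Bl v G) : ‖v‖ ^ 2 ≤ ∑ j, ‖G j‖ ^ 2 := by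
  obtain ⟨φ, h1, h2, h3⟩ := A1b_InV_iff.1 h
  refine le_of_tendsto_of_tendsto' (h2.norm.pow 2)
    (tendsto_finsetSum _ fun j _ => (h3 j).norm.pow 2) fun n => ?_
  have hC := TF_sub_CV (h1 n)
  rw [← A2_grad hC, ← A2_norm_sq (CV_memLp hC 2)]
  exact poincare hC

theorem A2_fderiv_sq {φ : E3 → E3} (x z : E3) :
    ‖fderiv ℝ φ x z‖ ^ 2 ≤ ‖z‖ ^ 2 * ∑ j, ‖pd j φ x‖ ^ 2 := by
  have e : fderiv ℝ φ x z = ∑ j, z j • pd j φ x := by
    conv_lhs => rw [A1b_sum_single z]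
    simp [map_sum, pd]
  have h1 : ‖fderiv ℝ φ x z‖ ≤ ∑ j, |z j| * ‖pd j φ x‖ := by
    rw [e]
    refine (norm_sum_le _ _).trans (Finset.sum_le_sum fun j _ => ?_)
    rw [norm_smul, Real.norm_eq_abs]
  have h2 := Finset.sum_mul_sq_le_sq_mul_sq Finset.univ (fun j => |z j|) (fun j => ‖pd j φ x‖)
  have h3 : ∑ j, |z j| ^ 2 = ‖z‖ ^ 2 := by
    rw [EuclideanSpace.norm_sq_eq]
    simp
  rw [h3] at h2
  exact (pow_le_pow_left₀ (norm_nonneg _) h1 2).trans h2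

theorem A2_transl_pt {φ : E3 → E3} (h : φ ∈ CV) (x z : E3) :
    ‖φ (x + z) - φ x‖ₑ ^ 2 ≤ ∫⁻ t in Ioc (0 : ℝ) 1, ‖fderiv ℝ φ (x + t • z) z‖ₑ ^ 2 := by
  have hc : Continuous fun t : ℝ => fderiv ℝ φ (x + t • z) z :=
    ((h.1.continuous_fderiv (by simp)).comp (by fun_prop)).clm_apply continuous_const
  have hd : ∀ t : ℝ, HasDerivAt (fun t : ℝ => φ (x + t • z)) (fderiv ℝ φ (x + t • z) z) t := by
    intro t
    have h1 : HasDerivAt (fun t : ℝ => x + t • z) z t := by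
      have := (hasDerivAt_id t).smul_const z
      simpa using this.const_add x
    exact (A1_diff h _).hasFDerivAt.comp_hasDerivAt t h1
  have e : φ (x + z) - φ x = ∫ t in (0 : ℝ)..1, fderiv ℝ φ (x + t • z) z := by
    rw [intervalIntegral.integral_eq_sub_of_hasDerivAt (fun t _ => hd t)
      (hc.intervalIntegrable _ _)]
    simp
  have h2 : ‖φ (x + z) - φ x‖ₑ ≤ ∫⁻ t in Ioc (0 : ℝ) 1, ‖fderiv ℝ φ (x + t • z) z‖ₑ := by
    rw [e, intervalIntegral.integral_of_le zero_le_one]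
    exact enorm_integral_le_lintegral_enorm _
  have hp : IsProbabilityMeasure ((volume : Measure ℝ).restrict (Ioc 0 1)) :=
    ⟨by simp⟩
  have h3 := eLpNorm_le_eLpNorm_of_exponent_le (μ := (volume : Measure ℝ).restrict (Ioc 0 1))
    (p := 1) (q := 2) (f := fun t : ℝ => fderiv ℝ φ (x + t • z) z) (by norm_num)
    hc.aestronglyMeasurable
  rw [eLpNorm_one_eq_lintegral_enorm] at h3
  have h4 := eLpNorm_nnreal_pow_eq_lintegral (μ := (volume : Measure ℝ).restrict (Ioc 0 1))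
    (f := fun t : ℝ => fderiv ℝ φ (x + t • z) z) (p := 2) (by norm_num)
  norm_num at h4
  rw [← h4]
  exact pow_le_pow_left' (h2.trans h3) 2

theorem A2_transl {φ : E3 → E3} (h : φ ∈ CV) (z : E3) :
    eLpNorm (fun x => φ (x + z) - φ x) 2 volume ≤
      ENNReal.ofReal (‖z‖ * Real.sqrt (∑ j, ‖toL2 (pd j φ)‖ ^ 2)) := by
  have hsq : ∫⁻ x, ‖φ (x + z) - φ x‖ₑ ^ 2 ≤
      ENNReal.ofReal (‖z‖ ^ 2 * ∑ j, ‖toL2 (pd j φ)‖ ^ 2) := by
    have hcont : Continuous fun p : E3 × ℝ => ‖fderiv ℝ φ (p.1 + p.2 • z) z‖ₑ ^ 2 := by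
      have : Continuous fun p : E3 × ℝ => fderiv ℝ φ (p.1 + p.2 • z) z :=
        ((h.1.continuous_fderiv (by simp)).comp (by fun_prop)).clm_apply continuous_const
      exact (ENNReal.continuous_pow 2).comp this.enorm
    calc ∫⁻ x, ‖φ (x + z) - φ x‖ₑ ^ 2
        ≤ ∫⁻ x, ∫⁻ t in Ioc (0 : ℝ) 1, ‖fderiv ℝ φ (x + t • z) z‖ₑ ^ 2 :=
          lintegral_mono fun x => A2_transl_pt h x z
      _ = ∫⁻ t in Ioc (0 : ℝ) 1, ∫⁻ x, ‖fderiv ℝ φ (x + t • z) z‖ₑ ^ 2 :=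
          lintegral_lintegral_swap hcont.measurable.aemeasurable
      _ = ∫⁻ t in Ioc (0 : ℝ) 1, ∫⁻ x, ‖fderiv ℝ φ x z‖ₑ ^ 2 := by
          refine lintegral_congr fun t => ?_
          exact lintegral_add_right_eq_self (fun x => ‖fderiv ℝ φ x z‖ₑ ^ 2) (t • z)
      _ = ∫⁻ x, ‖fderiv ℝ φ x z‖ₑ ^ 2 := by simp
      _ ≤ ∫⁻ x, ENNReal.ofReal (‖z‖ ^ 2 * ∑ j, ‖pd j φ x‖ ^ 2) := by
          refine lintegral_mono fun x => ?_
          rw [← ofReal_norm, ← ENNReal.ofReal_pow (norm_nonneg _)]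
          exact ENNReal.ofReal_le_ofReal (A2_fderiv_sq x z)
      _ = ENNReal.ofReal (‖z‖ ^ 2 * ∑ j, ‖toL2 (pd j φ)‖ ^ 2) := by
          have hi : ∀ j : Fin 3, Integrable fun x => ‖pd j φ x‖ ^ 2 := fun j =>
            A1_cb_integrable (A2_sq_cb (CV_pd h j))
          rw [← ofReal_integral_eq_lintegral_ofReal
            ((integrable_finsetSum _ fun j _ => hi j).const_mul _)
            (ae_of_all _ fun x => by
              simp only [Pi.zero_apply]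
              positivity), integral_const_mul, integral_finsetSum _ fun j _ => hi j, A2_grad h]
  have h4 := eLpNorm_nnreal_pow_eq_lintegral (μ := (volume : Measure E3))
    (f := fun x => φ (x + z) - φ x) (p := 2) (by norm_num)
  norm_num at h4
  rw [← h4] at hsq
  have h5 : ENNReal.ofReal (‖z‖ ^ 2 * ∑ j, ‖toL2 (pd j φ)‖ ^ 2) =
      ENNReal.ofReal (‖z‖ * Real.sqrt (∑ j, ‖toL2 (pd j φ)‖ ^ 2)) ^ 2 := by
    rw [← ENNReal.ofReal_pow (by positivity), mul_pow, Real.sq_sqrt (by positivity)]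
  rw [h5] at hsq
  exact (ENNReal.pow_le_pow_left_iff (by norm_num)).1 hsq

/-- Translations: `‖v(· + z) - v‖ ≤ |z| ‖∇v‖`. -/
theorem transl_V {v : L2} {G : Fin 3 → L2} (h : InV Bl v G) (z : E3) :
    eLpNorm (fun x => v (x + z) - v x) 2 volume ≤
      ENNReal.ofReal (‖z‖ * Real.sqrt (∑ j, ‖G j‖ ^ 2)) := by
  obtain ⟨φ, h1, h2, h3⟩ := A1b_InV_iff.1 h
  have hC := fun n => TF_sub_CV (h1 n)
  have h2' := (A1b_tendsto_iff hC).2 h2
  have hmp : MeasurePreserving (fun x : E3 => x + z) volume volume :=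
    measurePreserving_add_right volume z
  have hv := Lp.aestronglyMeasurable v
  have hφ := fun n => (hC n).1.continuous.aestronglyMeasurable (μ := (volume : Measure E3))
  have hb : ∀ n, eLpNorm (fun x => v (x + z) - v x) 2 volume ≤
      eLpNorm (fun x => v x - φ n x) 2 volume +
      (ENNReal.ofReal (‖z‖ * Real.sqrt (∑ j, ‖toL2 (pd j (φ n))‖ ^ 2)) +
      eLpNorm (fun x => v x - φ n x) 2 volume) := by
    intro n
    have m1 : AEStronglyMeasurable (fun x => v (x + z) - φ n (x + z)) volume :=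
      (hv.sub (hφ n)).comp_measurePreserving hmp
    have m2 : AEStronglyMeasurable (fun x => φ n (x + z) - φ n x) volume :=
      ((hφ n).comp_measurePreserving hmp).sub (hφ n)
    have m3 : AEStronglyMeasurable (fun x => φ n x - v x) volume := (hφ n).sub hv
    have e : (fun x => v (x + z) - v x) = (fun x => v (x + z) - φ n (x + z)) +
        ((fun x => φ n (x + z) - φ n x) + fun x => φ n x - v x) := by
      funext x
      simp
    rw [e]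
    refine (eLpNorm_add_le m1 (m2.add m3) (by norm_num)).trans ?_
    refine add_le_add (le_of_eq ?_) ((eLpNorm_add_le m2 m3 (by norm_num)).trans
      (add_le_add (A2_transl (hC n) z) (le_of_eq (eLpNorm_sub_comm _ _ _ _))))
    exact eLpNorm_comp_measurePreserving (hv.sub (hφ n)) hmp
  have t1 : Tendsto (fun n => ENNReal.ofReal (‖z‖ *
      Real.sqrt (∑ j, ‖toL2 (pd j (φ n))‖ ^ 2))) atTop
      (𝓝 (ENNReal.ofReal (‖z‖ * Real.sqrt (∑ j, ‖G j‖ ^ 2)))) := by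
    refine ENNReal.tendsto_ofReal (Tendsto.const_mul _ ?_)
    refine (Real.continuous_sqrt.tendsto _).comp ?_
    exact tendsto_finsetSum _ fun j _ => (h3 j).norm.pow 2
  have t2 := h2'.add (t1.add h2')
  rw [add_zero, zero_add] at t2
  exact ge_of_tendsto' t2 hb

end Pool.Agent.W_332fe5
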