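import Pool.Agent.W_332fe5.O.A2

set_option autoImplicit false

/-! Block 1, A3: the Stokes resolvent on the unit ball. -/

open MeasureTheory Set Filter Topology
open scoped ENNReal NNReal

namespace Pool.Agent.W_332fe5

/-- Convergence of the `L²` classes. -/
theorem a3_tendsto_toL2 {v : L2} {φ : ℕ → E3 → E3} (hm : ∀ n, MemLp (φ n) 2 (volume : Measure E3))
    (h : Tendsto (fun n => eLpNorm (fun x => v x - φ n x) 2 volume) atTop (𝓝 0)) :
    Tendsto (fun n => toL2 (φ n)) atTop (𝓝 v) := by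
  rw [Lp.tendsto_Lp_iff_tendsto_eLpNorm']
  refine h.congr fun n => ?_
  rw [eLpNorm_sub_comm]
  apply eLpNorm_congr_ae
  filter_upwards [toL2_coe (hm n)] with x hx
  simp [hx]

theorem a3_InV_zero : InV Bl 0 (fun _ => 0) := by
  have h := TF_InV TF_zero
  have h2 := InV_lin h h (-1)
  convert h2 using 1
  · simp
  · funext j; simp

/-- The equation holds for all test pairs in `V`. -/
theorem IsRes_V {l : ℝ} {f v : L2} (h : IsRes Bl l f v) :
    ∃ G : Fin 3 → L2, InV Bl v G ∧ ∀ (v' : L2) (G' : Fin 3 → L2), InV Bl v' G' →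
      l * inner ℝ v v' + ∑ j, inner ℝ (G j) (G' j) = inner ℝ f v' := by
  obtain ⟨G, hG, hE⟩ := h
  refine ⟨G, hG, fun v' G' h' => ?_⟩
  obtain ⟨φ, hφ, h0, hj⟩ := h'
  have t0 := a3_tendsto_toL2 (fun n => CV_memLp (TF_sub_CV (hφ n)) 2) h0
  have tj : ∀ j, Tendsto (fun n => toL2 (pd j (φ n))) atTop (𝓝 (G' j)) := fun j =>
    a3_tendsto_toL2 (fun n => CV_memLp (TF_sub_CV (TF_pd (hφ n) j)) 2) (hj j)
  have hEn : ∀ n, l * inner ℝ v (toL2 (φ n)) + ∑ j, inner ℝ (G j) (toL2 (pd j (φ n))) =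
      inner ℝ f (toL2 (φ n)) := by
    intro n
    have := hE (φ n) (hφ n)
    rw [pair_toL2 v (CV_memLp (TF_sub_CV (hφ n)) 2), pair_toL2 f (CV_memLp (TF_sub_CV (hφ n)) 2)] at this
    rw [← this]
    congr 1
    exact Finset.sum_congr rfl fun j _ =>
      (pair_toL2 (G j) (CV_memLp (TF_sub_CV (TF_pd (hφ n) j)) 2)).symm
  have l1 : Tendsto (fun n => l * inner ℝ v (toL2 (φ n)) +
      ∑ j, inner ℝ (G j) (toL2 (pd j (φ n)))) atTop
      (𝓝 (l * inner ℝ v v' + ∑ j, inner ℝ (G j) (G' j))) := by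
    refine Tendsto.add ((tendsto_const_nhds.inner t0).const_mul l) ?_
    exact tendsto_finsetSum _ fun j _ => tendsto_const_nhds.inner (tj j)
  have l2 : Tendsto (fun n => inner ℝ f (toL2 (φ n))) atTop (𝓝 (inner ℝ f v')) :=
    tendsto_const_nhds.inner t0
  refine tendsto_nhds_unique l1 ?_
  refine l2.congr fun n => (hEn n).symm

/-- Lax-Milgram in an abstract form. -/
theorem a3_lm {K E F : Type*} [NormedAddCommGroup K] [InnerProductSpace ℝ K] [CompleteSpace K]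
    [NormedAddCommGroup E] [InnerProductSpace ℝ E] [NormedAddCommGroup F] [InnerProductSpace ℝ F]
    (P0 : K →L[ℝ] E) (P1 : K →L[ℝ] F) (hn : ∀ w, ‖w‖ ^ 2 = ‖P0 w‖ ^ 2 + ‖P1 w‖ ^ 2)
    (hp : ∀ w, ‖P0 w‖ ^ 2 ≤ ‖P1 w‖ ^ 2) {l : ℝ} (hl : 0 ≤ l) (f : E) :
    ∃ v : K, ∀ w : K, l * inner ℝ (P0 v) (P0 w) + inner ℝ (P1 v) (P1 w) = inner ℝ f (P0 w) := by
  have hP0 : ∀ v, ‖P0 v‖ ≤ ‖v‖ := fun v => by
    have := hn v
    nlinarith [norm_nonneg v, norm_nonneg (P0 v), sq_nonneg ‖P1 v‖]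
  have hP1 : ∀ v, ‖P1 v‖ ≤ ‖v‖ := fun v => by
    have := hn v
    nlinarith [norm_nonneg v, norm_nonneg (P1 v), sq_nonneg ‖P0 v‖]
  let B0 : K →ₗ[ℝ] K →ₗ[ℝ] ℝ :=
      LinearMap.mk₂ ℝ (fun v w : K => l * inner ℝ (P0 v) (P0 w) + inner ℝ (P1 v) (P1 w))
        (fun a b c => by simp only [map_add, inner_add_left]; ring)
        (fun a b c => by simp only [map_smul, real_inner_smul_left, smul_eq_mul]; ring)
        (fun a b c => by simp only [map_add, inner_add_right]; ring)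
        (fun a b c => by simp only [map_smul, real_inner_smul_right, smul_eq_mul]; ring)
  have hB0 : ∀ v w : K, B0 v w = l * inner ℝ (P0 v) (P0 w) + inner ℝ (P1 v) (P1 w) :=
    fun v w => rfl
  have hB0n : ∀ v w : K, ‖B0 v w‖ ≤ (l + 1) * ‖v‖ * ‖w‖ := by
    intro v w
    have b1 : |inner ℝ (P0 v) (P0 w)| ≤ ‖v‖ * ‖w‖ :=
      (abs_real_inner_le_norm _ _).trans
        (mul_le_mul (hP0 v) (hP0 w) (norm_nonneg _) (norm_nonneg _))
    have b2 : |inner ℝ (P1 v) (P1 w)| ≤ ‖v‖ * ‖w‖ :=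
      (abs_real_inner_le_norm _ _).trans
        (mul_le_mul (hP1 v) (hP1 w) (norm_nonneg _) (norm_nonneg _))
    rw [hB0, Real.norm_eq_abs]
    calc |l * inner ℝ (P0 v) (P0 w) + inner ℝ (P1 v) (P1 w)|
        ≤ |l * inner ℝ (P0 v) (P0 w)| + |inner ℝ (P1 v) (P1 w)| := abs_add_le _ _
      _ = l * |inner ℝ (P0 v) (P0 w)| + |inner ℝ (P1 v) (P1 w)| := by
        rw [abs_mul, abs_of_nonneg hl]
      _ ≤ l * (‖v‖ * ‖w‖) + ‖v‖ * ‖w‖ := by gcongr
      _ = (l + 1) * ‖v‖ * ‖w‖ := by ring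
  let B : K →L[ℝ] K →L[ℝ] ℝ := LinearMap.mkContinuous₂ B0 (l + 1) hB0n
  have hB : ∀ v w : K, B v w = l * inner ℝ (P0 v) (P0 w) + inner ℝ (P1 v) (P1 w) := fun v w => rfl
  have hco : IsCoercive B := by
    refine ⟨1 / 2, by norm_num, fun u => ?_⟩
    rw [hB, real_inner_self_eq_norm_sq, real_inner_self_eq_norm_sq]
    have h1 := hn u
    have h2 := hp u
    nlinarith [mul_nonneg hl (sq_nonneg ‖P0 u‖)]
  let z : K := (InnerProductSpace.toDual ℝ K).symm ((innerSL ℝ f).comp P0)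
  have hz : ∀ w : K, inner ℝ z w = inner ℝ f (P0 w) := by
    intro w
    have := InnerProductSpace.toDual_symm_apply (𝕜 := ℝ) (x := w) (y := (innerSL ℝ f).comp P0)
    rw [this]
    rfl
  refine ⟨hco.continuousLinearEquivOfBilin.symm z, fun w => ?_⟩
  rw [← hB, ← hz, ← hco.continuousLinearEquivOfBilin_apply]
  simp

/-- The abstract existence statement. -/
theorem a3_abs {X : Type*} [NormedAddCommGroup X] [InnerProductSpace ℝ X] [CompleteSpace X]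
    (V : X → (Fin 3 → X) → Prop) (h0 : V 0 (fun _ => 0))
    (hlin : ∀ v v' G G', V v G → V v' G' → ∀ a : ℝ, V (v + a • v') (fun j => G j + a • G' j))
    (hcl : ∀ (v : ℕ → X) (G : ℕ → Fin 3 → X) (v' : X) (G' : Fin 3 → X),
      (∀ n, V (v n) (G n)) → Tendsto v atTop (𝓝 v') →
      (∀ j, Tendsto (fun n => G n j) atTop (𝓝 (G' j))) → V v' G')
    (hp : ∀ v G, V v G → ‖v‖ ^ 2 ≤ ∑ j, ‖G j‖ ^ 2) {l : ℝ} (hl : 0 ≤ l) (f : X) :
    ∃ v G, V v G ∧ ∀ v' G', V v' G' →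
      l * inner ℝ v v' + ∑ j, inner ℝ (G j) (G' j) = inner ℝ f v' := by
  let K : Submodule ℝ (WithLp 2 (X × PiLp 2 (fun _ : Fin 3 => X))) :=
    { carrier := {p | V p.fst (fun j => p.snd j)}
      add_mem' := by
        intro a b ha hb
        have := hlin _ _ _ _ ha hb 1
        simpa using this
      zero_mem' := by
        simpa using h0
      smul_mem' := by
        intro c x hx
        have := hlin _ _ _ _ h0 hx c
        simpa using this }
  have hK : IsClosed (K : Set (WithLp 2 (X × PiLp 2 (fun _ : Fin 3 => X)))) := by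
    apply IsSeqClosed.isClosed
    intro u p hu hp
    have c1 : Continuous fun q : WithLp 2 (X × PiLp 2 (fun _ : Fin 3 => X)) => q.fst :=
      WithLp.continuous_fst _ _ _
    have c2 : Continuous fun q : WithLp 2 (X × PiLp 2 (fun _ : Fin 3 => X)) => q.snd :=
      WithLp.continuous_snd _ _ _
    refine hcl _ _ _ _ (fun n => hu n) ((c1.tendsto p).comp hp) fun j => ?_
    have c3 : Continuous fun q : PiLp 2 (fun _ : Fin 3 => X) => q j := PiLp.continuous_apply _ _ j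
    exact ((c3.comp c2).tendsto p).comp hp
  have : CompleteSpace K := hK.completeSpace_coe
  have hn0 : ∀ w : K, ‖w‖ ^ 2 = ‖(w : WithLp 2 (X × PiLp 2 (fun _ : Fin 3 => X))).fst‖ ^ 2 +
      ‖(w : WithLp 2 (X × PiLp 2 (fun _ : Fin 3 => X))).snd‖ ^ 2 := by
    intro w
    exact WithLp.prod_norm_sq_eq_of_L2 (w : WithLp 2 (X × PiLp 2 (fun _ : Fin 3 => X)))
  obtain ⟨P0, hP0⟩ : ∃ P0 : K →L[ℝ] X, ∀ w : K,
      P0 w = (w : WithLp 2 (X × PiLp 2 (fun _ : Fin 3 => X))).fst :=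
    ⟨LinearMap.mkContinuous
      { toFun := fun w : K => (w : WithLp 2 (X × PiLp 2 (fun _ : Fin 3 => X))).fst
        map_add' := fun a b => rfl
        map_smul' := fun a b => rfl } 1 (fun w => by
          have := hn0 w
          rw [one_mul]
          refine le_of_sq_le_sq ?_ (norm_nonneg _)
          rw [this]
          exact le_add_of_nonneg_right (sq_nonneg _)), fun w => rfl⟩
  obtain ⟨P1, hP1⟩ : ∃ P1 : K →L[ℝ] PiLp 2 (fun _ : Fin 3 => X), ∀ w : K,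
      P1 w = (w : WithLp 2 (X × PiLp 2 (fun _ : Fin 3 => X))).snd :=
    ⟨LinearMap.mkContinuous
      { toFun := fun w : K => (w : WithLp 2 (X × PiLp 2 (fun _ : Fin 3 => X))).snd
        map_add' := fun a b => rfl
        map_smul' := fun a b => rfl } 1 (fun w => by
          have := hn0 w
          rw [one_mul]
          refine le_of_sq_le_sq ?_ (norm_nonneg _)
          rw [this]
          exact le_add_of_nonneg_left (sq_nonneg _)), fun w => rfl⟩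
  have hn : ∀ w : K, ‖w‖ ^ 2 = ‖P0 w‖ ^ 2 + ‖P1 w‖ ^ 2 := by
    intro w
    rw [hP0, hP1]; exact hn0 w
  have hp' : ∀ w : K, ‖P0 w‖ ^ 2 ≤ ‖P1 w‖ ^ 2 := fun w => by
    rw [hP0, hP1, PiLp.norm_sq_eq_of_L2]; exact hp _ _ w.2
  have hlm := a3_lm (K := K) (E := X) (F := PiLp 2 (fun _ : Fin 3 => X)) P0
  obtain ⟨v, hv⟩ := hlm P1 hn hp' hl f
  refine ⟨(v : WithLp 2 (X × PiLp 2 (fun _ : Fin 3 => X))).fst,
    fun j => (v : WithLp 2 (X × PiLp 2 (fun _ : Fin 3 => X))).snd j, v.2, fun v' G' h' => ?_⟩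
  let w0 : WithLp 2 (X × PiLp 2 (fun _ : Fin 3 => X)) := WithLp.toLp 2 (v', WithLp.toLp 2 G')
  have hw0 : w0 ∈ K := h'
  have h1 := hv ⟨w0, hw0⟩
  rw [hP0, hP0, hP1, hP1, PiLp.inner_apply] at h1
  exact h1

/-- Existence.  Proof: the set of pairs `(v, G)` with `InV Bl v G` is a closed subspace of a
finite product of Hilbert spaces (`WithLp 2 (L2 × PiLp 2 (fun _ : Fin 3 => L2))`); the bilinear
form `l ⟪v, v'⟫ + ∑ ⟪G j, G' j⟫` is bounded and coercive on it (`poincare_V`); Lax-Milgram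
(`IsCoercive.continuousLinearEquivOfBilin`) or the Riesz representation theorem. Test with
`χ ∈ TF Bl` (`TF_InV`). -/
theorem exists_res {l : ℝ} (hl : 0 ≤ l) (f : L2) : ∃ v, IsRes Bl l f v := by
  obtain ⟨v, G, hG, hE⟩ := a3_abs (InV Bl) a3_InV_zero (fun v v' G G' h h' a => InV_lin h h' a)
    (fun v G v' G' h hv hG => InV_closed h hv hG) (fun v G h => poincare_V h) hl f
  refine ⟨v, G, hG, fun χ hχ => ?_⟩
  have h1 := hE _ _ (TF_InV hχ)
  rw [pair_toL2 _ (CV_memLp (TF_sub_CV hχ) 2), pair_toL2 _ (CV_memLp (TF_sub_CV hχ) 2), ← h1]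
  congr 1
  refine Finset.sum_congr rfl fun j _ => ?_
  rw [pair_toL2 _ (CV_memLp (TF_sub_CV (TF_pd hχ j)) 2)]

theorem IsRes_unique {l : ℝ} (hl : 0 ≤ l) {f v v' : L2} (h : IsRes Bl l f v)
    (h' : IsRes Bl l f v') : v = v' := by
  obtain ⟨G, hG, hE⟩ := IsRes_V h
  obtain ⟨G', hG', hE'⟩ := IsRes_V h'
  have hw := InV_lin hG hG' (-1)
  have e1 := hE _ _ hw
  have e2 := hE' _ _ hw
  have e3 : l * inner ℝ (v + (-1 : ℝ) • v') (v + (-1 : ℝ) • v') +
      ∑ j, inner ℝ (G j + (-1 : ℝ) • G' j) (G j + (-1 : ℝ) • G' j) = 0 := by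
    have : ∀ x : L2, inner ℝ (v + (-1 : ℝ) • v') x = inner ℝ v x - inner ℝ v' x := by
      intro x
      rw [inner_add_left, real_inner_smul_left]; ring
    rw [this]
    have h2 : ∑ j, inner ℝ (G j + (-1 : ℝ) • G' j) (G j + (-1 : ℝ) • G' j) =
        ∑ j, inner ℝ (G j) (G j + (-1 : ℝ) • G' j) - ∑ j, inner ℝ (G' j) (G j + (-1 : ℝ) • G' j) := by
      rw [← Finset.sum_sub_distrib]
      refine Finset.sum_congr rfl fun j _ => ?_
      rw [inner_add_left, real_inner_smul_left]; ring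
    rw [h2]
    linarith
  have hp := poincare_V hw
  simp only [real_inner_self_eq_norm_sq] at e3
  have h0 : ‖v + (-1 : ℝ) • v'‖ ^ 2 ≤ 0 := by
    nlinarith [mul_nonneg hl (sq_nonneg ‖v + (-1 : ℝ) • v'‖)]
  have h1 : ‖v + (-1 : ℝ) • v'‖ = 0 := by
    nlinarith [sq_nonneg ‖v + (-1 : ℝ) • v'‖]
  have h2 := norm_eq_zero.mp h1
  have : v - v' = 0 := by rw [← h2]; simp [sub_eq_add_neg]
  exact sub_eq_zero.mp this

theorem res_spec {l : ℝ} (hl : 0 ≤ l) (f : L2) : IsRes Bl l f (res Bl l f) := by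
  unfold res
  rw [dif_pos (exists_res hl f)]
  exact (exists_res hl f).choose_spec

theorem res_eq {l : ℝ} (hl : 0 ≤ l) {f v : L2} (h : IsRes Bl l f v) : res Bl l f = v :=
  IsRes_unique hl (res_spec hl f) h

theorem res_lin {l : ℝ} (hl : 0 ≤ l) (f g : L2) (a : ℝ) :
    res Bl l (f + a • g) = res Bl l f + a • res Bl l g := by
  refine res_eq hl ?_
  obtain ⟨G, hG, hE⟩ := res_spec hl f
  obtain ⟨G', hG', hE'⟩ := res_spec hl g
  refine ⟨fun j => G j + a • G' j, InV_lin hG hG' a, fun χ hχ => ?_⟩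
  have e1 := hE χ hχ
  have e2 := hE' χ hχ
  have m0 := CV_memLp (TF_sub_CV hχ) 2
  have mj := fun j => CV_memLp (TF_sub_CV (TF_pd hχ j)) 2
  rw [pair_toL2 _ m0, pair_toL2 _ m0] at e1 e2 ⊢
  have s1 : ∀ H : Fin 3 → L2, ∑ j, pair (H j) (pd j χ) = ∑ j, inner ℝ (H j) (toL2 (pd j χ)) :=
    fun H => Finset.sum_congr rfl fun j _ => pair_toL2 _ (mj j)
  rw [s1] at e1 e2
  rw [s1]
  have s2 : ∑ j, inner ℝ (G j + a • G' j) (toL2 (pd j χ)) =
      ∑ j, inner ℝ (G j) (toL2 (pd j χ)) + a * ∑ j, inner ℝ (G' j) (toL2 (pd j χ)) := by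
    rw [Finset.mul_sum, ← Finset.sum_add_distrib]
    refine Finset.sum_congr rfl fun j _ => ?_
    rw [inner_add_left, real_inner_smul_left]
  rw [s2, inner_add_left, real_inner_smul_left, inner_add_left, real_inner_smul_left, ← e1, ← e2]
  ring

theorem a3_energy {l : ℝ} (hl : 0 ≤ l) (f : L2) :
    ∃ G : Fin 3 → L2, InV Bl (res Bl l f) G ∧
      l * ‖res Bl l f‖ ^ 2 + ∑ j, ‖G j‖ ^ 2 = inner ℝ f (res Bl l f) := by
  obtain ⟨G, hG, hE⟩ := IsRes_V (res_spec hl f)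
  refine ⟨G, hG, ?_⟩
  have := hE _ _ hG
  simpa only [real_inner_self_eq_norm_sq] using this

/-- `‖R(l) f‖ ≤ ‖f‖ / (l + 1)` (energy identity and Poincare). -/
theorem norm_res_le {l : ℝ} (hl : 0 ≤ l) (f : L2) : ‖res Bl l f‖ ≤ ‖f‖ / (l + 1) := by
  obtain ⟨G, hG, hE⟩ := a3_energy hl f
  have hp := poincare_V hG
  have hc := real_inner_le_norm f (res Bl l f)
  rw [le_div_iff₀ (by linarith)]
  by_cases h0 : ‖res Bl l f‖ = 0
  · rw [h0, zero_mul]; exact norm_nonneg _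
  · have hpos : 0 < ‖res Bl l f‖ := lt_of_le_of_ne (norm_nonneg _) (Ne.symm h0)
    have : (l + 1) * ‖res Bl l f‖ ^ 2 ≤ ‖f‖ * ‖res Bl l f‖ := by nlinarith
    nlinarith

/-- `‖∇ R(l) f‖² ≤ ‖f‖² / (l + 1)`. -/
theorem grad_res_le {l : ℝ} (hl : 0 ≤ l) (f : L2) :
    ∃ G : Fin 3 → L2, InV Bl (res Bl l f) G ∧ ∑ j, ‖G j‖ ^ 2 ≤ ‖f‖ ^ 2 / (l + 1) := by
  obtain ⟨G, hG, hE⟩ := a3_energy hl f
  refine ⟨G, hG, ?_⟩
  have hc := real_inner_le_norm f (res Bl l f)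
  have hn := norm_res_le hl f
  have h1 : ∑ j, ‖G j‖ ^ 2 ≤ ‖f‖ * ‖res Bl l f‖ := by
    nlinarith [mul_nonneg hl (sq_nonneg ‖res Bl l f‖)]
  refine h1.trans ?_
  calc ‖f‖ * ‖res Bl l f‖ ≤ ‖f‖ * (‖f‖ / (l + 1)) := by gcongr
    _ = ‖f‖ ^ 2 / (l + 1) := by ring

theorem res_mem {l : ℝ} (hl : 0 ≤ l) (f : L2) : res Bl l f ∈ Hs Bl := by
  obtain ⟨G, hG, -⟩ := res_spec hl f
  exact InV_mem hG

end Pool.Agent.W_332fe5
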