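import Pool.Agent.W_332fe5.O.A3

set_option autoImplicit false

/-! Block 1, A3b: symmetry, resolvent identity, the operator `resL`, injectivity. -/

open MeasureTheory Set Filter Topology
open scoped ENNReal NNReal

namespace Pool.Agent.W_332fe5

theorem res_symm {l : ℝ} (hl : 0 ≤ l) (f g : L2) :
    inner ℝ (res Bl l f) g = inner ℝ f (res Bl l g) := by
  obtain ⟨G, h1, h2⟩ := IsRes_V (res_spec hl f)
  obtain ⟨G', h1', h2'⟩ := IsRes_V (res_spec hl g)
  have e1 := h2 _ _ h1'
  have e2 := h2' _ _ h1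
  rw [← e1, real_inner_comm, ← e2, real_inner_comm]
  congr 1
  exact Finset.sum_congr rfl fun j _ => real_inner_comm _ _

theorem A3b_pair_lin (f g : L2) (a : ℝ) {χ : E3 → E3} (h : MemLp χ 2 (volume : Measure E3)) :
    pair (f + a • g : L2) χ = pair f χ + a * pair g χ := by
  rw [pair_toL2 _ h, pair_toL2 _ h, pair_toL2 _ h, inner_add_left, real_inner_smul_left]

/-- Resolvent identity. -/
theorem res_sub {l k : ℝ} (hl : 0 ≤ l) (hk : 0 ≤ k) (f : L2) :
    res Bl l f - res Bl k f = (k - l) • res Bl l (res Bl k f) := by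
  have key : res Bl l f = res Bl k f + (k - l) • res Bl l (res Bl k f) := by
    refine res_eq hl ?_
    obtain ⟨G, h1, h2⟩ := res_spec hk f
    obtain ⟨G', h1', h2'⟩ := res_spec hl (res Bl k f)
    refine ⟨_, InV_lin h1 h1' (k - l), fun χ hχ => ?_⟩
    have hm : MemLp χ 2 (volume : Measure E3) := CV_memLp (TF_sub_CV hχ) 2
    have hm' : ∀ j, MemLp (pd j χ) 2 (volume : Measure E3) := fun j =>
      CV_memLp (CV_pd (TF_sub_CV hχ) j) 2
    have e1 := h2 χ hχ
    have e2 := h2' χ hχ
    rw [A3b_pair_lin _ _ _ hm]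
    have e3 : ∑ j, pair (G j + (k - l) • G' j : L2) (pd j χ) =
        (∑ j, pair (G j) (pd j χ)) + (k - l) * ∑ j, pair (G' j) (pd j χ) := by
      rw [Finset.mul_sum, ← Finset.sum_add_distrib]
      exact Finset.sum_congr rfl fun j _ => A3b_pair_lin _ _ _ (hm' j)
    rw [e3]
    linear_combination e1 + (k - l) * e2
  rw [key]
  abel

theorem res_comm {l k : ℝ} (hl : 0 ≤ l) (hk : 0 ≤ k) (f : L2) :
    res Bl l (res Bl k f) = res Bl k (res Bl l f) := by
  by_cases h : l = k
  · rw [h]
  · have h1 := res_sub hl hk f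
    have h2 := res_sub hk hl f
    have h3 : (k - l) • res Bl l (res Bl k f) = (k - l) • res Bl k (res Bl l f) := by
      rw [← h1]
      have : (k - l) • res Bl k (res Bl l f) = -((l - k) • res Bl k (res Bl l f)) := by
        rw [← neg_smul, neg_sub]
      rw [this, ← h2]
      abel
    have h4 : k - l ≠ 0 := sub_ne_zero.2 (Ne.symm h)
    exact smul_right_injective _ h4 h3

/-- The resolvent as a bounded operator. -/
noncomputable def resL (l : ℝ) : L2 →L[ℝ] L2 :=
  if hl : 0 ≤ l then
    LinearMap.mkContinuous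
      { toFun := res Bl l
        map_add' := fun f g => by simpa using res_lin hl f g 1
        map_smul' := fun a f => by
          have h0 : res Bl l 0 = 0 := by
            have := res_lin hl 0 0 1
            simpa using this
          have := res_lin hl 0 f a
          simpa [h0] using this } 1
      (fun f => by
        refine (norm_res_le hl f).trans ?_
        rw [one_mul]
        exact div_le_self (norm_nonneg _) (by linarith))
  else 0

theorem resL_apply {l : ℝ} (hl : 0 ≤ l) (f : L2) : resL l f = res Bl l f := by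
  unfold resL
  rw [dif_pos hl]
  rfl

theorem norm_resL_le {l : ℝ} (hl : 0 ≤ l) : ‖resL l‖ ≤ 1 / (l + 1) := by
  refine ContinuousLinearMap.opNorm_le_bound _ (by positivity) fun f => ?_
  rw [resL_apply hl]
  refine (norm_res_le hl f).trans (le_of_eq ?_)
  ring

/-- Norm continuity in `l` (from the resolvent identity). -/
theorem resL_cont : ContinuousOn resL (Ici 0) := by
  have h : LipschitzOnWith 1 resL (Ici 0) := by
    refine LipschitzOnWith.of_dist_le_mul fun l hl k hk => ?_
    have hl' : 0 ≤ l := hl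
    have hk' : 0 ≤ k := hk
    rw [NNReal.coe_one, one_mul, dist_eq_norm, Real.dist_eq]
    refine ContinuousLinearMap.opNorm_le_bound _ (abs_nonneg _) fun f => ?_
    rw [sub_apply, resL_apply hl', resL_apply hk', res_sub hl' hk', norm_smul,
      Real.norm_eq_abs, abs_sub_comm]
    refine mul_le_mul_of_nonneg_left ?_ (abs_nonneg _)
    have e1 := norm_res_le hl' (res Bl k f)
    have e2 := norm_res_le hk' f
    have e3 : ‖res Bl k f‖ / (l + 1) ≤ ‖res Bl k f‖ := div_le_self (norm_nonneg _) (by linarith)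
    have e4 : ‖f‖ / (k + 1) ≤ ‖f‖ := div_le_self (norm_nonneg _) (by linarith)
    linarith
  exact h.continuousOn

/-- `A⁻¹` is injective on `L²_σ`. -/
theorem res_inj {f : L2} (hf : f ∈ Hs Bl) (h : res Bl 0 f = 0) : f = 0 := by
  obtain ⟨G, h1, h2⟩ := res_spec le_rfl f
  rw [h] at h1 h2
  have hz : ∀ χ ∈ TF Bl, inner ℝ f (toL2 χ) = 0 := by
    intro χ hχ
    have hm : MemLp χ 2 (volume : Measure E3) := CV_memLp (TF_sub_CV hχ) 2
    rw [← pair_toL2 f hm, ← h2 χ hχ, zero_mul, zero_add]
    refine Finset.sum_eq_zero fun j _ => ?_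
    have hp := CV_pd (TF_sub_CV hχ) j
    rw [InV_pair h1 (hp.1.of_le (by exact_mod_cast le_top)) hp.2.1 j,
      pair_toL2 _ (CV_memLp (CV_pd hp j) 2), inner_zero_left, neg_zero]
  obtain ⟨φ, hφ, ht⟩ := hf
  have hm : ∀ n, MemLp (φ n) 2 (volume : Measure E3) := fun n => CV_memLp (TF_sub_CV (hφ n)) 2
  have e1 : ∀ n, eLpNorm (fun x => f x - φ n x) 2 volume = ‖f - toL2 (φ n)‖ₑ := by
    intro n
    rw [Lp.enorm_def]
    refine eLpNorm_congr_ae ?_
    filter_upwards [Lp.coeFn_sub f (toL2 (φ n)), toL2_coe (hm n)] with x h3 h4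
    rw [h3, Pi.sub_apply, h4]
  have e2 : Tendsto (fun n => toL2 (φ n)) atTop (𝓝 f) := by
    rw [tendsto_iff_norm_sub_tendsto_zero]
    simp only [e1] at ht
    have h5 : Tendsto (fun n => (‖f - toL2 (φ n)‖ₑ).toReal) atTop (𝓝 0) := by
      exact (ENNReal.tendsto_toReal ENNReal.zero_ne_top).comp ht
    refine h5.congr fun n => ?_
    rw [toReal_enorm, norm_sub_rev]
  have e3 : Tendsto (fun n => inner ℝ f (toL2 (φ n))) atTop (𝓝 (inner ℝ f f)) :=
    (tendsto_const_nhds (x := f)).inner e2
  have e4 : inner ℝ f f = (0 : ℝ) := by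
    refine tendsto_nhds_unique e3 ?_
    simp only [hz _ (hφ _)]
    exact tendsto_const_nhds
  exact inner_self_eq_zero.1 e4

/-- `A⁻¹ (-Δ φ) = φ` for test fields. -/
theorem res_lapl {φ : E3 → E3} (h : φ ∈ TF Bl) : res Bl 0 (toL2 (lapl φ)) = -toL2 φ := by
  refine res_eq le_rfl ?_
  have h1 := TF_InV h
  have h2 := InV_lin h1 h1 (-2)
  have e0 : ∀ w : L2, w + (-2 : ℝ) • w = -w := by
    intro w
    rw [neg_smul, two_smul]
    abel
  simp only [e0] at h2
  refine ⟨_, h2, fun χ hχ => ?_⟩
  have hC := TF_sub_CV h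
  have hX := TF_sub_CV hχ
  have e1 : ∀ j, pair (-toL2 (pd j φ) : L2) (pd j χ) = -pair (pd j φ) (pd j χ) := by
    intro j
    rw [pair_toL2 _ (CV_memLp (CV_pd hX j) 2), inner_neg_left,
      ← pair_toL2 _ (CV_memLp (CV_pd hX j) 2)]
    congr 1
    refine integral_congr_ae ?_
    filter_upwards [toL2_coe (CV_memLp (CV_pd hC j) 2)] with x hx
    rw [hx]
  have e2 : pair (toL2 (lapl φ)) χ = pair (lapl φ) χ := by
    refine integral_congr_ae ?_
    filter_upwards [toL2_coe (CV_memLp (CV_lapl hC) 2)] with x hx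
    rw [hx]
  simp only [e1]
  rw [zero_mul, zero_add, Finset.sum_neg_distrib, pair_lapl hC hX, neg_neg, e2]

/-- `res` only sees the projection to `L²_σ`: `R(l) f = R(l) g` if `f` and `g` have the same
pairings with test fields. -/
theorem res_congr {l : ℝ} (hl : 0 ≤ l) {f g : L2} (h : ∀ χ ∈ TF Bl, pair f χ = pair g χ) :
    res Bl l f = res Bl l g := by
  refine res_eq hl ?_
  obtain ⟨G, h1, h2⟩ := res_spec hl g
  exact ⟨G, h1, fun χ hχ => by rw [h2 χ hχ, h χ hχ]⟩

end Pool.Agent.W_332fe5
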