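import Pool.Agent.W_332fe5.O.A3b

set_option autoImplicit false

/-! Block 1, A4: negative powers of the Stokes operator (Balakrishnan). -/

open MeasureTheory Set Filter Topology
open scoped ENNReal NNReal

namespace Pool.Agent.W_332fe5

/-- The constant `∫_0^∞ l^(-b) / (1 + l) dl`. -/
noncomputable def kb (b : ℝ) : ℝ := ∫ l in Ioi (0 : ℝ), l ^ (-b) / (1 + l)

theorem A4_rpow_cont (b : ℝ) : ContinuousOn (fun l : ℝ => l ^ (-b)) (Ioi 0) :=
  fun _ hl => (Real.continuousAt_rpow_const _ _ (Or.inl (ne_of_gt hl))).continuousWithinAt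

theorem kb_integrable {b : ℝ} (h0 : 0 < b) (h1 : b < 1) :
    IntegrableOn (fun l : ℝ => l ^ (-b) / (1 + l)) (Ioi 0) := by
  have hc : ContinuousOn (fun l : ℝ => l ^ (-b) / (1 + l)) (Ioi 0) := by
    refine (A4_rpow_cont b).div (by fun_prop) fun l hl => ?_
    have : (0 : ℝ) < l := hl
    positivity
  have hm : AEStronglyMeasurable (fun l : ℝ => l ^ (-b) / (1 + l))
      (volume.restrict (Ioi 0)) := hc.aestronglyMeasurable measurableSet_Ioi
  rw [← Ioc_union_Ioi_eq_Ioi (zero_le_one' ℝ), integrableOn_union]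
  constructor
  · have h2 : IntegrableOn (fun l : ℝ => l ^ (-b)) (Ioc 0 1) := by
      rw [← intervalIntegrable_iff_integrableOn_Ioc_of_le zero_le_one]
      exact intervalIntegral.intervalIntegrable_rpow' (by linarith)
    refine Integrable.mono' h2 (hm.mono_measure (Measure.restrict_mono
      Ioc_subset_Ioi_self le_rfl)) ?_
    refine (ae_restrict_iff' measurableSet_Ioc).2 (ae_of_all _ fun l hl => ?_)
    have hl0 : (0 : ℝ) < l := hl.1
    have h3 : 0 ≤ l ^ (-b) := Real.rpow_nonneg hl0.le _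
    rw [Real.norm_of_nonneg (by positivity)]
    exact div_le_self h3 (by linarith)
  · have h2 : IntegrableOn (fun l : ℝ => l ^ (-b - 1)) (Ioi 1) :=
      integrableOn_Ioi_rpow_of_lt (by linarith) one_pos
    refine Integrable.mono' h2 (hm.mono_measure (Measure.restrict_mono
      (Ioi_subset_Ioi zero_le_one) le_rfl)) ?_
    refine (ae_restrict_iff' measurableSet_Ioi).2 (ae_of_all _ fun l hl => ?_)
    have hl0 : (0 : ℝ) < l := lt_trans one_pos hl
    have h3 : 0 ≤ l ^ (-b) := Real.rpow_nonneg hl0.le _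
    rw [Real.norm_of_nonneg (by positivity), Real.rpow_sub hl0, Real.rpow_one]
    exact div_le_div_of_nonneg_left h3 hl0 (by linarith)

theorem kb_pos {b : ℝ} (h0 : 0 < b) (h1 : b < 1) : 0 < kb b := by
  have hp : ∀ l ∈ Ioi (0 : ℝ), 0 < l ^ (-b) / (1 + l) := by
    intro l hl
    have hl0 : (0 : ℝ) < l := hl
    have h3 : 0 < l ^ (-b) := Real.rpow_pos_of_pos hl0 _
    positivity
  unfold kb
  rw [setIntegral_pos_iff_support_of_nonneg_ae
    ((ae_restrict_iff' measurableSet_Ioi).2 (ae_of_all _ fun l hl => (hp l hl).le))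
    (kb_integrable h0 h1)]
  have : Function.support (fun l : ℝ => l ^ (-b) / (1 + l)) ∩ Ioi 0 = Ioi 0 := by
    refine inter_eq_right.2 fun l hl => ?_
    exact (hp l hl).ne'
  rw [this, Real.volume_Ioi]
  exact ENNReal.zero_lt_top

theorem A4_bound (b : ℝ) (f : L2) {l : ℝ} (hl : 0 < l) :
    ‖l ^ (-b) • res Bl l f‖ ≤ l ^ (-b) / (1 + l) * ‖f‖ := by
  have h3 : 0 ≤ l ^ (-b) := Real.rpow_nonneg hl.le _
  rw [norm_smul, Real.norm_of_nonneg h3]
  have := mul_le_mul_of_nonneg_left (norm_res_le hl.le f) h3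
  refine this.trans (le_of_eq ?_)
  rw [add_comm 1 l]
  ring

theorem negPow_integrable {b : ℝ} (h0 : 0 < b) (h1 : b < 1) (f : L2) :
    IntegrableOn (fun l : ℝ => l ^ (-b) • res Bl l f) (Ioi 0) := by
  have hc : ContinuousOn (fun l : ℝ => l ^ (-b) • res Bl l f) (Ioi 0) := by
    have h2 : ContinuousOn (fun l : ℝ => res Bl l f) (Ioi 0) := by
      have h3 : ContinuousOn (fun l : ℝ => resL l f) (Ioi 0) :=
        (resL_cont.mono (Ioi_subset_Ici le_rfl)).clm_apply continuousOn_const
      exact h3.congr fun l hl => (resL_apply (le_of_lt hl) f).symm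
    exact (A4_rpow_cont b).smul h2
  refine Integrable.mono' ((kb_integrable h0 h1).mul_const ‖f‖)
    (hc.aestronglyMeasurable measurableSet_Ioi) ?_
  exact (ae_restrict_iff' measurableSet_Ioi).2 (ae_of_all _ fun l hl => A4_bound b f hl)

theorem negPow_def (b : ℝ) (f : L2) :
    negPow Bl b f = (kb b)⁻¹ • ∫ l in Ioi (0 : ℝ), (l ^ (-b)) • res Bl l f := rfl

/-- Pairing form: `⟨A^(-b) f, g⟩ = kb⁻¹ ∫ l^(-b) ⟨R(l) f, g⟩ dl`. -/
theorem negPow_inner {b : ℝ} (h0 : 0 < b) (h1 : b < 1) (f g : L2) :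
    inner ℝ (negPow Bl b f) g =
      (kb b)⁻¹ * ∫ l in Ioi (0 : ℝ), l ^ (-b) * inner ℝ (res Bl l f) g := by
  rw [negPow_def, real_inner_smul_left, real_inner_comm,
    ← integral_inner (negPow_integrable h0 h1 f) g]
  congr 1
  refine integral_congr_ae (ae_of_all _ fun l => ?_)
  simp only
  rw [real_inner_smul_right, real_inner_comm]

theorem negPow_lin {b : ℝ} (h0 : 0 < b) (h1 : b < 1) (f g : L2) (a : ℝ) :
    negPow Bl b (f + a • g) = negPow Bl b f + a • negPow Bl b g := by
  have i2 : Integrable (fun l : ℝ => a • (l ^ (-b)) • res Bl l g) (volume.restrict (Ioi 0)) :=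
    (negPow_integrable h0 h1 g).smul a
  have e : ∫ l in Ioi (0 : ℝ), (l ^ (-b)) • res Bl l (f + a • g) =
      (∫ l in Ioi (0 : ℝ), (l ^ (-b)) • res Bl l f) +
        a • ∫ l in Ioi (0 : ℝ), (l ^ (-b)) • res Bl l g := by
    rw [← integral_smul, ← integral_add (negPow_integrable h0 h1 f) i2]
    refine setIntegral_congr_fun measurableSet_Ioi fun l hl => ?_
    rw [res_lin (le_of_lt hl), smul_add, smul_comm]
  rw [negPow_def, negPow_def, negPow_def, e, smul_add, smul_comm]

theorem norm_negPow_le {b : ℝ} (h0 : 0 < b) (h1 : b < 1) (f : L2) :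
    ‖negPow Bl b f‖ ≤ ‖f‖ := by
  have hk := kb_pos h0 h1
  rw [negPow_def, norm_smul, Real.norm_of_nonneg (inv_nonneg.2 hk.le)]
  have e : ‖∫ l in Ioi (0 : ℝ), (l ^ (-b)) • res Bl l f‖ ≤
      ∫ l in Ioi (0 : ℝ), l ^ (-b) / (1 + l) * ‖f‖ :=
    norm_integral_le_of_norm_le ((kb_integrable h0 h1).mul_const ‖f‖)
      ((ae_restrict_iff' measurableSet_Ioi).2 (ae_of_all _ fun l hl => A4_bound b f hl))
  rw [integral_mul_const] at e
  have e2 := mul_le_mul_of_nonneg_left e (inv_nonneg.2 hk.le)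
  refine e2.trans (le_of_eq ?_)
  change (kb b)⁻¹ * (kb b * ‖f‖) = ‖f‖
  rw [← mul_assoc, inv_mul_cancel₀ hk.ne', one_mul]

theorem negPow_symm {b : ℝ} (h0 : 0 < b) (h1 : b < 1) (f g : L2) :
    inner ℝ (negPow Bl b f) g = inner ℝ f (negPow Bl b g) := by
  rw [negPow_inner h0 h1, real_inner_comm (negPow Bl b g) f, negPow_inner h0 h1]
  congr 1
  refine setIntegral_congr_fun measurableSet_Ioi fun l hl => ?_
  rw [res_symm (le_of_lt hl), real_inner_comm]

theorem negPow_res {b l : ℝ} (h0 : 0 < b) (h1 : b < 1) (hl : 0 ≤ l) (f : L2) :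
    negPow Bl b (res Bl l f) = res Bl l (negPow Bl b f) := by
  rw [negPow_def, negPow_def, ← resL_apply hl (_ • _), map_smul,
    ← ContinuousLinearMap.integral_comp_comm _ (negPow_integrable h0 h1 f)]
  congr 1
  refine setIntegral_congr_fun measurableSet_Ioi fun k hk => ?_
  rw [map_smul, resL_apply hl, res_comm (le_of_lt hk) hl]

/-- The closed subspace `L²_σ`. -/
noncomputable def A4_HsS : Submodule ℝ L2 where
  carrier := Hs Bl
  add_mem' := fun {f g} hf hg => by simpa using Hs_lin hf hg 1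
  zero_mem' := Hs_zero
  smul_mem' := fun a f hf => by simpa using Hs_lin Hs_zero hf a

theorem negPow_mem {b : ℝ} (h0 : 0 < b) (h1 : b < 1) (f : L2) : negPow Bl b f ∈ Hs Bl := by
  have hcl : IsClosed (A4_HsS : Set L2) := Hs_closed
  have : CompleteSpace A4_HsS := hcl.completeSpace_coe
  have e : ∫ l in Ioi (0 : ℝ), (l ^ (-b)) • res Bl l f ∈ A4_HsS := by
    rw [← Submodule.starProjection_eq_self_iff,
      ← ContinuousLinearMap.integral_comp_comm _ (negPow_integrable h0 h1 f)]
    refine setIntegral_congr_fun measurableSet_Ioi fun l hl => ?_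
    rw [Submodule.starProjection_eq_self_iff]
    exact A4_HsS.smul_mem _ (res_mem (le_of_lt hl) f)
  rw [negPow_def]
  exact A4_HsS.smul_mem _ e

/-- `A^(-b)` as a bounded operator. -/
noncomputable def A4_op {b : ℝ} (h0 : 0 < b) (h1 : b < 1) : L2 →L[ℝ] L2 :=
  LinearMap.mkContinuous
    { toFun := negPow Bl b
      map_add' := fun f g => by simpa using negPow_lin h0 h1 f g 1
      map_smul' := fun a f => by
        have h2 : negPow Bl b 0 = 0 := by
          have := norm_negPow_le h0 h1 0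
          rw [norm_zero] at this
          exact norm_le_zero_iff.1 this
        have := negPow_lin h0 h1 0 f a
        simpa [h2] using this } 1
    (fun f => by
      rw [one_mul]
      exact norm_negPow_le h0 h1 f)

theorem negPow_comm {b b' : ℝ} (h0 : 0 < b) (h1 : b < 1) (h0' : 0 < b') (h1' : b' < 1) (f : L2) :
    negPow Bl b (negPow Bl b' f) = negPow Bl b' (negPow Bl b f) := by
  have e1 : ∀ g, A4_op h0 h1 g = negPow Bl b g := fun g => rfl
  rw [negPow_def b', negPow_def b', ← e1 (_ • _), map_smul,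
    ← ContinuousLinearMap.integral_comp_comm _ (negPow_integrable h0' h1' f)]
  congr 1
  refine setIntegral_congr_fun measurableSet_Ioi fun k hk => ?_
  rw [map_smul, e1, negPow_res h0 h1 (le_of_lt hk)]

theorem negPow_congr {b : ℝ} (h0 : 0 < b) (h1 : b < 1) {f g : L2}
    (h : ∀ χ ∈ TF Bl, pair f χ = pair g χ) : negPow Bl b f = negPow Bl b g := by
  rw [negPow_def, negPow_def]
  congr 1
  refine setIntegral_congr_fun measurableSet_Ioi fun l hl => ?_
  simp only [res_congr (le_of_lt hl) h]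

end Pool.Agent.W_332fe5
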