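import Pool.Agent.W_332fe5.O.A1

set_option autoImplicit false

/-! Block 1, A6: orthogonal symmetries. -/

open MeasureTheory Set Filter Topology
open scoped ENNReal NNReal

namespace Pool.Agent.W_332fe5

/-- The action of a linear isometry on vector fields. -/
noncomputable def actF (Q : E3 ≃ₗᵢ[ℝ] E3) (f : E3 → E3) (x : E3) : E3 := Q (f (Q.symm x))

theorem A6_mp (Q : E3 ≃ₗᵢ[ℝ] E3) : MeasurePreserving Q (volume : Measure E3) volume :=
  Q.measurePreserving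

theorem actF_ae (Q : E3 ≃ₗᵢ[ℝ] E3) {f g : E3 → E3} (h : f =ᵐ[volume] g) :
    actF Q f =ᵐ[volume] actF Q g := by
  have h1 := (A6_mp Q.symm).quasiMeasurePreserving.ae_eq_comp h
  filter_upwards [h1] with x hx
  simp only [Function.comp_apply] at hx
  simp only [actF, hx]

theorem A6_aesm (Q : E3 ≃ₗᵢ[ℝ] E3) {f : E3 → E3} (h : AEStronglyMeasurable f volume) :
    AEStronglyMeasurable (actF Q f) volume :=
  Q.continuous.comp_aestronglyMeasurable (h.comp_measurePreserving (A6_mp Q.symm))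

theorem eLpNorm_actF (Q : E3 ≃ₗᵢ[ℝ] E3) {f : E3 → E3} (hf : AEStronglyMeasurable f volume)
    (p : ℝ≥0∞) : eLpNorm (actF Q f) p volume = eLpNorm f p volume := by
  rw [← eLpNorm_comp_measurePreserving hf (A6_mp Q.symm)]
  refine eLpNorm_congr_norm_ae (ae_of_all _ fun x => ?_)
  simp only [actF, Function.comp_apply, LinearIsometryEquiv.norm_map]

theorem actF_memLp (Q : E3 ≃ₗᵢ[ℝ] E3) {f : E3 → E3} {p : ℝ≥0∞} (h : MemLp f p volume) :
    MemLp (actF Q f) p volume := by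
  refine ⟨A6_aesm Q h.1, ?_⟩
  rw [eLpNorm_actF Q h.1]
  exact h.2

theorem actF_symm (Q : E3 ≃ₗᵢ[ℝ] E3) (f : E3 → E3) : actF Q (actF Q.symm f) = f := by
  funext x
  simp [actF]

theorem actF_symm' (Q : E3 ≃ₗᵢ[ℝ] E3) (f : E3 → E3) : actF Q.symm (actF Q f) = f := by
  funext x
  simp [actF]

theorem pair_actF (Q : E3 ≃ₗᵢ[ℝ] E3) (f g : E3 → E3) : pair (actF Q f) (actF Q g) = pair f g := by
  unfold pair
  rw [← (A6_mp Q.symm).integral_comp Q.symm.toHomeomorph.measurableEmbedding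
    (fun x => inner ℝ (f x) (g x))]
  simp only [actF, LinearIsometryEquiv.inner_map_map]

theorem A6_coe (Q : E3 ≃ₗᵢ[ℝ] E3) (f : L2) : toL2 (actF Q f) =ᵐ[volume] actF Q f :=
  toL2_coe (actF_memLp Q (Lp.memLp f))

theorem actL_add (Q : E3 ≃ₗᵢ[ℝ] E3) (f g : L2) :
    toL2 (actF Q (f + g : L2)) = toL2 (actF Q f) + toL2 (actF Q g) := by
  refine Lp.ext ?_
  filter_upwards [A6_coe Q (f + g), A6_coe Q f, A6_coe Q g,
    Lp.coeFn_add (toL2 (actF Q f)) (toL2 (actF Q g)), actF_ae Q (Lp.coeFn_add f g)]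
    with x h1 h2 h3 h4 h5
  rw [h1, h5, h4, Pi.add_apply, h2, h3]
  simp [actF]

theorem actL_smul (Q : E3 ≃ₗᵢ[ℝ] E3) (a : ℝ) (f : L2) :
    toL2 (actF Q (a • f : L2)) = a • toL2 (actF Q f) := by
  refine Lp.ext ?_
  filter_upwards [A6_coe Q (a • f), A6_coe Q f,
    Lp.coeFn_smul a (toL2 (actF Q f)), actF_ae Q (Lp.coeFn_smul a f)]
    with x h1 h2 h4 h5
  rw [h1, h5, h4, Pi.smul_apply, h2]
  simp [actF]

theorem actL_norm (Q : E3 ≃ₗᵢ[ℝ] E3) (f : L2) : ‖toL2 (actF Q f)‖ = ‖f‖ := by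
  rw [Lp.norm_def, Lp.norm_def, eLpNorm_congr_ae (A6_coe Q f),
    eLpNorm_actF Q (Lp.aestronglyMeasurable f)]

/-- The action on `L²`. -/
noncomputable def actL (Q : E3 ≃ₗᵢ[ℝ] E3) : L2 →ₗᵢ[ℝ] L2 where
  toFun := fun f => toL2 (actF Q f)
  map_add' := actL_add Q
  map_smul' := actL_smul Q
  norm_map' := actL_norm Q

theorem actL_def (Q : E3 ≃ₗᵢ[ℝ] E3) (f : L2) : actL Q f = toL2 (actF Q f) := rfl

theorem actL_ae (Q : E3 ≃ₗᵢ[ℝ] E3) (f : L2) : actL Q f =ᵐ[volume] actF Q f := A6_coe Q f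

theorem actL_toL2 (Q : E3 ≃ₗᵢ[ℝ] E3) {f : E3 → E3} (hf : MemLp f 2 (volume : Measure E3)) :
    actL Q (toL2 f) = toL2 (actF Q f) := by
  refine Lp.ext ?_
  filter_upwards [actL_ae Q (toL2 f), actF_ae Q (toL2_coe hf), toL2_coe (actF_memLp Q hf)]
    with x h1 h2 h3
  rw [h1, h2, h3]

theorem actL_symm (Q : E3 ≃ₗᵢ[ℝ] E3) (f : L2) : actL Q (actL Q.symm f) = f := by
  rw [actL_def Q.symm, actL_toL2 Q (actF_memLp Q.symm (Lp.memLp f)), actF_symm, toL2_self]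

theorem inner_actL (Q : E3 ≃ₗᵢ[ℝ] E3) (f g : L2) : inner ℝ (actL Q f) (actL Q g) = inner ℝ f g :=
  (actL Q).inner_map_map f g

theorem eLpNorm_actL (Q : E3 ≃ₗᵢ[ℝ] E3) (f : L2) (p : ℝ≥0∞) :
    eLpNorm (actL Q f) p volume = eLpNorm f p volume := by
  rw [eLpNorm_congr_ae (actL_ae Q f), eLpNorm_actF Q (Lp.aestronglyMeasurable f)]

/-- `⟨Q.f, φ⟩ = ⟨f, Q⁻¹.φ⟩`. -/
theorem pair_actL (Q : E3 ≃ₗᵢ[ℝ] E3) (f : L2) (φ : E3 → E3) :
    pair (actL Q f) φ = pair f (actF Q.symm φ) := by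
  have h1 : pair (actL Q f) φ = pair (actF Q f) φ := by
    refine integral_congr_ae ?_
    filter_upwards [actL_ae Q f] with x hx
    rw [hx]
  rw [h1, ← pair_actF Q f (actF Q.symm φ), actF_symm]

theorem CV_actF (Q : E3 ≃ₗᵢ[ℝ] E3) {φ : E3 → E3} (h : φ ∈ CV) : actF Q φ ∈ CV := by
  have hs : tsupport (actF Q φ) ⊆ Q.symm ⁻¹' tsupport φ := by
    refine closure_minimal ?_ ((isClosed_tsupport φ).preimage Q.symm.continuous)
    intro x hx
    refine subset_tsupport _ ?_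
    intro h0
    exact hx (by simp [actF, h0])
  refine ⟨Q.contDiff.comp (h.1.comp Q.symm.contDiff), ?_, ?_⟩
  · exact (Q.symm.toHomeomorph.isCompact_preimage.2 h.2.1).of_isClosed_subset
      (isClosed_tsupport _) hs
  · intro x hx
    have h1 := h.2.2 (hs hx)
    simpa [Bl] using h1

end Pool.Agent.W_332fe5
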