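import Pool.Agent.W_332fe5.O.A6
import Pool.Agent.W_332fe5.O.A4

set_option autoImplicit false

/-! Block 1, A6b: orthogonal symmetries, derivatives and the Stokes operator. -/

open MeasureTheory Set Filter Topology
open scoped ENNReal NNReal

namespace Pool.Agent.W_332fe5

theorem A6b_coord (w : E3) (j : Fin 3) : inner ℝ w (EuclideanSpace.single j (1 : ℝ)) = w j := by
  rw [EuclideanSpace.inner_single_right]
  simp

/-- The matrix of `Q` is the transposed matrix of `Q⁻¹`. -/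
theorem A6b_transp (Q : E3 ≃ₗᵢ[ℝ] E3) (j k : Fin 3) :
    (Q.symm (EuclideanSpace.single j 1)) k = (Q (EuclideanSpace.single k 1)) j := by
  rw [← A6b_coord, ← A6b_coord (Q _), ← Q.inner_map_map, LinearIsometryEquiv.apply_symm_apply,
    real_inner_comm]

theorem A6b_orth (Q : E3 ≃ₗᵢ[ℝ] E3) (k l : Fin 3) :
    ∑ j, (Q.symm (EuclideanSpace.single j 1)) k * (Q.symm (EuclideanSpace.single j 1)) l =
      if k = l then 1 else 0 := by
  simp only [A6b_transp]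
  have h : inner ℝ (Q (EuclideanSpace.single l (1 : ℝ))) (Q (EuclideanSpace.single k (1 : ℝ))) =
      ∑ j, (Q (EuclideanSpace.single k (1 : ℝ))) j * (Q (EuclideanSpace.single l (1 : ℝ))) j := by
    rw [PiLp.inner_apply]
    simp
  rw [← h, Q.inner_map_map, A6b_coord, PiLp.single_apply]

theorem A6b_fderiv_actF (Q : E3 ≃ₗᵢ[ℝ] E3) {φ : E3 → E3} (h : ContDiff ℝ 1 φ) (x v : E3) :
    fderiv ℝ (actF Q φ) x v = Q (fderiv ℝ φ (Q.symm x) (Q.symm v)) := by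
  have h1 : HasFDerivAt φ (fderiv ℝ φ (Q.symm x)) (Q.symm x) :=
    (h.differentiable (by norm_num) _).hasFDerivAt
  have h2 := (Q.toContinuousLinearEquiv.toContinuousLinearMap.hasFDerivAt).comp x
    (h1.comp x Q.symm.toContinuousLinearEquiv.toContinuousLinearMap.hasFDerivAt)
  have h3 : fderiv ℝ (actF Q φ) x = _ := h2.fderiv
  rw [h3]
  rfl

/-- `∂_j (Q.φ) = ∑_k (Q⁻¹ e_j)_k Q.(∂_k φ)`. -/
theorem pd_actF (Q : E3 ≃ₗᵢ[ℝ] E3) {φ : E3 → E3} (h : ContDiff ℝ 1 φ) (j : Fin 3) :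
    pd j (actF Q φ) = fun x => ∑ k, (Q.symm (EuclideanSpace.single j 1)) k • actF Q (pd k φ) x := by
  funext x
  rw [pd, A6b_fderiv_actF Q h]
  conv_lhs => rw [A1b_sum_single (Q.symm (EuclideanSpace.single j (1 : ℝ)))]
  simp only [map_sum, map_smul]
  rfl

theorem A6b_apply (Q : E3 ≃ₗᵢ[ℝ] E3) (w : E3) (j : Fin 3) :
    (Q w) j = ∑ l, w l * (Q.symm (EuclideanSpace.single j 1)) l := by
  conv_lhs => rw [A1b_sum_single w]
  simp only [map_sum, map_smul, A6b_transp]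
  simp

/-- `div (Q.φ) (x) = div φ (Q⁻¹ x)`. -/
theorem divg_actF (Q : E3 ≃ₗᵢ[ℝ] E3) {φ : E3 → E3} (h : ContDiff ℝ 1 φ) (x : E3) :
    divg (actF Q φ) x = divg φ (Q.symm x) := by
  have e : ∀ j, pd j (actF Q φ) x j = ∑ k, ∑ l, pd k φ (Q.symm x) l *
      ((Q.symm (EuclideanSpace.single j 1)) k * (Q.symm (EuclideanSpace.single j 1)) l) := by
    intro j
    rw [pd_actF Q h]
    simp only [WithLp.ofLp_sum, WithLp.ofLp_smul, Finset.sum_apply, Pi.smul_apply, smul_eq_mul,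
      actF]
    refine Finset.sum_congr rfl fun k _ => ?_
    rw [A6b_apply Q (pd k φ (Q.symm x)) j, Finset.mul_sum]
    refine Finset.sum_congr rfl fun l _ => ?_
    ring
  rw [divg, divg]
  simp only [e]
  rw [Finset.sum_comm]
  refine Finset.sum_congr rfl fun k _ => ?_
  rw [Finset.sum_comm]
  simp only [← Finset.mul_sum, A6b_orth]
  simp

theorem A6b_pd_sum (c : Fin 3 → ℝ) {f : Fin 3 → E3 → E3} (hf : ∀ k, ContDiff ℝ 1 (f k))
    (j : Fin 3) : pd j (fun x => ∑ k, c k • f k x) = fun x => ∑ k, c k • pd j (f k) x := by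
  funext x
  have h1 : ∀ k ∈ (Finset.univ : Finset (Fin 3)), HasFDerivAt (fun x => c k • f k x)
      (c k • fderiv ℝ (f k) x) x := fun k _ =>
    (((hf k).differentiable (by norm_num)) x).hasFDerivAt.const_smul (c k)
  have h2 : HasFDerivAt (fun x => ∑ k, c k • f k x) (∑ k, c k • fderiv ℝ (f k) x) x :=
    HasFDerivAt.fun_sum h1
  simp only [pd]
  rw [h2.fderiv]
  simp [sum_apply]

theorem lapl_actF (Q : E3 ≃ₗᵢ[ℝ] E3) {φ : E3 → E3} (h : ContDiff ℝ 2 φ) :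
    lapl (actF Q φ) = actF Q (lapl φ) := by
  have h1 : ContDiff ℝ 1 φ := h.of_le (by norm_num)
  have hp : ∀ k, ContDiff ℝ 1 (pd k φ) := fun k =>
    (h.fderiv_right (m := 1) (by norm_num)).clm_apply contDiff_const
  have hq : ∀ k, ContDiff ℝ 1 (actF Q (pd k φ)) := fun k =>
    Q.contDiff.comp ((hp k).comp Q.symm.contDiff)
  funext x
  have e : ∀ j, pd j (pd j (actF Q φ)) x = ∑ k, ∑ l,
      ((Q.symm (EuclideanSpace.single j 1)) k * (Q.symm (EuclideanSpace.single j 1)) l) •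
        actF Q (pd l (pd k φ)) x := by
    intro j
    rw [pd_actF Q h1, A6b_pd_sum _ hq]
    refine Finset.sum_congr rfl fun k _ => ?_
    rw [pd_actF Q (hp k), Finset.smul_sum]
    refine Finset.sum_congr rfl fun l _ => ?_
    rw [smul_smul]
  rw [lapl]
  simp only [e]
  rw [Finset.sum_comm]
  have e2 : ∀ k, ∑ j, ∑ l, ((Q.symm (EuclideanSpace.single j 1)) k *
      (Q.symm (EuclideanSpace.single j 1)) l) • actF Q (pd l (pd k φ)) x =
      actF Q (pd k (pd k φ)) x := by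
    intro k
    rw [Finset.sum_comm]
    simp only [← Finset.sum_smul, A6b_orth]
    simp
  simp only [e2]
  simp only [actF, lapl, map_sum]

theorem A6b_cd {φ : E3 → E3} (h : φ ∈ CV) : ContDiff ℝ 1 φ :=
  h.1.of_le (by exact_mod_cast le_top)

theorem TF_actF (Q : E3 ≃ₗᵢ[ℝ] E3) {φ : E3 → E3} (h : φ ∈ TF Bl) : actF Q φ ∈ TF Bl := by
  obtain ⟨a, b, c⟩ := CV_actF Q (TF_sub_CV h)
  refine ⟨a, b, c, fun x => ?_⟩
  rw [divg_actF Q (A6b_cd (TF_sub_CV h))]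
  exact h.2.2.2 _

theorem Hs_actL (Q : E3 ≃ₗᵢ[ℝ] E3) {f : L2} (h : f ∈ Hs Bl) : actL Q f ∈ Hs Bl := by
  obtain ⟨φ, h1, h2⟩ := h
  rw [A1b_tendsto_iff fun n => TF_sub_CV (h1 n)] at h2
  refine ⟨fun n => actF Q (φ n), fun n => TF_actF Q (h1 n), ?_⟩
  rw [A1b_tendsto_iff fun n => TF_sub_CV (TF_actF Q (h1 n))]
  refine (((actL Q).continuous.tendsto _).comp h2).congr fun n => ?_
  exact actL_toL2 Q (CV_memLp (TF_sub_CV (h1 n)) 2)

theorem A6b_toL2_sum (c : Fin 3 → ℝ) {f : Fin 3 → E3 → E3}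
    (hf : ∀ k, MemLp (f k) 2 (volume : Measure E3)) :
    toL2 (fun x => ∑ k, c k • f k x) = ∑ k, c k • toL2 (f k) := by
  have m : ∀ k, MemLp (fun x => c k • f k x) 2 (volume : Measure E3) := fun k =>
    (hf k).const_smul (c k)
  have hm : MemLp (fun x => ∑ k, c k • f k x) 2 (volume : Measure E3) :=
    memLp_finsetSum _ fun k _ => m k
  rw [Fin.sum_univ_three]
  refine Lp.ext ?_
  filter_upwards [toL2_coe hm, toL2_coe (hf 0), toL2_coe (hf 1), toL2_coe (hf 2),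
    Lp.coeFn_add (c 0 • toL2 (f 0) + c 1 • toL2 (f 1)) (c 2 • toL2 (f 2)),
    Lp.coeFn_add (c 0 • toL2 (f 0)) (c 1 • toL2 (f 1)),
    Lp.coeFn_smul (c 0) (toL2 (f 0)), Lp.coeFn_smul (c 1) (toL2 (f 1)),
    Lp.coeFn_smul (c 2) (toL2 (f 2))] with x h1 h2 h3 h4 h5 h6 h7 h8 h9
  rw [h1, h5, Pi.add_apply, h6, Pi.add_apply, h7, h8, h9]
  simp only [Pi.smul_apply, h2, h3, h4]
  rw [Fin.sum_univ_three]

theorem InV_actL (Q : E3 ≃ₗᵢ[ℝ] E3) {v : L2} {G : Fin 3 → L2} (h : InV Bl v G) :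
    InV Bl (actL Q v) (fun j => ∑ k, (Q.symm (EuclideanSpace.single j 1)) k • actL Q (G k)) := by
  obtain ⟨φ, h1, h2, h3⟩ := A1b_InV_iff.1 h
  have hC := fun n => TF_sub_CV (h1 n)
  refine A1b_InV_iff.2 ⟨fun n => actF Q (φ n), fun n => TF_actF Q (h1 n), ?_, fun j => ?_⟩
  · refine (((actL Q).continuous.tendsto _).comp h2).congr fun n => ?_
    exact actL_toL2 Q (CV_memLp (hC n) 2)
  · have t : Tendsto (fun n => ∑ k, (Q.symm (EuclideanSpace.single j 1)) k •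
        actL Q (toL2 (pd k (φ n)))) atTop
        (𝓝 (∑ k, (Q.symm (EuclideanSpace.single j 1)) k • actL Q (G k))) := by
      refine tendsto_finsetSum _ fun k _ => Tendsto.const_smul ?_ _
      exact ((actL Q).continuous.tendsto _).comp (h3 k)
    refine t.congr fun n => ?_
    rw [pd_actF Q (A6b_cd (hC n)), A6b_toL2_sum _ fun k =>
      actF_memLp Q (CV_memLp (CV_pd (hC n) k) 2)]
    refine Finset.sum_congr rfl fun k _ => ?_
    rw [actL_toL2 Q (CV_memLp (CV_pd (hC n) k) 2)]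

theorem A6b_lapl {v : L2} {G : Fin 3 → L2} (h : InV Bl v G) {χ : E3 → E3} (hχ : χ ∈ CV) :
    ∑ j, pair (G j) (pd j χ) = -pair v (lapl χ) := by
  have e1 : ∀ j, pair (G j) (pd j χ) = -inner ℝ v (toL2 (pd j (pd j χ))) := by
    intro j
    have hp := CV_pd hχ j
    rw [InV_pair h (A6b_cd hp) hp.2.1, pair_toL2 _ (CV_memLp (CV_pd hp j) 2)]
  have e2 : toL2 (lapl χ) = ∑ j, toL2 (pd j (pd j χ)) := by
    have := A6b_toL2_sum (fun _ => 1) (f := fun j => pd j (pd j χ))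
      (fun j => CV_memLp (CV_pd (CV_pd hχ j) j) 2)
    simp only [one_smul] at this
    exact this
  simp only [e1]
  rw [Finset.sum_neg_distrib, ← inner_sum, ← e2, ← pair_toL2 _ (CV_memLp (CV_lapl hχ) 2)]

/-- The resolvent commutes with the symmetries.  Proof: `IsRes Bl l (Q.f) (Q.v)`, with `InV_actL`;
test with `χ = Q.χ'`, `χ' = Q⁻¹.χ`; `∑_j ⟨G^Q j, ∂_j (Q.χ')⟩ = ∑_j ⟨G j, ∂_j χ'⟩` because the matrix
`((Q⁻¹ e_j)_k)` is orthogonal.  (Alternative: `∑_j ⟨G j, ∂_j χ⟩ = -⟨v, Δχ⟩` by `InV_pair`.) -/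
theorem res_actL (Q : E3 ≃ₗᵢ[ℝ] E3) {l : ℝ} (hl : 0 ≤ l) (f : L2) :
    res Bl l (actL Q f) = actL Q (res Bl l f) := by
  refine res_eq hl ?_
  obtain ⟨G, h1, h2⟩ := res_spec hl f
  refine ⟨_, InV_actL Q h1, fun χ hχ => ?_⟩
  have h3 := h2 _ (TF_actF Q.symm hχ)
  rw [A6b_lapl h1 (CV_actF Q.symm (TF_sub_CV hχ)),
    lapl_actF Q.symm ((TF_sub_CV hχ).1.of_le (by norm_cast))] at h3
  rw [A6b_lapl (InV_actL Q h1) (TF_sub_CV hχ), pair_actL, pair_actL, pair_actL, h3]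

theorem negPow_actL (Q : E3 ≃ₗᵢ[ℝ] E3) {b : ℝ} (h0 : 0 < b) (h1 : b < 1) (f : L2) :
    negPow Bl b (actL Q f) = actL Q (negPow Bl b f) := by
  have e : ∀ g, actL Q g = (actL Q).toContinuousLinearMap g := fun g => rfl
  rw [negPow_def, negPow_def, e (_ • _), map_smul,
    ← ContinuousLinearMap.integral_comp_comm _ (negPow_integrable h0 h1 f)]
  congr 1
  refine setIntegral_congr_fun measurableSet_Ioi fun l hl => ?_
  rw [map_smul, ← e, res_actL Q (le_of_lt hl)]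

theorem LqS_actL (Q : E3 ≃ₗᵢ[ℝ] E3) {q : ℝ} {f : L2} (h : f ∈ LqS Bl q) :
    actL Q f ∈ LqS Bl q := by
  refine ⟨Hs_actL Q h.1, ?_⟩
  rw [eLpNorm_actL]
  exact h.2

theorem A6b_Kfun_le (Q : E3 ≃ₗᵢ[ℝ] E3) (q s : ℝ) (v : L2) :
    Kfun Bl q s (actL Q v) ≤ Kfun Bl q s v := by
  unfold Kfun
  refine le_iInf₂ fun z hz => ?_
  refine (iInf₂_le (actL Q z) (LqS_actL Q hz)).trans (le_of_eq ?_)
  rw [res_actL Q le_rfl, ← map_sub, eLpNorm_actL, eLpNorm_actL]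

theorem Kfun_actL (Q : E3 ≃ₗᵢ[ℝ] E3) (q s : ℝ) (v : L2) :
    Kfun Bl q s (actL Q v) = Kfun Bl q s v := by
  refine le_antisymm (A6b_Kfun_le Q q s v) ?_
  have h := A6b_Kfun_le Q.symm q s (actL Q v)
  have e : actL Q.symm (actL Q v) = v := by
    have := actL_symm Q.symm v
    rwa [LinearIsometryEquiv.symm_symm] at this
  rwa [e] at h

theorem trPow_actL (Q : E3 ≃ₗᵢ[ℝ] E3) (p κ q : ℝ) (v : L2) :
    trPow Bl p κ q (actL Q v) = trPow Bl p κ q v := by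
  unfold trPow
  simp only [Kfun_actL]

end Pool.Agent.W_332fe5
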