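import Pool.Agent.W_332fe5.O.A6

set_option autoImplicit false

/-! Block 1, A7: rotations about the third axis and the reflection; swirl fields. -/

open MeasureTheory Set Filter Topology
open scoped ENNReal NNReal

namespace Pool.Agent.W_332fe5

theorem rot_rot (a b : ℝ) (x : E3) : rot a (rot b x) = rot (a + b) x := by
  ext i
  fin_cases i
  · simp [rot, Real.cos_add, Real.sin_add]
    ring
  · simp [rot, Real.cos_add, Real.sin_add]
    ring
  · simp [rot]

theorem rot_zero (x : E3) : rot 0 x = x := by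
  ext i
  fin_cases i <;> simp [rot]

theorem norm_rot (a : ℝ) (x : E3) : ‖rot a x‖ = ‖x‖ := by
  have h : ‖rot a x‖ ^ 2 = ‖x‖ ^ 2 := by
    rw [EuclideanSpace.norm_sq_eq, EuclideanSpace.norm_sq_eq, Fin.sum_univ_three,
      Fin.sum_univ_three]
    simp only [Real.norm_eq_abs, sq_abs]
    simp [rot]
    have := Real.sin_sq_add_cos_sq a
    linear_combination (x 0 ^ 2 + x 1 ^ 2) * this
  exact (pow_left_inj₀ (norm_nonneg _) (norm_nonneg _) two_ne_zero).1 h

/-- The rotation as a linear isometry. -/
noncomputable def rotE (a : ℝ) : E3 ≃ₗᵢ[ℝ] E3 where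
  toFun := rot a
  invFun := rot (-a)
  left_inv := fun x => by rw [rot_rot]; simp [rot_zero]
  right_inv := fun x => by rw [rot_rot]; simp [rot_zero]
  map_add' := fun x y => by
    ext i
    fin_cases i
    · simp [rot]; ring
    · simp [rot]; ring
    · simp [rot]
  map_smul' := fun c x => by
    ext i
    fin_cases i
    · simp [rot]; ring
    · simp [rot]; ring
    · simp [rot]
  norm_map' := norm_rot a

theorem rotE_apply (a : ℝ) (x : E3) : rotE a x = rot a x := rfl

theorem rotE_symm_apply (a : ℝ) (x : E3) : (rotE a).symm x = rot (-a) x := rfl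

theorem rotE_symm (a : ℝ) : (rotE a).symm = rotE (-a) := by
  ext x
  rfl

theorem rotF_eq (a : ℝ) (f : E3 → E3) : rotF a f = actF (rotE a) f := rfl

theorem sg_sg (x : E3) : sg (sg x) = x := by
  ext i
  fin_cases i <;> simp [sg]

/-- The reflection as a linear isometry. -/
noncomputable def sgE : E3 ≃ₗᵢ[ℝ] E3 where
  toFun := sg
  invFun := sg
  left_inv := sg_sg
  right_inv := sg_sg
  map_add' := fun x y => by
    ext i
    fin_cases i
    · simp [sg]
    · simp [sg]; ring
    · simp [sg]
  map_smul' := fun c x => by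
    ext i
    fin_cases i
    · simp [sg]
    · simp [sg]
    · simp [sg]
  norm_map' := fun x => by
    have h : ‖sg x‖ ^ 2 = ‖x‖ ^ 2 := by
      rw [EuclideanSpace.norm_sq_eq, EuclideanSpace.norm_sq_eq, Fin.sum_univ_three,
        Fin.sum_univ_three]
      simp [sg]
    exact (pow_left_inj₀ (norm_nonneg _) (norm_nonneg _) two_ne_zero).1 h

theorem sgE_apply (x : E3) : sgE x = sg x := rfl

theorem sgE_symm_apply (x : E3) : sgE.symm x = sg x := rfl

theorem sgF_eq (f : E3 → E3) : sgF f = actF sgE f := rfl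

/-- `m`, `ρ²`, `y`, `k` and the rotations. -/
theorem mm_rot (a : ℝ) (x : E3) : mm (rot a x) = rot a (mm x) := by
  ext i
  fin_cases i
  · simp [mm, rot]; ring
  · simp [mm, rot]; ring
  · simp [mm, rot]

theorem ax2_rot (a : ℝ) (x : E3) : ax2 (rot a x) = ax2 x := by
  have := Real.sin_sq_add_cos_sq a
  simp only [ax2, rot]
  simp
  linear_combination (x 0 ^ 2 + x 1 ^ 2) * this

theorem yy_rot (a : ℝ) (x : E3) : yy (rot a x) = yy x := by
  simp only [yy, norm_rot]

theorem kk_rot (a : ℝ) (x : E3) : kk (rot a x) = rot a (kk x) := by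
  simp only [kk, ax2_rot]
  ext i
  fin_cases i
  · simp [rot]; ring
  · simp [rot]; ring
  · simp [rot]

theorem inner_rot (a : ℝ) (x y : E3) : inner ℝ (rot a x) (rot a y) = inner ℝ x y :=
  (rotE a).inner_map_map x y

theorem norm_mm_sq (x : E3) : ‖mm x‖ ^ 2 = ax2 x := by
  rw [EuclideanSpace.norm_sq_eq, Fin.sum_univ_three]
  simp [mm, ax2]
  ring

theorem ax2_le (x : E3) : ax2 x ≤ ‖x‖ ^ 2 := by
  rw [EuclideanSpace.norm_sq_eq, Fin.sum_univ_three]
  simp only [ax2, Real.norm_eq_abs, sq_abs]
  nlinarith [sq_nonneg (x 2)]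

/-- The derivative of the rotation in the angle is `m`. -/
theorem hasDerivAt_rot (a : ℝ) (x : E3) : HasDerivAt (fun a => rot a x) (mm (rot a x)) a := by
  have h1 : (fun a => rot a x) = fun a : ℝ => Real.cos a • (!₂[x 0, x 1, 0] : E3) +
      Real.sin a • (!₂[-x 1, x 0, 0] : E3) + (!₂[0, 0, x 2] : E3) := by
    funext b
    ext i
    fin_cases i
    · simp [rot]
      ring
    · simp [rot]
      ring
    · simp [rot]
  have h2 : mm (rot a x) = (-Real.sin a) • (!₂[x 0, x 1, 0] : E3) +
      Real.cos a • (!₂[-x 1, x 0, 0] : E3) := by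
    ext i
    fin_cases i
    · simp [rot, mm]
      ring
    · simp [rot, mm]
      ring
    · simp [rot, mm]
  rw [h1, h2]
  exact (((Real.hasDerivAt_cos a).smul_const _).add
    ((Real.hasDerivAt_sin a).smul_const _)).add_const _

end Pool.Agent.W_332fe5
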