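import Pool.Agent.W_332fe5.O.A7
import Pool.Agent.W_332fe5.O.A6b

set_option autoImplicit false

/-! Block 1, A7b: rotation invariant fields and swirl fields in `L²`; the Stokes operator. -/

open MeasureTheory Set Filter Topology
open scoped ENNReal NNReal

namespace Pool.Agent.W_332fe5

theorem A7b_vec_cont {α : Type} [TopologicalSpace α] {f g k : α → ℝ} (hf : Continuous f)
    (hg : Continuous g) (hk : Continuous k) : Continuous fun p => (!₂[f p, g p, k p] : E3) := by
  refine (PiLp.continuous_toLp 2 _).comp (continuous_pi fun i => ?_)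
  fin_cases i
  · exact hf
  · exact hg
  · exact hk

theorem A7b_rot_cont2 {α : Type} [TopologicalSpace α] {f : α → ℝ} {g : α → E3}
    (hf : Continuous f) (hg : Continuous g) : Continuous fun x => rot (f x) (g x) := by
  have hx : ∀ i : Fin 3, Continuous fun p => g p i := fun i =>
    (EuclideanSpace.proj i : E3 →L[ℝ] ℝ).continuous.comp hg
  have hc := Real.continuous_cos.comp hf
  have hs := Real.continuous_sin.comp hf
  exact A7b_vec_cont ((hc.mul (hx 0)).sub (hs.mul (hx 1))) ((hs.mul (hx 0)).add (hc.mul (hx 1)))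
    (hx 2)

theorem A7b_actL_mul (a b : ℝ) (f : L2) :
    actL (rotE a) (actL (rotE b) f) = actL (rotE (a + b)) f := by
  rw [actL_def (rotE b), actL_toL2 _ (actF_memLp _ (Lp.memLp f)), actL_def]
  congr 1
  funext x
  simp only [actF, rotE_symm_apply, rotE_apply, rot_rot]
  congr 3
  ring

theorem A7b_cont_cc {g : E3 → E3} (hc : HasCompactSupport g) (hg : Continuous g)
    (hm : MemLp g 2 (volume : Measure E3)) :
    Tendsto (fun a : ℝ => actL (rotE a) (toL2 g)) (𝓝 0) (𝓝 (toL2 g)) := by
  obtain ⟨C, hC⟩ := hc.exists_bound_of_continuous hg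
  have e1 : ∀ a : ℝ, inner ℝ (actL (rotE a) (toL2 g)) (toL2 g) =
      ∫ x, inner ℝ (rot a (g (rot (-a) x))) (g x) := by
    intro a
    rw [actL_toL2 _ hm, ← pair_toL2 _ hm, A1b_pair_coe (actF_memLp _ hm)]
    rfl
  have e2 : ‖toL2 g‖ ^ 2 = ∫ x, inner ℝ (g x) (g x) := by
    rw [← real_inner_self_eq_norm_sq, ← pair_toL2 _ hm, A1b_pair_coe hm]
    rfl
  have t : Tendsto (fun a : ℝ => ∫ x, inner ℝ (rot a (g (rot (-a) x))) (g x)) (𝓝 0)
      (𝓝 (∫ x, inner ℝ (g x) (g x))) := by
    refine tendsto_integral_filter_of_dominated_convergence (fun x => C * ‖g x‖) ?_ ?_ ?_ ?_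
    · refine Eventually.of_forall fun a => ?_
      have h1 : Continuous fun x : E3 => rot a (g (rot (-a) x)) :=
        A7b_rot_cont2 continuous_const (hg.comp (A7b_rot_cont2 continuous_const continuous_id))
      exact (h1.inner hg).aestronglyMeasurable
    · refine Eventually.of_forall fun a => ae_of_all _ fun x => ?_
      refine (norm_inner_le_norm _ _).trans ?_
      rw [norm_rot]
      exact mul_le_mul_of_nonneg_right (hC _) (norm_nonneg _)
    · exact ((hg.integrable_of_hasCompactSupport hc).norm).const_mul C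
    · refine ae_of_all _ fun x => ?_
      have h1 : Continuous fun a : ℝ => rot a (g (rot (-a) x)) :=
        A7b_rot_cont2 continuous_id
          (hg.comp (A7b_rot_cont2 continuous_neg continuous_const))
      have h2 := h1.tendsto 0
      simp only [neg_zero, rot_zero] at h2
      exact h2.inner tendsto_const_nhds
  rw [tendsto_iff_norm_sub_tendsto_zero]
  have t2 : Tendsto (fun a : ℝ => ‖actL (rotE a) (toL2 g) - toL2 g‖ ^ 2) (𝓝 0) (𝓝 0) := by
    have t3 := (t.const_mul 2).const_sub (2 * ‖toL2 g‖ ^ 2)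
    rw [← e2, sub_self] at t3
    refine t3.congr fun a => ?_
    rw [norm_sub_sq_real, LinearIsometry.norm_map, e1]
    ring
  have t4 := (Real.continuous_sqrt.tendsto 0).comp t2
  rw [Real.sqrt_zero] at t4
  refine t4.congr fun a => ?_
  simp only [Function.comp_apply]
  exact Real.sqrt_sq (norm_nonneg _)

theorem A7b_cont_zero (f : L2) : Tendsto (fun a : ℝ => actL (rotE a) f) (𝓝 0) (𝓝 f) := by
  rw [Metric.tendsto_nhds]
  intro ε hε
  obtain ⟨g, hgc, hg1, hg2, hg3⟩ := (Lp.memLp f).exists_hasCompactSupport_eLpNorm_sub_le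
    (p := 2) (by norm_num) (ε := ENNReal.ofReal (ε / 4)) (by simpa using hε)
  have h1 : ‖f - toL2 g‖ ≤ ε / 4 := by
    have e := A1b_eLpNorm_sub f hg3
    have e2 : ENNReal.ofReal ‖f - toL2 g‖ ≤ ENNReal.ofReal (ε / 4) := by
      rw [← e]
      exact hg1
    exact (ENNReal.ofReal_le_ofReal_iff (by positivity)).1 e2
  have h2 := A7b_cont_cc hgc hg2 hg3
  rw [Metric.tendsto_nhds] at h2
  filter_upwards [h2 (ε / 4) (by positivity)] with a ha
  rw [dist_eq_norm] at ha ⊢
  have h3 : actL (rotE a) f - f = (actL (rotE a) (f - toL2 g)) +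
      (actL (rotE a) (toL2 g) - toL2 g) - (f - toL2 g) := by
    rw [map_sub]
    abel
  rw [h3]
  refine (norm_sub_le _ _).trans_lt ?_
  have h4 := norm_add_le (actL (rotE a) (f - toL2 g)) (actL (rotE a) (toL2 g) - toL2 g)
  rw [LinearIsometry.norm_map] at h4
  linarith

/-- Continuity of the rotation action. -/
theorem actL_rot_cont (f : L2) : Continuous fun a : ℝ => actL (rotE a) f := by
  rw [continuous_iff_continuousAt]
  intro a
  have h1 : Tendsto (fun b : ℝ => actL (rotE (b - a)) (actL (rotE a) f)) (𝓝 a)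
      (𝓝 (actL (rotE a) f)) := by
    refine (A7b_cont_zero (actL (rotE a) f)).comp ?_
    have : Tendsto (fun b : ℝ => b - a) (𝓝 a) (𝓝 (a - a)) :=
      (continuous_id.sub continuous_const).tendsto a
    simpa using this
  refine h1.congr fun b => ?_
  rw [A7b_actL_mul, sub_add_cancel]

theorem RotInv_iff (f : L2) : RotInv f ↔ ∀ a : ℝ, actL (rotE a) f = f := by
  refine forall_congr' fun a => ?_
  rw [rotF_eq]
  constructor
  · intro h
    refine Lp.ext ?_
    filter_upwards [actL_ae (rotE a) f, h] with x h1 h2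
    rw [h1, h2]
  · intro h
    have := actL_ae (rotE a) f
    rw [h] at this
    exact this.symm

/-- It suffices to check a dense set of angles. -/
theorem RotInv_of_dense {f : L2} {D : Set ℝ} (hD : Dense D) (h : ∀ a ∈ D, actL (rotE a) f = f) :
    RotInv f := by
  rw [RotInv_iff]
  have hc : IsClosed {a : ℝ | actL (rotE a) f = f} :=
    isClosed_eq (actL_rot_cont f) continuous_const
  have h1 : closure D ⊆ {a : ℝ | actL (rotE a) f = f} := closure_minimal h hc
  rw [hD.closure_eq] at h1
  exact fun a => h1 (mem_univ a)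

theorem Swirl_iff (f : L2) : Swirl f ↔ RotInv f ∧ actL sgE f = -f := by
  refine and_congr_right fun _ => ?_
  rw [sgF_eq]
  constructor
  · intro h
    refine Lp.ext ?_
    filter_upwards [actL_ae sgE f, h, Lp.coeFn_neg f] with x h1 h2 h3
    rw [h1, h2, h3, Pi.neg_apply]
  · intro h
    have := actL_ae sgE f
    rw [h] at this
    filter_upwards [this, Lp.coeFn_neg f] with x h1 h2
    rw [← h1, h2, Pi.neg_apply]

theorem RotInv_closed : IsClosed {f : L2 | RotInv f} := by
  have e : {f : L2 | RotInv f} = ⋂ a : ℝ, {f : L2 | actL (rotE a) f = f} := by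
    ext f
    simp only [mem_ofPred_eq, mem_iInter]
    exact RotInv_iff f
  rw [e]
  exact isClosed_iInter fun a => isClosed_eq (actL (rotE a)).continuous continuous_id

theorem RotInv_res {l : ℝ} (hl : 0 ≤ l) {f : L2} (h : RotInv f) : RotInv (res Bl l f) := by
  rw [RotInv_iff] at h ⊢
  intro a
  rw [← res_actL _ hl, h a]

theorem A7b_res_neg {l : ℝ} (hl : 0 ≤ l) (f : L2) : res Bl l (-f) = -res Bl l f := by
  rw [← resL_apply hl, ← resL_apply hl, map_neg]

theorem Swirl_res {l : ℝ} (hl : 0 ≤ l) {f : L2} (h : Swirl f) : Swirl (res Bl l f) := by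
  rw [Swirl_iff] at h ⊢
  refine ⟨RotInv_res hl h.1, ?_⟩
  rw [← res_actL _ hl, h.2, A7b_res_neg hl]

theorem RotInv_negPow {b : ℝ} (h0 : 0 < b) (h1 : b < 1) {f : L2} (h : RotInv f) :
    RotInv (negPow Bl b f) := by
  rw [RotInv_iff] at h ⊢
  intro a
  rw [← negPow_actL _ h0 h1, h a]

theorem Swirl_negPow {b : ℝ} (h0 : 0 < b) (h1 : b < 1) {f : L2} (h : Swirl f) :
    Swirl (negPow Bl b f) := by
  rw [Swirl_iff] at h ⊢
  refine ⟨RotInv_negPow h0 h1 h.1, ?_⟩
  rw [← negPow_actL _ h0 h1, h.2]
  exact map_neg (A4_op h0 h1) f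

theorem RotInv_lin {f g : L2} (hf : RotInv f) (hg : RotInv g) (a : ℝ) : RotInv (f + a • g) := by
  rw [RotInv_iff] at hf hg ⊢
  intro b
  rw [map_add, map_smul, hf b, hg b]

/-- If `A⁻¹ w` is rotation invariant and `w ∈ L²_σ`, then `w` is rotation invariant (`res_inj`). -/
theorem RotInv_of_res {w : L2} (hw : w ∈ Hs Bl) (h : RotInv (res Bl 0 w)) : RotInv w := by
  rw [RotInv_iff] at h ⊢
  intro a
  have h1 := h a
  rw [← res_actL _ le_rfl] at h1
  have h2 : res Bl 0 (actL (rotE a) w + (-1 : ℝ) • w) = 0 := by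
    rw [res_lin le_rfl, h1]
    simp
  have h3 := res_inj (Hs_lin (Hs_actL (rotE a) hw) hw (-1)) h2
  rw [neg_one_smul, ← sub_eq_add_neg] at h3
  exact sub_eq_zero.1 h3

end Pool.Agent.W_332fe5
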