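import Mathlib

set_option autoImplicit false

/-! Smooth parametric integrals over a compact interval. -/

open MeasureTheory Set Filter Topology

namespace Pool.Agent.W_332fe5

theorem P1_slice {E F : Type} [NormedAddCommGroup E] [NormedSpace ℝ E]
    [NormedAddCommGroup F] [NormedSpace ℝ F] {f : ℝ → E → F}
    (hf : ContDiff ℝ 1 (fun z : ℝ × E => f z.1 z.2)) (a : ℝ) (x : E) :
    HasFDerivAt (f a) ((fderiv ℝ (fun z : ℝ × E => f z.1 z.2) (a, x)).comp
      (ContinuousLinearMap.inr ℝ ℝ E)) x := by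
  have h1 : HasFDerivAt (fun z : ℝ × E => f z.1 z.2)
      (fderiv ℝ (fun z : ℝ × E => f z.1 z.2) (a, x)) (a, x) :=
    (hf.differentiable (by norm_num) _).hasFDerivAt
  have h2 : HasFDerivAt (fun x : E => ((a, x) : ℝ × E)) (ContinuousLinearMap.inr ℝ ℝ E) x :=
    hasFDerivAt_prodMk_right a x
  exact h1.comp x h2

theorem P1_slice_contDiff {E F : Type} [NormedAddCommGroup E] [NormedSpace ℝ E]
    [NormedAddCommGroup F] [NormedSpace ℝ F] {f : ℝ → E → F} {n : ℕ}
    (hf : ContDiff ℝ (n + 1) (fun z : ℝ × E => f z.1 z.2)) :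
    ContDiff ℝ n (fun z : ℝ × E => fderiv ℝ (f z.1) z.2) := by
  have h1 : ContDiff ℝ 1 (fun z : ℝ × E => f z.1 z.2) :=
    hf.of_le (by exact_mod_cast Nat.le_add_left 1 n)
  have e : (fun z : ℝ × E => fderiv ℝ (f z.1) z.2) =
      fun z : ℝ × E => (fderiv ℝ (fun z : ℝ × E => f z.1 z.2) z).comp
        (ContinuousLinearMap.inr ℝ ℝ E) := by
    funext z
    exact (P1_slice h1 z.1 z.2).fderiv
  rw [e]
  exact (hf.fderiv_right (m := n) le_rfl).clm_comp contDiff_const

/-- Derivative of a parametric integral (`hasFDerivAt_integral_of_dominated_of_fderiv_le`; the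
derivative `(a, x) ↦ fderiv ℝ (f a) x` is continuous, so it is bounded on the compact set
`uIcc s t ×ˢ closedBall x 1`). -/
theorem param_fderiv {E F : Type} [NormedAddCommGroup E] [NormedSpace ℝ E] [FiniteDimensional ℝ E]
    [NormedAddCommGroup F] [NormedSpace ℝ F] [CompleteSpace F] {f : ℝ → E → F}
    (hf : ContDiff ℝ 1 (fun z : ℝ × E => f z.1 z.2)) (s t : ℝ) (x : E) :
    HasFDerivAt (fun x => ∫ a in s..t, f a x) (∫ a in s..t, fderiv ℝ (f a) x) x := by
  have hc : Continuous (fun z : ℝ × E => fderiv ℝ (f z.1) z.2) :=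
    (P1_slice_contDiff (n := 0) (by simpa using hf)).continuous
  have hfa : ∀ y, Continuous fun a => f a y := fun y =>
    hf.continuous.comp (continuous_id.prodMk continuous_const)
  have hda : ∀ y, Continuous fun a => fderiv ℝ (f a) y := fun y =>
    hc.comp (continuous_id.prodMk continuous_const)
  have := FiniteDimensional.proper ℝ E
  obtain ⟨C, hC⟩ := ((isCompact_uIcc (a := s) (b := t)).prod
    (isCompact_closedBall x 1)).exists_bound_of_continuousOn hc.continuousOn
  refine intervalIntegral.hasFDerivAt_integral_of_dominated_of_fderiv_le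
    (F := fun x a => f a x) (F' := fun x a => fderiv ℝ (f a) x) (bound := fun _ => C)
    (Metric.closedBall_mem_nhds x one_pos) ?_ ?_ ?_ ?_ ?_ ?_
  · exact Eventually.of_forall fun y => (hfa y).aestronglyMeasurable
  · exact (hfa x).intervalIntegrable _ _
  · exact (hda x).aestronglyMeasurable
  · refine ae_of_all _ fun a ha y hy => ?_
    exact hC (a, y) ⟨uIoc_subset_uIcc ha, hy⟩
  · exact continuous_const.intervalIntegrable _ _
  · refine ae_of_all _ fun a _ y _ => ?_
    have h := P1_slice hf a y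
    rw [← h.fderiv] at h
    exact h

theorem P1_nat (n : ℕ) : ∀ {E F : Type} [NormedAddCommGroup E] [NormedSpace ℝ E]
    [FiniteDimensional ℝ E] [NormedAddCommGroup F] [NormedSpace ℝ F] [CompleteSpace F]
    {f : ℝ → E → F}, ContDiff ℝ n (fun z : ℝ × E => f z.1 z.2) → ∀ s t : ℝ,
    ContDiff ℝ n (fun x => ∫ a in s..t, f a x) := by
  induction n with
  | zero =>
    intro E F _ _ _ _ _ _ f hf s t
    have hc : Continuous (fun z : ℝ × E => f z.1 z.2) := hf.continuous
    rw [Nat.cast_zero, contDiff_zero]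
    have h2 : Continuous (Function.uncurry fun (x : E) (a : ℝ) => f a x) :=
      hc.comp (continuous_snd.prodMk continuous_fst)
    exact intervalIntegral.continuous_parametric_intervalIntegral_of_continuous' h2 s t
  | succ n ih =>
    intro E F _ _ _ _ _ _ f hf s t
    have hf' : ContDiff ℝ (n + 1) (fun z : ℝ × E => f z.1 z.2) := by exact_mod_cast hf
    have h1 : ContDiff ℝ 1 (fun z : ℝ × E => f z.1 z.2) :=
      hf'.of_le (by exact_mod_cast Nat.le_add_left 1 n)
    have hd := fun x => param_fderiv h1 s t x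
    have goal : ContDiff ℝ (n + 1) (fun x => ∫ a in s..t, f a x) := by
      rw [contDiff_succ_iff_fderiv]
      refine ⟨fun x => (hd x).differentiableAt, fun h => by simp at h, ?_⟩
      have e : fderiv ℝ (fun x => ∫ a in s..t, f a x) = fun x => ∫ a in s..t, fderiv ℝ (f a) x :=
        funext fun x => (hd x).fderiv
      rw [e]
      exact ih (P1_slice_contDiff hf') s t
    exact_mod_cast goal

/-- A parametric integral of a smooth function is smooth (induction on the order with
`param_fderiv`; `contDiff_succ_iff_fderiv`, `(a, x) ↦ fderiv ℝ (f a) x` is `C^n` if `f` is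
`C^(n+1)`). -/
theorem param_smooth {E F : Type} [NormedAddCommGroup E] [NormedSpace ℝ E] [FiniteDimensional ℝ E]
    [NormedAddCommGroup F] [NormedSpace ℝ F] [CompleteSpace F] {f : ℝ → E → F}
    (hf : ContDiff ℝ ((⊤ : ℕ∞) : WithTop ℕ∞) (fun z : ℝ × E => f z.1 z.2)) (s t : ℝ) :
    ContDiff ℝ ((⊤ : ℕ∞) : WithTop ℕ∞) (fun x => ∫ a in s..t, f a x) := by
  rw [contDiff_infty] at hf ⊢
  exact fun n => P1_nat n (hf n) s t

end Pool.Agent.W_332fe5
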