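import Pool.Agent.W_332fe5.O.A7
import Pool.Agent.W_332fe5.O.P1

set_option autoImplicit false

/-! Block 1, A8: rotational averages of scalar functions; the test fields `h m`. -/

open MeasureTheory Set Filter Topology
open scoped ENNReal NNReal

namespace Pool.Agent.W_332fe5

/-- The rotational average. -/
noncomputable def avg (h : E3 → ℝ) (x : E3) : ℝ :=
  (2 * Real.pi)⁻¹ * ∫ a in (0 : ℝ)..(2 * Real.pi), h (rot a x)

theorem A8_rad {h : E3 → ℝ} (hh : h ∈ CB) : ∃ r : ℝ, 0 ≤ r ∧ r < 1 ∧ ∀ x : E3, r < ‖x‖ → h x = 0 := by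
  obtain ⟨_, h2, h3⟩ := hh
  rcases (tsupport h).eq_empty_or_nonempty with he | hne
  · refine ⟨0, le_rfl, zero_lt_one, fun x _ => ?_⟩
    exact image_eq_zero_of_notMem_tsupport (by rw [he]; exact notMem_empty x)
  · obtain ⟨z, hz, hmax⟩ := h2.isCompact.exists_isMaxOn hne continuous_norm.continuousOn
    refine ⟨‖z‖, norm_nonneg _, ?_, fun x hx => ?_⟩
    · have := h3 hz
      simpa [Bl] using this
    · refine image_eq_zero_of_notMem_tsupport fun hx' => ?_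
      have h4 : ‖x‖ ≤ ‖z‖ := hmax hx'
      linarith

theorem A8_mk {h : E3 → ℝ} (h1 : ContDiff ℝ ((⊤ : ℕ∞) : WithTop ℕ∞) h) {r : ℝ} (hr : r < 1)
    (h2 : ∀ x : E3, r < ‖x‖ → h x = 0) : h ∈ CB := by
  have h3 : Function.support h ⊆ Metric.closedBall (0 : E3) r := by
    intro x hx
    rw [mem_closedBall_zero_iff]
    by_contra hc
    exact hx (h2 x (not_le.1 hc))
  have h4 : tsupport h ⊆ Metric.closedBall (0 : E3) r :=
    closure_minimal h3 Metric.isClosed_closedBall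
  refine ⟨h1, HasCompactSupport.of_support_subset_isCompact (isCompact_closedBall 0 r) h3, ?_⟩
  exact h4.trans (Metric.closedBall_subset_ball hr)

theorem CB_lin {h h' : E3 → ℝ} (hh : h ∈ CB) (hh' : h' ∈ CB) (a : ℝ) :
    (fun x => h x + a * h' x) ∈ CB := by
  obtain ⟨r, r0, r1, h1⟩ := A8_rad hh
  obtain ⟨s, s0, s1, h2⟩ := A8_rad hh'
  refine A8_mk (hh.1.add (contDiff_const.mul hh'.1)) (max_lt r1 s1) fun x hx => ?_
  rw [h1 x ((le_max_left _ _).trans_lt hx), h2 x ((le_max_right _ _).trans_lt hx)]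
  simp

theorem A8_rot_smooth : ContDiff ℝ ((⊤ : ℕ∞) : WithTop ℕ∞) fun z : ℝ × E3 => rot z.1 z.2 := by
  have hc : ∀ i : Fin 3, ContDiff ℝ ((⊤ : ℕ∞) : WithTop ℕ∞) fun z : ℝ × E3 => z.2 i := fun i =>
    (EuclideanSpace.proj i : E3 →L[ℝ] ℝ).contDiff.comp contDiff_snd
  have h1 : ContDiff ℝ ((⊤ : ℕ∞) : WithTop ℕ∞) fun z : ℝ × E3 => Real.cos z.1 :=
    Real.contDiff_cos.comp contDiff_fst
  have h2 : ContDiff ℝ ((⊤ : ℕ∞) : WithTop ℕ∞) fun z : ℝ × E3 => Real.sin z.1 :=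
    Real.contDiff_sin.comp contDiff_fst
  rw [contDiff_euclidean]
  intro i
  fin_cases i
  · exact (h1.mul (hc 0)).sub (h2.mul (hc 1))
  · exact (h2.mul (hc 0)).add (h1.mul (hc 1))
  · exact hc 2

theorem A8_rot_smooth' (a : ℝ) : ContDiff ℝ ((⊤ : ℕ∞) : WithTop ℕ∞) (rot a) := by
  have h1 : ContDiff ℝ ((⊤ : ℕ∞) : WithTop ℕ∞) fun x : E3 => ((a, x) : ℝ × E3) :=
    contDiff_prodMk_right a
  have h2 : rot a = (fun z : ℝ × E3 => rot z.1 z.2) ∘ fun x : E3 => ((a, x) : ℝ × E3) := rfl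
  rw [h2]
  exact A8_rot_smooth.comp h1

theorem CB_rot {h : E3 → ℝ} (hh : h ∈ CB) (a : ℝ) : (fun x => h (rot a x)) ∈ CB := by
  obtain ⟨r, r0, r1, h1⟩ := A8_rad hh
  have h2 : ContDiff ℝ ((⊤ : ℕ∞) : WithTop ℕ∞) (h ∘ rot a) := hh.1.comp (A8_rot_smooth' a)
  refine A8_mk h2 r1 fun x hx => ?_
  exact h1 _ (by rw [norm_rot]; exact hx)

theorem A8_comp {h : E3 → ℝ} (hh : h ∈ CB) :
    ContDiff ℝ ((⊤ : ℕ∞) : WithTop ℕ∞) fun z : ℝ × E3 => (fun (a : ℝ) (x : E3) => h (rot a x)) z.1 z.2 := by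
  have h2 : ContDiff ℝ ((⊤ : ℕ∞) : WithTop ℕ∞) (h ∘ fun z : ℝ × E3 => rot z.1 z.2) :=
    hh.1.comp A8_rot_smooth
  exact h2

theorem A8_fderiv_smooth {h : E3 → ℝ} (hh : ContDiff ℝ ((⊤ : ℕ∞) : WithTop ℕ∞) h) (v : E3) :
    ContDiff ℝ ((⊤ : ℕ∞) : WithTop ℕ∞) (fun z => fderiv ℝ h z v) :=
  (hh.fderiv_right (m := ((⊤ : ℕ∞) : WithTop ℕ∞)) (by simp)).clm_apply contDiff_const

theorem A8_fderiv_zero {h : E3 → ℝ} {r : ℝ} (h1 : ∀ x : E3, r < ‖x‖ → h x = 0) {x : E3}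
    (hx : r < ‖x‖) : fderiv ℝ h x = 0 := by
  have h2 : h =ᶠ[𝓝 x] fun _ => 0 := by
    have : {z : E3 | r < ‖z‖} ∈ 𝓝 x := (isOpen_lt continuous_const continuous_norm).mem_nhds hx
    filter_upwards [this] with z hz
    exact h1 z hz
  rw [h2.fderiv_eq]
  simp

theorem CB_slap {h : E3 → ℝ} (hh : h ∈ CB) : slap h ∈ CB := by
  obtain ⟨r, r0, r1, h1⟩ := A8_rad hh
  refine A8_mk ?_ r1 fun x hx => ?_
  · unfold slap
    exact ContDiff.sum fun j _ => A8_fderiv_smooth (A8_fderiv_smooth hh.1 _) _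
  · unfold slap
    refine Finset.sum_eq_zero fun j _ => ?_
    rw [A8_fderiv_zero (r := r) (fun z hz => by rw [A8_fderiv_zero h1 hz]; rfl) hx]
    rfl

/-- `(a, x) ↦ rot a x` is smooth; `param_smooth`; the support of `avg h` is contained in the ball
of radius `r < 1` if the support of `h` is. -/
theorem avg_mem {h : E3 → ℝ} (hh : h ∈ CB) : avg h ∈ CB := by
  obtain ⟨r, r0, r1, h1⟩ := A8_rad hh
  refine A8_mk ?_ r1 fun x hx => ?_
  · unfold avg
    exact contDiff_const.mul (param_smooth (A8_comp hh) 0 (2 * Real.pi))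
  · unfold avg
    have h2 : ∀ a : ℝ, h (rot a x) = 0 := fun a => h1 _ (by simpa [norm_rot] using hx)
    simp [h2]

theorem A8_per (h : E3 → ℝ) (x : E3) : Function.Periodic (fun a => h (rot a x)) (2 * Real.pi) := by
  intro a
  show h (rot (a + 2 * Real.pi) x) = h (rot a x)
  congr 1
  unfold rot
  rw [Real.cos_add_two_pi, Real.sin_add_two_pi]

theorem avg_rot {h : E3 → ℝ} (hh : h ∈ CB) (a : ℝ) (x : E3) : avg h (rot a x) = avg h x := by
  unfold avg
  congr 1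
  have h1 : ∀ c : ℝ, h (rot c (rot a x)) = h (rot (c + a) x) := fun c => by rw [rot_rot]
  simp only [h1]
  have h2 := intervalIntegral.integral_comp_add_right (a := 0) (b := 2 * Real.pi)
    (fun c => h (rot c x)) a
  rw [h2, zero_add, add_comm (2 * Real.pi) a]
  have h3 := (A8_per h x).intervalIntegral_add_eq a 0
  rw [h3, zero_add]

theorem avg_fix {h : E3 → ℝ} (hh : ∀ a x, h (rot a x) = h x) : avg h = h := by
  funext x
  unfold avg
  simp only [hh]
  rw [intervalIntegral.integral_const, smul_eq_mul, sub_zero, ← mul_assoc,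
    inv_mul_cancel₀ (by positivity), one_mul]

theorem avg_lin {h h' : E3 → ℝ} (hh : h ∈ CB) (hh' : h' ∈ CB) (a : ℝ) :
    avg (fun x => h x + a * h' x) = fun x => avg h x + a * avg h' x := by
  funext x
  unfold avg
  have hc : Continuous fun c : ℝ => rot c x := by
    have h1 : (fun c : ℝ => rot c x) = (fun z : ℝ × E3 => rot z.1 z.2) ∘ fun c : ℝ => (c, x) := rfl
    rw [h1]
    exact (A8_rot_smooth.continuous).comp (Continuous.prodMk_left x)
  have i1 : IntervalIntegrable (fun c => h (rot c x)) volume 0 (2 * Real.pi) :=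
    (hh.1.continuous.comp hc).intervalIntegrable _ _
  have i2 : IntervalIntegrable (fun c => a * h' (rot c x)) volume 0 (2 * Real.pi) :=
    (continuous_const.mul (hh'.1.continuous.comp hc)).intervalIntegrable _ _
  rw [intervalIntegral.integral_add i1 i2, intervalIntegral.integral_const_mul]
  ring

end Pool.Agent.W_332fe5
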