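import Pool.Agent.W_332fe5.O.A8

set_option autoImplicit false

/-! Block 1, A8b: the test fields `h m` and averages of integrals. -/

open MeasureTheory Set Filter Topology
open scoped ENNReal NNReal

namespace Pool.Agent.W_332fe5

theorem A8b_one_le : (1 : WithTop ℕ∞) ≤ ((⊤ : ℕ∞) : WithTop ℕ∞) := by exact_mod_cast le_top

/-- For an invariant `h`, `∇h · m = 0` (differentiate `h (rot a x) = h x` in `a`,
`hasDerivAt_rot`). -/
theorem fderiv_mm {h : E3 → ℝ} (hh : Differentiable ℝ h) (hr : ∀ a x, h (rot a x) = h x) (x : E3) :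
    fderiv ℝ h x (mm x) = 0 := by
  have h1 := hasDerivAt_rot 0 x
  have h2 : HasDerivAt (fun a => h (rot a x)) (fderiv ℝ h (rot 0 x) (mm (rot 0 x))) 0 :=
    (hh (rot 0 x)).hasFDerivAt.comp_hasDerivAt 0 h1
  rw [rot_zero] at h2
  have h3 : (fun a => h (rot a x)) = fun _ => h x := by
    funext a
    exact hr a x
  rw [h3] at h2
  exact h2.unique (hasDerivAt_const 0 (h x))

/-- `m` as a continuous linear map. -/
noncomputable def A8b_mmL : E3 →L[ℝ] E3 :=
  LinearMap.toContinuousLinearMap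
    { toFun := mm
      map_add' := fun x y => by
        ext i
        fin_cases i
        · simp [mm]; ring
        · simp [mm]
        · simp [mm]
      map_smul' := fun c x => by
        ext i
        fin_cases i
        · simp [mm]
        · simp [mm]
        · simp [mm] }

theorem A8b_mmL_apply (x : E3) : A8b_mmL x = mm x := rfl

theorem A8b_hasFDerivAt {h : E3 → ℝ} (hh : Differentiable ℝ h) (x : E3) :
    HasFDerivAt (fun x => h x • mm x) (h x • A8b_mmL + (fderiv ℝ h x).smulRight (mm x)) x := by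
  have h1 := (hh x).hasFDerivAt.smul (A8b_mmL.hasFDerivAt (x := x))
  exact h1

/-- `m` is smooth, `D m (x) v = mm v` and `div m = 0`; so `h m` is a test field for invariant
`h ∈ CB`. -/
theorem fderiv_hmm {h : E3 → ℝ} (hh : Differentiable ℝ h) (x v : E3) :
    fderiv ℝ (fun x => h x • mm x) x v = fderiv ℝ h x v • mm x + h x • mm v := by
  rw [(A8b_hasFDerivAt hh x).fderiv]
  simp only [add_apply, smul_apply,
    ContinuousLinearMap.smulRight_apply, A8b_mmL_apply]
  rw [add_comm]

theorem A8b_expand (L : E3 →L[ℝ] ℝ) (v : E3) : L v = ∑ j, v j * L (EuclideanSpace.single j 1) := by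
  have h1 : v = ∑ j, v j • EuclideanSpace.single j (1 : ℝ) := by
    ext i
    simp [Finset.sum_apply, Pi.single_apply]
  conv_lhs => rw [h1]
  simp [map_sum]

theorem mmTF {h : E3 → ℝ} (hh : h ∈ CB) (hr : ∀ a x, h (rot a x) = h x) :
    (fun x => h x • mm x) ∈ TF Bl := by
  have hd : Differentiable ℝ h := hh.1.differentiable (by simp)
  have hsub : tsupport (fun x => h x • mm x) ⊆ tsupport h := closure_mono fun x hx hx' => by
    apply hx
    show h x • mm x = 0
    rw [hx', zero_smul]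
  refine ⟨hh.1.smul A8b_mmL.contDiff, ?_, hsub.trans hh.2.2, ?_⟩
  · exact hh.2.1.of_isClosed_subset (isClosed_tsupport _) hsub
  · intro x
    unfold divg pd
    have h1 : ∀ j : Fin 3, (fderiv ℝ (fun x => h x • mm x) x (EuclideanSpace.single j 1)) j =
        mm x j * fderiv ℝ h x (EuclideanSpace.single j 1) := by
      intro j
      rw [fderiv_hmm hd]
      have : (mm (EuclideanSpace.single j (1 : ℝ))) j = 0 := by
        fin_cases j <;> simp [mm]
      simp [this]
      ring
    simp only [h1]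
    rw [← A8b_expand, fderiv_mm hd hr]

theorem avg_mm {h : E3 → ℝ} (hh : h ∈ CB) : (fun x => avg h x • mm x) ∈ TF Bl :=
  mmTF (avg_mem hh) (avg_rot hh)

theorem rotF_hmm {h : E3 → ℝ} (hr : ∀ a x, h (rot a x) = h x) (a : ℝ) :
    rotF a (fun x => h x • mm x) = fun x => h x • mm x := by
  funext x
  unfold rotF
  show rot a (h (rot (-a) x) • mm (rot (-a) x)) = h x • mm x
  rw [hr, ← rotE_apply, map_smul, rotE_apply, ← mm_rot, rot_rot, add_neg_cancel, rot_zero]

/-- `Δ (h m) = (Δh + k · ∇h) m` for invariant smooth `h`: on the complement of the axis,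
`Δ (h m) = (Δh) m + 2 e₃ × ∇h`, `∇h · m = 0` and `(e₃ × ∇h) = (∇h · (x₁, x₂, 0) / ρ²) m`. -/
theorem lapl_hmm {h : E3 → ℝ} (hh : ContDiff ℝ ((⊤ : ℕ∞) : WithTop ℕ∞) h)
    (hr : ∀ a x, h (rot a x) = h x) {x : E3} (hx : ax2 x ≠ 0) :
    lapl (fun x => h x • mm x) x = (slap h x + fderiv ℝ h x (kk x)) • mm x := by
  have hd : Differentiable ℝ h := hh.differentiable (by simp)
  have hg : ∀ j : Fin 3, Differentiable ℝ
      (fun z => fderiv ℝ h z (EuclideanSpace.single j 1)) := fun j =>
    (A8_fderiv_smooth hh _).differentiable (by simp)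
  have h1 : ∀ j : Fin 3, pd j (pd j (fun x => h x • mm x)) x =
      (fderiv ℝ (fun z => fderiv ℝ h z (EuclideanSpace.single j 1)) x
        (EuclideanSpace.single j 1)) • mm x +
      (2 * fderiv ℝ h x (EuclideanSpace.single j 1)) • mm (EuclideanSpace.single j 1) := by
    intro j
    have h2 : pd j (fun x => h x • mm x) = fun z =>
        fderiv ℝ h z (EuclideanSpace.single j 1) • mm z +
          h z • mm (EuclideanSpace.single j 1) := by
      funext z
      exact fderiv_hmm hd z _
    rw [h2]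
    unfold pd
    have h3 := (A8b_hasFDerivAt (hg j) x).add
      ((hd x).hasFDerivAt.smul_const (mm (EuclideanSpace.single j 1)))
    have h4 : HasFDerivAt (fun z => fderiv ℝ h z (EuclideanSpace.single j 1) • mm z +
          h z • mm (EuclideanSpace.single j 1)) _ x := h3
    rw [h4.fderiv]
    simp only [add_apply, smul_apply,
      ContinuousLinearMap.smulRight_apply, A8b_mmL_apply]
    rw [two_mul, add_smul]
    abel
  unfold lapl
  simp only [h1]
  rw [Finset.sum_add_distrib, ← Finset.sum_smul]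
  have hinv := fderiv_mm hd hr x
  rw [A8b_expand, Fin.sum_univ_three] at hinv
  have m0 : mm x 0 = -x 1 := by simp [mm]
  have m1 : mm x 1 = x 0 := by simp [mm]
  have m2 : mm x 2 = 0 := by simp [mm]
  rw [m0, m1, m2] at hinv
  have hk := A8b_expand (fderiv ℝ h x) (kk x)
  rw [Fin.sum_univ_three] at hk
  have k0 : kk x 0 = 2 / ax2 x * x 0 := by simp [kk]
  have k1 : kk x 1 = 2 / ax2 x * x 1 := by simp [kk]
  have k2 : kk x 2 = 0 := by simp [kk]
  rw [k0, k1, k2] at hk
  set d0 := fderiv ℝ h x (EuclideanSpace.single 0 1) with hd0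
  set d1 := fderiv ℝ h x (EuclideanSpace.single 1 1) with hd1
  rw [hk, add_smul]
  show slap h x • mm x + _ = _
  congr 1
  have hax : ax2 x = x 0 ^ 2 + x 1 ^ 2 := rfl
  rw [Fin.sum_univ_three, ← hd0, ← hd1]
  ext i
  fin_cases i
  · simp [mm]
    field_simp
    rw [hax]
    linear_combination (x 0) * hinv
  · simp [mm]
    field_simp
    rw [hax]
    linear_combination (-x 1) * hinv
  · simp [mm]

/-- The second derivative. -/
theorem A8b_snd {h : E3 → ℝ} (hh : ContDiff ℝ ((⊤ : ℕ∞) : WithTop ℕ∞) h) (z v w : E3) :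
    fderiv ℝ (fun z => fderiv ℝ h z w) z v = (fderiv ℝ (fderiv ℝ h) z v) w := by
  have h1 : Differentiable ℝ (fderiv ℝ h) :=
    (hh.fderiv_right (m := ((⊤ : ℕ∞) : WithTop ℕ∞)) (by simp)).differentiable (by simp)
  have h2 := (h1 z).hasFDerivAt.clm_apply (hasFDerivAt_const w z)
  rw [h2.fderiv]
  simp

theorem A8b_fderiv_rot {h : E3 → ℝ} (hh : Differentiable ℝ h) (a : ℝ) (x v : E3) :
    fderiv ℝ (fun x => h (rot a x)) x v = fderiv ℝ h (rot a x) (rot a v) := by
  have h1 : HasFDerivAt (fun x => h (rotE a x))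
      ((fderiv ℝ h (rotE a x)).comp ((rotE a).toContinuousLinearEquiv : E3 →L[ℝ] E3)) x :=
    (hh (rotE a x)).hasFDerivAt.comp x ((rotE a).toContinuousLinearEquiv.hasFDerivAt)
  have h2 : HasFDerivAt (fun x => h (rot a x))
      ((fderiv ℝ h (rotE a x)).comp ((rotE a).toContinuousLinearEquiv : E3 →L[ℝ] E3)) x := h1
  rw [h2.fderiv]
  rfl

theorem A8b_slap_rot {h : E3 → ℝ} (hh : ContDiff ℝ ((⊤ : ℕ∞) : WithTop ℕ∞) h) (a : ℝ) (x : E3) :
    slap (fun x => h (rot a x)) x = slap h (rot a x) := by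
  have hd : Differentiable ℝ h := hh.differentiable (by simp)
  unfold slap
  have h1 : ∀ w v : E3, fderiv ℝ (fun z => fderiv ℝ (fun x => h (rot a x)) z w) x v =
      (fderiv ℝ (fderiv ℝ h) (rot a x) (rot a v)) (rot a w) := by
    intro w v
    have h2 : (fun z => fderiv ℝ (fun x => h (rot a x)) z w) =
        fun z => (fun y => fderiv ℝ h y (rot a w)) (rot a z) := by
      funext z
      exact A8b_fderiv_rot hd a z w
    rw [h2, A8b_fderiv_rot ((A8_fderiv_smooth hh _).differentiable (by simp)), A8b_snd hh]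
  simp only [h1, A8b_snd hh]
  have e0 : rot a (EuclideanSpace.single 0 1) =
      Real.cos a • EuclideanSpace.single 0 (1 : ℝ) +
        Real.sin a • EuclideanSpace.single 1 (1 : ℝ) := by
    ext i
    fin_cases i <;> simp [rot]
  have e1 : rot a (EuclideanSpace.single 1 1) =
      (-Real.sin a) • EuclideanSpace.single 0 (1 : ℝ) +
        Real.cos a • EuclideanSpace.single 1 (1 : ℝ) := by
    ext i
    fin_cases i <;> simp [rot]
  have e2 : rot a (EuclideanSpace.single 2 1) = EuclideanSpace.single 2 (1 : ℝ) := by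
    ext i
    fin_cases i <;> simp [rot]
  rw [Fin.sum_univ_three, Fin.sum_univ_three, e0, e1, e2]
  simp only [map_add, map_smul, add_apply, smul_apply,
    smul_eq_mul]
  have := Real.sin_sq_add_cos_sq a
  linear_combination
    ((fderiv ℝ (fderiv ℝ h) (rot a x) (EuclideanSpace.single 0 1)) (EuclideanSpace.single 0 1) +
    (fderiv ℝ (fderiv ℝ h) (rot a x) (EuclideanSpace.single 1 1)) (EuclideanSpace.single 1 1)) *
      this

theorem fderiv_avg {h : E3 → ℝ} (hh : h ∈ CB) (x v : E3) :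
    fderiv ℝ (avg h) x v =
      (2 * Real.pi)⁻¹ * ∫ a in (0 : ℝ)..(2 * Real.pi), fderiv ℝ h (rot a x) (rot a v) := by
  have hd : Differentiable ℝ h := hh.1.differentiable (by simp)
  have hc : ContDiff ℝ ((⊤ : ℕ∞) : WithTop ℕ∞)
      (fun z : ℝ × E3 => (fun (a : ℝ) (x : E3) => h (rot a x)) z.1 z.2) := A8_comp hh
  have h1 := param_fderiv (f := fun (a : ℝ) (x : E3) => h (rot a x)) (hc.of_le A8b_one_le) 0
    (2 * Real.pi) x
  have h2 : HasFDerivAt (avg h) ((2 * Real.pi)⁻¹ •
      ∫ a in (0 : ℝ)..(2 * Real.pi), fderiv ℝ (fun x => h (rot a x)) x) x := h1.const_mul _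
  rw [h2.fderiv]
  have hcont : Continuous fun a : ℝ => fderiv ℝ (fun x => h (rot a x)) x := by
    have h3 : ContDiff ℝ ((⊤ : ℕ∞) : WithTop ℕ∞)
        (fun a : ℝ => fderiv ℝ ((fun (a : ℝ) (x : E3) => h (rot a x)) a) x) :=
      ContDiff.fderiv (m := ((⊤ : ℕ∞) : WithTop ℕ∞)) hc contDiff_const (by simp)
    exact h3.continuous
  rw [smul_apply, smul_eq_mul,
    ContinuousLinearMap.intervalIntegral_apply (hcont.intervalIntegrable _ _)]
  congr 1
  refine intervalIntegral.integral_congr fun a _ => ?_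
  exact A8b_fderiv_rot hd a x v

theorem slap_avg {h : E3 → ℝ} (hh : h ∈ CB) : slap (avg h) = avg (slap h) := by
  funext x
  have hd : Differentiable ℝ h := hh.1.differentiable (by simp)
  have hc : ContDiff ℝ ((⊤ : ℕ∞) : WithTop ℕ∞)
      (fun z : ℝ × E3 => (fun (a : ℝ) (x : E3) => h (rot a x)) z.1 z.2) := A8_comp hh
  -- first derivatives as parametric integrals of a smooth function
  have hf : ∀ w : E3, ContDiff ℝ ((⊤ : ℕ∞) : WithTop ℕ∞)
      (fun z : ℝ × E3 => (fun (a : ℝ) (x : E3) => fderiv ℝ h (rot a x) (rot a w)) z.1 z.2) := by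
    intro w
    have h1 : ContDiff ℝ ((⊤ : ℕ∞) : WithTop ℕ∞) (fun z : ℝ × E3 => fderiv ℝ h (rot z.1 z.2)) :=
      (hh.1.fderiv_right (m := ((⊤ : ℕ∞) : WithTop ℕ∞)) (by simp)).comp A8_rot_smooth
    have h2 : ContDiff ℝ ((⊤ : ℕ∞) : WithTop ℕ∞) (fun z : ℝ × E3 => rot z.1 w) := by
      have h3 : (fun z : ℝ × E3 => rot z.1 w) = (fun z : ℝ × E3 => rot z.1 z.2) ∘
          fun z : ℝ × E3 => (z.1, w) := rfl
      rw [h3]
      exact A8_rot_smooth.comp (contDiff_fst.prodMk contDiff_const)
    exact h1.clm_apply h2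
  have hs : ∀ w : E3, fderiv ℝ (fun z => fderiv ℝ (avg h) z w) x w =
      (2 * Real.pi)⁻¹ * ∫ a in (0 : ℝ)..(2 * Real.pi),
        (fderiv ℝ (fderiv ℝ h) (rot a x) (rot a w)) (rot a w) := by
    intro w
    have h1 : (fun z => fderiv ℝ (avg h) z w) = fun z =>
        (2 * Real.pi)⁻¹ * ∫ a in (0 : ℝ)..(2 * Real.pi), fderiv ℝ h (rot a z) (rot a w) := by
      funext z
      exact fderiv_avg hh z w
    rw [h1]
    have h2 := (param_fderiv (f := fun (a : ℝ) (x : E3) => fderiv ℝ h (rot a x) (rot a w))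
      ((hf w).of_le A8b_one_le) 0 (2 * Real.pi) x).const_mul
      (2 * Real.pi)⁻¹
    rw [h2.fderiv]
    have hcont : Continuous fun a : ℝ => fderiv ℝ (fun x => fderiv ℝ h (rot a x) (rot a w)) x := by
      have h3 : ContDiff ℝ ((⊤ : ℕ∞) : WithTop ℕ∞)
          (fun a : ℝ => fderiv ℝ
            ((fun (a : ℝ) (x : E3) => fderiv ℝ h (rot a x) (rot a w)) a) x) :=
        ContDiff.fderiv (m := ((⊤ : ℕ∞) : WithTop ℕ∞)) (hf w) contDiff_const (by simp)
      exact h3.continuous
    rw [smul_apply, smul_eq_mul,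
      ContinuousLinearMap.intervalIntegral_apply (hcont.intervalIntegrable _ _)]
    congr 1
    refine intervalIntegral.integral_congr fun a _ => ?_
    show fderiv ℝ (fun x => (fun y => fderiv ℝ h y (rot a w)) (rot a x)) x w = _
    rw [A8b_fderiv_rot ((A8_fderiv_smooth hh.1 _).differentiable (by simp)), A8b_snd hh.1]
  have hi : ∀ w : E3, IntervalIntegrable (fun a =>
      (fderiv ℝ (fderiv ℝ h) (rot a x) (rot a w)) (rot a w)) volume 0 (2 * Real.pi) := by
    intro w
    have c1 : Continuous fun a : ℝ => rot a x := by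
      have h1 : (fun c : ℝ => rot c x) = (fun z : ℝ × E3 => rot z.1 z.2) ∘ fun c : ℝ => (c, x) := rfl
      rw [h1]
      exact (A8_rot_smooth.continuous).comp (Continuous.prodMk_left x)
    have c2 : Continuous fun a : ℝ => rot a w := by
      have h1 : (fun c : ℝ => rot c w) = (fun z : ℝ × E3 => rot z.1 z.2) ∘ fun c : ℝ => (c, w) := rfl
      rw [h1]
      exact (A8_rot_smooth.continuous).comp (Continuous.prodMk_left w)
    have c3 : Continuous (fderiv ℝ (fderiv ℝ h)) :=
      (((hh.1.fderiv_right (m := ((⊤ : ℕ∞) : WithTop ℕ∞)) (by simp)).fderiv_right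
        (m := ((⊤ : ℕ∞) : WithTop ℕ∞)) (by simp))).continuous
    exact (((c3.comp c1).clm_apply c2).clm_apply c2).intervalIntegrable _ _
  unfold slap
  simp only [hs]
  unfold avg
  rw [← Finset.mul_sum, ← intervalIntegral.integral_finsetSum (fun j _ => hi _)]
  congr 1
  refine intervalIntegral.integral_congr fun a _ => ?_
  have h1 := A8b_slap_rot hh.1 a x
  unfold slap at h1
  refine Eq.trans ?_ h1
  refine Finset.sum_congr rfl fun j _ => ?_
  have h2 : (fun z => fderiv ℝ (fun x => h (rot a x)) z (EuclideanSpace.single j 1)) =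
      fun z => (fun y => fderiv ℝ h y (rot a (EuclideanSpace.single j 1))) (rot a z) := by
    funext z
    exact A8b_fderiv_rot hd a z _
  rw [h2, A8b_fderiv_rot ((A8_fderiv_smooth hh.1 _).differentiable (by simp)), A8b_snd hh.1]

theorem A8b_fub {g : ℝ → E3 → ℝ} {B : E3 → ℝ}
    (hm : AEStronglyMeasurable (fun z : ℝ × E3 => g z.1 z.2)
      ((volume.restrict (Ioc 0 (2 * Real.pi))).prod volume))
    (hB : Integrable B) (hb : ∀ a x, |g a x| ≤ B x) {c : ℝ} (hc : ∀ a, ∫ x, g a x = c) :
    ∫ x, (2 * Real.pi)⁻¹ * ∫ a in (0 : ℝ)..(2 * Real.pi), g a x = c := by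
  have hi : Integrable (fun z : ℝ × E3 => g z.1 z.2)
      ((volume.restrict (Ioc 0 (2 * Real.pi))).prod volume) := by
    refine Integrable.mono' (hB.comp_snd (volume.restrict (Ioc 0 (2 * Real.pi)))) hm ?_
    exact Eventually.of_forall fun z => hb z.1 z.2
  rw [integral_const_mul]
  have h1 : ∀ x, ∫ a in (0 : ℝ)..(2 * Real.pi), g a x =
      ∫ a in Ioc (0 : ℝ) (2 * Real.pi), g a x := fun x =>
    intervalIntegral.integral_of_le (by positivity)
  simp only [h1]
  rw [← integral_integral_swap hi]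
  simp only [hc]
  rw [integral_const]
  simp only [MeasurableSet.univ, measureReal_restrict_apply, univ_inter, Real.volume_real_Ioc,
    sub_zero, smul_eq_mul]
  rw [max_eq_left (by positivity), ← mul_assoc, inv_mul_cancel₀ (by positivity), one_mul]

theorem A8b_mp (a : ℝ) : MeasurePreserving (rot a) (volume : Measure E3) volume :=
  (rotE a).measurePreserving

theorem A8b_int_rot (a : ℝ) (g : E3 → ℝ) : ∫ x, g (rot a x) = ∫ x, g x :=
  (rotE a).measurePreserving.integral_comp' (f := (rotE a).toHomeomorph.toMeasurableEquiv) g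

/-- (T1) Averages against invariant functions (Fubini, rotations preserve the volume). -/
theorem int_avg {Γ : E3 → ℝ} (hΓ : Integrable Γ) (hr : ∀ a, (fun x => Γ (rot a x)) =ᵐ[volume] Γ)
    {h : E3 → ℝ} (hh : h ∈ CB) : ∫ x, Γ x * avg h x = ∫ x, Γ x * h x := by
  obtain ⟨C, hC⟩ := hh.2.1.exists_bound_of_continuous hh.1.continuous
  have h1 : ∀ x, Γ x * avg h x = (2 * Real.pi)⁻¹ *
      ∫ a in (0 : ℝ)..(2 * Real.pi), Γ x * h (rot a x) := by
    intro x
    rw [intervalIntegral.integral_const_mul]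
    unfold avg
    ring
  simp only [h1]
  refine A8b_fub (B := fun x => |Γ x| * C) ?_ (hΓ.abs.mul_const C) ?_ ?_
  · refine (hΓ.1.comp_snd).mul ?_
    exact ((hh.1.continuous.comp A8_rot_smooth.continuous)).aestronglyMeasurable
  · intro a x
    rw [abs_mul]
    exact mul_le_mul_of_nonneg_left (hC _) (abs_nonneg _)
  · intro a
    have h2 : ∫ x, Γ x * h (rot a x) = ∫ x, Γ (rot a x) * h (rot a x) := by
      refine integral_congr_ae ?_
      filter_upwards [hr a] with x hx
      rw [hx]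
    rw [h2, A8b_int_rot a (fun x => Γ x * h x)]

theorem A8b_meas {V : E3 → E3} (hV : Integrable V) {h : E3 → ℝ} (hfc : Continuous (fderiv ℝ h)) :
    AEStronglyMeasurable (fun z : ℝ × E3 => fderiv ℝ h (rot z.1 z.2) (rot z.1 (V z.2)))
      ((volume.restrict (Ioc 0 (2 * Real.pi))).prod volume) := by
  have c0 : Continuous fun z : ℝ × E3 => rot z.1 z.2 := A8_rot_smooth.continuous
  have m1 : AEStronglyMeasurable (fun z : ℝ × E3 => fderiv ℝ h (rot z.1 z.2))
      ((volume.restrict (Ioc 0 (2 * Real.pi))).prod volume) :=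
    (hfc.comp c0).aestronglyMeasurable
  have m2 : AEStronglyMeasurable (fun z : ℝ × E3 => V z.2)
      ((volume.restrict (Ioc 0 (2 * Real.pi))).prod volume) := hV.1.comp_snd
  have m3 : AEStronglyMeasurable (fun z : ℝ × E3 => (z.1, V z.2))
      ((volume.restrict (Ioc 0 (2 * Real.pi))).prod volume) :=
    (continuous_fst.aestronglyMeasurable).prodMk m2
  have m4 : AEStronglyMeasurable (fun z : ℝ × E3 => rot z.1 (V z.2))
      ((volume.restrict (Ioc 0 (2 * Real.pi))).prod volume) := c0.comp_aestronglyMeasurable m3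
  have c1 : Continuous fun p : (E3 →L[ℝ] ℝ) × E3 => p.1 p.2 :=
    isBoundedBilinearMap_apply.continuous
  exact c1.comp_aestronglyMeasurable (m1.prodMk m4)

/-- (T2) The same for derivatives along invariant vector fields. -/
theorem int_fderiv_avg {V : E3 → E3} (hV : Integrable V)
    (hr : ∀ a, (fun x => V (rot a x)) =ᵐ[volume] fun x => rot a (V x))
    {h : E3 → ℝ} (hh : h ∈ CB) :
    ∫ x, fderiv ℝ (avg h) x (V x) = ∫ x, fderiv ℝ h x (V x) := by
  have hfc : Continuous (fderiv ℝ h) :=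
    (hh.1.fderiv_right (m := ((⊤ : ℕ∞) : WithTop ℕ∞)) (by simp)).continuous
  obtain ⟨C, hC⟩ := (hh.2.1.fderiv (𝕜 := ℝ)).exists_bound_of_continuous hfc
  simp only [fderiv_avg hh]
  refine A8b_fub (B := fun x => C * ‖V x‖) ?_ (hV.norm.const_mul C) ?_ ?_
  · exact A8b_meas hV hfc
  · intro a x
    have h5 := (fderiv ℝ h (rot a x)).le_opNorm (rot a (V x))
    rw [norm_rot, Real.norm_eq_abs] at h5
    refine h5.trans ?_
    exact mul_le_mul_of_nonneg_right (hC _) (norm_nonneg _)
  · intro a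
    have h2 : ∫ x, fderiv ℝ h (rot a x) (rot a (V x)) =
        ∫ x, fderiv ℝ h (rot a x) (V (rot a x)) := by
      refine integral_congr_ae ?_
      filter_upwards [hr a] with x hx
      rw [hx]
    rw [h2, A8b_int_rot a (fun x => fderiv ℝ h x (V x))]

end Pool.Agent.W_332fe5
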