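import Pool.Agent.W_332fe5.O.A8b
import Pool.Agent.W_332fe5.O.A7b

set_option autoImplicit false

/-! Block 1, A9: the projection of smooth fields to swirl test fields, and the Dirichlet problem
for swirl right hand sides: there is no pressure. -/

open MeasureTheory Set Filter Topology
open scoped ENNReal NNReal

namespace Pool.Agent.W_332fe5

/-- The rotational average of a vector field. -/
noncomputable def rav (χ : E3 → E3) (x : E3) : E3 :=
  (2 * Real.pi)⁻¹ • ∫ a in (0 : ℝ)..(2 * Real.pi), rotF a χ x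

/-- The projection to swirl fields. -/
noncomputable def prj (χ : E3 → E3) (x : E3) : E3 := (1 / 2 : ℝ) • (rav χ x - sgF (rav χ) x)

/-! ### Auxiliary lemmas -/

theorem A9_rot_smooth : ContDiff ℝ ((⊤ : ℕ∞) : WithTop ℕ∞) (fun z : ℝ × E3 => rot z.1 z.2) := by
  rw [contDiff_euclidean]
  have h0 : ∀ i : Fin 3, ContDiff ℝ ((⊤ : ℕ∞) : WithTop ℕ∞) (fun z : ℝ × E3 => z.2 i) := fun i =>
    (contDiff_euclidean.1 (contDiff_id (𝕜 := ℝ) (E := E3)) i).comp contDiff_snd
  have hc : ContDiff ℝ ((⊤ : ℕ∞) : WithTop ℕ∞) (fun z : ℝ × E3 => Real.cos z.1) :=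
    Real.contDiff_cos.comp contDiff_fst
  have hs : ContDiff ℝ ((⊤ : ℕ∞) : WithTop ℕ∞) (fun z : ℝ × E3 => Real.sin z.1) :=
    Real.contDiff_sin.comp contDiff_fst
  intro i
  fin_cases i
  · exact (hc.mul (h0 0)).sub (hs.mul (h0 1))
  · exact (hs.mul (h0 0)).add (hc.mul (h0 1))
  · exact h0 2

/-- the rotation as a function of a pair -/
noncomputable def A9_R (z : ℝ × E3) : E3 := rot z.1 z.2

theorem A9_R_smooth : ContDiff ℝ ((⊤ : ℕ∞) : WithTop ℕ∞) A9_R := A9_rot_smooth

theorem A9_rotF_eq (a : ℝ) (χ : E3 → E3) (x : E3) :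
    rotF a χ x = A9_R (a, χ (A9_R (-a, x))) := rfl

theorem A9_rotF_smooth {χ : E3 → E3} (h : ContDiff ℝ ((⊤ : ℕ∞) : WithTop ℕ∞) χ) :
    ContDiff ℝ ((⊤ : ℕ∞) : WithTop ℕ∞) (fun z : ℝ × E3 => rotF z.1 χ z.2) := by
  simp only [A9_rotF_eq]
  have h1 : ContDiff ℝ ((⊤ : ℕ∞) : WithTop ℕ∞) (fun z : ℝ × E3 => A9_R (-z.1, z.2)) :=
    A9_R_smooth.comp (contDiff_fst.neg.prodMk contDiff_snd)
  exact A9_R_smooth.comp (contDiff_fst.prodMk (h.comp h1))

theorem A9_slice {F : Type} [NormedAddCommGroup F] [NormedSpace ℝ F] {f : ℝ → E3 → F}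
    (hf : ContDiff ℝ ((⊤ : ℕ∞) : WithTop ℕ∞) (fun z : ℝ × E3 => f z.1 z.2)) (a : ℝ) (x v : E3) :
    fderiv ℝ (f a) x v = fderiv ℝ (fun z : ℝ × E3 => f z.1 z.2) (a, x) (0, v) := by
  have h1 : HasFDerivAt (fun z : ℝ × E3 => f z.1 z.2)
      (fderiv ℝ (fun z : ℝ × E3 => f z.1 z.2) (a, x)) (a, x) :=
    ((hf.differentiable (by simp)) (a, x)).hasFDerivAt
  have h2 : HasFDerivAt (fun x : E3 => (a, x)) ((0 : E3 →L[ℝ] ℝ).prod (ContinuousLinearMap.id ℝ E3))
      x := (hasFDerivAt_const a x).prodMk (hasFDerivAt_id x)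
  have h3 := h1.comp x h2
  have h4 : HasFDerivAt (f a) ((fderiv ℝ (fun z : ℝ × E3 => f z.1 z.2) (a, x)).comp
    ((0 : E3 →L[ℝ] ℝ).prod (ContinuousLinearMap.id ℝ E3))) x := h3
  rw [h4.fderiv]
  rfl

theorem A9_slice_smooth {F : Type} [NormedAddCommGroup F] [NormedSpace ℝ F] {f : ℝ → E3 → F}
    (hf : ContDiff ℝ ((⊤ : ℕ∞) : WithTop ℕ∞) (fun z : ℝ × E3 => f z.1 z.2)) (v : E3) :
    ContDiff ℝ ((⊤ : ℕ∞) : WithTop ℕ∞) (fun z : ℝ × E3 => fderiv ℝ (f z.1) z.2 v) := by
  have h1 : (fun z : ℝ × E3 => fderiv ℝ (f z.1) z.2 v) =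
      fun z : ℝ × E3 => fderiv ℝ (fun z : ℝ × E3 => f z.1 z.2) z (0, v) := by
    funext z
    exact A9_slice hf z.1 z.2 v
  rw [h1]
  exact (hf.fderiv_right (m := ((⊤ : ℕ∞) : WithTop ℕ∞)) (by simp)).clm_apply contDiff_const

theorem A9_fderiv_int {F : Type} [NormedAddCommGroup F] [NormedSpace ℝ F] [CompleteSpace F]
    {f : ℝ → E3 → F}
    (hf : ContDiff ℝ ((⊤ : ℕ∞) : WithTop ℕ∞) (fun z : ℝ × E3 => f z.1 z.2)) (s t : ℝ) (x v : E3) :
    fderiv ℝ (fun x => ∫ a in s..t, f a x) x v = ∫ a in s..t, fderiv ℝ (f a) x v := by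
  rw [(param_fderiv (hf.of_le (by norm_cast)) s t x).fderiv]
  refine ContinuousLinearMap.intervalIntegral_apply ?_ v
  have h1 : Continuous fun a => fderiv ℝ (f a) x := by
    have h2 : (fun a => fderiv ℝ (f a) x) = fun a =>
        (fderiv ℝ (fun z : ℝ × E3 => f z.1 z.2) (a, x)).comp
        ((0 : E3 →L[ℝ] ℝ).prod (ContinuousLinearMap.id ℝ E3)) := by
      funext a
      ext v
      exact A9_slice hf a x v
    rw [h2]
    have h3 : Continuous fun a : ℝ => fderiv ℝ (fun z : ℝ × E3 => f z.1 z.2) (a, x) :=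
      (hf.continuous_fderiv (by simp)).comp (by fun_prop)
    exact h3.clm_comp continuous_const
  exact h1.intervalIntegrable _ _

theorem A9_pd_int {f : ℝ → E3 → E3}
    (hf : ContDiff ℝ ((⊤ : ℕ∞) : WithTop ℕ∞) (fun z : ℝ × E3 => f z.1 z.2)) (s t : ℝ) (j : Fin 3) :
    pd j (fun x => ∫ a in s..t, f a x) = fun x => ∫ a in s..t, pd j (f a) x := by
  funext x
  exact A9_fderiv_int hf s t x _

theorem A9_pd_smul {φ : E3 → E3} (h : Differentiable ℝ φ) (c : ℝ) (j : Fin 3) :
    pd j (fun x => c • φ x) = fun x => c • pd j φ x := by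
  funext x
  simp only [pd]
  have h1 : HasFDerivAt (fun x => c • φ x) (c • fderiv ℝ φ x) x := (h x).hasFDerivAt.const_smul c
  rw [h1.fderiv]
  rfl

theorem A9_lapl_smul {φ : E3 → E3} (h : ContDiff ℝ ((⊤ : ℕ∞) : WithTop ℕ∞) φ) (c : ℝ) :
    lapl (fun x => c • φ x) = fun x => c • lapl φ x := by
  funext x
  simp only [lapl]
  rw [Finset.smul_sum]
  refine Finset.sum_congr rfl fun j _ => ?_
  rw [A9_pd_smul (h.differentiable (by simp))]
  have h1 : Differentiable ℝ (pd j φ) := by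
    have : ContDiff ℝ ((⊤ : ℕ∞) : WithTop ℕ∞) (pd j φ) :=
      (h.fderiv_right (m := ((⊤ : ℕ∞) : WithTop ℕ∞)) (by simp)).clm_apply contDiff_const
    exact this.differentiable (by simp)
  rw [A9_pd_smul h1]

theorem A9_lapl_int {f : ℝ → E3 → E3}
    (hf : ContDiff ℝ ((⊤ : ℕ∞) : WithTop ℕ∞) (fun z : ℝ × E3 => f z.1 z.2)) (s t : ℝ) :
    lapl (fun x => ∫ a in s..t, f a x) = fun x => ∫ a in s..t, lapl (f a) x := by
  funext x
  have h1 : ∀ j : Fin 3, ContDiff ℝ ((⊤ : ℕ∞) : WithTop ℕ∞)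
      (fun z : ℝ × E3 => pd j (f z.1) z.2) := fun j => A9_slice_smooth hf _
  have h2 : ∀ j : Fin 3, ContDiff ℝ ((⊤ : ℕ∞) : WithTop ℕ∞)
      (fun z : ℝ × E3 => pd j (pd j (f z.1)) z.2) := fun j =>
    A9_slice_smooth (f := fun a => pd j (f a)) (h1 j) _
  simp only [lapl]
  rw [intervalIntegral.integral_finsetSum]
  · refine Finset.sum_congr rfl fun j _ => ?_
    rw [A9_pd_int hf, A9_pd_int (f := fun a => pd j (f a)) (h1 j)]
  · intro j _
    have : Continuous fun a : ℝ => pd j (pd j (f a)) x :=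
      (h2 j).continuous.comp (by fun_prop : Continuous fun a : ℝ => (a, x))
    exact this.intervalIntegrable _ _

/-- A field in `CV` vanishes outside of a ball of radius less than one. -/
theorem A9_radius {χ : E3 → E3} (h : χ ∈ CV) : ∃ r : ℝ, r < 1 ∧ ∀ x, r < ‖x‖ → χ x = 0 := by
  obtain ⟨-, hc, hs⟩ := h
  have hK : IsCompact (tsupport χ) := hc
  by_cases hne : (tsupport χ).Nonempty
  · obtain ⟨x0, hx0, hmax⟩ := hK.exists_isMaxOn hne continuous_norm.continuousOn
    have h1 : ‖x0‖ < 1 := by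
      have := hs hx0
      simpa [Bl] using this
    refine ⟨‖x0‖, h1, fun x hx => ?_⟩
    by_contra hne'
    have h2 : x ∈ tsupport χ := subset_tsupport _ hne'
    have h3 : ‖x‖ ≤ ‖x0‖ := hmax h2
    linarith
  · refine ⟨0, zero_lt_one, fun x _ => ?_⟩
    by_contra hne'
    exact hne ⟨x, subset_tsupport _ hne'⟩

theorem A9_of_radius {φ : E3 → E3} (hφ : ContDiff ℝ ((⊤ : ℕ∞) : WithTop ℕ∞) φ) {r : ℝ}
    (hr : r < 1) (h : ∀ x, r < ‖x‖ → φ x = 0) : φ ∈ CV := by
  have h1 : tsupport φ ⊆ Metric.closedBall 0 r := by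
    refine closure_minimal ?_ Metric.isClosed_closedBall
    intro x hx
    rw [mem_closedBall_zero_iff]
    by_contra hcon
    push Not at hcon
    exact hx (h x hcon)
  refine ⟨hφ, ?_, ?_⟩
  · exact HasCompactSupport.of_support_subset_isCompact (isCompact_closedBall 0 r)
      ((subset_tsupport _).trans h1)
  · refine h1.trans ?_
    intro x hx
    rw [mem_closedBall_zero_iff] at hx
    simp only [Bl, mem_ball_zero_iff]
    linarith

theorem rav_mem {χ : E3 → E3} (h : χ ∈ CV) : rav χ ∈ CV := by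
  obtain ⟨r, hr, h0⟩ := A9_radius h
  refine A9_of_radius ?_ hr ?_
  · exact (param_smooth (f := fun a x => rotF a χ x) (A9_rotF_smooth h.1) 0
      (2 * Real.pi)).const_smul _
  · intro x hx
    have h1 : ∀ a : ℝ, rotF a χ x = 0 := by
      intro a
      have h2 : χ (rot (-a) x) = 0 := h0 _ (by rw [norm_rot]; exact hx)
      rw [rotF, h2]
      exact map_zero (rotE a)
    simp [rav, h1]

theorem A9_rotF_cont {χ : E3 → E3} (h : Continuous χ) (x : E3) :
    Continuous fun a : ℝ => rotF a χ x := by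
  simp only [A9_rotF_eq]
  have h1 : Continuous fun a : ℝ => A9_R (-a, x) :=
    A9_R_smooth.continuous.comp (by fun_prop : Continuous fun a : ℝ => (-a, x))
  exact A9_R_smooth.continuous.comp ((continuous_id).prodMk (h.comp h1))

theorem A9_rot_per (a : ℝ) (x : E3) : rot (a + 2 * Real.pi) x = rot a x := by
  ext i
  fin_cases i <;> simp [rot]

theorem A9_rot_per' (a : ℝ) (x : E3) : rot (-(a + 2 * Real.pi)) x = rot (-a) x := by
  have := A9_rot_per (-(a + 2 * Real.pi)) x
  rw [← this]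
  congr 1
  ring

theorem A9_rotF_rotF (a b : ℝ) (χ : E3 → E3) : rotF b (rotF a χ) = rotF (a + b) χ := by
  funext x
  simp only [rotF, rot_rot]
  rw [add_comm b a, neg_add]

theorem rav_rot {χ : E3 → E3} (_h : χ ∈ CV) (a : ℝ) : rotF a (rav χ) = rav χ := by
  funext x
  have h1 : rotF a (rav χ) x = (2 * Real.pi)⁻¹ •
      ∫ b in (0 : ℝ)..(2 * Real.pi), rotF (b + a) χ x := by
    have h2 : ∀ b : ℝ, rotF (b + a) χ x = (rotE a) (rotF b χ (rot (-a) x)) := by
      intro b
      rw [← A9_rotF_rotF b a]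
      rfl
    simp only [h2]
    have h3 : ∫ b in (0 : ℝ)..(2 * Real.pi), (rotE a) (rotF b χ (rot (-a) x)) =
        (rotE a) (∫ b in (0 : ℝ)..(2 * Real.pi), rotF b χ (rot (-a) x)) := by
      exact (rotE a).toLinearIsometry.intervalIntegral_comp_comm _
    rw [h3, ← map_smul]
    rfl
  rw [h1, intervalIntegral.integral_comp_add_right (fun b => rotF b χ x) a, rav]
  congr 1
  have hper : Function.Periodic (fun b => rotF b χ x) (2 * Real.pi) := by
    intro b
    simp only [rotF]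
    rw [A9_rot_per', A9_rot_per]
  have := hper.intervalIntegral_add_eq a 0
  rw [zero_add, add_comm a] at this
  rw [zero_add]
  exact this

theorem A9_sg_rot (a : ℝ) (x : E3) : sg (rot a x) = rot (-a) (sg x) := by
  ext i
  fin_cases i
  · simp [rot, sg]
  · simp [rot, sg]
    ring
  · simp [rot, sg]

theorem sgF_rotF (a : ℝ) (χ : E3 → E3) : sgF (rotF a χ) = rotF (-a) (sgF χ) := by
  funext x
  simp only [sgF, rotF]
  rw [A9_sg_rot, A9_sg_rot, neg_neg]

theorem A9_sgF_sgF (χ : E3 → E3) : sgF (sgF χ) = χ := by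
  funext x
  simp only [sgF, sg_sg]

theorem A9_sgF_CV {χ : E3 → E3} (h : χ ∈ CV) : sgF χ ∈ CV := CV_actF sgE h

theorem A9_smul_CV {χ : E3 → E3} (h : χ ∈ CV) (c : ℝ) : (fun x => c • χ x) ∈ CV := by
  have := CV_lin A1_CV_zero h c
  simpa using this

theorem A9_sub_CV {φ χ : E3 → E3} (h : φ ∈ CV) (h' : χ ∈ CV) : (fun x => φ x - χ x) ∈ CV := by
  have := CV_lin h h' (-1)
  simpa [sub_eq_add_neg] using this

theorem prj_mem {χ : E3 → E3} (h : χ ∈ CV) : prj χ ∈ CV :=
  A9_smul_CV (A9_sub_CV (rav_mem h) (A9_sgF_CV (rav_mem h))) (1 / 2)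

theorem prj_rot {χ : E3 → E3} (h : χ ∈ CV) (a : ℝ) : rotF a (prj χ) = prj χ := by
  have h1 := rav_rot h a
  have h2 : rotF a (sgF (rav χ)) = sgF (rav χ) := by
    have h3 := sgF_rotF (-a) (rav χ)
    rw [neg_neg, rav_rot h (-a)] at h3
    exact h3.symm
  funext x
  have e1 := congrFun h1 x
  have e2 := congrFun h2 x
  simp only [rotF] at e1 e2
  simp only [rotF, prj]
  have e3 : ∀ y : E3, rot a y = rotE a y := fun y => rfl
  rw [e3, map_smul, map_sub, ← e3, ← e3, e1, e2]

theorem prj_sg {χ : E3 → E3} (_h : χ ∈ CV) : sgF (prj χ) = fun x => -prj χ x := by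
  funext x
  have e3 : ∀ y : E3, sg y = sgE y := fun y => rfl
  simp only [sgF, prj]
  rw [e3 ((1 / 2 : ℝ) • _), map_smul, map_sub, ← e3, ← e3, sg_sg, sg_sg]
  rw [← smul_neg, neg_sub]

theorem A9_axis_rot (x : E3) (hx : ax2 x ≠ 0) : ∃ a : ℝ, rot a x 1 = 0 ∧ rot a x 0 ≠ 0 := by
  set z : ℂ := ⟨x 0, -x 1⟩ with hz
  have hz2 : ‖z‖ ^ 2 = ax2 x := by
    rw [← Complex.normSq_eq_norm_sq, Complex.normSq_apply, hz, ax2]
    ring
  have hz0 : z ≠ 0 := by
    intro h
    rw [h] at hz2
    apply hx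
    rw [← hz2]
    simp
  have hn : ‖z‖ ≠ 0 := norm_ne_zero_iff.mpr hz0
  refine ⟨Complex.arg z, ?_, ?_⟩
  · have h1 : rot (Complex.arg z) x 1 =
        Real.sin (Complex.arg z) * x 0 + Real.cos (Complex.arg z) * x 1 := rfl
    rw [h1, Complex.cos_arg hz0, Complex.sin_arg]
    simp only [hz]
    ring
  · have h1 : rot (Complex.arg z) x 0 =
        Real.cos (Complex.arg z) * x 0 - Real.sin (Complex.arg z) * x 1 := rfl
    rw [h1, Complex.cos_arg hz0, Complex.sin_arg]
    have h2 : z.re / ‖z‖ * x 0 - z.im / ‖z‖ * x 1 = ax2 x / ‖z‖ := by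
      simp only [hz, ax2]
      ring
    rw [h2]
    exact div_ne_zero hx hn

theorem A9_divg_cont {P : E3 → E3} (hP : ContDiff ℝ ((⊤ : ℕ∞) : WithTop ℕ∞) P) :
    Continuous (divg P) := by
  unfold divg
  refine continuous_finsetSum _ fun j _ => ?_
  have h1 : Continuous (pd j P) := (hP.continuous_fderiv (by simp)).clm_apply continuous_const
  exact (EuclideanSpace.proj j : E3 →L[ℝ] ℝ).continuous.comp h1

theorem A9_divg_plane {P : E3 → E3} (hP : ContDiff ℝ ((⊤ : ℕ∞) : WithTop ℕ∞) P)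
    (h1 : ∀ a, rotF a P = P) (h2 : sgF P = fun x => -P x) {z : E3} (hz1 : z 1 = 0)
    (hz0 : z 0 ≠ 0) : divg P z = 0 := by
  have hd : Differentiable ℝ P := hP.differentiable (by simp)
  -- the components 0 and 2 vanish on the plane
  have hpl : ∀ w : E3, w 1 = 0 → P w 0 = 0 ∧ P w 2 = 0 := by
    intro w hw
    have hsw : sg w = w := by
      ext i
      fin_cases i
      · simp [sg]
      · simp [sg, hw]
      · simp [sg]
    have h3 := congrFun h2 w
    simp only [sgF] at h3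
    rw [hsw] at h3
    have h4 := congrArg (fun v : E3 => v 0) h3
    have h5 := congrArg (fun v : E3 => v 2) h3
    simp [sg] at h4 h5
    constructor <;> linarith
  -- derivatives in directions of the plane
  have hdir : ∀ j : Fin 3, j ≠ 1 → pd j P z j = 0 := by
    intro j hj
    rw [A1_pd_apply hd]
    have hline : HasDerivAt (fun t : ℝ => P (z + t • EuclideanSpace.single j 1) j)
        (fderiv ℝ (fun x => P x j) z (EuclideanSpace.single j 1)) 0 := by
      have h3 : HasFDerivAt (fun x => P x j) (fderiv ℝ (fun x => P x j) z)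
          (z + (0 : ℝ) • EuclideanSpace.single j 1) := by
        rw [zero_smul, add_zero]
        have : Differentiable ℝ fun x => P x j :=
          (EuclideanSpace.proj j : E3 →L[ℝ] ℝ).differentiable.comp hd
        exact (this z).hasFDerivAt
      have h4 : HasDerivAt (fun t : ℝ => z + t • (EuclideanSpace.single j 1 : E3))
          (EuclideanSpace.single j 1) 0 := by
        have := ((hasDerivAt_id (0 : ℝ)).smul_const (EuclideanSpace.single j 1 : E3)).const_add z
        simpa using this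
      exact h3.comp_hasDerivAt 0 h4
    have hzero : (fun t : ℝ => P (z + t • EuclideanSpace.single j 1) j) = fun _ => 0 := by
      funext t
      have hw : (z + t • (EuclideanSpace.single j 1 : E3)) 1 = 0 := by
        fin_cases j
        · simp [hz1]
        · exact absurd rfl hj
        · simp [hz1]
      have := hpl _ hw
      fin_cases j
      · exact this.1
      · exact absurd rfl hj
      · exact this.2
    rw [hzero] at hline
    exact hline.unique (hasDerivAt_const 0 0)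
  -- the direction of the rotation
  have hrot : fderiv ℝ P z (mm z) = mm (P z) := by
    have h3 : ∀ a : ℝ, P (rot a z) = rot a (P z) := by
      intro a
      have := congrFun (h1 a) (rot a z)
      simp only [rotF, rot_rot, neg_add_cancel, rot_zero] at this
      exact this.symm
    have h4 : HasDerivAt (fun a : ℝ => P (rot a z)) (fderiv ℝ P z (mm z)) 0 := by
      have h5 := hasDerivAt_rot 0 z
      rw [rot_zero] at h5
      have h6 : HasFDerivAt P (fderiv ℝ P z) (rot 0 z) := by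
        rw [rot_zero]
        exact (hd z).hasFDerivAt
      exact h6.comp_hasDerivAt 0 h5
    have h7 : HasDerivAt (fun a : ℝ => P (rot a z)) (mm (P z)) 0 := by
      have h5 := hasDerivAt_rot 0 (P z)
      rw [rot_zero] at h5
      have h8 : (fun a : ℝ => P (rot a z)) = fun a => rot a (P z) := funext h3
      rw [h8]
      exact h5
    exact h4.unique h7
  have hmm : mm z = z 0 • (EuclideanSpace.single 1 1 : E3) := by
    ext i
    fin_cases i
    · simp [mm, hz1]
    · simp [mm]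
    · simp [mm]
  have hd1 : pd 1 P z 1 = 0 := by
    rw [hmm, map_smul] at hrot
    have h5 := congrArg (fun v : E3 => v 1) hrot
    have h6 : (mm (P z)) 1 = P z 0 := rfl
    simp only [PiLp.smul_apply, smul_eq_mul] at h5
    rw [h6, (hpl z hz1).1] at h5
    exact (mul_eq_zero.mp h5).resolve_left hz0
  rw [divg, Fin.sum_univ_three, hdir 0 (by decide), hdir 2 (by decide), hd1]
  simp

/-- Swirl fields are divergence free.
Proof.  Let `P` be smooth with `rotF a P = P` and `sgF P = -P`.  On the plane `x₂ = 0`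
(third reflection): `P = -sg P` there, so `P₁ = P₃ = 0` on the plane, and `∂₁ P₁ = ∂₃ P₃ = 0` at its
points.  Differentiating `P (rot a x) = rot a (P x)` at `a = 0`: `D P (x) (mm x) = mm (P x)`; at
`x = (x₁, 0, x₃)`: `mm x = (0, x₁, 0)`, so `x₁ ∂₂ P₂ = (mm (P x))₂ = P₁ = 0`.  So `div P = 0` at the
points of the plane with `x₁ ≠ 0`; `div P` is rotation invariant (`divg_actF`), so `div P = 0` off
the axis, and everywhere by continuity. -/
theorem divg_swirl {P : E3 → E3} (hP : ContDiff ℝ ((⊤ : ℕ∞) : WithTop ℕ∞) P)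
    (h1 : ∀ a, rotF a P = P) (h2 : sgF P = fun x => -P x) (x : E3) : divg P x = 0 := by
  -- off the axis
  have hoff : ∀ x : E3, ax2 x ≠ 0 → divg P x = 0 := by
    intro x hx
    obtain ⟨a, ha1, ha0⟩ := A9_axis_rot x hx
    have h3 := divg_actF (rotE (-a)) (hP.of_le (by norm_cast)) x
    have h4 : actF (rotE (-a)) P = P := h1 (-a)
    rw [h4] at h3
    rw [h3]
    have h5 : (rotE (-a)).symm x = rot a x := by
      rw [rotE_symm_apply, neg_neg]
    rw [h5]
    exact A9_divg_plane hP h1 h2 ha1 ha0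
  by_cases hx : ax2 x = 0
  · have hcont := A9_divg_cont hP
    have hlim : Tendsto (fun t : ℝ => divg P (x + t • EuclideanSpace.single 0 1)) (𝓝[≠] 0)
        (𝓝 (divg P x)) := by
      have h3 : ContinuousAt (fun t : ℝ => divg P (x + t • EuclideanSpace.single 0 1)) 0 := by
        fun_prop
      have h4 := h3.tendsto
      simp only [zero_smul, add_zero] at h4
      exact h4.mono_left nhdsWithin_le_nhds
    have hzero : ∀ᶠ t in 𝓝[≠] (0 : ℝ), divg P (x + t • EuclideanSpace.single 0 1) = 0 := by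
      filter_upwards [self_mem_nhdsWithin] with t ht
      refine hoff _ ?_
      have h0 : x 0 = 0 ∧ x 1 = 0 := by
        have h5 : x 0 ^ 2 + x 1 ^ 2 = 0 := hx
        constructor <;> nlinarith [sq_nonneg (x 0), sq_nonneg (x 1)]
      have h6 : ax2 (x + t • (EuclideanSpace.single 0 1 : E3)) = t ^ 2 := by
        simp [ax2, h0.1, h0.2]
      rw [h6]
      exact pow_ne_zero 2 ht
    exact (tendsto_nhds_unique (hlim.congr' hzero) tendsto_const_nhds)
  · exact hoff x hx

theorem prj_TF {χ : E3 → E3} (h : χ ∈ CV) : prj χ ∈ TF Bl :=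
  ⟨(prj_mem h).1, (prj_mem h).2.1, (prj_mem h).2.2,
    divg_swirl (prj_mem h).1 (prj_rot h) (prj_sg h)⟩

theorem A9_lapl_rav {χ : E3 → E3} (h : χ ∈ CV) : lapl (rav χ) = rav (lapl χ) := by
  have h1 : rav χ = fun x => (2 * Real.pi)⁻¹ •
      (fun x => ∫ a in (0 : ℝ)..(2 * Real.pi), rotF a χ x) x := rfl
  have h2 : ContDiff ℝ ((⊤ : ℕ∞) : WithTop ℕ∞)
      (fun x => ∫ a in (0 : ℝ)..(2 * Real.pi), rotF a χ x) :=
    param_smooth (f := fun a x => rotF a χ x) (A9_rotF_smooth h.1) 0 (2 * Real.pi)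
  rw [h1, A9_lapl_smul h2, A9_lapl_int (f := fun a x => rotF a χ x) (A9_rotF_smooth h.1)]
  funext x
  rw [rav]
  congr 1
  refine intervalIntegral.integral_congr fun a _ => ?_
  have h3 := lapl_actF (rotE a) (h.1.of_le (by norm_cast) : ContDiff ℝ 2 χ)
  exact congrFun h3 x

theorem prj_lapl {χ : E3 → E3} (h : χ ∈ CV) : lapl (prj χ) = prj (lapl χ) := by
  have h1 : prj χ = fun x => (1 / 2 : ℝ) • (fun x => rav χ x + (-1 : ℝ) • sgF (rav χ) x) x := by
    funext x
    simp [prj, sub_eq_add_neg]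
  have h2 := CV_lin (rav_mem h) (A9_sgF_CV (rav_mem h)) (-1)
  rw [h1, A9_lapl_smul h2.1]
  have h3 : lapl (fun x => rav χ x + (-1 : ℝ) • sgF (rav χ) x) =
      fun x => lapl (rav χ) x + (-1 : ℝ) • lapl (sgF (rav χ)) x := by
    funext x
    simp only [lapl]
    rw [Finset.smul_sum, ← Finset.sum_add_distrib]
    refine Finset.sum_congr rfl fun j _ => ?_
    rw [A1_pd_lin (rav_mem h) (A9_sgF_CV (rav_mem h)),
      A1_pd_lin (CV_pd (rav_mem h) j) (CV_pd (A9_sgF_CV (rav_mem h)) j)]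
  have h4 : lapl (sgF (rav χ)) = sgF (rav (lapl χ)) := by
    rw [← A9_lapl_rav h]
    exact lapl_actF sgE ((rav_mem h).1.of_le (by norm_cast))
  rw [h3, h4, A9_lapl_rav h]
  funext x
  simp [prj, sub_eq_add_neg]

/-! ### Pairings -/

theorem A9_pair_lin (f : L2) {φ χ : E3 → E3} (h : φ ∈ CV) (h' : χ ∈ CV) (a : ℝ) :
    pair f (fun x => φ x + a • χ x) = pair f φ + a * pair f χ := by
  rw [pair_toL2 f (CV_memLp (CV_lin h h' a) 2), toL2_lin (CV_memLp h 2) (CV_memLp h' 2),
    inner_add_right, inner_smul_right, ← pair_toL2 f (CV_memLp h 2), ← pair_toL2 f (CV_memLp h' 2)]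

theorem A9_pair_smul (f : L2) {χ : E3 → E3} (a : ℝ) :
    pair f (fun x => a • χ x) = a * pair f χ := by
  unfold pair
  rw [← integral_const_mul]
  refine integral_congr_ae (Eventually.of_forall fun x => ?_)
  simp only [inner_smul_right]

theorem A9_pair_rav {f : L2} (hf : RotInv f) {χ : E3 → E3} (h : χ ∈ CV) :
    pair f (rav χ) = pair f χ := by
  have hrot : ∀ a : ℝ, pair f (rotF a χ) = pair f χ := by
    intro a
    have h1 := pair_actL (rotE (-a)) f χ
    rw [(RotInv_iff f).1 hf (-a), rotE_symm, neg_neg] at h1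
    exact h1.symm
  -- Fubini
  have hInt : Integrable (Function.uncurry fun (a : ℝ) (x : E3) => inner ℝ (f x) (rotF a χ x))
      ((volume.restrict (Ioc 0 (2 * Real.pi))).prod volume) := by
    obtain ⟨r, hr, h0⟩ := A9_radius h
    obtain ⟨M, hM⟩ : ∃ M : ℝ, ∀ x, ‖χ x‖ ≤ M := by
      obtain ⟨M, hM⟩ := h.2.1.exists_bound_of_continuous h.1.continuous
      exact ⟨M, hM⟩
    have hM0 : 0 ≤ M := (norm_nonneg _).trans (hM 0)
    have hf1 : IntegrableOn (fun x => ‖f x‖) Bl := by
      have h2 : MemLp f 2 (volume.restrict Bl) := (Lp.memLp f).restrict _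
      have hfin : IsFiniteMeasure (volume.restrict Bl : Measure E3) :=
        ⟨by rw [Measure.restrict_apply_univ]; exact measure_ball_lt_top⟩
      have h3 : MemLp f 1 (volume.restrict Bl) := h2.mono_exponent (by norm_num)
      exact (memLp_one_iff_integrable.1 h3).norm
    have hBl : MeasurableSet Bl := Metric.isOpen_ball.measurableSet
    have hg : Integrable (Bl.indicator (fun x => ‖f x‖ * M)) := by
      rw [integrable_indicator_iff hBl]
      exact hf1.mul_const M
    have hg2 : Integrable (fun p : ℝ × E3 => (1 : ℝ) * Bl.indicator (fun x => ‖f x‖ * M) p.2)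
        ((volume.restrict (Ioc 0 (2 * Real.pi))).prod volume) := by
      refine Integrable.mul_prod (f := fun _ : ℝ => (1 : ℝ)) (integrable_const _) hg
    refine hg2.mono' ?_ ?_
    · have h2 : AEStronglyMeasurable (fun p : ℝ × E3 => f p.2)
          ((volume.restrict (Ioc 0 (2 * Real.pi))).prod volume) :=
        (Lp.aestronglyMeasurable f).comp_snd
      have h3 : Continuous (fun p : ℝ × E3 => rotF p.1 χ p.2) := (A9_rotF_smooth h.1).continuous
      exact h2.inner h3.aestronglyMeasurable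
    · refine Eventually.of_forall fun p => ?_
      rw [one_mul]
      show ‖inner ℝ (f p.2) (rotF p.1 χ p.2)‖ ≤ _
      have hn : ‖rotF p.1 χ p.2‖ = ‖χ (rot (-p.1) p.2)‖ := by
        rw [rotF, norm_rot]
      by_cases hp : p.2 ∈ Bl
      · rw [indicator_of_mem hp]
        refine (norm_inner_le_norm _ _).trans ?_
        refine mul_le_mul_of_nonneg_left ?_ (norm_nonneg _)
        rw [hn]
        exact hM _
      · rw [indicator_of_notMem hp]
        have h4 : χ (rot (-p.1) p.2) = 0 := by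
          refine h0 _ ?_
          rw [norm_rot]
          simp only [Bl, mem_ball_zero_iff, not_lt] at hp
          linarith
        rw [h4, norm_zero] at hn
        rw [norm_eq_zero.mp hn, inner_zero_right, norm_zero]
  have hpi : (0 : ℝ) ≤ 2 * Real.pi := by positivity
  have h2 : pair f (rav χ) = (2 * Real.pi)⁻¹ *
      ∫ x, ∫ a in Ioc 0 (2 * Real.pi), inner ℝ (f x) (rotF a χ x) := by
    unfold pair
    rw [← integral_const_mul]
    refine integral_congr_ae (Eventually.of_forall fun x => ?_)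
    simp only [rav, inner_smul_right]
    congr 1
    rw [intervalIntegral.integral_of_le hpi, integral_inner]
    exact (((A9_rotF_cont h.1.continuous x).intervalIntegrable 0 (2 * Real.pi)).1)
  have h3 : ∫ x, ∫ a in Ioc 0 (2 * Real.pi), inner ℝ (f x) (rotF a χ x) =
      ∫ a in Ioc 0 (2 * Real.pi), ∫ x, inner ℝ (f x) (rotF a χ x) :=
    (integral_integral_swap hInt).symm
  have h4 : ∀ a : ℝ, ∫ x, inner ℝ (f x) (rotF a χ x) = pair f χ := hrot
  rw [h2, h3]
  simp only [h4]
  rw [setIntegral_const, measureReal_def, Real.volume_Ioc, sub_zero,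
    ENNReal.toReal_ofReal hpi, smul_eq_mul]
  have hpi' : (2 * Real.pi) ≠ 0 := by positivity
  field_simp

/-- `⟨f, P χ⟩ = ⟨f, χ⟩` for swirl `f` (Fubini, `pair_actL`). -/
theorem pair_prj {f : L2} (hf : Swirl f) {χ : E3 → E3} (h : χ ∈ CV) :
    pair f (prj χ) = pair f χ := by
  have hr := hf.1
  have hs : actL sgE f = -f := ((Swirl_iff f).1 hf).2
  have h1 : prj χ = fun x => (1 / 2 : ℝ) • (fun x => rav χ x + (-1 : ℝ) • sgF (rav χ) x) x := by
    funext x
    simp [prj, sub_eq_add_neg]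
  have h2 : pair f (sgF (rav χ)) = -pair f (rav χ) := by
    have h3 := pair_actL sgE f (rav χ)
    have h4 : actF sgE.symm (rav χ) = sgF (rav χ) := rfl
    rw [h4, hs] at h3
    rw [← h3]
    unfold pair
    rw [← integral_neg]
    refine integral_congr_ae ?_
    filter_upwards [Lp.coeFn_neg f] with x hx
    rw [hx, Pi.neg_apply, inner_neg_left]
  rw [h1, A9_pair_smul, A9_pair_lin f (rav_mem h) (A9_sgF_CV (rav_mem h)), h2, A9_pair_rav hr h]
  ring

theorem A9_sum_pair {v : L2} {G : Fin 3 → L2} (hG : InV Bl v G) {χ : E3 → E3} (hχ : χ ∈ CV) :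
    ∑ j, pair (G j) (pd j χ) = -pair v (lapl χ) := by
  have h1 : ∀ j, pair (G j) (pd j χ) = -pair v (pd j (pd j χ)) := fun j =>
    InV_pair hG ((CV_pd hχ j).1.of_le (by norm_cast)) (CV_pd hχ j).2.1 j
  simp only [h1]
  rw [Finset.sum_neg_distrib]
  congr 1
  have h2 : lapl χ = fun x => (pd 0 (pd 0 χ) x + (1 : ℝ) • pd 1 (pd 1 χ) x) +
      (1 : ℝ) • pd 2 (pd 2 χ) x := A1_lapl_eq χ
  rw [h2, A9_pair_lin v (CV_lin (CV_pd (CV_pd hχ 0) 0) (CV_pd (CV_pd hχ 1) 1) 1)
    (CV_pd (CV_pd hχ 2) 2), A9_pair_lin v (CV_pd (CV_pd hχ 0) 0) (CV_pd (CV_pd hχ 1) 1),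
    Fin.sum_univ_three]
  ring

/-- The Dirichlet problem.  Proof: `∑_j ⟨G j, ∂_j χ⟩ = -⟨v, Δχ⟩` (`InV_pair`), the same for `P χ`;
`pair_prj`, `prj_lapl` and the equation of `res_spec` for the test field `P χ`. -/
theorem dirichlet {l : ℝ} (hl : 0 ≤ l) {f : L2} (hf : Swirl f) {G : Fin 3 → L2}
    (hG : InV Bl (res Bl l f) G) {χ : E3 → E3} (hχ : χ ∈ CV) :
    l * pair (res Bl l f) χ + ∑ j, pair (G j) (pd j χ) = pair f χ := by
  have hv : Swirl (res Bl l f) := Swirl_res hl hf
  obtain ⟨G', hG', heq⟩ := res_spec hl f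
  have h1 := heq (prj χ) (prj_TF hχ)
  rw [A9_sum_pair hG' (prj_mem hχ), prj_lapl hχ, pair_prj hv hχ, pair_prj hv (CV_lapl hχ),
    pair_prj hf hχ] at h1
  rw [A9_sum_pair hG hχ]
  exact h1

/-- The scalar form: the `i`-th component of `v = R(l) f` solves the scalar Dirichlet problem. -/
theorem dirichlet_scalar {l : ℝ} (hl : 0 ≤ l) {f : L2} (hf : Swirl f) {G : Fin 3 → L2}
    (hG : InV Bl (res Bl l f) G) {h : E3 → ℝ} (hh : h ∈ CB) (i : Fin 3) :
    l * (∫ x, res Bl l f x i * h x) +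
      ∑ j, (∫ x, G j x i * fderiv ℝ h x (EuclideanSpace.single j 1)) =
      ∫ x, f x i * h x := by
  set χ : E3 → E3 := fun x => h x • (EuclideanSpace.single i (1 : ℝ) : E3) with hχd
  have hχ : χ ∈ CV := by
    refine ⟨hh.1.smul contDiff_const, hh.2.1.smul_right, ?_⟩
    exact (tsupport_smul_subset_left h _).trans hh.2.2
  have hpair : ∀ (g : L2) (k : E3 → ℝ),
      pair g (fun x => k x • (EuclideanSpace.single i (1 : ℝ) : E3)) = ∫ x, g x i * k x := by
    intro g k
    unfold pair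
    refine integral_congr_ae (Eventually.of_forall fun x => ?_)
    simp only [inner_smul_right, EuclideanSpace.inner_single_right]
    simp
    ring
  have hpd : ∀ j, pd j χ = fun x => fderiv ℝ h x (EuclideanSpace.single j 1) •
      (EuclideanSpace.single i (1 : ℝ) : E3) := by
    intro j
    funext x
    have h1 : HasFDerivAt χ ((fderiv ℝ h x).smulRight (EuclideanSpace.single i (1 : ℝ) : E3)) x :=
      (A1_cb_diff hh x).hasFDerivAt.smul_const _
    rw [pd, h1.fderiv]
    rfl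
  have h1 := dirichlet hl hf hG hχ
  simp only [hpd] at h1
  rw [hχd] at h1
  simp only [hpair] at h1
  exact h1

end Pool.Agent.W_332fe5
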