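import Pool.Agent.W_332fe5.O.A13
import Pool.Agent.W_332fe5.O.A11

set_option autoImplicit false

/-! Block 2, B1: the approximations `g_ε m` of the initial velocity `u₀ = (2y)^μ m`. -/

open MeasureTheory Set Filter Topology
open scoped ENNReal NNReal

namespace Pool.Agent.W_332fe5

/-- The profile `H_ε(y) = (2y)^μ χ(y/ε)`, `χ = 0` for `y ≤ ε`, `χ = 1` for `y ≥ 2 ε`. -/
noncomputable def hE (ε y : ℝ) : ℝ :=
  if 0 < y then (2 * y) ^ mu * Real.smoothTransition (y / ε - 1) else 0

noncomputable def gE (ε : ℝ) (x : E3) : ℝ := hE ε (yy x)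

theorem hE_smooth {ε : ℝ} (hε : 0 < ε) : ContDiff ℝ ((⊤ : ℕ∞) : WithTop ℕ∞) (hE ε) := by
  rw [contDiff_iff_contDiffAt]
  intro y
  rcases lt_or_ge y ε with hy | hy
  · have h1 : hE ε =ᶠ[𝓝 y] fun _ => (0 : ℝ) := by
      filter_upwards [isOpen_Iio.mem_nhds hy] with z hz
      unfold hE
      split_ifs with h
      · rw [Real.smoothTransition.zero_of_nonpos, mul_zero]
        have : z / ε ≤ 1 := (div_le_one hε).2 (le_of_lt hz)
        linarith
      · rfl
    exact contDiffAt_const.congr_of_eventuallyEq h1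
  · have hy0 : 0 < y := hε.trans_le hy
    have h1 : hE ε =ᶠ[𝓝 y] fun z => (2 * z) ^ mu * Real.smoothTransition (z / ε - 1) := by
      filter_upwards [isOpen_Ioi.mem_nhds hy0] with z hz
      unfold hE
      rw [if_pos (mem_Ioi.1 hz)]
    refine ContDiffAt.congr_of_eventuallyEq ?_ h1
    have h2 : ContDiffAt ℝ ((⊤ : ℕ∞) : WithTop ℕ∞) (fun z : ℝ => 2 * z) y :=
      contDiffAt_const.mul contDiffAt_id
    have h3 : ContDiffAt ℝ ((⊤ : ℕ∞) : WithTop ℕ∞) (fun z : ℝ => (2 * z) ^ mu) y :=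
      h2.rpow_const_of_ne (by positivity)
    have h4 : ContDiffAt ℝ ((⊤ : ℕ∞) : WithTop ℕ∞) (fun z : ℝ => z / ε - 1) y :=
      (contDiffAt_id.div_const ε).sub contDiffAt_const
    have h5 : ContDiffAt ℝ ((⊤ : ℕ∞) : WithTop ℕ∞)
        (fun z : ℝ => Real.smoothTransition (z / ε - 1)) y :=
      Real.smoothTransition.contDiff.contDiffAt.comp y h4
    exact h3.mul h5

theorem gE_CB {ε : ℝ} (hε : 0 < ε) : gE ε ∈ CB := by
  have hz : ∀ x, yy x < ε → gE ε x = 0 := by
    intro x hx
    unfold gE hE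
    split_ifs with h
    · rw [Real.smoothTransition.zero_of_nonpos, mul_zero]
      have : yy x / ε ≤ 1 := (div_le_one hε).2 hx.le
      linarith
    · rfl
  have hcl : IsClosed {x : E3 | ε ≤ yy x} := isClosed_le continuous_const yy_smooth.continuous
  have hts : tsupport (gE ε) ⊆ {x : E3 | ε ≤ yy x} := by
    refine closure_minimal ?_ hcl
    intro x hx
    by_contra hc
    exact hx (hz x (not_le.1 hc))
  have hB : {x : E3 | ε ≤ yy x} ⊆ Bl := fun x hx => yy_pos_iff.2 (hε.trans_le hx)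
  refine ⟨(hE_smooth hε).comp yy_smooth, ?_, hts.trans hB⟩
  have hc : IsCompact {x : E3 | ε ≤ yy x} := by
    refine (isCompact_closedBall (0 : E3) 1).of_isClosed_subset hcl ?_
    exact hB.trans Metric.ball_subset_closedBall
  exact hc.of_isClosed_subset (isClosed_tsupport _) hts

theorem gE_rot (ε a : ℝ) (x : E3) : gE ε (rot a x) = gE ε x := by
  unfold gE
  rw [yy_rot]

theorem gE_TF {ε : ℝ} (hε : 0 < ε) : (fun x => gE ε x • mm x) ∈ TF Bl :=
  mmTF (gE_CB hε) (gE_rot ε)

theorem u0_norm (x : E3) : ‖u0 x‖ ≤ 1 := by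
  unfold u0
  by_cases hx : x ∈ Bl
  · rw [indicator_of_mem hx, norm_smul]
    have h1 := yy_pos_iff.1 hx
    have h2 := yy_le_half x
    have h3 : ‖(2 * yy x) ^ mu‖ ≤ 1 := by
      rw [Real.norm_of_nonneg (Real.rpow_nonneg (by linarith) _)]
      exact Real.rpow_le_one (by linarith) (by linarith) (by unfold mu; norm_num)
    have h4 : ‖mm x‖ ≤ 1 := by
      have h5 := norm_mm_sq x
      have h6 := ax2_le x
      have h7 : ‖x‖ < 1 := mem_ball_zero_iff.1 hx
      nlinarith [norm_nonneg (mm x), norm_nonneg x]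
    calc ‖(2 * yy x) ^ mu‖ * ‖mm x‖ ≤ 1 * 1 := mul_le_mul h3 h4 (norm_nonneg _) zero_le_one
      _ = 1 := one_mul 1
  · rw [indicator_of_notMem hx, norm_zero]
    exact zero_le_one

/-- The scalar factor of `u₀`. -/
noncomputable def B1_f (x : E3) : ℝ := Bl.indicator (fun x => (2 * yy x) ^ mu) x

theorem B1_u0_eq : u0 = Bl.indicator fun x => B1_f x • mm x := by
  funext x
  by_cases hx : x ∈ Bl
  · unfold u0 B1_f
    rw [indicator_of_mem hx, indicator_of_mem hx, indicator_of_mem hx]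
  · unfold u0
    rw [indicator_of_notMem hx, indicator_of_notMem hx]

theorem B1_f_meas : AEStronglyMeasurable B1_f volume := by
  have h1 : Continuous fun x : E3 => (2 * yy x) ^ mu :=
    (continuous_const.mul yy_smooth.continuous).rpow_const
      (fun x => Or.inr (by unfold mu; norm_num))
  exact h1.aestronglyMeasurable.indicator Metric.isOpen_ball.measurableSet

theorem B1_f_bd (x : E3) : |B1_f x| ≤ 1 := by
  unfold B1_f
  by_cases hx : x ∈ Bl
  · rw [indicator_of_mem hx]
    have h1 := yy_pos_iff.1 hx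
    have h2 := yy_le_half x
    rw [abs_of_nonneg (Real.rpow_nonneg (by linarith) _)]
    exact Real.rpow_le_one (by linarith) (by linarith) (by unfold mu; norm_num)
  · rw [indicator_of_notMem hx, abs_zero]
    exact zero_le_one

theorem B1_f_rot (a : ℝ) (x : E3) : B1_f (rot a x) = B1_f x := by
  unfold B1_f
  by_cases hx : x ∈ Bl
  · have hx' : rot a x ∈ Bl := by
      rw [yy_pos_iff, yy_rot]
      exact yy_pos_iff.1 hx
    rw [indicator_of_mem hx, indicator_of_mem hx', yy_rot]
  · have hx' : rot a x ∉ Bl := by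
      rw [yy_pos_iff, yy_rot]
      exact fun h => hx (yy_pos_iff.2 h)
    rw [indicator_of_notMem hx, indicator_of_notMem hx']

theorem u0_memLp (p : ℝ≥0∞) : MemLp u0 p (volume : Measure E3) := by
  rw [B1_u0_eq]
  exact memLp_fmm B1_f_meas B1_f_bd p

theorem u0_swirl : Swirl (toL2 u0) := by
  rw [B1_u0_eq]
  exact Swirl_fmm B1_f_meas B1_f_bd fun a => Eventually.of_forall (B1_f_rot a)

end Pool.Agent.W_332fe5
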