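import Pool.Agent.W_332fe5.O.B1

set_option autoImplicit false

/-! Block 2, B1b: estimates for `g_ε m`. -/

open MeasureTheory Set Filter Topology
open scoped ENNReal NNReal

namespace Pool.Agent.W_332fe5

theorem B1b_mm_le {x : E3} (hx : x ∈ Bl) : ‖mm x‖ ≤ 1 := by
  have h5 := norm_mm_sq x
  have h6 := ax2_le x
  have h7 : ‖x‖ < 1 := mem_ball_zero_iff.1 hx
  nlinarith [norm_nonneg (mm x), norm_nonneg x]

theorem B1b_four : (4 : ℝ) ^ mu ≤ 6 / 5 := by
  have h1 : (4 : ℝ) ≤ (6 / 5 : ℝ) ^ (16 : ℝ) := by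
    have : (6 / 5 : ℝ) ^ (16 : ℝ) = (6 / 5 : ℝ) ^ (16 : ℕ) := by
      rw [← Real.rpow_natCast]
      norm_num
    rw [this]
    norm_num
  calc (4 : ℝ) ^ mu ≤ ((6 / 5 : ℝ) ^ (16 : ℝ)) ^ mu :=
        Real.rpow_le_rpow (by norm_num) h1 (by unfold mu; norm_num)
    _ = 6 / 5 := by
        rw [← Real.rpow_mul (by norm_num)]
        unfold mu
        norm_num

theorem B1b_exp2 : Real.exp 2 ≤ 15 / 2 := by
  have h1 : Real.exp 2 = Real.exp 1 * Real.exp 1 := by
    rw [← Real.exp_add]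
    norm_num
  have h2 := Real.exp_one_lt_d9
  have h3 := Real.exp_pos 1
  rw [h1]
  nlinarith

/-- `|u₀ - g_ε m| ≤ (2y)^μ 1_(y < 2ε) ≤ (4ε)^μ e² e^(-y/ε)`. -/
theorem u0_sub {ε : ℝ} (hε : 0 < ε) {x : E3} (hx : x ∈ Bl) :
    ‖u0 x - gE ε x • mm x‖ ≤ 9 * ε ^ mu * Real.exp (-yy x / ε) := by
  have hy := yy_pos_iff.1 hx
  have h1 : u0 x - gE ε x • mm x =
      ((2 * yy x) ^ mu * (1 - Real.smoothTransition (yy x / ε - 1))) • mm x := by
    unfold u0 gE hE
    rw [indicator_of_mem hx, if_pos hy, ← sub_smul]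
    congr 1
    ring
  rw [h1, norm_smul]
  rcases le_or_gt (2 * ε) (yy x) with h2 | h2
  · rw [Real.smoothTransition.one_of_one_le, sub_self, mul_zero, norm_zero, zero_mul]
    · positivity
    · have : 2 ≤ yy x / ε := (le_div_iff₀ hε).2 h2
      linarith
  · have h3 : ‖(2 * yy x) ^ mu * (1 - Real.smoothTransition (yy x / ε - 1))‖ ≤ (4 * ε) ^ mu := by
      have h4 := Real.smoothTransition.nonneg (yy x / ε - 1)
      have h5 := Real.smoothTransition.le_one (yy x / ε - 1)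
      have h6 : 0 ≤ (2 * yy x) ^ mu := Real.rpow_nonneg (by linarith) _
      rw [Real.norm_of_nonneg (mul_nonneg h6 (by linarith))]
      calc (2 * yy x) ^ mu * (1 - Real.smoothTransition (yy x / ε - 1)) ≤ (2 * yy x) ^ mu * 1 :=
            mul_le_mul_of_nonneg_left (by linarith) h6
        _ = (2 * yy x) ^ mu := mul_one _
        _ ≤ (4 * ε) ^ mu :=
            Real.rpow_le_rpow (by linarith) (by linarith) (by unfold mu; norm_num)
    have h7 : (4 * ε) ^ mu ≤ 6 / 5 * ε ^ mu := by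
      rw [Real.mul_rpow (by norm_num) hε.le]
      exact mul_le_mul_of_nonneg_right B1b_four (Real.rpow_nonneg hε.le _)
    have h8 : Real.exp (-2) ≤ Real.exp (-yy x / ε) := by
      apply Real.exp_le_exp.2
      rw [neg_div, neg_le_neg_iff, div_le_iff₀ hε]
      exact h2.le
    have h9 : (6 / 5 : ℝ) ≤ 9 * Real.exp (-2) := by
      rw [Real.exp_neg, ← div_eq_mul_inv, le_div_iff₀ (Real.exp_pos 2)]
      have := B1b_exp2
      linarith
    have h10 : 0 ≤ ε ^ mu := Real.rpow_nonneg hε.le _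
    calc ‖(2 * yy x) ^ mu * (1 - Real.smoothTransition (yy x / ε - 1))‖ * ‖mm x‖
        ≤ (4 * ε) ^ mu * 1 := mul_le_mul h3 (B1b_mm_le hx) (norm_nonneg _)
          (Real.rpow_nonneg (by linarith) _)
      _ ≤ 6 / 5 * ε ^ mu := by rw [mul_one]; exact h7
      _ ≤ 9 * Real.exp (-2) * ε ^ mu := mul_le_mul_of_nonneg_right h9 h10
      _ = 9 * ε ^ mu * Real.exp (-2) := by ring
      _ ≤ 9 * ε ^ mu * Real.exp (-yy x / ε) := mul_le_mul_of_nonneg_left h8 (by positivity)

theorem B1b_st : ∃ M : ℝ, 0 ≤ M ∧ (∀ t, |deriv Real.smoothTransition t| ≤ M) ∧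
    (∀ t, |deriv (deriv Real.smoothTransition) t| ≤ M) ∧
    ∀ t, (t < 0 ∨ 1 < t) → deriv Real.smoothTransition t = 0 ∧
      deriv (deriv Real.smoothTransition) t = 0 := by
  have hsm : ContDiff ℝ 2 Real.smoothTransition := Real.smoothTransition.contDiff
  have hsm1 : ContDiff ℝ 1 (deriv Real.smoothTransition) := by
    have : ContDiff ℝ (1 + 1) Real.smoothTransition := by simpa [one_add_one_eq_two] using hsm
    exact (contDiff_succ_iff_deriv.mp this).2.2
  have hc1 : Continuous (deriv Real.smoothTransition) := hsm1.continuous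
  have hc2 : Continuous (deriv (deriv Real.smoothTransition)) := hsm1.continuous_deriv_one
  have hz : ∀ t, (t < 0 ∨ 1 < t) → deriv Real.smoothTransition t = 0 ∧
      deriv (deriv Real.smoothTransition) t = 0 := by
    have key : ∀ (U : Set ℝ) (c : ℝ), IsOpen U → (∀ t ∈ U, Real.smoothTransition t = c) →
        ∀ t ∈ U, deriv Real.smoothTransition t = 0 ∧
          deriv (deriv Real.smoothTransition) t = 0 := by
      intro U c hU hc
      have h1 : ∀ t ∈ U, deriv Real.smoothTransition t = 0 := by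
        intro t ht
        have he : Real.smoothTransition =ᶠ[𝓝 t] fun _ => c := by
          filter_upwards [hU.mem_nhds ht] with z hz using hc z hz
        rw [he.deriv_eq, deriv_const]
      intro t ht
      refine ⟨h1 t ht, ?_⟩
      have he : deriv Real.smoothTransition =ᶠ[𝓝 t] fun _ => (0 : ℝ) := by
        filter_upwards [hU.mem_nhds ht] with z hz using h1 z hz
      rw [he.deriv_eq, deriv_const]
    rintro t (ht | ht)
    · exact key (Iio 0) 0 isOpen_Iio
        (fun z hz => Real.smoothTransition.zero_of_nonpos (le_of_lt hz)) t ht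
    · exact key (Ioi 1) 1 isOpen_Ioi
        (fun z hz => Real.smoothTransition.one_of_one_le (le_of_lt hz)) t ht
  obtain ⟨M1, hM1⟩ := (isCompact_Icc (a := (0 : ℝ)) (b := 1)).exists_bound_of_continuousOn
    hc1.continuousOn
  obtain ⟨M2, hM2⟩ := (isCompact_Icc (a := (0 : ℝ)) (b := 1)).exists_bound_of_continuousOn
    hc2.continuousOn
  have hM0 : 0 ≤ max M1 M2 := (norm_nonneg _).trans ((hM1 0 (by simp)).trans (le_max_left _ _))
  refine ⟨max M1 M2, hM0, fun t => ?_, fun t => ?_, hz⟩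
  · by_cases ht : t ∈ Icc (0 : ℝ) 1
    · exact (hM1 t ht).trans (le_max_left _ _)
    · have : t < 0 ∨ 1 < t := by
        by_contra hc
        push Not at hc
        exact ht ⟨hc.1, hc.2⟩
      rw [(hz t this).1, abs_zero]
      exact hM0
  · by_cases ht : t ∈ Icc (0 : ℝ) 1
    · exact (hM2 t ht).trans (le_max_right _ _)
    · have : t < 0 ∨ 1 < t := by
        by_contra hc
        push Not at hc
        exact ht ⟨hc.1, hc.2⟩
      rw [(hz t this).2, abs_zero]
      exact hM0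

theorem B1b_deriv {ε : ℝ} {y : ℝ} (hy : 0 < y) :
    deriv (hE ε) y = 2 * mu * (2 * y) ^ (mu - 1) * Real.smoothTransition (y / ε - 1) +
      (2 * y) ^ mu * (deriv Real.smoothTransition (y / ε - 1) * (1 / ε)) := by
  have h1 : hE ε =ᶠ[𝓝 y] fun z => (2 * z) ^ mu * Real.smoothTransition (z / ε - 1) := by
    filter_upwards [isOpen_Ioi.mem_nhds hy] with z hz
    unfold hE
    rw [if_pos (mem_Ioi.1 hz)]
  rw [h1.deriv_eq]
  have h2 : HasDerivAt (fun z : ℝ => 2 * z) 2 y := by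
    simpa using (hasDerivAt_id y).const_mul (2 : ℝ)
  have h3 := h2.rpow_const (p := mu) (Or.inl (by positivity))
  have h4 : HasDerivAt (fun z : ℝ => z / ε - 1) (1 / ε) y := by
    simpa using ((hasDerivAt_id y).div_const ε).sub_const 1
  have h5 : HasDerivAt Real.smoothTransition (deriv Real.smoothTransition (y / ε - 1))
      (y / ε - 1) :=
    ((Real.smoothTransition.contDiff (n := 1)).differentiable (by norm_num) _).hasDerivAt
  have h6 := h5.comp y h4
  exact (h3.mul h6).deriv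

theorem B1b_deriv2 {ε : ℝ} {y : ℝ} (hy : 0 < y) :
    iteratedDeriv 2 (hE ε) y =
      2 * mu * (2 * (mu - 1) * (2 * y) ^ (mu - 2)) * Real.smoothTransition (y / ε - 1) +
      4 * mu * (2 * y) ^ (mu - 1) * (deriv Real.smoothTransition (y / ε - 1) * (1 / ε)) +
      (2 * y) ^ mu * (deriv (deriv Real.smoothTransition) (y / ε - 1) * (1 / ε) ^ 2) := by
  have e2 : iteratedDeriv 2 (hE ε) = deriv (deriv (hE ε)) := by
    rw [iteratedDeriv_succ, iteratedDeriv_one]
  have h1 : deriv (hE ε) =ᶠ[𝓝 y] fun y => 2 * mu * (2 * y) ^ (mu - 1) *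
      Real.smoothTransition (y / ε - 1) +
      (2 * y) ^ mu * (deriv Real.smoothTransition (y / ε - 1) * (1 / ε)) := by
    filter_upwards [isOpen_Ioi.mem_nhds hy] with z hz
    exact B1b_deriv (mem_Ioi.1 hz)
  rw [e2, h1.deriv_eq]
  have h2 : HasDerivAt (fun z : ℝ => 2 * z) 2 y := by
    simpa using (hasDerivAt_id y).const_mul (2 : ℝ)
  have h3 := h2.rpow_const (p := mu) (Or.inl (by positivity))
  have h3' := (h2.rpow_const (p := mu - 1) (Or.inl (by positivity))).const_mul (2 * mu)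
  have h4 : HasDerivAt (fun z : ℝ => z / ε - 1) (1 / ε) y := by
    simpa using ((hasDerivAt_id y).div_const ε).sub_const 1
  have hsm : ContDiff ℝ 2 Real.smoothTransition := Real.smoothTransition.contDiff
  have hsm1 : ContDiff ℝ 1 (deriv Real.smoothTransition) := by
    have : ContDiff ℝ (1 + 1) Real.smoothTransition := by simpa [one_add_one_eq_two] using hsm
    exact (contDiff_succ_iff_deriv.mp this).2.2
  have h5 : HasDerivAt Real.smoothTransition (deriv Real.smoothTransition (y / ε - 1))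
      (y / ε - 1) := (hsm.differentiable (by norm_num) _).hasDerivAt
  have h5' : HasDerivAt (deriv Real.smoothTransition)
      (deriv (deriv Real.smoothTransition) (y / ε - 1)) (y / ε - 1) :=
    (hsm1.differentiable (by norm_num) _).hasDerivAt
  have h6 := h5.comp y h4
  have h6' := (h5'.comp y h4).mul_const (1 / ε)
  have h7 := (h3'.mul h6).add (h3.mul h6')
  have h8 := h7.deriv
  have e3 : mu - 1 - 1 = mu - 2 := by ring
  simp only [Function.comp_apply, e3] at h8
  refine Eq.trans h8 ?_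
  ring

/-- Bounds for the profile: `|H_ε'| ≤ C (y + ε)^(μ-1)`, `|H_ε''| ≤ C (y + ε)^(μ-2)`. -/
theorem hE_bounds : ∃ C : ℝ, 0 ≤ C ∧ ∀ ε : ℝ, 0 < ε → ε ≤ 1 / 16 → ∀ y : ℝ, 0 < y → y ≤ 1 / 2 →
    |deriv (hE ε) y| ≤ C * (y + ε) ^ (mu - 1) ∧
    |iteratedDeriv 2 (hE ε) y| ≤ C * (y + ε) ^ (mu - 2) := by
  obtain ⟨M, hM0, hM1, hM2, hMz⟩ := B1b_st
  refine ⟨1 + 32 * M, by linarith, fun ε hε _ y hy _ => ?_⟩
  set t := y / ε - 1 with ht
  set S0 := Real.smoothTransition t with hS0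
  set S1 := deriv Real.smoothTransition t with hS1
  set S2 := deriv (deriv Real.smoothTransition) t with hS2
  have hb : 0 < y + ε := by linarith
  have hC : (0 : ℝ) ≤ 1 + 32 * M := by linarith
  have hd1 := B1b_deriv (ε := ε) hy
  have hd2 := B1b_deriv2 (ε := ε) hy
  rw [← ht, ← hS0, ← hS1] at hd1
  rw [← ht, ← hS0, ← hS1, ← hS2] at hd2
  rcases lt_or_ge y ε with hlt | hge
  · have htneg : t < 0 := by
      have : y / ε < 1 := (div_lt_one hε).2 hlt
      rw [ht]; linarith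
    have e0 : S0 = 0 := Real.smoothTransition.zero_of_nonpos htneg.le
    have e1 : S1 = 0 := (hMz t (Or.inl htneg)).1
    have e2 : S2 = 0 := (hMz t (Or.inl htneg)).2
    rw [hd1, hd2, e0, e1, e2]
    constructor
    · simp only [mul_zero, zero_mul, add_zero, abs_zero]
      exact mul_nonneg hC (Real.rpow_nonneg hb.le _)
    · simp only [mul_zero, zero_mul, add_zero, abs_zero]
      exact mul_nonneg hC (Real.rpow_nonneg hb.le _)
  · set a := 2 * y with ha
    have ha0 : 0 < a := by rw [ha]; linarith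
    have hba : y + ε ≤ a := by rw [ha]; linarith
    have hmu : mu = 1 / 16 := rfl
    have hp1 : a ^ (mu - 1) ≤ (y + ε) ^ (mu - 1) :=
      Real.rpow_le_rpow_of_nonpos hb hba (by rw [hmu]; norm_num)
    have hp2 : a ^ (mu - 2) ≤ (y + ε) ^ (mu - 2) :=
      Real.rpow_le_rpow_of_nonpos hb hba (by rw [hmu]; norm_num)
    have ea1 : a ^ (mu - 1) = a ^ mu / a := Real.rpow_sub_one ha0.ne' mu
    have ea2 : a ^ (mu - 2) = a ^ mu / a / a := by
      have : mu - 2 = mu - 1 - 1 := by ring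
      rw [this, Real.rpow_sub_one ha0.ne', ea1]
    have hap : 0 < a ^ mu := Real.rpow_pos_of_pos ha0 _
    have hS0' : |S0| ≤ 1 := by
      rw [abs_of_nonneg (Real.smoothTransition.nonneg _)]
      exact Real.smoothTransition.le_one _
    have hinv : ¬ (t < 0 ∨ 1 < t) → 1 / ε ≤ 4 / a := by
      intro h
      push Not at h
      have h1 : y / ε ≤ 2 := by
        have := h.2
        rw [ht] at this
        linarith
      rw [div_le_iff₀ hε] at h1
      rw [div_le_div_iff₀ hε ha0, ha]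
      linarith
    have hA : |S1 * (1 / ε)| ≤ 4 * M / a := by
      by_cases h : t < 0 ∨ 1 < t
      · have : S1 = 0 := (hMz t h).1
        rw [this, zero_mul, abs_zero]
        positivity
      · rw [abs_mul, abs_of_pos (show 0 < 1 / ε by positivity)]
        calc |S1| * (1 / ε) ≤ M * (4 / a) :=
              mul_le_mul (hM1 t) (hinv h) (by positivity) hM0
          _ = 4 * M / a := by ring
    have hB : |S2 * (1 / ε) ^ 2| ≤ 16 * M / a / a := by
      by_cases h : t < 0 ∨ 1 < t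
      · have : S2 = 0 := (hMz t h).2
        rw [this, zero_mul, abs_zero]
        positivity
      · rw [abs_mul, abs_of_pos (show 0 < (1 / ε) ^ 2 by positivity)]
        calc |S2| * (1 / ε) ^ 2 ≤ M * (4 / a) ^ 2 :=
              mul_le_mul (hM2 t) (pow_le_pow_left₀ (by positivity) (hinv h) 2) (by positivity) hM0
          _ = 16 * M / a / a := by
              field_simp
              ring
    constructor
    · rw [hd1]
      have h1 : |2 * mu * a ^ (mu - 1) * S0| ≤ a ^ (mu - 1) := by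
        rw [abs_mul, abs_of_nonneg (show 0 ≤ 2 * mu * a ^ (mu - 1) by rw [hmu]; positivity)]
        have h3 : 0 ≤ a ^ (mu - 1) := Real.rpow_nonneg ha0.le _
        calc 2 * mu * a ^ (mu - 1) * |S0| ≤ 2 * mu * a ^ (mu - 1) * 1 :=
              mul_le_mul_of_nonneg_left hS0' (by rw [hmu]; positivity)
          _ ≤ a ^ (mu - 1) := by rw [hmu] at h3 ⊢; linarith
      have h2 : |a ^ mu * (S1 * (1 / ε))| ≤ 4 * M * a ^ (mu - 1) := by
        rw [abs_mul, abs_of_pos hap, ea1]
        calc a ^ mu * |S1 * (1 / ε)| ≤ a ^ mu * (4 * M / a) := mul_le_mul_of_nonneg_left hA hap.le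
          _ = 4 * M * (a ^ mu / a) := by ring
      calc |2 * mu * a ^ (mu - 1) * S0 + a ^ mu * (S1 * (1 / ε))|
          ≤ a ^ (mu - 1) + 4 * M * a ^ (mu - 1) := (abs_add_le _ _).trans (add_le_add h1 h2)
        _ ≤ (1 + 32 * M) * a ^ (mu - 1) := by
            have h3 : 0 ≤ a ^ (mu - 1) := Real.rpow_nonneg ha0.le _
            nlinarith
        _ ≤ (1 + 32 * M) * (y + ε) ^ (mu - 1) := mul_le_mul_of_nonneg_left hp1 hC
    · rw [hd2]
      have hq : 0 ≤ a ^ (mu - 2) := Real.rpow_nonneg ha0.le _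
      have h1 : |2 * mu * (2 * (mu - 1) * a ^ (mu - 2)) * S0| ≤ a ^ (mu - 2) := by
        rw [abs_mul]
        have e : |2 * mu * (2 * (mu - 1) * a ^ (mu - 2))| = 15 / 64 * a ^ (mu - 2) := by
          have : 2 * mu * (2 * (mu - 1) * a ^ (mu - 2)) = -(15 / 64 * a ^ (mu - 2)) := by
            rw [hmu]; ring
          rw [this, abs_neg, abs_of_nonneg (by positivity)]
        rw [e]
        calc 15 / 64 * a ^ (mu - 2) * |S0| ≤ 15 / 64 * a ^ (mu - 2) * 1 :=
              mul_le_mul_of_nonneg_left hS0' (by positivity)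
          _ ≤ a ^ (mu - 2) := by linarith
      have h2 : |4 * mu * a ^ (mu - 1) * (S1 * (1 / ε))| ≤ 16 * M * a ^ (mu - 2) := by
        rw [abs_mul, abs_of_nonneg (show 0 ≤ 4 * mu * a ^ (mu - 1) by rw [hmu]; positivity), ea2,
          ea1]
        calc 4 * mu * (a ^ mu / a) * |S1 * (1 / ε)| ≤ 4 * mu * (a ^ mu / a) * (4 * M / a) :=
              mul_le_mul_of_nonneg_left hA (by rw [hmu]; positivity)
          _ = 16 * mu * M * (a ^ mu / a / a) := by ring
          _ ≤ 16 * M * (a ^ mu / a / a) := by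
              have h3 : 0 ≤ M * (a ^ mu / a / a) := by positivity
              have hm1 : mu ≤ 1 := by rw [hmu]; norm_num
              nlinarith [mul_nonneg h3 (sub_nonneg.mpr hm1)]
      have h3 : |a ^ mu * (S2 * (1 / ε) ^ 2)| ≤ 16 * M * a ^ (mu - 2) := by
        rw [abs_mul, abs_of_pos hap, ea2]
        calc a ^ mu * |S2 * (1 / ε) ^ 2| ≤ a ^ mu * (16 * M / a / a) :=
              mul_le_mul_of_nonneg_left hB hap.le
          _ = 16 * M * (a ^ mu / a / a) := by ring
      calc |2 * mu * (2 * (mu - 1) * a ^ (mu - 2)) * S0 +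
            4 * mu * a ^ (mu - 1) * (S1 * (1 / ε)) + a ^ mu * (S2 * (1 / ε) ^ 2)|
          ≤ a ^ (mu - 2) + 16 * M * a ^ (mu - 2) + 16 * M * a ^ (mu - 2) :=
            (abs_add_le _ _).trans (add_le_add ((abs_add_le _ _).trans (add_le_add h1 h2)) h3)
        _ = (1 + 32 * M) * a ^ (mu - 2) := by ring
        _ ≤ (1 + 32 * M) * (y + ε) ^ (mu - 2) := mul_le_mul_of_nonneg_left hp2 hC

theorem B1b_mm_add (a b : E3) : mm (a + b) = mm a + mm b := by
  ext i
  fin_cases i
  · simp [mm]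
    ring
  · simp [mm]
  · simp [mm]

theorem B1b_mm_smul (t : ℝ) (a : E3) : mm (t • a) = t • mm a := by
  ext i
  fin_cases i <;> simp [mm]

theorem B1b_sum (x : E3) : ∑ j : Fin 3, x j • mm (EuclideanSpace.single j 1) = mm x := by
  ext i
  rw [Fin.sum_univ_three]
  fin_cases i <;> simp [mm]

/-- `Δ (H(y) m) = ((1 - 2y) H'' - 5 H') m`: `slap_comp`, and
`2 (∇H · ∇) m = 2 e₃ × ∇H = -2 H' e₃ × x`. -/
theorem lapl_Hmm {H : ℝ → ℝ} (hH : ContDiff ℝ 2 H) (x : E3) :
    lapl (fun x => H (yy x) • mm x) x =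
      ((1 - 2 * yy x) * iteratedDeriv 2 H (yy x) - 5 * deriv H (yy x)) • mm x := by
  have hd : Differentiable ℝ H := hH.differentiable (by norm_num)
  have hH' : ContDiff ℝ 1 (deriv H) := by
    have : ContDiff ℝ (1 + 1) H := by simpa [one_add_one_eq_two] using hH
    exact (contDiff_succ_iff_deriv.mp this).2.2
  have hd' : Differentiable ℝ (deriv H) := hH'.differentiable (by norm_num)
  have hyd : Differentiable ℝ yy := yy_smooth.differentiable (by simp)
  have hcomp : Differentiable ℝ (fun z : E3 => H (yy z)) := hd.comp hyd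
  have key : ∀ j : Fin 3, pd j (pd j (fun x => H (yy x) • mm x)) x =
      fderiv ℝ (fun z => fderiv ℝ (fun x => H (yy x)) z (EuclideanSpace.single j 1)) x
        (EuclideanSpace.single j 1) • mm x -
        (2 * deriv H (yy x)) • (x j • mm (EuclideanSpace.single j 1)) := by
    intro j
    set v : E3 := EuclideanSpace.single j 1 with hv
    have e0 : ∀ z, fderiv ℝ (fun x => H (yy x)) z v = deriv H (yy z) * (-(z j)) := by
      intro z
      rw [A11_fderiv_comp hd, hv]
      simp [EuclideanSpace.inner_single_right]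
    have hG : Differentiable ℝ (fun z => fderiv ℝ (fun x => H (yy x)) z v) := by
      have h1 : (fun z => fderiv ℝ (fun x => H (yy x)) z v) =
          fun z : E3 => deriv H (yy z) * (-(z j)) := funext e0
      rw [h1]
      exact (hd'.comp hyd).mul ((EuclideanSpace.proj j : E3 →L[ℝ] ℝ).differentiable.neg)
    have e1 : pd j (fun x => H (yy x) • mm x) =
        fun z => fderiv ℝ (fun x => H (yy x)) z v • mm z + H (yy z) • mm v := by
      funext z
      exact fderiv_hmm hcomp z v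
    have e2 : pd j (pd j (fun x => H (yy x) • mm x)) x =
        fderiv ℝ (fun z => fderiv ℝ (fun x => H (yy x)) z v • mm z) x v +
          fderiv ℝ (fun z => H (yy z) • mm v) x v := by
      rw [e1]
      show fderiv ℝ (fun z => fderiv ℝ (fun x => H (yy x)) z v • mm z + H (yy z) • mm v) x v = _
      have hmm : Differentiable ℝ (fun z => fderiv ℝ (fun x => H (yy x)) z v • mm z) := by
        have hm : Differentiable ℝ mm := by
          have : mm = (LinearMap.toContinuousLinearMap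
              ({ toFun := mm, map_add' := B1b_mm_add, map_smul' := B1b_mm_smul } :
                E3 →ₗ[ℝ] E3)) := rfl
          rw [this]
          exact ContinuousLinearMap.differentiable _
        exact hG.smul hm
      rw [fderiv_fun_add (hmm x) ((hcomp x).smul_const _)]
      rfl
    rw [e2, fderiv_hmm hG, fderiv_smul_const (hcomp x)]
    have e3 : (ContinuousLinearMap.smulRight (fderiv ℝ (fun z => H (yy z)) x) (mm v)) v =
        fderiv ℝ (fun z => H (yy z)) x v • mm v := rfl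
    rw [e3, e0 x, mul_neg, neg_smul, smul_smul]
    module
  unfold lapl
  rw [Finset.sum_congr rfl fun j _ => key j, Finset.sum_sub_distrib, ← Finset.sum_smul,
    ← Finset.smul_sum, B1b_sum]
  have hs := slap_comp hH x
  unfold slap at hs
  rw [hs, ← sub_smul]
  congr 1
  ring

theorem lapl_gE : ∃ C : ℝ, 0 ≤ C ∧ ∀ ε : ℝ, 0 < ε → ε ≤ 1 / 16 → ∀ x ∈ Bl,
    ‖lapl (fun x => gE ε x • mm x) x‖ ≤ C * (yy x + ε) ^ (mu - 2) := by
  obtain ⟨C, hC0, hC⟩ := hE_bounds
  refine ⟨6 * C, by linarith, fun ε hε hε1 x hx => ?_⟩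
  have hy := yy_pos_iff.1 hx
  have hy2 := yy_le_half x
  obtain ⟨h1, h2⟩ := hC ε hε hε1 (yy x) hy hy2
  have hsm : ContDiff ℝ 2 (hE ε) := by exact_mod_cast contDiff_infty.1 (hE_smooth hε) 2
  have h3 := lapl_Hmm hsm x
  have h4 : lapl (fun x => gE ε x • mm x) x =
      ((1 - 2 * yy x) * iteratedDeriv 2 (hE ε) (yy x) - 5 * deriv (hE ε) (yy x)) • mm x := h3
  rw [h4, norm_smul]
  have hpos : 0 < yy x + ε := by linarith
  have h5 : (yy x + ε) ^ (mu - 1) ≤ (yy x + ε) ^ (mu - 2) :=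
    Real.rpow_le_rpow_of_exponent_ge hpos (by linarith) (by linarith)
  have h6 : ‖(1 - 2 * yy x) * iteratedDeriv 2 (hE ε) (yy x) - 5 * deriv (hE ε) (yy x)‖ ≤
      6 * C * (yy x + ε) ^ (mu - 2) := by
    rw [Real.norm_eq_abs]
    refine (abs_sub _ _).trans ?_
    rw [abs_mul, abs_mul, abs_of_nonneg (show (0 : ℝ) ≤ 1 - 2 * yy x by linarith),
      abs_of_pos (show (0 : ℝ) < 5 by norm_num)]
    have h7 : (1 - 2 * yy x) * |iteratedDeriv 2 (hE ε) (yy x)| ≤ 1 * (C * (yy x + ε) ^ (mu - 2)) :=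
      mul_le_mul (by linarith) h2 (abs_nonneg _) zero_le_one
    have h8 : C * (yy x + ε) ^ (mu - 1) ≤ C * (yy x + ε) ^ (mu - 2) :=
      mul_le_mul_of_nonneg_left h5 hC0
    linarith
  calc ‖(1 - 2 * yy x) * iteratedDeriv 2 (hE ε) (yy x) - 5 * deriv (hE ε) (yy x)‖ * ‖mm x‖
      ≤ 6 * C * (yy x + ε) ^ (mu - 2) * 1 := mul_le_mul h6 (B1b_mm_le hx) (norm_nonneg _)
        (mul_nonneg (by linarith) (Real.rpow_nonneg hpos.le _))
    _ = 6 * C * (yy x + ε) ^ (mu - 2) := mul_one _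

/-- Dyadic decomposition of `(y + ε)^(μ-2)`.  Let `2^j ε ≤ y + ε < 2^(j+1) ε`.  If
`2^j ε ≤ 1/8`: `(y+ε)^(μ-2) ≤ (2^j ε)^(μ-2)` and `e^(-y/(2^j ε)) ≥ e^(-2)`; if `2^j ε > 1/8`:
`(y+ε)^(μ-2) ≤ 64 ≤ 64 e^4 e^(-8y)`.  `J` is the first index with `2^J ε > 1/8`. -/
theorem dyadic {ε : ℝ} (hε : 0 < ε) (hε1 : ε ≤ 1 / 16) : ∃ J : ℕ,
    (∀ j < J, 2 ^ j * ε ≤ 1 / 8) ∧ ∀ y : ℝ, 0 < y → y ≤ 1 / 2 →
    (y + ε) ^ (mu - 2) ≤ 8 * ∑ j ∈ Finset.range J, (2 ^ j * ε) ^ (mu - 2) *
      Real.exp (-y / (2 ^ j * ε)) + 64 * Real.exp 4 * Real.exp (-y / (1 / 8)) := by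
  have _ := hε1
  have hex : ∃ J : ℕ, 1 / 8 < 2 ^ J * ε := by
    obtain ⟨J, hJ⟩ := pow_unbounded_of_one_lt (1 / 8 / ε) (one_lt_two : (1 : ℝ) < 2)
    exact ⟨J, (div_lt_iff₀ hε).1 hJ⟩
  classical
  refine ⟨Nat.find hex, fun j hj => not_lt.1 (Nat.find_min hex hj), fun y hy0 hy1 => ?_⟩
  have hmu : mu - 2 ≤ 0 := by unfold mu; norm_num
  have hterm : ∀ j ∈ Finset.range (Nat.find hex), 0 ≤ (2 ^ j * ε) ^ (mu - 2) *
      Real.exp (-y / (2 ^ j * ε)) := fun j _ => by positivity
  have ht : 0 < y + ε := by linarith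
  rcases lt_or_ge (1 / 8) (y + ε) with h1 | h1
  · have h2 : (y + ε) ^ (mu - 2) ≤ 64 := by
      calc (y + ε) ^ (mu - 2) ≤ (1 / 8 : ℝ) ^ (mu - 2) :=
            Real.rpow_le_rpow_of_nonpos (by norm_num) h1.le hmu
        _ ≤ (1 / 8 : ℝ) ^ (-2 : ℝ) :=
            Real.rpow_le_rpow_of_exponent_ge (by norm_num) (by norm_num) (by unfold mu; norm_num)
        _ = 64 := by
            rw [Real.rpow_neg (by norm_num)]
            have : (1 / 8 : ℝ) ^ (2 : ℝ) = 1 / 64 := by
              have h : (2 : ℝ) = ((2 : ℕ) : ℝ) := by norm_num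
              rw [h, Real.rpow_natCast]
              norm_num
            rw [this]
            norm_num
    have h3 : 1 ≤ Real.exp 4 * Real.exp (-y / (1 / 8)) := by
      rw [← Real.exp_add]
      apply Real.one_le_exp
      have : -y / (1 / 8) = -8 * y := by ring
      rw [this]
      linarith
    have h4 : 0 ≤ 8 * ∑ j ∈ Finset.range (Nat.find hex), (2 ^ j * ε) ^ (mu - 2) *
      Real.exp (-y / (2 ^ j * ε)) := mul_nonneg (by norm_num) (Finset.sum_nonneg hterm)
    nlinarith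
  · obtain ⟨j, hj1, hj2⟩ := exists_nat_pow_near (x := (y + ε) / ε) (y := (2 : ℝ))
      ((one_le_div hε).2 (by linarith)) one_lt_two
    rw [le_div_iff₀ hε] at hj1
    rw [div_lt_iff₀ hε] at hj2
    have hjpos : 0 < 2 ^ j * ε := by positivity
    have hjJ : j < Nat.find hex := by
      by_contra hc
      have h2 : (2 : ℝ) ^ (Nat.find hex) ≤ 2 ^ j := pow_le_pow_right₀ (by norm_num) (not_lt.1 hc)
      have h3 := Nat.find_spec hex
      have h4 : 2 ^ (Nat.find hex) * ε ≤ 2 ^ j * ε := mul_le_mul_of_nonneg_right h2 hε.le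
      linarith
    have h2 : (2 ^ j * ε) ^ (mu - 2) * Real.exp (-y / (2 ^ j * ε)) ≤
        ∑ j ∈ Finset.range (Nat.find hex), (2 ^ j * ε) ^ (mu - 2) *
          Real.exp (-y / (2 ^ j * ε)) :=
      Finset.single_le_sum hterm (Finset.mem_range.2 hjJ)
    have h3 : (y + ε) ^ (mu - 2) ≤ (2 ^ j * ε) ^ (mu - 2) :=
      Real.rpow_le_rpow_of_nonpos hjpos hj1 hmu
    have h4 : Real.exp (-2) ≤ Real.exp (-y / (2 ^ j * ε)) := by
      apply Real.exp_le_exp.2
      rw [neg_div, neg_le_neg_iff, div_le_iff₀ hjpos]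
      rw [pow_succ] at hj2
      linarith
    have h5 : 1 ≤ 8 * Real.exp (-2) := by
      rw [Real.exp_neg, ← div_eq_mul_inv, le_div_iff₀ (Real.exp_pos 2)]
      have := B1b_exp2
      linarith
    have h6 : 0 ≤ (2 ^ j * ε) ^ (mu - 2) := Real.rpow_nonneg hjpos.le _
    have h7 : (2 ^ j * ε) ^ (mu - 2) ≤
        8 * ((2 ^ j * ε) ^ (mu - 2) * Real.exp (-y / (2 ^ j * ε))) := by
      have : 1 ≤ 8 * Real.exp (-y / (2 ^ j * ε)) := by linarith
      nlinarith
    have h8 : 0 ≤ 64 * Real.exp 4 * Real.exp (-y / (1 / 8)) := by positivity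
    linarith

/-- Geometric sums: for `e < 0`, `∑_(j < J) (2^j ε)^e ≤ ε^e / (1 - 2^e)`. -/
theorem geom_le {e : ℝ} (he : e < 0) {ε : ℝ} (hε : 0 < ε) (J : ℕ) :
    ∑ j ∈ Finset.range J, (2 ^ j * ε) ^ e ≤ ε ^ e / (1 - 2 ^ e) := by
  have hr0 : 0 < (2 : ℝ) ^ e := Real.rpow_pos_of_pos (by norm_num) _
  have hr1 : (2 : ℝ) ^ e < 1 := Real.rpow_lt_one_of_one_lt_of_neg (by norm_num) he
  have h1 : ∀ j : ℕ, (2 ^ j * ε) ^ e = ε ^ e * ((2 : ℝ) ^ e) ^ j := by
    intro j
    rw [Real.mul_rpow (by positivity) hε.le, ← Real.rpow_natCast, ← Real.rpow_natCast,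
      ← Real.rpow_mul (by norm_num), ← Real.rpow_mul (by norm_num), mul_comm (j : ℝ) e, mul_comm]
  simp_rw [h1]
  rw [← Finset.mul_sum, div_eq_mul_inv]
  refine mul_le_mul_of_nonneg_left ?_ (Real.rpow_nonneg hε.le _)
  have h2 : (1 - (2 : ℝ) ^ e) * ∑ j ∈ Finset.range J, ((2 : ℝ) ^ e) ^ j = 1 - ((2 : ℝ) ^ e) ^ J :=
    mul_neg_geom_sum _ _
  have h3 : 0 < 1 - (2 : ℝ) ^ e := by linarith
  rw [← one_div, le_div_iff₀ h3, mul_comm, h2]
  have : 0 < ((2 : ℝ) ^ e) ^ J := pow_pos hr0 J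
  linarith

end Pool.Agent.W_332fe5
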